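import Pool.Agent.K6.H57.MX.Pt
import Pool.Agent.K6.H57.ML.Fi

/-! # Blocks of zeros -/

set_option autoImplicit false

open MeasureTheory Set Filter Topology
open scoped ContDiff NNReal

namespace Pool.Agent.K6.H57.MX

open Pool.Agent.K6.H57.ML
open SG (ord NZ)
open Pool.Agent.R320.CL (SS dl)
open Pool.Agent.R320.JL (split_sum)

noncomputable section

/-- the good zeros -/
def Gg (ε : ℝ) (R n : ℕ) : Prop :=
  (∀ r ∈ Finset.Icc 1 R, |SS r n - r| ≤ (1 / Real.pi + ε) * Real.log R) ∧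
  (∃ r ∈ Finset.Icc 1 R, (1 / Real.pi - ε) * Real.log R ≤ SS r n - r) ∧
  (∃ r ∈ Finset.Icc 1 R, SS r n - r ≤ -((1 / Real.pi - ε) * Real.log R))

lemma half_tendsto : Tendsto (fun R : ℕ => R / 2) atTop atTop := Nat.tendsto_div_const_atTop (by norm_num)

lemma two_tendsto : Tendsto (fun R : ℕ => 2 * R) atTop atTop :=
  tendsto_id.const_mul_atTop' (by norm_num)

/-- **one block** -/
theorem blk (RH : RiemannHypothesis) {ε δ : ℝ} (hε : 0 < ε) (hε1 : ε ≤ 1 / 10) (hδ : 0 < δ) :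
    ∀ᶠ R : ℕ in atTop, ∀ᶠ T in atTop, ∀ A A' : ℝ, T + Real.log T + 20 ≤ A →
      A' ≤ 2 * T - Real.log T - 20 → ∀ B : Finset ℕ, B ⊆ Finset.Ioc (NZ A) (NZ A') →
      (∀ n ∈ B, ¬ Gg ε R n) → (B.card : ℝ) ≤ δ * (T * Real.log T) := by
  obtain ⟨C2, hC2, hcs⟩ := cnt_sq RH
  obtain ⟨θ, hθ⟩ : ∃ θ : ℝ, θ = 2 * δ / C2 := ⟨_, rfl⟩
  have hθ0 : 0 < θ := by rw [hθ]; positivity
  obtain ⟨d, hd⟩ : ∃ d : ℝ, d = 2 * θ * δ / 3 := ⟨_, rfl⟩
  have hd0 : 0 < d := by rw [hd]; positivity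
  have hpi := Real.pi_pos
  have hpi3 := Real.pi_gt_three
  have hpi4 := Real.pi_lt_d2
  have hcont := cont RH (ε := ε / 4) (δ := d) (by positivity) hd0
  have hl := log_tendsto
  have hR : Tendsto (fun R : ℕ => (R : ℝ)) atTop atTop := tendsto_natCast_atTop_atTop
  have hlogR : ∀ᶠ R : ℕ in atTop, Real.log R ≤ R / 10 := by
    have h2 := Real.isLittleO_log_id_atTop.bound (c := 1 / 10) (by positivity)
    have h3 := hR.eventually h2
    filter_upwards [h3, eventually_ge_atTop 1] with R hR1 hR2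
    have hR2' : (1 : ℝ) ≤ R := by exact_mod_cast hR2
    rw [id, Real.norm_of_nonneg (Real.log_nonneg hR2'), Real.norm_of_nonneg (by linarith)] at hR1
    linarith
  have hzz := (hl.const_mul_atTop (show 0 < ε / 4 by positivity)).eventually_ge_atTop (Real.sqrt (C2 / d))
  filter_upwards [two_tendsto.eventually hcont, half_tendsto.eventually hcont, hlogR, hzz,
    hl.eventually_ge_atTop (20 / ε), hl.eventually_ge_atTop 20, eventually_ge_atTop 100]
    with R c1 c2 h3 h4 h5 h6 h7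
  have hR100 : (100 : ℝ) ≤ R := by exact_mod_cast h7
  obtain ⟨l, hl'⟩ : ∃ l : ℝ, l = Real.log R := ⟨_, rfl⟩
  rw [← hl'] at h3 h4 h5 h6
  obtain ⟨z, hz⟩ : ∃ z : ℝ, z = ε / 4 * l := ⟨_, rfl⟩
  rw [← hz] at h4
  have hz0 : 0 < z := by rw [hz]; positivity
  have hzC : C2 ≤ d * z ^ 2 := by
    have h8 : Real.sqrt (C2 / d) ^ 2 ≤ z ^ 2 := pow_le_pow_left₀ (Real.sqrt_nonneg _) h4 2
    rw [Real.sq_sqrt (by positivity), div_le_iff₀ hd0] at h8
    linarith
  have h5' : 20 ≤ ε * l := by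
    rw [div_le_iff₀ hε] at h5
    linarith
  filter_upwards [c1, c2, hcs, Real.tendsto_log_atTop.eventually_ge_atTop (6 * R), eventually_ge_atTop 100]
    with T t1 t2 t3 hTL hT100 A A' hA hA' B hBs hBb
  obtain ⟨F, nF, hFc, hF2⟩ := t3
  have hT0 : 0 < T := by linarith
  have hL : 0 < Real.log T := by linarith
  have hL100 : 600 ≤ Real.log T := by linarith
  -- the exceptional set
  obtain ⟨S, hS⟩ : ∃ S : Set ℝ, S = ((Gt (ε / 4) (2 * R) T)ᶜ ∪ (Gt (ε / 4) (R / 2) T)ᶜ) ∪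
    {t | z ^ 2 ≤ F t ^ 2} := ⟨_, rfl⟩
  have hPS : Pb T S ≤ 3 * d := by
    rw [hS]
    have p1 := Pb_union hT0 ((Gt (ε / 4) (2 * R) T)ᶜ ∪ (Gt (ε / 4) (R / 2) T)ᶜ) {t | z ^ 2 ≤ F t ^ 2}
    have p2 := Pb_union hT0 (Gt (ε / 4) (2 * R) T)ᶜ (Gt (ε / 4) (R / 2) T)ᶜ
    have nF2 : Nc T fun t => F t ^ 2 := by
      have := nF.mul nF
      simpa only [sq] using this
    have p3 := Pb_markov hT0 nF2 (fun t _ => sq_nonneg _) (show 0 < z ^ 2 by positivity)
    have p4 : EX T (fun t => F t ^ 2) / z ^ 2 ≤ d := by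
      rw [div_le_iff₀ (by positivity)]
      linarith
    linarith
  have hl2 : 2 * Real.pi / Real.log T ≤ 1 := by
    rw [div_le_one hL]
    linarith
  -- logarithms
  have hlog2R : Real.log ((2 * R : ℕ) : ℝ) ≤ l + 1 := by
    push_cast
    rw [Real.log_mul (by norm_num) (by linarith), ← hl']
    have := log2_lt
    linarith
  have hlogh : l - 2 ≤ Real.log ((R / 2 : ℕ) : ℝ) := by
    have h8 : R / 3 ≤ ((R / 2 : ℕ) : ℝ) := by
      have : R ≤ 3 * (R / 2) := by omega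
      have : (R : ℝ) ≤ 3 * ((R / 2 : ℕ) : ℝ) := by exact_mod_cast this
      linarith
    have h9 : Real.log (R / 3) ≤ Real.log ((R / 2 : ℕ) : ℝ) := Real.log_le_log (by positivity) h8
    rw [Real.log_div (by linarith) (by norm_num), ← hl'] at h9
    have h10 : Real.log 3 ≤ 2 := by
      rw [Real.log_le_iff_le_exp (by norm_num)]
      have := Real.add_one_le_exp (2 : ℝ)
      linarith
    linarith
  have hip : 1 / Real.pi ≤ 1 / 3 := one_div_le_one_div_of_le (by norm_num) hpi3.le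
  have hip2 : 3 / 10 ≤ 1 / Real.pi := by
    rw [div_le_div_iff₀ (by norm_num) hpi]
    linarith
  obtain ⟨x, hx⟩ : ∃ x : ℝ, x = (1 / Real.pi + ε / 4) * Real.log ((2 * R : ℕ) : ℝ) := ⟨_, rfl⟩
  obtain ⟨y, hy⟩ : ∃ y : ℝ, y = (1 / Real.pi - ε / 4) * Real.log ((R / 2 : ℕ) : ℝ) := ⟨_, rfl⟩
  have hx1 : x ≤ 1 / Real.pi * l + z + 1 := by
    rw [hx]
    calc (1 / Real.pi + ε / 4) * Real.log ((2 * R : ℕ) : ℝ) ≤ (1 / Real.pi + ε / 4) * (l + 1) :=
          mul_le_mul_of_nonneg_left hlog2R (by positivity)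
      _ ≤ _ := by
          rw [hz]
          linarith
  have hx0 : 0 ≤ x := by
    rw [hx]
    have : 0 ≤ Real.log ((2 * R : ℕ) : ℝ) := Real.log_nonneg (by push_cast; linarith)
    positivity
  have hy1 : 1 / Real.pi * l - z - 1 ≤ y := by
    rw [hy]
    calc 1 / Real.pi * l - z - 1 ≤ (1 / Real.pi - ε / 4) * (l - 2) := by
          rw [hz]
          linarith
      _ ≤ _ := mul_le_mul_of_nonneg_left hlogh (by linarith)
  have hz1 : z ≤ l / 40 := by
    rw [hz]
    have : ε * l ≤ 1 / 10 * l := mul_le_mul_of_nonneg_right hε1 (by linarith)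
    linarith
  have hpil : 1 / Real.pi * l ≤ 1 / 3 * l := mul_le_mul_of_nonneg_right hip (by linarith)
  have hpil2 : 3 / 10 * l ≤ 1 / Real.pi * l := mul_le_mul_of_nonneg_right hip2 (by linarith)
  have hB : ∀ n ∈ B, 1 ≤ n ∧ Ioo (ord n - 2 * Real.pi / Real.log T) (ord n) ⊆ Wd T ∧
      ∀ t ∈ Ioo (ord n - 2 * Real.pi / Real.log T) (ord n), t ∈ S := by
    intro n hn
    have hn1 := Finset.mem_Ioc.1 (hBs hn)
    have hn0 : 1 ≤ n := by omega
    have ho1 : A < ord n := by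
      by_contra hcon
      push Not at hcon
      have := (SG.ord_le_iff hn0 _).1 hcon
      omega
    have ho2 : ord n ≤ A' := (SG.ord_le_iff hn0 _).2 hn1.2
    have hsub : Ioo (ord n - 2 * Real.pi / Real.log T) (ord n) ⊆ Wd T := by
      intro t ht
      unfold Wd
      rw [mem_Icc]
      constructor <;> linarith [ht.1, ht.2]
    refine ⟨hn0, hsub, fun t ht => ?_⟩
    by_contra hcon
    apply hBb n hn
    have htW := hsub ht
    rw [hS] at hcon
    simp only [mem_union, mem_compl_iff, mem_ofPred_eq, not_or, not_not, not_le] at hcon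
    obtain ⟨⟨k1, k2⟩, k3⟩ := hcon
    have hcz : ((NZ (t + 2 * Real.pi / Real.log T) : ℝ) - NZ t) ≤ z := by
      have h8 := hFc t htW
      have h9 : (0 : ℝ) ≤ (NZ (t + 2 * Real.pi / Real.log T) : ℝ) - NZ t := by
        rw [sub_nonneg]
        exact_mod_cast SG.NZ_mono (by
          have : 0 < 2 * Real.pi / Real.log T := by positivity
          linarith)
      have h10 : F t < z := lt_of_pow_lt_pow_left₀ 2 hz0.le k3
      linarith
    have hxx : ∀ v ∈ Finset.Icc 1 (2 * R), |DD T t v| ≤ x := by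
      intro v hv
      rw [hx]
      exact k1.1 v hv
    have hord2 : ord n < t + 2 * Real.pi / Real.log T := by linarith [ht.1]
    have hxR : x + z + 3 ≤ R := by linarith
    have D1 : ∀ r ∈ Finset.Icc 1 R, |pr T r n - r| ≤ x + z + 2 := fun r hr =>
      det1 hL hn0 ht.2 hord2 hcz hx0 hxx hxR hr
    have hm2 : ((R / 2 : ℕ) : ℝ) ≤ R / 2 := Nat.cast_div_le
    have D2 := det2 (m := R / 2) (y := y) (z := z) hL hn0 ht.2 hord2 hcz hxx (by omega) (by linarith) (by linarith)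
      (by rw [hy]; exact k2.2.1)
    have D3 := det3 (R := R) (m := R / 2) (y := y) hL hn0 ht.2 hord2 (by omega) (by linarith)
      (by rw [hy]; exact k2.2.2)
    have D4 : ∀ r ∈ Finset.Icc 1 R, |SS r n - pr T r n| ≤ 1 := by
      intro r hr
      have h8 := (abs_le.1 (D1 r hr)).2
      have hrR : (r : ℝ) ≤ R := by exact_mod_cast (Finset.mem_Icc.1 hr).2
      have h9 : pr T r n ≤ 2 * R := by linarith
      have h10 : 2 * Real.pi * pr T r n / Real.log T ≤ 20 := by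
        rw [div_le_iff₀ hL]
        have : 2 * Real.pi * pr T r n ≤ 2 * Real.pi * (2 * R) := mul_le_mul_of_nonneg_left h9 (by positivity)
        nlinarith
      have h11 := SS_pr (r := r) hT100 hn0 (by linarith) (by
        rw [ord_pr hL]
        linarith)
      refine h11.trans ?_
      rw [div_mul_eq_mul_div, div_le_one hL]
      linarith
    refine ⟨fun r hr => ?_, ?_, ?_⟩
    · have h8 := D1 r hr
      have h9 := D4 r hr
      have e : SS r n - r = (SS r n - pr T r n) + (pr T r n - r) := by ring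
      rw [e]
      refine (abs_add_le _ _).trans ?_
      rw [← hl']
      have e2 : (1 / Real.pi + ε) * l = 1 / Real.pi * l + 4 * z := by rw [hz]; ring
      rw [e2]
      have h10 : 5 ≤ z := by rw [hz]; linarith
      linarith
    · obtain ⟨r, hr, h8⟩ := D3
      refine ⟨r, hr, ?_⟩
      have h9 := (abs_le.1 (D4 r hr)).1
      rw [← hl']
      have e2 : (1 / Real.pi - ε) * l = 1 / Real.pi * l - 4 * z := by rw [hz]; ring
      rw [e2]
      have h10 : 5 ≤ z := by rw [hz]; linarith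
      linarith
    · obtain ⟨r, hr, h8⟩ := D2
      refine ⟨r, hr, ?_⟩
      have h9 := (abs_le.1 (D4 r hr)).2
      rw [← hl']
      have e2 : (1 / Real.pi - ε) * l = 1 / Real.pi * l - 4 * z := by rw [hz]; ring
      rw [e2]
      have h10 : 5 ≤ z := by rw [hz]; linarith
      linarith
  have hP := palm (by linarith : (1 : ℝ) ≤ T) hL hθ0 B S F nF hFc hF2 hPS hB
  have e1 : θ / 2 * C2 + 3 * d / (2 * θ) = 2 * δ := by
    rw [hd, hθ]
    field_simp
    ring
  rw [e1] at hP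
  have e2 : (B.card : ℝ) * (2 * Real.pi / Real.log T) = (B.card : ℝ) * (2 * Real.pi) / Real.log T := by ring
  rw [e2, div_le_iff₀ hL] at hP
  have e3 : (B.card : ℝ) * 2 ≤ (B.card : ℝ) * (2 * Real.pi) := by
    apply mul_le_mul_of_nonneg_left _ (Nat.cast_nonneg _)
    linarith
  have h9 : 0 ≤ δ * (T * Real.log T) := by positivity
  nlinarith

/-- **from blocks to all zeros** -/
theorem allX (ε : ℝ) (hε : 0 < ε) : ∃ ε' : ℝ, 0 < ε' ∧ ∀ g : ℕ → ℂ, (∀ n, ‖g n‖ ≤ 2) →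
    (∀ᶠ T : ℝ in atTop, ∀ A A' : ℝ, T + Real.log T + 20 ≤ A → A' ≤ 2 * T - Real.log T - 20 →
      ‖∑ n ∈ Finset.Ioc (NZ A) (NZ A'), g n‖ ≤ ε' * (T * Real.log T)) →
    ∀ᶠ N : ℕ in atTop, ‖∑ n ∈ Finset.Icc 1 N, g n‖ ≤ ε * N := by
  obtain ⟨C2, hC2, N1, hN1, hNx⟩ := Pool.Agent.R320.VQ.N_x
  obtain ⟨C3, T3, hC3, hT3, hup⟩ := LG.GapAux.NZ_up
  obtain ⟨C4, hC4, hunit⟩ := Pool.Agent.Y743.NC.unit_count
  obtain ⟨K, hK⟩ : ∃ K : ℕ, (2 / 3 : ℝ) ^ K < ε / (4 * (2 * C3 * C2)) :=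
    exists_pow_lt_of_lt_one (by positivity) (by norm_num)
  obtain ⟨ρ, hρ⟩ : ∃ ρ : ℝ, ρ = (2 / 3 : ℝ) ^ K := ⟨_, rfl⟩
  rw [← hρ] at hK
  have hρ0 : 0 < ρ := by rw [hρ]; positivity
  have hρ1 : ρ ≤ 1 := by rw [hρ]; exact pow_le_one₀ (by norm_num) (by norm_num)
  obtain ⟨ε', hε'⟩ : ∃ ε' : ℝ, ε' = ε / (4 * (K + 1) * C2) := ⟨_, rfl⟩
  have hε'0 : 0 < ε' := by rw [hε']; positivity
  refine ⟨ε', hε'0, fun g hgn hblkG => ?_⟩
  obtain ⟨T1, hT1⟩ := hblkG.exists_forall_of_atTop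
  have ev2 : ∀ᶠ y : ℝ in atTop, Real.log y + 20 ≤ y / 15 ∧ 2 * T3 ≤ y ∧ 3 ≤ y ∧ 5 / 3 * T1 ≤ y := by
    have h2 := Real.isLittleO_log_id_atTop.bound (c := 1 / 30) (by positivity)
    filter_upwards [h2, eventually_ge_atTop 600, eventually_ge_atTop (2 * T3), eventually_ge_atTop (5 / 3 * T1)]
      with x hx hx1 hx2 hx3
    rw [id, Real.norm_of_nonneg (Real.log_nonneg (by linarith)), Real.norm_of_nonneg (by linarith)] at hx
    exact ⟨by linarith, hx2, by linarith, hx3⟩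
  obtain ⟨y0, hy0⟩ := ev2.exists_forall_of_atTop
  have ev3 : ∀ᶠ x : ℝ in atTop, y0 ≤ ρ * x := by
    filter_upwards [eventually_ge_atTop (y0 / ρ)] with x hx
    rw [div_le_iff₀ hρ0] at hx
    linarith
  have ev4 : ∀ᶠ x : ℝ in atTop, 2 * (C4 * Real.log x) ≤ ε / (4 * C2) * (x * Real.log x) := by
    filter_upwards [eventually_ge_atTop (max 1 (2 * C4 / (ε / (4 * C2))))] with x hx
    have hx1 : 1 ≤ x := (le_max_left _ _).trans hx
    have hx2 : 2 * C4 / (ε / (4 * C2)) ≤ x := (le_max_right _ _).trans hx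
    rw [div_le_iff₀ (by positivity)] at hx2
    have hl := Real.log_nonneg hx1
    calc 2 * (C4 * Real.log x) = (2 * C4) * Real.log x := by ring
      _ ≤ (x * (ε / (4 * C2))) * Real.log x := mul_le_mul_of_nonneg_right hx2 hl
      _ = _ := by ring
  have ev := SG.ord_tendsto.eventually (ev3.and (ev4.and (eventually_ge_atTop 10)))
  filter_upwards [ev, eventually_ge_atTop N1, eventually_ge_atTop 1] with N hN2 hNN1 hN
  have hNr : (1 : ℝ) ≤ N := by exact_mod_cast hN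
  obtain ⟨hxN, hNx'⟩ := hNx N hNN1
  obtain ⟨g2, ⟨g3, g4⟩⟩ := hN2
  obtain ⟨x, hx⟩ : ∃ x : ℝ, x = ord N := ⟨_, rfl⟩
  rw [← hx] at hxN hNx' g2 g3 g4
  have hcard : ∀ S : Finset ℕ, ‖∑ n ∈ S, g n‖ ≤ 2 * S.card := by
    intro S
    refine (norm_sum_le _ _).trans ((Finset.sum_le_sum fun n _ => hgn n).trans (le_of_eq ?_))
    rw [Finset.sum_const, nsmul_eq_mul]
    ring
  have hlx : 0 < Real.log x := Real.log_pos (by linarith)
  have hx0 : 0 < x := by linarith
  -- the index range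
  have hNZ : N ≤ NZ x := by rw [hx]; exact SG.le_NZ_ord hN
  have e1 : ∑ n ∈ Finset.Icc 1 N, g n = ∑ n ∈ Finset.Icc 1 (NZ x), g n - ∑ n ∈ Finset.Ioc N (NZ x), g n := by
    have e2 : Finset.Icc 1 (NZ x) = Finset.Icc 1 N ∪ Finset.Ioc N (NZ x) := by
      ext n
      simp only [Finset.mem_union, Finset.mem_Icc, Finset.mem_Ioc]
      omega
    rw [e2, Finset.sum_union, add_sub_cancel_right]
    rw [Finset.disjoint_left]
    intro n h4 h5
    rw [Finset.mem_Icc] at h4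
    rw [Finset.mem_Ioc] at h5
    omega
  have hend : ‖∑ n ∈ Finset.Ioc N (NZ x), g n‖ ≤ ε / 4 * N := by
    refine (hcard _).trans ?_
    rw [Nat.card_Ioc]
    have a1 : NZ (x - 1) < N := by
      by_contra hcon
      push Not at hcon
      have := (SG.ord_le_iff hN _).mpr hcon
      linarith
    have a2 := hunit (x - 1) (by linarith)
    rw [sub_add_cancel] at a2
    have a3 : ((NZ x - N : ℕ) : ℝ) ≤ C4 * Real.log x := by
      rw [Nat.cast_sub hNZ]
      have a4 : (NZ (x - 1) : ℝ) ≤ N := by exact_mod_cast a1.le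
      have a5 : Real.log (x - 1) ≤ Real.log x := Real.log_le_log (by linarith) (by linarith)
      have a6 : C4 * Real.log (x - 1) ≤ C4 * Real.log x := mul_le_mul_of_nonneg_left a5 hC4.le
      linarith
    calc 2 * ((NZ x - N : ℕ) : ℝ) ≤ 2 * (C4 * Real.log x) := by gcongr
      _ ≤ ε / (4 * C2) * (x * Real.log x) := g3
      _ ≤ ε / (4 * C2) * (C2 * N) := by gcongr
      _ = _ := by field_simp
  -- the low part
  have hρx := hy0 (ρ * x) g2
  have hlow : ‖∑ n ∈ Finset.Icc 1 (NZ (ρ * x)), g n‖ ≤ ε / 4 * N := by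
    refine (hcard _).trans ?_
    rw [Nat.card_Icc, Nat.add_sub_cancel]
    have a1 := hup (ρ * x / 2) (by linarith [hρx.2.1])
    have e2 : 2 * (ρ * x / 2) = ρ * x := by ring
    rw [e2] at a1
    have a2 : ρ * x / 2 * Real.log (ρ * x / 2) ≤ ρ * (x * Real.log x) := by
      have b1 : Real.log (ρ * x / 2) ≤ Real.log x := Real.log_le_log (by positivity) (by nlinarith)
      calc ρ * x / 2 * Real.log (ρ * x / 2) ≤ ρ * x / 2 * Real.log x := by gcongr
        _ ≤ ρ * x * Real.log x := by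
          apply mul_le_mul_of_nonneg_right _ hlx.le
          have : 0 < ρ * x := by positivity
          linarith
        _ = _ := by ring
    calc 2 * (NZ (ρ * x) : ℝ) ≤ 2 * (C3 * (ρ * (x * Real.log x))) := by
          apply mul_le_mul_of_nonneg_left _ (by norm_num)
          refine a1.trans ?_
          exact mul_le_mul_of_nonneg_left a2 hC3.le
      _ ≤ 2 * (C3 * (ρ * (C2 * N))) := by gcongr
      _ = (2 * C3 * C2) * ρ * N := by ring
      _ ≤ (2 * C3 * C2) * (ε / (4 * (2 * C3 * C2))) * N := by gcongr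
      _ = _ := by field_simp
  -- the blocks
  have hblk : ∀ j ∈ Finset.range K, ‖∑ n ∈ Finset.Ioc (NZ (2 / 3 * ((2 / 3) ^ j * x)))
      (NZ ((2 / 3) ^ j * x)), g n‖ ≤ ε' * (x * Real.log x) := by
    intro j hj
    rw [Finset.mem_range] at hj
    obtain ⟨y, hy⟩ : ∃ y : ℝ, y = (2 / 3) ^ j * x := ⟨_, rfl⟩
    rw [← hy]
    have hρy : ρ * x ≤ y := by
      rw [hy, hρ]
      apply mul_le_mul_of_nonneg_right _ hx0.le
      exact pow_le_pow_of_le_one (by norm_num) (by norm_num) hj.le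
    have hyx : y ≤ x := by
      rw [hy]
      have : (2 / 3 : ℝ) ^ j ≤ 1 := pow_le_one₀ (by norm_num) (by norm_num)
      nlinarith
    obtain ⟨k1, k2, k3, k4⟩ := hy0 y (g2.trans hρy)
    have hT1' : 1 ≤ 3 / 5 * y := by linarith
    have hlogT : Real.log (3 / 5 * y) ≤ Real.log y := Real.log_le_log (by linarith) (by linarith)
    have h4 := hT1 (3 / 5 * y) (by linarith) (2 / 3 * y) y (by linarith) (by linarith)
    refine h4.trans ?_
    have h5 : 3 / 5 * y * Real.log (3 / 5 * y) ≤ x * Real.log x := by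
      apply mul_le_mul (by linarith) (hlogT.trans (Real.log_le_log (by linarith) hyx))
        (Real.log_nonneg hT1') hx0.le
    gcongr
  have hblks : ‖∑ k ∈ Finset.range K, ∑ n ∈ Finset.Ioc (NZ (2 / 3 * ((2 / 3) ^ k * x)))
      (NZ ((2 / 3) ^ k * x)), g n‖ ≤ ε / 4 * N := by
    refine (norm_sum_le _ _).trans ((Finset.sum_le_sum hblk).trans ?_)
    rw [Finset.sum_const, Finset.card_range, nsmul_eq_mul, hε']
    have hKK : (K : ℝ) * (ε / (4 * (K + 1) * C2) * (x * Real.log x)) ≤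
        (K + 1) * (ε / (4 * (K + 1) * C2) * (C2 * N)) := by
      apply mul_le_mul (by linarith) _ (by positivity) (by positivity)
      gcongr
    refine hKK.trans (le_of_eq ?_)
    field_simp
  have e2 := split_sum g x hx0.le K
  rw [← hρ] at e2
  rw [e1, e2]
  refine (norm_sub_le _ _).trans ?_
  have h6 := norm_add_le (∑ n ∈ Finset.Icc 1 (NZ (ρ * x)), g n)
    (∑ k ∈ Finset.range K, ∑ n ∈ Finset.Ioc (NZ (2 / 3 * ((2 / 3) ^ k * x))) (NZ ((2 / 3) ^ k * x)), g n)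
  have h7 : 0 ≤ ε * N := by positivity
  linarith

open Classical in
/-- **all zeros** -/
theorem allZ (RH : RiemannHypothesis) {ε : ℝ} (hε : 0 < ε) :
    ∀ᶠ R : ℕ in atTop, ∀ᶠ N : ℕ in atTop,
      (((Finset.Icc 1 N).filter fun n => ¬ Gg ε R n).card : ℝ) ≤ ε * N := by
  obtain ⟨e, he⟩ : ∃ e : ℝ, e = min ε (1 / 10) := ⟨_, rfl⟩
  have he0 : 0 < e := by rw [he]; positivity
  have he1 : e ≤ ε := by rw [he]; exact min_le_left _ _
  have he2 : e ≤ 1 / 10 := by rw [he]; exact min_le_right _ _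
  obtain ⟨ε', hε', hall⟩ := allX ε hε
  filter_upwards [blk RH he0 he2 hε', eventually_ge_atTop 1] with R hR hR1
  have hlR : 0 ≤ Real.log (R : ℝ) := Real.log_nonneg (by exact_mod_cast hR1)
  have hmono : ∀ n, Gg e R n → Gg ε R n := by
    rintro n ⟨h1, ⟨r2, hr2, h2⟩, ⟨r3, hr3, h3⟩⟩
    have hm := mul_le_mul_of_nonneg_right he1 hlR
    refine ⟨fun r hr => (h1 r hr).trans (by linarith), ⟨r2, hr2, by linarith⟩, ⟨r3, hr3, by linarith⟩⟩
  have := hall (fun n => if ¬ Gg ε R n then 1 else 0) (fun n => by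
    split_ifs <;> simp) (by
    filter_upwards [hR] with T hT A A' hA hA'
    have h1 := hT A A' hA hA' ((Finset.Ioc (NZ A) (NZ A')).filter fun n => ¬ Gg ε R n)
      (Finset.filter_subset _ _) (fun n hn hg => (Finset.mem_filter.1 hn).2 (hmono n hg))
    rw [← Finset.sum_filter, Finset.sum_const, nsmul_eq_mul, mul_one, Complex.norm_natCast]
    exact h1)
  filter_upwards [this] with N hN
  rw [← Finset.sum_filter, Finset.sum_const, nsmul_eq_mul, mul_one, Complex.norm_natCast] at hN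
  exact hN

end

end Pool.Agent.K6.H57.MX
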