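import Pool.Agent.K6.H57.MX.Ap

/-! # The maximal discrepancy from a uniform point -/

set_option autoImplicit false

open MeasureTheory Set Filter Topology
open scoped ContDiff NNReal

namespace Pool.Agent.K6.H57.MX

open Pool.Agent.K6.H57.ML
open SG (ord NZ)

noncomputable section

lemma Pb_compl {T : ℝ} (hT : 1 ≤ T) {S : Set ℝ} (hS : MeasurableSet S) : Pb T S + Pb T Sᶜ ≤ 1 := by
  rw [← EX_ind hS, ← EX_ind hS.compl, ← EX_add ((Nc.const T 1).ind hS) ((Nc.const T 1).ind hS.compl)]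
  refine le_trans (le_of_eq ?_) (EX_one_le hT)
  congr 1
  funext t
  by_cases ht : t ∈ S
  · have : t ∉ Sᶜ := fun h => h ht
    rw [indicator_of_mem ht, indicator_of_notMem this, add_zero]
  · have : t ∈ Sᶜ := ht
    rw [indicator_of_notMem ht, indicator_of_mem this, zero_add]

/-- the good points -/
def Gt (ε : ℝ) (m : ℕ) (T : ℝ) : Set ℝ :=
  {t | (∀ v ∈ Finset.Icc 1 m, |DD T t v| ≤ (1 / Real.pi + ε) * Real.log m) ∧
    (∃ v ∈ Finset.Icc 1 m, (1 / Real.pi - ε) * Real.log m ≤ DD T t v) ∧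
    (∃ v ∈ Finset.Icc 1 m, DD T t v ≤ -((1 / Real.pi - ε) * Real.log m))}

lemma Zs_meas (K m : ℕ) (σ x T : ℝ) : MeasurableSet {t | ∃ u ∈ Finset.Icc 1 m, x ≤ σ * ZZ K m u 0 T t} := by
  have : {t | ∃ u ∈ Finset.Icc 1 m, x ≤ σ * ZZ K m u 0 T t} =
      ⋃ u ∈ Finset.Icc 1 m, {t | x ≤ σ * ZZ K m u 0 T t} := by
    ext t
    simp
  rw [this]
  exact Finset.measurableSet_biUnion _ fun u _ =>
    measurableSet_le measurable_const (continuous_const.mul (ZZ_cont K m u 0 T)).measurable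

/-- **from a uniform point** -/
theorem cont (RH : RiemannHypothesis) {ε δ : ℝ} (hε : 0 < ε) (hδ : 0 < δ) :
    ∀ᶠ m : ℕ in atTop, ∀ᶠ T in atTop, Pb T (Gt ε m T)ᶜ ≤ δ := by
  obtain ⟨K0, hK0, hap⟩ := approx RH (ε / 2) (by positivity)
  obtain ⟨K1, hK1⟩ := exists_nat_ge (8 / (ε / 2))
  obtain ⟨K, hK⟩ : ∃ K : ℕ, K = max K0 K1 := ⟨_, rfl⟩
  have hKK0 : K0 ≤ K := by rw [hK]; exact le_max_left _ _
  have hKK1 : K1 ≤ K := by rw [hK]; exact le_max_right _ _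
  have hK8 : 8 ≤ K := hK0.trans hKK0
  have hKε : 8 / (K : ℝ) ≤ ε / 2 := by
    have h1 : (K1 : ℝ) ≤ K := by exact_mod_cast hKK1
    have h2 : 8 / (ε / 2) ≤ K := by linarith
    have hK0' : (0 : ℝ) < K := by
      have : (8 : ℝ) ≤ K := by exact_mod_cast hK8
      linarith
    rw [div_le_iff₀ (by positivity)] at h2
    rw [div_le_iff₀ hK0']
    linarith
  filter_upwards [hap K hKK0 (δ / 4) (by positivity), Zup K hK8 (ε := ε / 2) (δ := δ / 4) (by positivity) (by positivity),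
    Zlow K hK8 (σ := 1) (ε := ε / 2) (δ := δ / 4) (by norm_num) (by positivity) hKε (by positivity),
    Zlow K hK8 (σ := -1) (ε := ε / 2) (δ := δ / 4) (by norm_num) (by positivity) hKε (by positivity),
    log_tendsto.eventually_ge_atTop 1] with m g1 g2 g3 g4 hl
  filter_upwards [g1, g2, g3, g4, eventually_ge_atTop 1] with T t1 t2 t3 t4 hT1
  have hT : 0 < T := by linarith
  have c3 := Pb_compl hT1 (Zs_meas K m 1 ((1 / Real.pi - ε / 2) * Real.log m) T)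
  have c4 := Pb_compl hT1 (Zs_meas K m (-1) ((1 / Real.pi - ε / 2) * Real.log m) T)
  have hcov : Pb T (Gt ε m T)ᶜ ≤ Pb T (({t | ∃ v ∈ Finset.Icc 1 m, ε / 2 * Real.log m < |DD T t v - ZZ K m v 0 T t|} ∪
      {t | ∃ u ∈ Finset.Icc 1 m, (1 / Real.pi + ε / 2) * Real.log m < |ZZ K m u 0 T t|}) ∪
      ({t | ∃ u ∈ Finset.Icc 1 m, (1 / Real.pi - ε / 2) * Real.log m ≤ 1 * ZZ K m u 0 T t}ᶜ ∪
      {t | ∃ u ∈ Finset.Icc 1 m, (1 / Real.pi - ε / 2) * Real.log m ≤ -1 * ZZ K m u 0 T t}ᶜ)) := by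
    apply Pb_mono hT
    intro t _ ht
    by_contra hcon
    apply ht
    simp only [mem_union, mem_ofPred_eq, mem_compl_iff, not_or, not_exists, not_and, not_lt, not_forall,
      not_not] at hcon
    obtain ⟨⟨k1, k2⟩, k3, k4⟩ := hcon
    refine ⟨fun v hv => ?_, ?_, ?_⟩
    · have h1 := k1 v hv
      have h2 := k2 v hv
      have h3 := abs_sub_abs_le_abs_sub (DD T t v) (ZZ K m v 0 T t)
      linarith
    · obtain ⟨u, hu, h1⟩ := k3
      refine ⟨u, hu, ?_⟩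
      have h2 := (abs_le.1 (k1 u hu)).1
      linarith
    · obtain ⟨u, hu, h1⟩ := k4
      refine ⟨u, hu, ?_⟩
      have h2 := (abs_le.1 (k1 u hu)).2
      linarith
  refine hcov.trans ?_
  have p1 := Pb_union hT ({t | ∃ v ∈ Finset.Icc 1 m, ε / 2 * Real.log m < |DD T t v - ZZ K m v 0 T t|} ∪
      {t | ∃ u ∈ Finset.Icc 1 m, (1 / Real.pi + ε / 2) * Real.log m < |ZZ K m u 0 T t|})
      ({t | ∃ u ∈ Finset.Icc 1 m, (1 / Real.pi - ε / 2) * Real.log m ≤ 1 * ZZ K m u 0 T t}ᶜ ∪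
      {t | ∃ u ∈ Finset.Icc 1 m, (1 / Real.pi - ε / 2) * Real.log m ≤ -1 * ZZ K m u 0 T t}ᶜ)
  have p2 := Pb_union hT {t | ∃ v ∈ Finset.Icc 1 m, ε / 2 * Real.log m < |DD T t v - ZZ K m v 0 T t|}
      {t | ∃ u ∈ Finset.Icc 1 m, (1 / Real.pi + ε / 2) * Real.log m < |ZZ K m u 0 T t|}
  have p3 := Pb_union hT {t | ∃ u ∈ Finset.Icc 1 m, (1 / Real.pi - ε / 2) * Real.log m ≤ 1 * ZZ K m u 0 T t}ᶜ
      {t | ∃ u ∈ Finset.Icc 1 m, (1 / Real.pi - ε / 2) * Real.log m ≤ -1 * ZZ K m u 0 T t}ᶜ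
  linarith

/-- **the number of zeros in a short interval has bounded second moment** -/
theorem cnt_sq (RH : RiemannHypothesis) : ∃ C2 : ℝ, 0 < C2 ∧ ∀ᶠ T in atTop, ∃ F : ℝ → ℝ, Nc T F ∧
    (∀ t ∈ Wd T, ((NZ (t + 2 * Real.pi / Real.log T) : ℝ) - NZ t) ≤ F t) ∧ EX T (fun t => F t ^ 2) ≤ C2 := by
  obtain ⟨C1, hC1, hDD⟩ := DD_EG RH
  have hs0 : (0 : ℝ) < 16 := by norm_num
  obtain ⟨L1, b1⟩ := Gl_Bd (a := 16) (v := 1) hs0 zero_le_one
  have b2 := Gk_Bd hs0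
  have b3 := b2.sh 1
  have hk : (0 : ℝ) < 1 / 16 := by norm_num
  have hk4 : (1 : ℝ) / 16 ≤ 1 / 4 := by norm_num
  have hk8 : (1 : ℝ) / 16 < 1 / 8 := by norm_num
  obtain ⟨D1, hD1, n1⟩ := EG_near b1 hk
  obtain ⟨D2, hD2, n2⟩ := EG_near b2 hk
  obtain ⟨D3, hD3, n3⟩ := EG_near b3 hk
  obtain ⟨V, hV⟩ : ∃ V : ℝ, V = Vr (Gl 16 1) + Vr (Gk 16) + Vr (Sh 1 (Gk 16)) := ⟨_, rfl⟩
  have v1 := Vr_nonneg (Gl 16 1)
  have v2 := Vr_nonneg (Gk 16)
  have v3 := Vr_nonneg (Sh 1 (Gk 16))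
  obtain ⟨A, hA⟩ : ∃ A : ℝ, A = (C1 + 1) * (D1 + D2 + D3) + 64 * C1 + 2 := ⟨_, rfl⟩
  obtain ⟨C, hC⟩ : ∃ C : ℝ, C = C1 + 1 := ⟨_, rfl⟩
  have mom : ∀ {G : ℝ → ℂ} {M Λ : ℝ}, Bd (1 / 16) M Λ G → ∀ᶠ T in atTop,
      EX T (fun t => PG (1 / 16) G T t ^ 2) ≤ Vr G + 1 := by
    intro G M Λ hG
    have h := EX_mom hG hk hk4 2 (by norm_num)
    have e : gmo (Vr G) 2 = Vr G := by
      have := gmo_even (Vr G) 1
      rw [mul_one] at this
      rw [this]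
      unfold mu
      norm_num
    rw [e] at h
    exact h.eventually_le_const (by linarith)
  refine ⟨7 * A ^ 2 + 7 * C ^ 2 * (V + 6), by
    rw [hA, hC, hV]
    positivity, ?_⟩
  filter_upwards [hDD 16 1 (by norm_num) zero_le_one, mom b1, mom b2, mom b3,
    Rq_small b1 hk hk8 one_pos, Rq_small b2 hk hk8 one_pos, Rq_small b3 hk hk8 one_pos,
    eventually_ge_atTop 10] with T g0 m1 m2 m3 r1 r2 r3 hT
  have hT0 : 0 < T := by linarith
  have hL1 := log3 (by linarith : (3 : ℝ) ≤ T)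
  obtain ⟨P1, hP1⟩ : ∃ P1 : ℝ → ℝ, P1 = fun t => PG (1 / 16) (Gl 16 1) T t := ⟨_, rfl⟩
  obtain ⟨P2, hP2⟩ : ∃ P2 : ℝ → ℝ, P2 = fun t => PG (1 / 16) (Gk 16) T t := ⟨_, rfl⟩
  obtain ⟨P3, hP3⟩ : ∃ P3 : ℝ → ℝ, P3 = fun t => PG (1 / 16) (Sh 1 (Gk 16)) T t := ⟨_, rfl⟩
  obtain ⟨Q1, hQ1⟩ : ∃ Q1 : ℝ → ℝ, Q1 = fun t => Rq T (WG T (Gl 16 1)) (XX (1 / 16) T) t := ⟨_, rfl⟩
  obtain ⟨Q2, hQ2⟩ : ∃ Q2 : ℝ → ℝ, Q2 = fun t => Rq T (WG T (Gk 16)) (XX (1 / 16) T) t := ⟨_, rfl⟩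
  obtain ⟨Q3, hQ3⟩ : ∃ Q3 : ℝ → ℝ, Q3 = fun t => Rq T (WG T (Sh 1 (Gk 16))) (XX (1 / 16) T) t := ⟨_, rfl⟩
  have cP1 : Continuous P1 := by rw [hP1]; exact PG_cont _ _ _
  have cP2 : Continuous P2 := by rw [hP2]; exact PG_cont _ _ _
  have cP3 : Continuous P3 := by rw [hP3]; exact PG_cont _ _ _
  have cQ1 : Continuous Q1 := by rw [hQ1]; exact Rq_cont _ _ _
  have cQ2 : Continuous Q2 := by rw [hQ2]; exact Rq_cont _ _ _
  have cQ3 : Continuous Q3 := by rw [hQ3]; exact Rq_cont _ _ _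
  have hC0 : 0 < C := by rw [hC]; positivity
  obtain ⟨F, hF⟩ : ∃ F : ℝ → ℝ, F = fun t => A + C * (|P1 t| + |P2 t| + |P3 t| + Q1 t + Q2 t + Q3 t) := ⟨_, rfl⟩
  have cF : Continuous F := by rw [hF]; fun_prop
  refine ⟨F, Nc.of_cont cF, fun t ht => ?_, ?_⟩
  · have h1 := g0 t ht
    have a1 := n1 T hT t
    have a2 := n2 T hT t
    have a3 := n3 T hT t
    have q1 : |EG (Gl 16 1) T t| ≤ |P1 t| + Q1 t + D1 := by
      have h2 := abs_sub_abs_le_abs_sub (EG (Gl 16 1) T t) (PG (1 / 16) (Gl 16 1) T t)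
      have h3 : D1 / Real.log T ≤ D1 := div_le_self hD1.le hL1
      rw [hP1, hQ1]
      linarith
    have q2 : |EG (Gk 16) T t| ≤ |P2 t| + Q2 t + D2 := by
      have h2 := abs_sub_abs_le_abs_sub (EG (Gk 16) T t) (PG (1 / 16) (Gk 16) T t)
      have h3 : D2 / Real.log T ≤ D2 := div_le_self hD2.le hL1
      rw [hP2, hQ2]
      linarith
    have q3 : |EG (Sh 1 (Gk 16)) T t| ≤ |P3 t| + Q3 t + D3 := by
      have h2 := abs_sub_abs_le_abs_sub (EG (Sh 1 (Gk 16)) T t) (PG (1 / 16) (Sh 1 (Gk 16)) T t)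
      have h3 : D3 / Real.log T ≤ D3 := div_le_self hD3.le hL1
      rw [hP3, hQ3]
      linarith
    have e1 : DD T t 1 = (NZ (t + 2 * Real.pi / Real.log T) : ℝ) - NZ t - 1 := by
      unfold DD
      rw [mul_one]
    have h2 := (abs_le.1 h1).2
    have h3 := neg_abs_le (EG (Gl 16 1) T t)
    have h4 : (NZ (t + 2 * Real.pi / Real.log T) : ℝ) - NZ t ≤
        C1 * (4 * 16 + |EG (Gk 16) T t| + |EG (Sh 1 (Gk 16)) T t|) + 1 + 1 + |EG (Gl 16 1) T t| := by linarith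
    refine h4.trans ?_
    have h5 : C1 * (4 * 16 + |EG (Gk 16) T t| + |EG (Sh 1 (Gk 16)) T t|) ≤
        C1 * (64 + (|P2 t| + Q2 t + D2) + (|P3 t| + Q3 t + D3)) := by
      apply mul_le_mul_of_nonneg_left _ hC1.le
      linarith
    have z1 : 0 ≤ |P1 t| + Q1 t := by
      rw [hQ1]
      exact add_nonneg (abs_nonneg _) (Rq_nonneg _ _ _ _)
    have z2 : 0 ≤ |P2 t| + Q2 t := by
      rw [hQ2]
      exact add_nonneg (abs_nonneg _) (Rq_nonneg _ _ _ _)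
    have z3 : 0 ≤ |P3 t| + Q3 t := by
      rw [hQ3]
      exact add_nonneg (abs_nonneg _) (Rq_nonneg _ _ _ _)
    have h6 : F t = A + C * ((|P1 t| + Q1 t) + (|P2 t| + Q2 t) + (|P3 t| + Q3 t)) := by
      rw [hF]
      ring
    rw [h6, hA, hC]
    nlinarith [mul_nonneg hC1.le z1, mul_nonneg hC1.le z2, mul_nonneg hC1.le z3, mul_nonneg hC1.le hD1.le,
      mul_nonneg hC1.le hD2.le, mul_nonneg hC1.le hD3.le]
  · have hb : ∀ t, F t ^ 2 ≤ 7 * A ^ 2 + 7 * C ^ 2 * (P1 t ^ 2 + (P2 t ^ 2 + (P3 t ^ 2 + (Q1 t ^ 2 +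
        (Q2 t ^ 2 + Q3 t ^ 2))))) := by
      intro t
      rw [hF]
      have : ∀ a b c d e f g : ℝ, (a + C * (b + c + d + e + f + g)) ^ 2 ≤
          7 * a ^ 2 + 7 * C ^ 2 * (b ^ 2 + (c ^ 2 + (d ^ 2 + (e ^ 2 + (f ^ 2 + g ^ 2))))) := by
        intro a b c d e f g
        have h1 : ∀ a b c d e f g : ℝ, (a + b + c + d + e + f + g) ^ 2 ≤
            7 * (a ^ 2 + b ^ 2 + c ^ 2 + d ^ 2 + e ^ 2 + f ^ 2 + g ^ 2) := by
          intro a b c d e f g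
          nlinarith [sq_nonneg (a - b), sq_nonneg (a - c), sq_nonneg (a - d), sq_nonneg (a - e),
            sq_nonneg (a - f), sq_nonneg (a - g), sq_nonneg (b - c), sq_nonneg (b - d), sq_nonneg (b - e),
            sq_nonneg (b - f), sq_nonneg (b - g), sq_nonneg (c - d), sq_nonneg (c - e), sq_nonneg (c - f),
            sq_nonneg (c - g), sq_nonneg (d - e), sq_nonneg (d - f), sq_nonneg (d - g), sq_nonneg (e - f),
            sq_nonneg (e - g), sq_nonneg (f - g)]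
        have h2 := h1 a (C * b) (C * c) (C * d) (C * e) (C * f) (C * g)
        have e1 : a + C * (b + c + d + e + f + g) = a + C * b + C * c + C * d + C * e + C * f + C * g := by ring
        rw [e1]
        refine h2.trans (le_of_eq ?_)
        ring
      have h2 := this A |P1 t| |P2 t| |P3 t| (Q1 t) (Q2 t) (Q3 t)
      rwa [sq_abs, sq_abs, sq_abs] at h2
    have nn : ∀ {f : ℝ → ℝ}, Continuous f → Nc T fun t => f t ^ 2 := fun hf => Nc.of_cont (hf.pow 2)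
    have h1 : EX T (fun t => F t ^ 2) ≤ EX T (fun t => 7 * A ^ 2 + 7 * C ^ 2 * (P1 t ^ 2 + (P2 t ^ 2 +
        (P3 t ^ 2 + (Q1 t ^ 2 + (Q2 t ^ 2 + Q3 t ^ 2)))))) := by
      apply EX_mono hT0 (nn cF)
      · exact Nc.of_cont (by fun_prop)
      · intro t _
        exact hb t
    refine h1.trans ?_
    have s5 := (nn cQ2).add (nn cQ3)
    have s4 := (nn cQ1).add s5
    have s3 := (nn cP3).add s4
    have s2 := (nn cP2).add s3
    have s1 := (nn cP1).add s2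
    rw [EX_add (Nc.const T _) (s1.cmul _), EX_cmul (7 * C ^ 2) (fun t => P1 t ^ 2 + (P2 t ^ 2 + (P3 t ^ 2 + (Q1 t ^ 2 +
        (Q2 t ^ 2 + Q3 t ^ 2))))), EX_add (nn cP1) s2, EX_add (nn cP2) s3, EX_add (nn cP3) s4,
      EX_add (nn cQ1) s5, EX_add (nn cQ2) (nn cQ3)]
    have h2 : EX T (fun _ => 7 * A ^ 2) ≤ 7 * A ^ 2 := by
      have e1 : (fun _ : ℝ => 7 * A ^ 2) = fun _ : ℝ => 7 * A ^ 2 * (1 : ℝ) := by
        funext t
        ring
      rw [e1, EX_cmul]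
      have := EX_one_le (by linarith : (1 : ℝ) ≤ T)
      have h3 : 0 ≤ 7 * A ^ 2 := by positivity
      nlinarith
    apply add_le_add h2
    apply mul_le_mul_of_nonneg_left _ (by positivity)
    rw [hP1, hP2, hP3, hQ1, hQ2, hQ3, hV]
    linarith

end

end Pool.Agent.K6.H57.MX
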