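import Pool.Agent.K6.H57.MX.Cn

/-! # The discrepancy and the field -/

set_option autoImplicit false

open MeasureTheory Set Filter Topology
open scoped ContDiff NNReal

namespace Pool.Agent.K6.H57.MX

open Pool.Agent.K6.H57.ML
open SG (ord NZ)

noncomputable section

/-- linearity -/
lemma EG_split {s0 s2 R v T t : ℝ} (h0 : 1 ≤ s0) (h1 : s0 ≤ s2) (h2 : s2 ≤ R) (hv : 0 ≤ v) (hT : 3 ≤ T) :
    EG (Gl s0 v) T t = (EG (Gp s0 s2) T t - EG (Sh v (Gp s0 s2)) T t) +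
      (EG (Gp s2 R) T t - EG (Sh v (Gp s2 R)) T t) + EG (Gl R v) T t := by
  have h00 : 0 < s0 := by linarith
  obtain ⟨L1, b1⟩ := Gp_Bd (a := s0) (b := s2) h00 h1
  obtain ⟨L2, b2'⟩ := Gp_Bd (a := s2) (b := R) (by linarith) h2
  obtain ⟨L3, b3'⟩ := Gl_Bd (a := R) (v := v) (by linarith) hv
  have b2 := b2'.mono (κ' := 1 / s0) (one_div_le_one_div_of_le h00 h1) le_rfl le_rfl
  have b3 := b3'.mono (κ' := 1 / s0) (one_div_le_one_div_of_le h00 (h1.trans h2)) le_rfl le_rfl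
  have c1 := b1.sh v
  have c2 := b2.sh v
  have e1 := EG_add b1 c1 1 (-1) hT t
  have e2 := EG_add b2 c2 1 (-1) hT t
  have d1 := (b1.smul ((1 : ℝ) : ℂ)).add (c1.smul ((-1 : ℝ) : ℂ))
  have d2 := (b2.smul ((1 : ℝ) : ℂ)).add (c2.smul ((-1 : ℝ) : ℂ))
  have e3 := EG_add d1 d2 1 1 hT t
  have d3 := (d1.smul ((1 : ℝ) : ℂ)).add (d2.smul ((1 : ℝ) : ℂ))
  have e4 := EG_add d3 b3 1 1 hT t
  have e5 : Gl s0 v = fun ξ => ((1 : ℝ) : ℂ) * (((1 : ℝ) : ℂ) * (((1 : ℝ) : ℂ) * Gp s0 s2 ξ +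
      ((-1 : ℝ) : ℂ) * Sh v (Gp s0 s2) ξ) + ((1 : ℝ) : ℂ) * (((1 : ℝ) : ℂ) * Gp s2 R ξ +
      ((-1 : ℝ) : ℂ) * Sh v (Gp s2 R) ξ)) + ((1 : ℝ) : ℂ) * Gl R v ξ := by
    funext ξ
    rw [Gl_split h00 (h1.trans h2) v ξ, Gp_add s0 s2 R ξ]
    have : Sh v (Gp s0 R) ξ = Sh v (Gp s0 s2) ξ + Sh v (Gp s2 R) ξ := by
      unfold Sh
      rw [Gp_add s0 s2 R ξ]
      ring
    rw [this]
    push_cast
    ring
  rw [e5, e4, e3, e1, e2]
  ring

/-- the tail exponents at the smallest scale -/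
lemma tail_small (V e0 : ℝ) (hV : 0 ≤ V) (he : 0 < e0) : ∀ᶠ m : ℕ in atTop,
    (4 * (⌊e0 * Real.log m / 8⌋₊ : ℝ) * V / (e0 * Real.log m) ^ 2) ^ ⌊e0 * Real.log m / 8⌋₊ ≤
      Real.exp (-(2 * Real.log m)) := by
  have h1 : Tendsto (fun m : ℕ => e0 * Real.log (m : ℝ)) atTop atTop := log_tendsto.const_mul_atTop he
  have h2 := (h1.const_div_atTop (V / 2)).eventually_le_const (show (0 : ℝ) < Real.exp (-(32 / e0)) from Real.exp_pos _)
  filter_upwards [h2, h1.eventually_ge_atTop 16] with m g1 g2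
  obtain ⟨s, hs⟩ : ∃ s : ℝ, s = e0 * Real.log m := ⟨_, rfl⟩
  rw [← hs] at g1 g2 ⊢
  obtain ⟨a, ha⟩ : ∃ a : ℕ, a = ⌊s / 8⌋₊ := ⟨_, rfl⟩
  rw [← ha]
  have ha1 : (a : ℝ) ≤ s / 8 := by rw [ha]; exact Nat.floor_le (by linarith)
  have ha2 : s / 16 ≤ a := by
    have := Nat.lt_floor_add_one (s / 8)
    rw [← ha] at this
    linarith
  have hb : 4 * (a : ℝ) * V / s ^ 2 ≤ Real.exp (-(32 / e0)) := by
    refine le_trans ?_ g1
    rw [div_le_div_iff₀ (by positivity) (by linarith)]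
    have : 4 * (a : ℝ) * V ≤ 4 * (s / 8) * V := by gcongr
    nlinarith
  calc (4 * (a : ℝ) * V / s ^ 2) ^ a ≤ Real.exp (-(32 / e0)) ^ a := by
        apply pow_le_pow_left₀ (by positivity) hb
    _ = Real.exp (a * -(32 / e0)) := by rw [← Real.exp_nat_mul]
    _ ≤ Real.exp (-(2 * Real.log m)) := by
        apply Real.exp_le_exp.2
        have e : 2 * Real.log m = s / 16 * (32 / e0) := by
          rw [hs]
          field_simp
          ring
        rw [e, mul_neg, neg_le_neg_iff]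
        exact mul_le_mul_of_nonneg_right ha2 (by positivity)

/-- **the discrepancy and the field** -/
theorem approx (RH : RiemannHypothesis) (ε : ℝ) (hε : 0 < ε) : ∃ K0 : ℕ, 8 ≤ K0 ∧ ∀ K : ℕ, K0 ≤ K →
    ∀ δ : ℝ, 0 < δ → ∀ᶠ m : ℕ in atTop, ∀ᶠ T in atTop,
      Pb T {t | ∃ v ∈ Finset.Icc 1 m, ε * Real.log m < |DD T t v - ZZ K m v 0 T t|} ≤ δ := by
  obtain ⟨C1, hC1, hDD⟩ := DD_EG RH
  obtain ⟨e0, he0⟩ : ∃ e0 : ℝ, e0 = min 1 (ε / (6 * C1 + 6)) := ⟨_, rfl⟩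
  have he00 : 0 < e0 := by rw [he0]; positivity
  have he01 : e0 ≤ 1 := by rw [he0]; exact min_le_left _ _
  have he02 : (6 * C1 + 6) * e0 ≤ ε := by
    have : e0 ≤ ε / (6 * C1 + 6) := by rw [he0]; exact min_le_right _ _
    rw [le_div_iff₀ (by positivity)] at this
    linarith
  obtain ⟨K0, hK0⟩ := exists_nat_ge (max 8 (180 / e0 ^ 2))
  have hK08 : 8 ≤ K0 := by
    have : (8 : ℝ) ≤ K0 := (le_max_left _ _).trans hK0
    exact_mod_cast this
  refine ⟨K0, hK08, fun K hK δ hδ => ?_⟩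
  have hK8 : 8 ≤ K := hK08.trans hK
  have hKR : (8 : ℝ) ≤ K := by exact_mod_cast hK8
  have hKe : 180 / e0 ^ 2 ≤ K := by
    have h1 : 180 / e0 ^ 2 ≤ K0 := (le_max_right _ _).trans hK0
    have h2 : (K0 : ℝ) ≤ K := by exact_mod_cast hK
    linarith
  obtain ⟨V2, hV2⟩ : ∃ V2 : ℝ, V2 = 1 / (2 * Real.pi ^ 2) * (Real.log (20000 / e0) + Real.log 2) := ⟨_, rfl⟩
  have hV20 : 0 ≤ V2 := by
    rw [hV2]
    have h1 : 0 ≤ Real.log (20000 / e0) := Real.log_nonneg (by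
      rw [le_div_iff₀ he00]
      linarith)
    have h2 : 0 ≤ Real.log 2 := Real.log_nonneg (by norm_num)
    positivity
  have hl := log_tendsto
  have hm : Tendsto (fun m : ℕ => (m : ℝ)) atTop atTop := tendsto_natCast_atTop_atTop
  filter_upwards [Big_ev K hK8 (show (0 : ℝ) < 1 by norm_num), tail_small 4 e0 (by norm_num) he00,
    tail_small V2 e0 hV20 he00, hl.eventually_ge_atTop (16 / e0),
    (hm.const_div_atTop 5).eventually_le_const (show (0 : ℝ) < δ / 2 by positivity),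
    (hl.const_div_atTop (2 / (9 * e0 ^ 2))).eventually_le_const (show (0 : ℝ) < δ / 4 by positivity),
    hl.eventually_ge_atTop (K : ℝ)] with m h q1 q2 q3 q4 q5 q6
  have hl1 := h.l1
  have hm2 := h.m2
  have hm0 : (0 : ℝ) < m := by linarith
  have hs1 := h.s1ge
  obtain ⟨s, hs⟩ : ∃ s : ℝ, s = e0 * Real.log m := ⟨_, rfl⟩
  rw [← hs] at q1 q2
  have hs16 : 16 ≤ s := by
    rw [div_le_iff₀ he00] at q3
    rw [hs]
    linarith
  have hs0 : 0 < s := by linarith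
  have hss1 : s ≤ s1 m := by
    rw [hs]
    unfold s1
    nlinarith
  have hs1R : s1 m ≤ rp K m := by linarith [h.s1_rp]
  have hR0 := h.rp_pos
  obtain ⟨a, ha⟩ : ∃ a : ℕ, a = ⌊s / 8⌋₊ := ⟨_, rfl⟩
  rw [← ha] at q1 q2
  have ha1 : (a : ℝ) ≤ s / 8 := by rw [ha]; exact Nat.floor_le (by linarith)
  have hκ0 : 0 < 1 / s := by positivity
  have hκ8 : 1 / s < 1 / 8 := one_div_lt_one_div_of_lt (by norm_num) (by linarith)
  have haκ : 8 * (1 / s) * a ≤ 1 := by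
    rw [mul_one_div, div_mul_eq_mul_div, div_le_one hs0]
    linarith
  have hδm : 0 < δ / (16 * (m + 1)) := by positivity
  obtain ⟨d, hd⟩ : ∃ d : ℝ, d = δ / (16 * (m + 1)) := ⟨_, rfl⟩
  rw [← hd] at hδm
  -- the majorants
  have hGk := Gk_Bd hs0
  have E1 : ∀ v : ℝ, ∀ᶠ T in atTop, Pb T {t | s ≤ |EG (Sh v (Gk s)) T t|} ≤
      Real.exp (-(2 * Real.log m)) + d := by
    intro v
    filter_upwards [EG_tail (hGk.sh v) hκ0 a haκ hκ8 hs0 hδm
      (show Vr (Sh v (Gk s)) ≤ 4 by rw [Vr_Sh]; exact Vr_Gk (by linarith))] with T hT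
    linarith
  -- the top band
  obtain ⟨L1, hTp⟩ := Gp_Bd (a := s) (b := s1 m) hs0 hss1
  have E2 : ∀ v : ℝ, ∀ᶠ T in atTop, Pb T {t | s ≤ |EG (Sh v (Gp s (s1 m))) T t|} ≤
      Real.exp (-(2 * Real.log m)) + d := by
    intro v
    have hVT : Vr (Sh v (Gp s (s1 m))) ≤ V2 := by
      rw [Vr_Sh]
      refine (Vr_up (by linarith) hss1).trans (le_of_eq ?_)
      rw [hV2]
      congr 3
      rw [hs]
      unfold s1
      have : Real.log m ≠ 0 := by linarith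
      field_simp
    filter_upwards [EG_tail (hTp.sh v) hκ0 a haκ hκ8 hs0 hδm hVT] with T hT
    linarith
  -- the main band at the origin
  have hs10 : 0 < s1 m := by linarith
  obtain ⟨L2, hMn⟩ := Gp_Bd (a := s1 m) (b := rp K m) hs10 hs1R
  have hk10 : 0 < 1 / s1 m := by positivity
  have hk18 : 1 / s1 m < 1 / 8 := one_div_lt_one_div_of_lt (by norm_num) (by linarith)
  have E3 : ∀ᶠ T in atTop, Pb T {t | s ≤ |EG (Gp (s1 m) (rp K m)) T t|} ≤ δ / 4 + d := by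
    have hV := h.V0up
    have := EG_tail hMn hk10 1 (by push_cast; linarith) hk18 hs0 hδm (show Vr (Gp (s1 m) (rp K m)) ≤ Real.log m / 18 from hV)
    filter_upwards [this] with T hT
    refine hT.trans ?_
    apply add_le_add _ le_rfl
    rw [pow_one, Nat.cast_one, mul_one]
    refine le_trans (le_of_eq ?_) q5
    rw [hs]
    have : Real.log m ≠ 0 := by linarith
    field_simp
    norm_num
  -- the low frequencies
  have hR16 : 16 * (3 * Real.log m) ≤ rp K m := by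
    have := h.s1_rp
    unfold s1 at this
    linarith
  obtain ⟨b, hb⟩ : ∃ b : ℕ, b = ⌈2 * Real.log m⌉₊ := ⟨_, rfl⟩
  have hb1 : 2 * Real.log m ≤ b := by rw [hb]; exact Nat.le_ceil _
  have hb2 : (b : ℝ) ≤ 3 * Real.log m := by
    have : (b : ℝ) < 2 * Real.log m + 1 := by rw [hb]; exact Nat.ceil_lt_add_one (by positivity)
    linarith
  have E4 : ∀ v : ℕ, v ∈ Finset.Icc 1 m → ∀ᶠ T in atTop, Pb T {t | s ≤ |EG (Gl (rp K m) v) T t|} ≤
      Real.exp (-(2 * Real.log m)) + d := by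
    intro v hv
    have hvm : (v : ℝ) ≤ m := by exact_mod_cast (Finset.mem_Icc.1 hv).2
    obtain ⟨L3, hB⟩ := Gl_Bd (a := rp K m) (v := v) hR0 (Nat.cast_nonneg v)
    have hV := Vr_Gl (b := rp K m) (m := m) (v := v) (by linarith) h.rp_le (Nat.cast_nonneg v) hvm
    have e1 : Real.log (m / rp K m) = 4 * Real.log m / K := by
      rw [Real.log_div hm0.ne' hR0.ne', h.rp_log, Nat.cast_sub (by omega)]
      push_cast
      field_simp
      ring
    rw [e1] at hV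
    have hV2' : Vr (Gl (rp K m) v) ≤ 5 * Real.log m / K := by
      have h1 : 1 ≤ Real.log m / K := by
        rw [le_div_iff₀ (by linarith), one_mul]
        exact q6
      have e2 : 5 * Real.log m / K = 4 * Real.log m / K + Real.log m / K := by ring
      linarith
    have := EG_tail hB (by positivity) b (by
      rw [mul_one_div, div_mul_eq_mul_div, div_le_one hR0]
      linarith) (one_div_lt_one_div_of_lt (by norm_num) (by linarith)) hs0 hδm hV2'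
    filter_upwards [this] with T hT
    refine hT.trans ?_
    apply add_le_add _ le_rfl
    have hbase : 4 * (b : ℝ) * (5 * Real.log m / K) / s ^ 2 ≤ Real.exp (-1) := by
      have h3 : 4 * (b : ℝ) * (5 * Real.log m / K) / s ^ 2 ≤ 60 / (K * e0 ^ 2) := by
        have h4 : 4 * (b : ℝ) * (5 * Real.log m / K) ≤ 4 * (3 * Real.log m) * (5 * Real.log m / K) := by gcongr
        have h5 : 4 * (3 * Real.log m) * (5 * Real.log m / K) / s ^ 2 = 60 / (K * e0 ^ 2) := by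
          rw [hs]
          have : Real.log m ≠ 0 := by linarith
          field_simp
          norm_num
        rw [← h5]
        gcongr
      have h6 : 60 / (K * e0 ^ 2) ≤ 1 / 3 := by
        rw [div_le_iff₀ (by positivity)] at hKe
        rw [div_le_div_iff₀ (by positivity) (by norm_num)]
        linarith
      have h7 : 1 / 3 ≤ Real.exp (-1) := by
        rw [Real.exp_neg, ← one_div]
        apply one_div_le_one_div_of_le (Real.exp_pos _)
        have := Real.exp_one_lt_d9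
        linarith
      linarith
    have hlm : 0 ≤ 4 * (b : ℝ) * (5 * Real.log m / K) / s ^ 2 := by positivity
    calc (4 * (b : ℝ) * (5 * Real.log m / K) / s ^ 2) ^ b ≤ Real.exp (-1) ^ b := pow_le_pow_left₀ hlm hbase b
      _ = Real.exp (b * -1) := by rw [← Real.exp_nat_mul]
      _ ≤ _ := by
          apply Real.exp_le_exp.2
          linarith
  have E5 : ∀ v : ℕ, ∀ᶠ T in atTop, Pb T {t | s ≤ |EG (Sh v (Gp (s1 m) (rp K m))) T t - ZZ K m v 0 T t|} ≤ d := by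
    intro v
    have := EG_PG (hMn.sh (v : ℝ)) hk10 hk18 hs0 hδm
    filter_upwards [this] with T hT
    unfold ZZ
    rw [lv_zero]
    exact hT
  have F1 : ∀ᶠ T in atTop, ∀ v ∈ Finset.Icc 1 m, Pb T {t | s ≤ |EG (Sh (v : ℝ) (Gk s)) T t|} ≤
      Real.exp (-(2 * Real.log m)) + d := by
    rw [Filter.eventually_all_finset]
    exact fun v _ => E1 v
  have F2 : ∀ᶠ T in atTop, ∀ v ∈ Finset.Icc 1 m, Pb T {t | s ≤ |EG (Sh (v : ℝ) (Gp s (s1 m))) T t|} ≤
      Real.exp (-(2 * Real.log m)) + d := by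
    rw [Filter.eventually_all_finset]
    exact fun v _ => E2 v
  have F4 : ∀ᶠ T in atTop, ∀ v ∈ Finset.Icc 1 m, Pb T {t | s ≤ |EG (Gl (rp K m) v) T t|} ≤
      Real.exp (-(2 * Real.log m)) + d := by
    rw [Filter.eventually_all_finset]
    exact fun v hv => E4 v hv
  have F5 : ∀ᶠ T in atTop, ∀ v ∈ Finset.Icc 1 m,
      Pb T {t | s ≤ |EG (Sh v (Gp (s1 m) (rp K m))) T t - ZZ K m v 0 T t|} ≤ d := by
    rw [Filter.eventually_all_finset]
    exact fun v _ => E5 v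
  have F6 : ∀ᶠ T in atTop, ∀ v ∈ Finset.Icc 1 m, ∀ t ∈ Wd T, |DD T t v + EG (Gl s v) T t| ≤
      C1 * (4 * s + |EG (Gk s) T t| + |EG (Sh v (Gk s)) T t|) + 1 := by
    rw [Filter.eventually_all_finset]
    exact fun v _ => hDD s v (by linarith) (Nat.cast_nonneg v)
  filter_upwards [F1, F2, F4, F5, F6, E1 0, E2 0, E3, eventually_ge_atTop 10]
    with T f1 f2 f4 f5 f6 f7 f8 f9 hT
  have hT0 : 0 < T := by linarith
  rw [Sh_zero] at f7 f8
  have hcov : Pb T {t | ∃ v ∈ Finset.Icc 1 m, ε * Real.log m < |DD T t v - ZZ K m v 0 T t|} ≤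
      Pb T ((({t | s ≤ |EG (Gk s) T t|} ∪ {t | s ≤ |EG (Gp s (s1 m)) T t|}) ∪
        {t | s ≤ |EG (Gp (s1 m) (rp K m)) T t|}) ∪
        {t | ∃ v ∈ Finset.Icc 1 m, t ∈ (({t | s ≤ |EG (Sh (v : ℝ) (Gk s)) T t|} ∪
          {t | s ≤ |EG (Sh (v : ℝ) (Gp s (s1 m))) T t|}) ∪ ({t | s ≤ |EG (Gl (rp K m) v) T t|} ∪
          {t | s ≤ |EG (Sh v (Gp (s1 m) (rp K m))) T t - ZZ K m v 0 T t|}) : Set ℝ)}) := by
    apply Pb_mono hT0
    rintro t htW ⟨v, hv, htv⟩
    by_contra hcon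
    simp only [mem_union, mem_ofPred_eq, not_or, not_exists, not_and, not_le] at hcon
    obtain ⟨⟨⟨k1, k2⟩, k3⟩, k4⟩ := hcon
    obtain ⟨⟨k5, k6⟩, k7, k8⟩ := k4 v hv
    have k9 := f6 v hv t htW
    have hsp := EG_split (s0 := s) (s2 := s1 m) (R := rp K m) (v := v) (T := T) (t := t) (by linarith) hss1 hs1R
      (Nat.cast_nonneg v) (by linarith)
    have e1 : DD T t v - ZZ K m v 0 T t = (DD T t v + EG (Gl s v) T t) +
        (EG (Sh v (Gp (s1 m) (rp K m))) T t - ZZ K m v 0 T t) -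
        (EG (Gp s (s1 m)) T t - EG (Sh (v : ℝ) (Gp s (s1 m))) T t) - EG (Gp (s1 m) (rp K m)) T t -
        EG (Gl (rp K m) v) T t := by
      rw [hsp]
      ring
    have e2 : |DD T t v - ZZ K m v 0 T t| ≤ |DD T t v + EG (Gl s v) T t| +
        |EG (Sh v (Gp (s1 m) (rp K m))) T t - ZZ K m v 0 T t| +
        (|EG (Gp s (s1 m)) T t| + |EG (Sh (v : ℝ) (Gp s (s1 m))) T t|) + |EG (Gp (s1 m) (rp K m)) T t| +
        |EG (Gl (rp K m) v) T t| := by
      rw [e1]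
      have p1 := abs_sub ((DD T t v + EG (Gl s v) T t) +
        (EG (Sh v (Gp (s1 m) (rp K m))) T t - ZZ K m v 0 T t) -
        (EG (Gp s (s1 m)) T t - EG (Sh (v : ℝ) (Gp s (s1 m))) T t) - EG (Gp (s1 m) (rp K m)) T t)
        (EG (Gl (rp K m) v) T t)
      have p2 := abs_sub ((DD T t v + EG (Gl s v) T t) +
        (EG (Sh v (Gp (s1 m) (rp K m))) T t - ZZ K m v 0 T t) -
        (EG (Gp s (s1 m)) T t - EG (Sh (v : ℝ) (Gp s (s1 m))) T t)) (EG (Gp (s1 m) (rp K m)) T t)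
      have p3 := abs_sub ((DD T t v + EG (Gl s v) T t) +
        (EG (Sh v (Gp (s1 m) (rp K m))) T t - ZZ K m v 0 T t))
        (EG (Gp s (s1 m)) T t - EG (Sh (v : ℝ) (Gp s (s1 m))) T t)
      have p4 := abs_add_le (DD T t v + EG (Gl s v) T t)
        (EG (Sh v (Gp (s1 m) (rp K m))) T t - ZZ K m v 0 T t)
      have p5 := abs_sub (EG (Gp s (s1 m)) T t) (EG (Sh (v : ℝ) (Gp s (s1 m))) T t)
      linarith
    have e3 : C1 * (4 * s + |EG (Gk s) T t| + |EG (Sh v (Gk s)) T t|) ≤ C1 * (6 * s) := by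
      apply mul_le_mul_of_nonneg_left _ hC1.le
      linarith
    have e4 : |DD T t v - ZZ K m v 0 T t| ≤ (6 * C1 + 6) * s := by linarith
    have e5 : (6 * C1 + 6) * s ≤ ε * Real.log m := by
      rw [hs]
      have := mul_le_mul_of_nonneg_right he02 (by linarith : (0 : ℝ) ≤ Real.log m)
      linarith
    linarith
  refine hcov.trans ?_
  have g1 := Pb_union hT0 (({t | s ≤ |EG (Gk s) T t|} ∪ {t | s ≤ |EG (Gp s (s1 m)) T t|}) ∪
        {t | s ≤ |EG (Gp (s1 m) (rp K m)) T t|})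
        {t | ∃ v ∈ Finset.Icc 1 m, t ∈ (({t | s ≤ |EG (Sh (v : ℝ) (Gk s)) T t|} ∪
          {t | s ≤ |EG (Sh (v : ℝ) (Gp s (s1 m))) T t|}) ∪ ({t | s ≤ |EG (Gl (rp K m) v) T t|} ∪
          {t | s ≤ |EG (Sh v (Gp (s1 m) (rp K m))) T t - ZZ K m v 0 T t|}) : Set ℝ)}
  have g2 := Pb_union hT0 ({t | s ≤ |EG (Gk s) T t|} ∪ {t | s ≤ |EG (Gp s (s1 m)) T t|})
        {t | s ≤ |EG (Gp (s1 m) (rp K m)) T t|}
  have g3 := Pb_union hT0 {t | s ≤ |EG (Gk s) T t|} {t | s ≤ |EG (Gp s (s1 m)) T t|}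
  have g4 : Pb T {t | ∃ v ∈ Finset.Icc 1 m, t ∈ (({t | s ≤ |EG (Sh (v : ℝ) (Gk s)) T t|} ∪
          {t | s ≤ |EG (Sh (v : ℝ) (Gp s (s1 m))) T t|}) ∪ ({t | s ≤ |EG (Gl (rp K m) v) T t|} ∪
          {t | s ≤ |EG (Sh v (Gp (s1 m) (rp K m))) T t - ZZ K m v 0 T t|}) : Set ℝ)} ≤
      m * (3 * Real.exp (-(2 * Real.log m)) + 4 * d) := by
    refine (Pb_biUnion hT0 (Finset.Icc 1 m) (fun v : ℕ => (({t | s ≤ |EG (Sh (v : ℝ) (Gk s)) T t|} ∪
          {t | s ≤ |EG (Sh (v : ℝ) (Gp s (s1 m))) T t|}) ∪ ({t | s ≤ |EG (Gl (rp K m) v) T t|} ∪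
          {t | s ≤ |EG (Sh v (Gp (s1 m) (rp K m))) T t - ZZ K m v 0 T t|}) : Set ℝ))).trans ?_
    have : ∀ v ∈ Finset.Icc 1 m, Pb T (({t | s ≤ |EG (Sh (v : ℝ) (Gk s)) T t|} ∪
          {t | s ≤ |EG (Sh (v : ℝ) (Gp s (s1 m))) T t|}) ∪ ({t | s ≤ |EG (Gl (rp K m) v) T t|} ∪
          {t | s ≤ |EG (Sh v (Gp (s1 m) (rp K m))) T t - ZZ K m v 0 T t|}) : Set ℝ) ≤
          3 * Real.exp (-(2 * Real.log m)) + 4 * d := by
      intro v hv
      have r1 := Pb_union hT0 ({t | s ≤ |EG (Sh (v : ℝ) (Gk s)) T t|} ∪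
          {t | s ≤ |EG (Sh (v : ℝ) (Gp s (s1 m))) T t|}) ({t | s ≤ |EG (Gl (rp K m) v) T t|} ∪
          {t | s ≤ |EG (Sh v (Gp (s1 m) (rp K m))) T t - ZZ K m v 0 T t|})
      have r2 := Pb_union hT0 {t | s ≤ |EG (Sh (v : ℝ) (Gk s)) T t|} {t | s ≤ |EG (Sh (v : ℝ) (Gp s (s1 m))) T t|}
      have r3 := Pb_union hT0 {t | s ≤ |EG (Gl (rp K m) v) T t|}
          {t | s ≤ |EG (Sh v (Gp (s1 m) (rp K m))) T t - ZZ K m v 0 T t|}
      have r4 := f1 v hv
      have r5 := f2 v hv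
      have r6 := f4 v hv
      have r7 := f5 v hv
      linarith
    refine (Finset.sum_le_sum this).trans (le_of_eq ?_)
    rw [Finset.sum_const, Nat.card_Icc, Nat.add_sub_cancel, nsmul_eq_mul]
  have hexp : Real.exp (-(2 * Real.log m)) = 1 / m / m := by
    rw [two_mul, neg_add, Real.exp_add, Real.exp_neg, h.explog]
    field_simp
  have g5 : m * (3 * Real.exp (-(2 * Real.log m))) + 2 * Real.exp (-(2 * Real.log m)) ≤ 5 / m := by
    rw [hexp]
    have h1 : (m : ℝ) * (3 * (1 / m / m)) = 3 / m := by field_simp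
    have h2 : 2 * (1 / (m : ℝ) / m) ≤ 2 / m := by
      rw [div_div, mul_one_div]
      apply div_le_div_of_nonneg_left (by norm_num) hm0
      nlinarith
    rw [h1]
    have h3 : 5 / (m : ℝ) = 3 / m + 2 / m := by ring
    linarith
  have g6 : m * (4 * d) + 3 * d ≤ δ / 4 := by
    rw [hd]
    have : (m : ℝ) * (4 * (δ / (16 * (m + 1)))) + 3 * (δ / (16 * (m + 1))) = δ * (4 * m + 3) / (16 * (m + 1)) := by
      field_simp
    rw [this, div_le_div_iff₀ (by positivity) (by norm_num)]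
    nlinarith
  linarith

end

end Pool.Agent.K6.H57.MX
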