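import Pool.Agent.K6.H57.ML.Ta

/-! # Band limited statistics at the scale of the mean spacing -/

set_option autoImplicit false

open MeasureTheory Set Filter Topology
open scoped ContDiff NNReal

namespace Pool.Agent.K6.H57.MX

open Pool.Agent.K6.H57.ML
open SP (bt ps zs)
open SG (ord NZ)
open Pool.Agent.R320.JL (PP nz PP_cont)
open Pool.Agent.Y743.CL (Pr mem_Pr VS VS_nonneg)

noncomputable section

/-- bounded Lipschitz functions supported in `(-κ, κ)` -/
structure Bd (κ M Λ : ℝ) (G : ℝ → ℂ) : Prop where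
  bd : ∀ ξ, ‖G ξ‖ ≤ M
  lip : ∀ ξ η, ‖G ξ - G η‖ ≤ Λ * |ξ - η|
  supp : ∀ ξ, κ ≤ |ξ| → G ξ = 0

lemma Bd.M0 {κ M Λ : ℝ} {G : ℝ → ℂ} (h : Bd κ M Λ G) : 0 ≤ M := (norm_nonneg _).trans (h.bd 0)

lemma Bd.L0 {κ M Λ : ℝ} {G : ℝ → ℂ} (h : Bd κ M Λ G) : 0 ≤ Λ := by
  have := h.lip 1 0
  rw [sub_zero, abs_one, mul_one] at this
  exact (norm_nonneg _).trans this

lemma Bd.cont {κ M Λ : ℝ} {G : ℝ → ℂ} (h : Bd κ M Λ G) : Continuous G := by
  have : LipschitzWith (⟨Λ, h.L0⟩ : ℝ≥0) G := by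
    refine LipschitzWith.of_dist_le_mul fun x y => ?_
    rw [dist_eq_norm, Real.dist_eq]
    exact h.lip x y
  exact this.continuous

lemma Bd.mono {κ M Λ κ' M' Λ' : ℝ} {G : ℝ → ℂ} (h : Bd κ M Λ G) (h1 : κ ≤ κ') (h2 : M ≤ M') (h3 : Λ ≤ Λ') :
    Bd κ' M' Λ' G :=
  ⟨fun ξ => (h.bd ξ).trans h2, fun ξ η => (h.lip ξ η).trans (mul_le_mul_of_nonneg_right h3 (abs_nonneg _)),
    fun ξ hξ => h.supp ξ (h1.trans hξ)⟩

lemma Bd.add {κ M Λ M' Λ' : ℝ} {G G' : ℝ → ℂ} (h : Bd κ M Λ G) (h' : Bd κ M' Λ' G') :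
    Bd κ (M + M') (Λ + Λ') (fun ξ => G ξ + G' ξ) := by
  refine ⟨fun ξ => (norm_add_le _ _).trans (add_le_add (h.bd ξ) (h'.bd ξ)), fun ξ η => ?_, fun ξ hξ => ?_⟩
  · have : G ξ + G' ξ - (G η + G' η) = (G ξ - G η) + (G' ξ - G' η) := by ring
    rw [this, add_mul]
    exact (norm_add_le _ _).trans (add_le_add (h.lip ξ η) (h'.lip ξ η))
  · rw [h.supp ξ hξ, h'.supp ξ hξ, add_zero]

lemma Bd.smul {κ M Λ : ℝ} {G : ℝ → ℂ} (h : Bd κ M Λ G) (c : ℂ) :
    Bd κ (‖c‖ * M) (‖c‖ * Λ) (fun ξ => c * G ξ) := by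
  refine ⟨fun ξ => ?_, fun ξ η => ?_, fun ξ hξ => ?_⟩
  · rw [norm_mul]; exact mul_le_mul_of_nonneg_left (h.bd ξ) (norm_nonneg _)
  · rw [← mul_sub, norm_mul, mul_assoc]; exact mul_le_mul_of_nonneg_left (h.lip ξ η) (norm_nonneg _)
  · rw [h.supp ξ hξ, mul_zero]

/-- the weight -/
def WG (T : ℝ) (G : ℝ → ℂ) (u : ℝ) : ℂ := ((2 / Real.log T : ℝ) : ℂ) * G (u / Real.log T)

/-- the variance -/
def Vr (G : ℝ → ℂ) : ℝ := 2 * ∫ ξ in (0 : ℝ)..1, ξ * ‖G ξ‖ ^ 2

/-- the length of the prime polynomial -/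
def XX (κ T : ℝ) : ℕ := ⌊Real.exp (2 * (κ * Real.log T))⌋₊

/-- the prime polynomial -/
def PG (κ : ℝ) (G : ℝ → ℂ) (T t : ℝ) : ℝ := (PP (zp T (WG T G)) (XX κ T) t).re

/-- the prime side -/
def EG (G : ℝ → ℂ) (T t : ℝ) : ℝ := (ps T t (WG T G)).re

lemma WG_cont {κ M Λ : ℝ} {G : ℝ → ℂ} (h : Bd κ M Λ G) (T : ℝ) : Continuous (WG T G) := by
  unfold WG
  exact continuous_const.mul (h.cont.comp (continuous_id.div_const _))

lemma WG_bd {κ M Λ : ℝ} {G : ℝ → ℂ} (h : Bd κ M Λ G) {T : ℝ} (hT : 1 < T) (u : ℝ) :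
    ‖WG T G u‖ ≤ 2 * M / Real.log T := by
  have hL : 0 < Real.log T := Real.log_pos hT
  unfold WG
  rw [norm_mul, Complex.norm_real, Real.norm_of_nonneg (by positivity)]
  calc 2 / Real.log T * ‖G (u / Real.log T)‖ ≤ 2 / Real.log T * M :=
        mul_le_mul_of_nonneg_left (h.bd _) (by positivity)
    _ = _ := by ring

lemma WG_lip {κ M Λ : ℝ} {G : ℝ → ℂ} (h : Bd κ M Λ G) {T : ℝ} (hT : 1 < T) (u v : ℝ) :
    ‖WG T G u - WG T G v‖ ≤ 2 * Λ / Real.log T ^ 2 * |u - v| := by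
  have hL : 0 < Real.log T := Real.log_pos hT
  unfold WG
  rw [← mul_sub, norm_mul, Complex.norm_real, Real.norm_of_nonneg (by positivity)]
  have h1 := h.lip (u / Real.log T) (v / Real.log T)
  rw [← sub_div, abs_div, abs_of_pos hL] at h1
  calc 2 / Real.log T * ‖G (u / Real.log T) - G (v / Real.log T)‖ ≤
      2 / Real.log T * (Λ * (|u - v| / Real.log T)) := mul_le_mul_of_nonneg_left h1 (by positivity)
    _ = _ := by ring

lemma WG_zero {κ M Λ : ℝ} {G : ℝ → ℂ} (h : Bd κ M Λ G) {T : ℝ} (hT : 1 < T) {u : ℝ}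
    (hu : κ * Real.log T ≤ u) : WG T G u = 0 := by
  have hL : 0 < Real.log T := Real.log_pos hT
  unfold WG
  rw [h.supp, mul_zero]
  refine le_trans ?_ (le_abs_self _)
  rw [le_div_iff₀ hL]
  exact hu

lemma log3 {T : ℝ} (hT : 3 ≤ T) : 1 ≤ Real.log T := by
  rw [Real.le_log_iff_exp_le (by linarith)]
  have := Real.exp_one_lt_d9
  linarith

lemma btG {κ M Λ : ℝ} {G : ℝ → ℂ} (h : Bd κ M Λ G) (hκ : κ ≤ 1) {T : ℝ} (hT : 3 ≤ T) (x : ℝ) :
    ‖bt T (WG T G) x‖ ≤ 64 * M / Real.log T / (1 + (Real.log x / Real.log T) ^ 2) := by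
  have hL1 := log3 hT
  have hL : 0 < Real.log T := by linarith
  have hM := h.M0
  have h1 := bt_dec (by linarith : 1 ≤ T) (WG_cont h T) (x := x) (A := 4 * M / Real.log T)
    (e := 1 / Real.log T) (by positivity) (by
      rw [abs_of_pos (by positivity), div_le_one hL]
      exact hL1) (fun u => by
      rcases le_or_gt κ (|u / Real.log T|) with h2 | h2
      · have : WG T G u = 0 := by
          unfold WG
          rw [h.supp _ h2, mul_zero]
        rw [this, norm_zero]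
        positivity
      · refine (WG_bd h (by linarith) u).trans ?_
        rw [div_div, div_le_div_iff₀ hL (by positivity)]
        have h3 : (1 / Real.log T * u) ^ 2 ≤ 1 := by
          have e : 1 / Real.log T * u = u / Real.log T := by ring
          rw [e, ← sq_abs]
          have : |u / Real.log T| ≤ 1 := by linarith
          nlinarith [abs_nonneg (u / Real.log T)]
        have h4 : 2 * M * (Real.log T * (1 + (1 / Real.log T * u) ^ 2)) ≤ 2 * M * (Real.log T * 2) := by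
          gcongr
          linarith
        linarith)
  refine h1.trans (le_of_eq ?_)
  have e : 1 / Real.log T * Real.log x = Real.log x / Real.log T := by ring
  rw [e]
  ring

lemma bt_add {T : ℝ} {W W' : ℝ → ℂ} (hW : Continuous W) (hW' : Continuous W') (a b : ℂ) (x : ℝ) :
    bt T (fun u => a * W u + b * W' u) x = a * bt T W x + b * bt T W' x := by
  unfold SP.bt
  have h1 : ∫ u in (0 : ℝ)..Real.log T, (a * W u + b * W' u) * (Real.exp (-(u - Real.log x) ^ 2 / 2) : ℂ) =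
      a * (∫ u in (0 : ℝ)..Real.log T, W u * (Real.exp (-(u - Real.log x) ^ 2 / 2) : ℂ)) +
      b * ∫ u in (0 : ℝ)..Real.log T, W' u * (Real.exp (-(u - Real.log x) ^ 2 / 2) : ℂ) := by
    rw [← intervalIntegral.integral_const_mul, ← intervalIntegral.integral_const_mul,
      ← intervalIntegral.integral_add]
    · refine intervalIntegral.integral_congr fun u _ => ?_
      show (a * W u + b * W' u) * _ = a * (W u * _) + b * (W' u * _)
      ring
    · apply Continuous.intervalIntegrable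
      fun_prop
    · apply Continuous.intervalIntegrable
      fun_prop
  rw [h1]
  ring

lemma WG_add (T : ℝ) (G G' : ℝ → ℂ) (a b : ℂ) :
    WG T (fun ξ => a * G ξ + b * G' ξ) = fun u => a * WG T G u + b * WG T G' u := by
  funext u
  unfold WG
  ring

lemma PG_add {κ M Λ M' Λ' : ℝ} {G G' : ℝ → ℂ} (h : Bd κ M Λ G) (h' : Bd κ M' Λ' G') (a b : ℝ) (T t : ℝ) :
    PG κ (fun ξ => (a : ℂ) * G ξ + (b : ℂ) * G' ξ) T t = a * PG κ G T t + b * PG κ G' T t := by
  unfold PG
  have h1 : PP (zp T (WG T fun ξ => (a : ℂ) * G ξ + (b : ℂ) * G' ξ)) (XX κ T) t =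
      (a : ℂ) * PP (zp T (WG T G)) (XX κ T) t + (b : ℂ) * PP (zp T (WG T G')) (XX κ T) t := by
    unfold Pool.Agent.R320.JL.PP zp
    rw [Finset.mul_sum, Finset.mul_sum, ← Finset.sum_add_distrib]
    refine Finset.sum_congr rfl fun p _ => ?_
    rw [WG_add, bt_add (WG_cont h T) (WG_cont h' T)]
    ring
  rw [h1, Complex.add_re, Complex.re_ofReal_mul, Complex.re_ofReal_mul]

lemma EG_add {κ M Λ M' Λ' : ℝ} {G G' : ℝ → ℂ} (h : Bd κ M Λ G) (h' : Bd κ M' Λ' G') (a b : ℝ) {T : ℝ}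
    (hT : 3 ≤ T) (t : ℝ) :
    EG (fun ξ => (a : ℂ) * G ξ + (b : ℂ) * G' ξ) T t = a * EG G T t + b * EG G' T t := by
  unfold EG
  have hT1 : 1 < T := by linarith
  have s1 := SP.ppf_summable T t hT1.le (WG T G) _ (fun u _ => WG_bd h hT1 u)
  have s2 := SP.ppf_summable T t hT1.le (WG T G') _ (fun u _ => WG_bd h' hT1 u)
  have h1 : ps T t (WG T fun ξ => (a : ℂ) * G ξ + (b : ℂ) * G' ξ) =
      (a : ℂ) * ps T t (WG T G) + (b : ℂ) * ps T t (WG T G') := by
    have e1 : ps T t (WG T G) = ∑' n, SP.ppf T t (WG T G) n := rfl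
    have e2 : ps T t (WG T G') = ∑' n, SP.ppf T t (WG T G') n := rfl
    have e3 : ps T t (WG T fun ξ => (a : ℂ) * G ξ + (b : ℂ) * G' ξ) =
      ∑' n, SP.ppf T t (WG T fun ξ => (a : ℂ) * G ξ + (b : ℂ) * G' ξ) n := rfl
    rw [e1, e2, e3, ← tsum_mul_left, ← tsum_mul_left, ← (s1.mul_left _).tsum_add (s2.mul_left _)]
    refine tsum_congr fun n => ?_
    unfold SP.ppf
    rw [WG_add, bt_add (WG_cont h T) (WG_cont h' T)]
    ring
  rw [h1, Complex.add_re, Complex.re_ofReal_mul, Complex.re_ofReal_mul]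

/-- the coefficients are small -/
lemma zp_small {κ M Λ : ℝ} {G : ℝ → ℂ} (h : Bd κ M Λ G) (hκ : κ ≤ 1) {T : ℝ} (hT : 3 ≤ T) (p : ℕ) :
    ‖zp T (WG T G) p‖ ^ 2 ≤ (64 * M / Real.log T) ^ 2 := by
  have hL1 := log3 hT
  have hL : 0 < Real.log T := by linarith
  have hM := h.M0
  apply pow_le_pow_left₀ (norm_nonneg _)
  unfold zp
  rw [norm_mul, Complex.norm_real, Real.norm_of_nonneg (by
    have := Real.log_natCast_nonneg p
    positivity)]
  have h1 := log_sqrt_le p
  have h2 : ‖bt T (WG T G) p‖ ≤ 64 * M / Real.log T :=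
    (btG h hκ hT p).trans (div_le_self (by positivity) (by
      have : 0 ≤ (Real.log p / Real.log T) ^ 2 := sq_nonneg _
      linarith))
  calc Real.log p / Real.sqrt p * ‖bt T (WG T G) p‖ ≤ 1 * (64 * M / Real.log T) := by
        have := Real.log_natCast_nonneg p
        gcongr
    _ = _ := one_mul _

/-- the test function of Mertens' theorem -/
lemma HG {κ M Λ : ℝ} {G : ℝ → ℂ} (h : Bd κ M Λ G) (hκ : κ ≤ 1) : ∃ C : ℝ, 0 < C ∧ ∀ T : ℝ, 10 ≤ T →
    |(1 / Real.log T) * ∑ p ∈ (Finset.Icc 1 ⌊T⌋₊).filter Nat.Prime,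
      Real.log p / p * (4 * (Real.log p / Real.log T) * ‖G (Real.log p / Real.log T)‖ ^ 2) - 2 * Vr G| ≤
      C / Real.log T := by
  have hM := h.M0
  have hΛ := h.L0
  -- a Lipschitz function
  obtain ⟨F, hF⟩ : ∃ F : ℝ → ℝ, F = fun u => 4 * |u| * ‖G u‖ ^ 2 := ⟨_, rfl⟩
  have hFz : ∀ u, 1 ≤ |u| → F u = 0 := by
    intro u hu
    rw [hF]
    simp only
    rw [h.supp u (hκ.trans hu)]
    simp
  have hFl1 : ∀ u v, |u| ≤ 1 → |F u - F v| ≤ (4 * M ^ 2 + 8 * M * Λ) * |u - v| := by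
    intro u v hu
    have e1 : F u - F v = 4 * |u| * ((‖G u‖ + ‖G v‖) * (‖G u‖ - ‖G v‖)) + 4 * (|u| - |v|) * ‖G v‖ ^ 2 := by
      rw [hF]; ring
    rw [e1]
    have b1 : |4 * |u| * ((‖G u‖ + ‖G v‖) * (‖G u‖ - ‖G v‖))| ≤ 4 * 1 * ((M + M) * (Λ * |u - v|)) := by
      rw [abs_mul, abs_mul, abs_mul, abs_abs, abs_of_pos (by norm_num : (0 : ℝ) < 4),
        abs_of_nonneg (by positivity : 0 ≤ ‖G u‖ + ‖G v‖)]
      have := h.bd u
      have := h.bd v
      have := (abs_norm_sub_norm_le (G u) (G v)).trans (h.lip u v)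
      gcongr
    have b2 : |4 * (|u| - |v|) * ‖G v‖ ^ 2| ≤ 4 * |u - v| * M ^ 2 := by
      rw [abs_mul, abs_mul, abs_of_pos (by norm_num : (0 : ℝ) < 4), abs_of_nonneg (sq_nonneg ‖G v‖)]
      have := h.bd v
      have := abs_abs_sub_abs_le u v
      gcongr
    refine (abs_add_le _ _).trans ((add_le_add b1 b2).trans (le_of_eq ?_))
    ring
  have hFl : ∀ u v, |F u - F v| ≤ (4 * M ^ 2 + 8 * M * Λ) * |u - v| := by
    intro u v
    rcases le_or_gt (|u|) 1 with hu | hu
    · exact hFl1 u v hu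
    · rcases le_or_gt (|v|) 1 with hv | hv
      · rw [abs_sub_comm, abs_sub_comm u v]
        exact hFl1 v u hv
      · rw [hFz u hu.le, hFz v hv.le, sub_zero, abs_zero]
        positivity
  obtain ⟨H, hH⟩ : ∃ H : ℝ → ℂ, H = fun u => ((F u : ℝ) : ℂ) := ⟨_, rfl⟩
  have hLip : LipschitzWith (⟨4 * M ^ 2 + 8 * M * Λ, by positivity⟩ : ℝ≥0) H := by
    refine LipschitzWith.of_dist_le_mul fun x y => ?_
    rw [dist_eq_norm, Real.dist_eq, hH]
    simp only
    rw [← Complex.ofReal_sub, Complex.norm_real, Real.norm_eq_abs]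
    exact hFl x y
  obtain ⟨C, hC, hm⟩ := SP.mert H _ hLip (fun u hu => by
    rw [hH]
    simp only
    rw [hFz u (hu.trans (le_abs_self u)), Complex.ofReal_zero])
  refine ⟨C, hC, fun T hT => ?_⟩
  have h1 := hm T hT
  have hI : (∫ u in (0 : ℝ)..1, H u) = ((2 * Vr G : ℝ) : ℂ) := by
    rw [hH, intervalIntegral.integral_ofReal]
    congr 1
    unfold Vr
    rw [← mul_assoc, ← intervalIntegral.integral_const_mul]
    refine intervalIntegral.integral_congr fun u hu => ?_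
    rw [uIcc_of_le zero_le_one] at hu
    rw [hF]
    simp only
    rw [abs_of_nonneg hu.1]
    ring
  have hS : ((1 / Real.log T : ℝ) : ℂ) * ∑ p ∈ (Finset.Icc 1 ⌊T⌋₊).filter Nat.Prime,
      ((Real.log p / p : ℝ) : ℂ) * H (Real.log p / Real.log T) =
      (((1 / Real.log T) * ∑ p ∈ (Finset.Icc 1 ⌊T⌋₊).filter Nat.Prime,
      Real.log p / p * (4 * (Real.log p / Real.log T) * ‖G (Real.log p / Real.log T)‖ ^ 2) : ℝ) : ℂ) := by
    rw [Complex.ofReal_mul, Complex.ofReal_sum]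
    congr 1
    refine Finset.sum_congr rfl fun p _ => ?_
    rw [hH, hF]
    simp only
    rw [← Complex.ofReal_mul, abs_of_nonneg (div_nonneg (Real.log_natCast_nonneg p) (Real.log_nonneg (by linarith)))]
  rw [hI, hS, ← Complex.ofReal_sub, Complex.norm_real, Real.norm_eq_abs] at h1
  exact h1

/-- **the variance of the prime polynomial** -/
theorem varG {κ M Λ : ℝ} {G : ℝ → ℂ} (h : Bd κ M Λ G) (hκ0 : 0 < κ) (hκ : κ ≤ 1 / 4) :
    ∃ C T0 : ℝ, 0 < C ∧ 10 ≤ T0 ∧ ∀ T : ℝ, T0 ≤ T →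
    |VS (nz (zp T (WG T G))) (XX κ T) - 2 * Vr G| ≤ C / Real.sqrt (Real.log T) := by
  have hM := h.M0
  have hΛ := h.L0
  obtain ⟨C1, hC1, h1⟩ := HG h (by linarith)
  obtain ⟨C0, hC0, h0⟩ := wm_a
  obtain ⟨C3, hC3⟩ : ∃ C3 : ℝ, C3 = 66 * M + 16 * Λ + 16 * M := ⟨_, rfl⟩
  have hC30 : 0 ≤ C3 := by rw [hC3]; positivity
  refine ⟨C1 + 66 * M * C3 * (1 + C0) + 1, Real.exp 16, by positivity, ?_, fun T hT => ?_⟩
  · have := Real.add_one_le_exp (16 : ℝ)
    linarith
  have hT0 : 0 < T := (Real.exp_pos _).trans_le hT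
  have hT10 : 10 ≤ T := by
    have := Real.add_one_le_exp (16 : ℝ)
    linarith
  have hL16 : 16 ≤ Real.log T := by rw [Real.le_log_iff_exp_le hT0]; exact hT
  obtain ⟨L, hL⟩ : ∃ L : ℝ, L = Real.log T := ⟨_, rfl⟩
  have g1 := h1 T hT10
  rw [← hL] at hL16 g1 ⊢
  have hL0 : 0 < L := by linarith
  obtain ⟨s, hs⟩ : ∃ s : ℝ, s = Real.sqrt L := ⟨_, rfl⟩
  have hs2 : s ^ 2 = L := by rw [hs, Real.sq_sqrt hL0.le]
  have hs4 : 4 ≤ s := by
    rw [hs]
    apply Real.le_sqrt_of_sq_le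
    linarith
  have hs0 : 0 < s := by linarith
  rw [← hs]
  obtain ⟨X, hX⟩ : ∃ X : ℕ, X = XX κ T := ⟨_, rfl⟩
  rw [← hX]
  obtain ⟨b, hb⟩ : ∃ b : ℕ → ℝ, b = fun p : ℕ => ‖bt T (WG T G) p‖ := ⟨_, rfl⟩
  obtain ⟨c, hc⟩ : ∃ c : ℕ → ℝ, c = fun p : ℕ => ‖WG T G (Real.log p)‖ := ⟨_, rfl⟩
  have hbb : ∀ p, b p ≤ 64 * M / L := by
    intro p
    rw [hb, hL]
    refine (btG h (by linarith) (by linarith) p).trans (div_le_self ?_ ?_)
    · rw [← hL]; positivity
    · have : 0 ≤ (Real.log p / Real.log T) ^ 2 := sq_nonneg _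
      linarith
  have hcb : ∀ p, c p ≤ 2 * M / L := by
    intro p
    rw [hc, hL]
    exact WG_bd h (by linarith) _
  have hb0 : ∀ p, 0 ≤ b p := fun p => by rw [hb]; exact norm_nonneg _
  have hc0 : ∀ p, 0 ≤ c p := fun p => by rw [hc]; exact norm_nonneg _
  -- the difference
  have hlogX : ∀ p ∈ Pr X, Real.log p ≤ L / 2 := by
    intro p hp
    obtain ⟨hpp, hpX⟩ := mem_Pr.1 hp
    have hp0 : (0 : ℝ) < p := by exact_mod_cast hpp.pos
    have h2 : (p : ℝ) ≤ Real.exp (2 * (κ * Real.log T)) := by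
      have h3 : (p : ℝ) ≤ X := by exact_mod_cast hpX
      refine h3.trans ?_
      rw [hX]
      exact Nat.floor_le (Real.exp_pos _).le
    have h3 := Real.log_le_log hp0 h2
    rw [Real.log_exp, ← hL] at h3
    nlinarith
  have hdif : ∀ p ∈ Pr X, Real.log p * |b p - c p| ≤ C3 / s := by
    intro p hp
    have hlp := Real.log_natCast_nonneg p
    have hp2 := hlogX p hp
    rcases le_or_gt s (Real.log p) with h2 | h2
    · have h3 := bt_near (by linarith : (1 : ℝ) ≤ T) (WG_cont h T) (x := (p : ℝ)) (A := 2 * M / L)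
        (Λ := 2 * Λ / L ^ 2) (m := s) (fun u => by rw [hL]; exact WG_bd h (by linarith) u)
        (fun u v => by rw [hL]; exact WG_lip h (by linarith) u v) hs0.le h2 (by
          rw [← hL]
          nlinarith)
      have h4 : |b p - c p| ≤ 8 * (2 * Λ / L ^ 2) + 2 * (2 * M / L) * Real.exp (-s ^ 2 / 4) := by
        rw [hb, hc]
        exact (abs_norm_sub_norm_le _ _).trans h3
      have h5 : Real.exp (-s ^ 2 / 4) ≤ 4 / L := by
        rw [hs2]
        have h6 : Real.exp (-L / 4) = (Real.exp (L / 4))⁻¹ := by rw [← Real.exp_neg]; congr 1; ring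
        have h7 := Real.add_one_le_exp (L / 4)
        rw [h6]
        refine (inv_anti₀ (by positivity) (by linarith : L / 4 ≤ Real.exp (L / 4))).trans (le_of_eq ?_)
        field_simp
      have h8 : |b p - c p| ≤ (16 * Λ + 16 * M) / L ^ 2 := by
        refine h4.trans ?_
        calc 8 * (2 * Λ / L ^ 2) + 2 * (2 * M / L) * Real.exp (-s ^ 2 / 4) ≤
            8 * (2 * Λ / L ^ 2) + 2 * (2 * M / L) * (4 / L) := by gcongr
          _ = _ := by field_simp; ring
      calc Real.log p * |b p - c p| ≤ L * ((16 * Λ + 16 * M) / L ^ 2) := by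
            apply mul_le_mul (by linarith) h8 (abs_nonneg _) hL0.le
        _ = (16 * Λ + 16 * M) / L := by field_simp
        _ ≤ C3 / s := by
            rw [hC3]
            apply div_le_div₀ (by positivity) (by linarith) hs0
            rw [← hs2]
            nlinarith
    · have h4 : |b p - c p| ≤ 66 * M / L := by
        have := hbb p
        have := hcb p
        have := hb0 p
        have := hc0 p
        have e : 66 * M / L = 64 * M / L + 2 * M / L := by ring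
        rw [e, abs_le]
        constructor <;> linarith
      calc Real.log p * |b p - c p| ≤ s * (66 * M / L) :=
            mul_le_mul h2.le h4 (abs_nonneg _) hs0.le
        _ = 66 * M / s := by rw [← hs2]; field_simp
        _ ≤ C3 / s := by
            apply div_le_div_of_nonneg_right _ hs0.le
            rw [hC3]; linarith
  have hVS : VS (nz (zp T (WG T G))) X = ∑ p ∈ Pr X, Real.log p / p * (Real.log p * b p ^ 2) := by
    unfold Pool.Agent.Y743.CL.VS Pool.Agent.R320.JL.nz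
    refine Finset.sum_congr rfl fun p hp => ?_
    have hp0 : (0 : ℝ) < p := by exact_mod_cast (mem_Pr.1 hp).1.pos
    unfold zp
    rw [norm_mul, Complex.norm_real, Real.norm_of_nonneg (by
      have := Real.log_natCast_nonneg p
      positivity), mul_pow, div_pow, Real.sq_sqrt hp0.le, hb]
    ring
  have hmid : |(∑ p ∈ Pr X, Real.log p / p * (Real.log p * b p ^ 2)) -
      ∑ p ∈ Pr X, Real.log p / p * (Real.log p * c p ^ 2)| ≤ 66 * M * C3 * (1 + C0) / s := by
    rw [← Finset.sum_sub_distrib]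
    refine (Finset.abs_sum_le_sum_abs _ _).trans ?_
    have h2 : ∀ p ∈ Pr X, |Real.log p / p * (Real.log p * b p ^ 2) - Real.log p / p * (Real.log p * c p ^ 2)| ≤
        Real.log p / p * (66 * M / L * (C3 / s)) := by
      intro p hp
      have hlp := Real.log_natCast_nonneg p
      have e : Real.log p / p * (Real.log p * b p ^ 2) - Real.log p / p * (Real.log p * c p ^ 2) =
          Real.log p / p * ((b p + c p) * (Real.log p * (b p - c p))) := by ring
      have hbc : 0 ≤ b p + c p := add_nonneg (hb0 p) (hc0 p)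
      rw [e, abs_mul, abs_mul, abs_mul, abs_of_nonneg hbc, abs_of_nonneg hlp,
        abs_of_nonneg (div_nonneg hlp (Nat.cast_nonneg p))]
      apply mul_le_mul_of_nonneg_left _ (div_nonneg hlp (Nat.cast_nonneg p))
      apply mul_le_mul _ (hdif p hp) (by positivity) (by positivity)
      have := hbb p
      have := hcb p
      have e2 : 66 * M / L = 64 * M / L + 2 * M / L := by ring
      rw [e2]
      linarith
    refine (Finset.sum_le_sum h2).trans ?_
    rw [← Finset.sum_mul]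
    have h3 : ∑ p ∈ Pr X, Real.log p / (p : ℝ) ≤ L + C0 := by
      have h4 := h0 X 1 L one_pos hL0.le
      rw [Finset.filter_true_of_mem (fun p hp => by
        rw [one_mul]
        have := hlogX p hp
        linarith)] at h4
      simp only [mul_one] at h4
      exact h4
    calc (∑ p ∈ Pr X, Real.log p / (p : ℝ)) * (66 * M / L * (C3 / s)) ≤ (L + C0) * (66 * M / L * (C3 / s)) := by
          gcongr
      _ ≤ (L + C0 * L) * (66 * M / L * (C3 / s)) := by
          gcongr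
          nlinarith
      _ = _ := by field_simp
  have hsum : ∑ p ∈ Pr X, Real.log p / p * (Real.log p * c p ^ 2) =
      (1 / L) * ∑ p ∈ (Finset.Icc 1 ⌊T⌋₊).filter Nat.Prime,
      Real.log p / p * (4 * (Real.log p / L) * ‖G (Real.log p / L)‖ ^ 2) := by
    rw [Finset.mul_sum]
    have e : ∀ p : ℕ, Real.log p / p * (Real.log p * c p ^ 2) =
        1 / L * (Real.log p / p * (4 * (Real.log p / L) * ‖G (Real.log p / L)‖ ^ 2)) := by
      intro p
      rw [hc]
      simp only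
      unfold WG
      rw [norm_mul, Complex.norm_real, ← hL, Real.norm_of_nonneg (by positivity)]
      field_simp
      ring
    simp_rw [e]
    apply Finset.sum_subset
    · intro p hp
      obtain ⟨hpp, hpX⟩ := mem_Pr.1 hp
      refine Finset.mem_filter.2 ⟨Finset.mem_Icc.2 ⟨hpp.one_le, ?_⟩, hpp⟩
      apply Nat.le_floor
      have hp0 : (0 : ℝ) < p := by exact_mod_cast hpp.pos
      have h2 := hlogX p hp
      rw [← Real.exp_log hp0, ← Real.exp_log hT0, ← hL]
      exact Real.exp_le_exp.2 (by linarith)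
    · intro p hp hp2
      obtain ⟨hp3, hpp⟩ := Finset.mem_filter.1 hp
      have hp0 : (0 : ℝ) < p := by exact_mod_cast hpp.pos
      have h2 : X < p := by
        by_contra hcon
        push Not at hcon
        exact hp2 (mem_Pr.2 ⟨hpp, hcon⟩)
      have h3 : Real.exp (2 * (κ * Real.log T)) < p := by
        rw [hX] at h2
        exact (Nat.floor_lt (Real.exp_pos _).le).1 h2
      have h4 : 2 * (κ * Real.log T) ≤ Real.log p := by
        rw [Real.le_log_iff_exp_le hp0]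
        exact h3.le
      rw [← hL] at h4
      rw [h.supp]
      · simp
      · refine le_trans ?_ (le_abs_self _)
        rw [le_div_iff₀ hL0]
        have : 0 < κ * L := by positivity
        linarith
  rw [hVS]
  rw [hsum] at hmid
  have h9 : C1 / L ≤ C1 / s := by
    apply div_le_div_of_nonneg_left hC1.le hs0
    rw [← hs2]
    nlinarith
  have e9 : (C1 + 66 * M * C3 * (1 + C0) + 1) / s = C1 / s + 66 * M * C3 * (1 + C0) / s + 1 / s := by ring
  rw [e9]
  have h10 : 0 < 1 / s := by positivity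
  have a1 := abs_le.1 hmid
  have a2 := abs_le.1 g1
  rw [abs_le]
  constructor <;> linarith [a1.1, a1.2, a2.1, a2.2]

end

end Pool.Agent.K6.H57.MX
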