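import Pool.Agent.K6.H57.MX.Kn

/-! # The counting function -/

set_option autoImplicit false

open MeasureTheory Set Filter Topology
open scoped ContDiff NNReal

namespace Pool.Agent.K6.H57.MX

open Pool.Agent.K6.H57.ML
open SG (ord NZ)

noncomputable section

/-- the discrepancy -/
def DD (T t v : ℝ) : ℝ := (NZ (t + 2 * Real.pi * v / Real.log T) : ℝ) - NZ t - v

lemma cnt_eq {T t δ : ℝ} (hT : T ≤ t) (hδ : 0 ≤ δ) (h2 : t + δ ≤ 2 * T) :
    ((NZ (t + δ) : ℝ) - NZ t) = ∑ n ∈ Finset.Ioc (NZ T) (NZ (2 * T)),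
      if t < ord n ∧ ord n ≤ t + δ then (1 : ℝ) else 0 := by
  have h3 : Finset.Ioc (NZ t) (NZ (t + δ)) =
      (Finset.Ioc (NZ T) (NZ (2 * T))).filter fun n => t < ord n ∧ ord n ≤ t + δ := by
    have m1 := SG.NZ_mono hT
    have m2 := SG.NZ_mono h2
    ext n
    rw [Finset.mem_filter, Finset.mem_Ioc, Finset.mem_Ioc]
    constructor
    · rintro ⟨h4, h5⟩
      have hn : 1 ≤ n := by omega
      refine ⟨⟨by omega, by omega⟩, ?_, (SG.ord_le_iff hn _).2 h5⟩
      by_contra hcon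
      push Not at hcon
      have := (SG.ord_le_iff hn _).1 hcon
      omega
    · rintro ⟨⟨h4, -⟩, h5, h6⟩
      have hn : 1 ≤ n := by omega
      refine ⟨?_, (SG.ord_le_iff hn _).1 h6⟩
      by_contra hcon
      push Not at hcon
      have := (SG.ord_le_iff hn _).2 hcon
      linarith
  rw [← Finset.sum_filter, ← h3, Finset.sum_const, Nat.card_Ioc, nsmul_eq_mul, mul_one,
    Nat.cast_sub (SG.NZ_mono (by linarith))]

/-- the window -/
def wn (v x : ℝ) : ℝ := if 0 < x ∧ x ≤ v then 1 else 0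

lemma cnt_DS {T t v : ℝ} (hL : 0 < Real.log T) (hT : T ≤ t) (hv : 0 ≤ v)
    (h2 : t + 2 * Real.pi * v / Real.log T ≤ 2 * T) :
    |((NZ (t + 2 * Real.pi * v / Real.log T) : ℝ) - NZ t) - DS (wn v) T t| ≤
      ((NZ (t + 2 * Real.pi * v / Real.log T) : ℝ) - NZ t) * ((2 * Real.pi * v / Real.log T) ^ 2 / 2) := by
  have hpi := Real.pi_pos
  obtain ⟨δ, hδ⟩ : ∃ δ : ℝ, δ = 2 * Real.pi * v / Real.log T := ⟨_, rfl⟩
  have hδ0 : 0 ≤ δ := by rw [hδ]; positivity
  rw [← hδ] at h2 ⊢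
  rw [cnt_eq hT hδ0 h2]
  unfold DS
  rw [← Finset.sum_sub_distrib, Finset.sum_mul]
  refine (Finset.abs_sum_le_sum_abs _ _).trans (Finset.sum_le_sum fun n _ => ?_)
  have e1 : (0 < Real.log T * (ord n - t) / (2 * Real.pi)) ↔ t < ord n := by
    constructor
    · intro h
      by_contra hcon
      push Not at hcon
      have : Real.log T * (ord n - t) / (2 * Real.pi) ≤ 0 := by
        apply div_nonpos_of_nonpos_of_nonneg _ (by positivity)
        exact mul_nonpos_of_nonneg_of_nonpos hL.le (by linarith)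
      linarith
    · intro h
      have : 0 < ord n - t := by linarith
      positivity
  have e2 : (Real.log T * (ord n - t) / (2 * Real.pi) ≤ v) ↔ ord n ≤ t + δ := by
    rw [hδ, div_le_iff₀ (by positivity), ← sub_le_iff_le_add', le_div_iff₀ hL]
    constructor <;> intro h <;> linarith
  simp only [wn, e1, e2]
  split_ifs with h
  · rw [mul_one, one_mul, abs_of_nonneg (by
      have : Real.exp (-(ord n - t) ^ 2 / 2) ≤ 1 := by
        rw [Real.exp_le_one_iff]
        nlinarith [sq_nonneg (ord n - t)]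
      linarith)]
    have h3 := Real.add_one_le_exp (-(ord n - t) ^ 2 / 2)
    have h4 : (ord n - t) ^ 2 ≤ δ ^ 2 := by
      apply pow_le_pow_left₀ (by linarith [h.1])
      linarith [h.2]
    linarith
  · simp

lemma DS_mono {f g h : ℝ → ℝ} (hfg : ∀ x, |f x - g x| ≤ h x) (T t : ℝ) : |DS f T t - DS g T t| ≤ DS h T t := by
  unfold DS
  rw [← Finset.sum_sub_distrib]
  refine (Finset.abs_sum_le_sum_abs _ _).trans (Finset.sum_le_sum fun n _ => ?_)
  rw [← mul_sub, abs_mul, abs_of_pos (Real.exp_pos _)]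
  exact mul_le_mul_of_nonneg_left (hfg _) (Real.exp_pos _).le

lemma DS_comb (f g : ℝ → ℝ) (c T t : ℝ) : DS (fun x => c * (f x + g x)) T t = c * (DS f T t + DS g T t) := by
  unfold DS
  rw [← Finset.sum_add_distrib, Finset.mul_sum]
  refine Finset.sum_congr rfl fun n _ => ?_
  ring

lemma Gl_zero (s v : ℝ) : (Gl s v 0).re = v := by
  unfold Gl Ev
  rw [mul_zero, chi_one (by norm_num)]
  simp

/-- **the counting function and the prime sides** -/
theorem DD_EG (RH : RiemannHypothesis) : ∃ C1 : ℝ, 0 < C1 ∧ ∀ s v : ℝ, 1 ≤ s → 0 ≤ v →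
    ∀ᶠ T in atTop, ∀ t ∈ Wd T, |DD T t v + EG (Gl s v) T t| ≤
      C1 * (4 * s + |EG (Gk s) T t| + |EG (Sh v (Gk s)) T t|) + 1 := by
  obtain ⟨C, hC, hpt⟩ := ptb
  obtain ⟨C4, hC4, hunit⟩ := Pool.Agent.Y743.NC.unit_count
  obtain ⟨C0, T0, hC0, hT0, hxf⟩ := xf RH
  refine ⟨C, hC, fun s v hs hv => ?_⟩
  have hpi := Real.pi_pos
  have hs0 : 0 < s := by linarith
  obtain ⟨Λ, hGl⟩ := Gl_Bd (a := s) (v := v) hs0 hv
  have hGk := Gk_Bd hs0
  have hGs := hGk.sh v
  have hs1 : 1 / s ≤ 1 := by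
    rw [div_le_one hs0]
    exact hs
  have hlog := Real.tendsto_log_atTop
  have lim : ∀ A : ℝ, ∀ η : ℝ, 0 < η → ∀ᶠ T in atTop, A / Real.log T ≤ η := fun A η hη =>
    (hlog.const_div_atTop A).eventually_le_const hη
  filter_upwards [lim (C0 * (v + Λ)) (1 / 4) (by norm_num),
    lim (C0 * (2 * s + s * (2 * s + Real.pi * s))) (1 / (8 * C)) (by positivity),
    lim (C0 * (2 * s + (s * (2 * s + Real.pi * s) + 2 * Real.pi * |v| * (2 * s)))) (1 / (8 * C)) (by positivity),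
    lim (2 * Real.pi * v) 1 (by norm_num), lim (4 * Real.pi ^ 2 * C4 * v ^ 2) (1 / 4) (by norm_num),
    eventually_ge_atTop T0, eventually_ge_atTop 10] with T g1 g2 g3 g4 g5 g6 g7 t ht
  have hT1 : 1 < T := by linarith
  have hL1 := log3 (by linarith : (3 : ℝ) ≤ T)
  have hL : 0 < Real.log T := by linarith
  unfold Wd at ht
  rw [mem_Icc] at ht
  obtain ⟨ht1, ht2⟩ := ht
  have a1 := hxf T g6 t ht1 ht2 _ _ _ _ hs1 hGl
  have a2 := hxf T g6 t ht1 ht2 _ _ _ _ hs1 hGk
  have a3 := hxf T g6 t ht1 ht2 _ _ _ _ hs1 hGs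
  rw [Gl_zero] at a1
  rw [Gk_zero] at a2
  have e0 : (Sh v (Gk s) 0).re = 2 * s := by
    unfold Sh
    rw [mul_zero, neg_zero, Complex.ofReal_zero, zero_mul, Complex.exp_zero, one_mul, Gk_zero]
  rw [e0] at a3
  have hδ1 : 2 * Real.pi * v / Real.log T ≤ 1 := g4
  have b1 := cnt_DS hL (by linarith : T ≤ t) hv (by linarith)
  obtain ⟨Nn, hNn⟩ : ∃ Nn : ℝ, Nn = (NZ (t + 2 * Real.pi * v / Real.log T) : ℝ) - NZ t := ⟨_, rfl⟩
  have hNN : Nn ≤ C4 * (2 * Real.log T) := by
    have h1 := hunit t (by linarith)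
    have h2 : (NZ (t + 2 * Real.pi * v / Real.log T) : ℝ) ≤ NZ (t + 1) := by
      exact_mod_cast SG.NZ_mono (by linarith)
    have h3 : Real.log t ≤ 2 * Real.log T := by
      have : Real.log t ≤ Real.log (T * T) := Real.log_le_log (by linarith) (by nlinarith)
      rw [Real.log_mul (by linarith) (by linarith)] at this
      linarith
    have h4 : C4 * Real.log t ≤ C4 * (2 * Real.log T) := mul_le_mul_of_nonneg_left h3 hC4.le
    linarith
  have hNN0 : 0 ≤ Nn := by
    rw [hNn, sub_nonneg]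
    exact_mod_cast SG.NZ_mono (by
      have : 0 ≤ 2 * Real.pi * v / Real.log T := by positivity
      linarith)
  rw [← hNn] at b1
  have b2 : Nn * ((2 * Real.pi * v / Real.log T) ^ 2 / 2) ≤ 1 / 4 := by
    refine le_trans ?_ g5
    calc Nn * ((2 * Real.pi * v / Real.log T) ^ 2 / 2) ≤
        C4 * (2 * Real.log T) * ((2 * Real.pi * v / Real.log T) ^ 2 / 2) := by gcongr
      _ = _ := by
        field_simp
        ring
  have b3 := DS_mono (f := wn v) (g := fG (Gl s v)) (h := fun x => C * (fG (Gk s) x + fG (Sh v (Gk s)) x))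
    (fun x => by
      rw [fG_Sh, fG_Gk hs, fG_Gk hs]
      exact hpt s v x hs hv) T t
  rw [DS_comb] at b3
  have c2 : DS (fG (Gk s)) T t ≤ 2 * s + |EG (Gk s) T t| + 1 / (8 * C) := by
    have h1 := (abs_le.1 (a2.trans g2)).2
    have h2 := neg_abs_le (EG (Gk s) T t)
    linarith
  have c3 : DS (fG (Sh v (Gk s))) T t ≤ 2 * s + |EG (Sh v (Gk s)) T t| + 1 / (8 * C) := by
    have h1 := (abs_le.1 (a3.trans g3)).2
    have h2 := neg_abs_le (EG (Sh v (Gk s)) T t)
    linarith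
  have c4 : C * (DS (fG (Gk s)) T t + DS (fG (Sh v (Gk s))) T t) ≤
      C * (4 * s + |EG (Gk s) T t| + |EG (Sh v (Gk s)) T t|) + 1 / 4 := by
    have h1 := mul_le_mul_of_nonneg_left (add_le_add c2 c3) hC.le
    refine h1.trans (le_of_eq ?_)
    field_simp
    ring
  have e1 : DD T t v + EG (Gl s v) T t = (Nn - DS (wn v) T t) + (DS (wn v) T t - DS (fG (Gl s v)) T t) +
      (DS (fG (Gl s v)) T t + EG (Gl s v) T t - v) := by
    unfold DD
    rw [hNn]
    ring
  rw [e1]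
  refine (abs_add_le _ _).trans ?_
  have h9 := abs_add_le (Nn - DS (wn v) T t) (DS (wn v) T t - DS (fG (Gl s v)) T t)
  have h10 := a1.trans g1
  linarith

end

end Pool.Agent.K6.H57.MX
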