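import Pool.Agent.K6.H57.MX.Tl

/-! # The kernels -/

set_option autoImplicit false

open MeasureTheory Set Filter Topology FourierTransform
open scoped ContDiff NNReal

namespace Pool.Agent.K6.H57.MX

open Pool.Agent.K6.H57.ML

noncomputable section

/-- shifts -/
lemma fG_Sh (v : ℝ) (G : ℝ → ℂ) (x : ℝ) : fG (Sh v G) x = fG G (x - v) := by
  unfold fG Sh
  congr 2
  refine intervalIntegral.integral_congr fun ξ _ => ?_
  show Complex.exp (((-(2 * Real.pi * v * ξ) : ℝ) : ℂ) * Complex.I) * G ξ *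
    Complex.exp (((2 * Real.pi * x * ξ : ℝ) : ℂ) * Complex.I) =
    G ξ * Complex.exp (((2 * Real.pi * (x - v) * ξ : ℝ) : ℂ) * Complex.I)
  rw [mul_comm (Complex.exp _) (G ξ), mul_assoc, ← Complex.exp_add]
  congr 2
  push_cast
  ring

/-! ### the Fejer kernel -/

/-- the Fejer kernel -/
def Fj (y : ℝ) : ℝ := 2 * ∫ ξ in (0 : ℝ)..1, (1 - ξ) * Real.cos (2 * Real.pi * y * ξ)

lemma Fj_eq {y : ℝ} (hy : y ≠ 0) : Fj y = (1 - Real.cos (2 * Real.pi * y)) / (2 * Real.pi ^ 2 * y ^ 2) := by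
  have hpi := Real.pi_pos
  obtain ⟨a, ha⟩ : ∃ a : ℝ, a = 2 * Real.pi * y := ⟨_, rfl⟩
  have ha0 : a ≠ 0 := by rw [ha]; positivity
  unfold Fj
  rw [← ha]
  have h1 : ∫ ξ in (0 : ℝ)..1, (1 - ξ) * Real.cos (a * ξ) =
      ((1 - 1) * Real.sin (a * 1) / a - Real.cos (a * 1) / a ^ 2) -
      ((1 - 0) * Real.sin (a * 0) / a - Real.cos (a * 0) / a ^ 2) := by
    apply intervalIntegral.integral_eq_sub_of_hasDerivAt
      (f := fun ξ => (1 - ξ) * Real.sin (a * ξ) / a - Real.cos (a * ξ) / a ^ 2)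
    · intro ξ _
      have h2 : HasDerivAt (fun ξ => a * ξ) a ξ := by simpa using (hasDerivAt_id' ξ).const_mul a
      have h3 : HasDerivAt (fun ξ : ℝ => 1 - ξ) (-1) ξ := by simpa using (hasDerivAt_id' ξ).const_sub 1
      have h4 := ((h3.fun_mul h2.sin).div_const a).fun_sub (h2.cos.div_const (a ^ 2))
      refine h4.congr_deriv ?_
      field_simp
      ring
    · exact Continuous.intervalIntegrable (by fun_prop) _ _
  rw [h1]
  simp only [mul_one, mul_zero, Real.sin_zero, Real.cos_zero]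
  have e : 2 * Real.pi ^ 2 * y ^ 2 = a ^ 2 / 2 := by rw [ha]; ring
  rw [e]
  field_simp
  ring

lemma Fj_zero : Fj 0 = 1 := by
  unfold Fj
  simp only [mul_zero, zero_mul, Real.cos_zero, mul_one]
  rw [intervalIntegral.integral_sub (by simp) (by simp), integral_id]
  simp
  norm_num

lemma Fj_nonneg (y : ℝ) : 0 ≤ Fj y := by
  rcases eq_or_ne y 0 with h | h
  · rw [h, Fj_zero]
    norm_num
  · rw [Fj_eq h]
    have := Real.cos_le_one (2 * Real.pi * y)
    apply div_nonneg (by linarith) (by positivity)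

/-- the majorant -/
def K2 (y : ℝ) : ℝ := Fj (y - 1 / 4) + Fj (y + 1 / 4)

lemma K2_lo (y : ℝ) : 1 / (20 * (1 + y ^ 2)) ≤ K2 y := by
  have hpi := Real.pi_pos
  have hpq := pi_sq10
  have hpq9 := pi_sq9
  unfold K2
  have h20 : 1 / (20 * (1 + y ^ 2)) ≤ 1 / 20 := by
    apply one_div_le_one_div_of_le (by norm_num)
    nlinarith [sq_nonneg y]
  rcases eq_or_ne y (1 / 4) with h | h
  · rw [h, sub_self, Fj_zero]
    have := Fj_nonneg (1 / 4 + 1 / 4)
    rw [h] at h20
    linarith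
  rcases eq_or_ne y (-(1 / 4)) with h' | h'
  · rw [h', neg_add_cancel, Fj_zero]
    have := Fj_nonneg (-(1 / 4) - 1 / 4)
    rw [h'] at h20
    linarith
  have h1 : y - 1 / 4 ≠ 0 := sub_ne_zero.2 h
  have h2 : y + 1 / 4 ≠ 0 := by
    intro hc
    apply h'
    linarith
  rw [Fj_eq h1, Fj_eq h2]
  have e1 : Real.cos (2 * Real.pi * (y - 1 / 4)) = Real.sin (2 * Real.pi * y) := by
    rw [show 2 * Real.pi * (y - 1 / 4) = 2 * Real.pi * y - Real.pi / 2 by ring, Real.cos_sub_pi_div_two]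
  have e2 : Real.cos (2 * Real.pi * (y + 1 / 4)) = -Real.sin (2 * Real.pi * y) := by
    rw [show 2 * Real.pi * (y + 1 / 4) = 2 * Real.pi * y + Real.pi / 2 by ring, Real.cos_add_pi_div_two]
  rw [e1, e2]
  obtain ⟨s, hs⟩ : ∃ s : ℝ, s = Real.sin (2 * Real.pi * y) := ⟨_, rfl⟩
  have hs1 : s ≤ 1 := by rw [hs]; exact Real.sin_le_one _
  have hs2 : -1 ≤ s := by rw [hs]; exact Real.neg_one_le_sin _
  rw [← hs]
  have q1 : 0 < (y - 1 / 4) ^ 2 := by positivity
  have q2 : 0 < (y + 1 / 4) ^ 2 := by positivity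
  have d1 : 2 * Real.pi ^ 2 * (y - 1 / 4) ^ 2 ≤ 40 * (1 + y ^ 2) := by
    have : (y - 1 / 4) ^ 2 ≤ 2 * (1 + y ^ 2) := by nlinarith [sq_nonneg (y + 1 / 4), sq_nonneg y]
    nlinarith
  have d2 : 2 * Real.pi ^ 2 * (y + 1 / 4) ^ 2 ≤ 40 * (1 + y ^ 2) := by
    have : (y + 1 / 4) ^ 2 ≤ 2 * (1 + y ^ 2) := by nlinarith [sq_nonneg (y - 1 / 4), sq_nonneg y]
    nlinarith
  have a1 : (1 - s) / (40 * (1 + y ^ 2)) ≤ (1 - s) / (2 * Real.pi ^ 2 * (y - 1 / 4) ^ 2) :=
    div_le_div_of_nonneg_left (by linarith) (by positivity) d1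
  have a2 : (1 - -s) / (40 * (1 + y ^ 2)) ≤ (1 - -s) / (2 * Real.pi ^ 2 * (y + 1 / 4) ^ 2) :=
    div_le_div_of_nonneg_left (by linarith) (by positivity) d2
  have a3 : (1 - s) / (40 * (1 + y ^ 2)) + (1 - -s) / (40 * (1 + y ^ 2)) = 1 / (20 * (1 + y ^ 2)) := by
    rw [← add_div]
    have : 1 - s + (1 - -s) = 2 := by ring
    rw [this]
    have h0 : (1 + y ^ 2) ≠ 0 := by positivity
    field_simp
    norm_num
  linarith

lemma K2_nonneg (y : ℝ) : 0 ≤ K2 y := add_nonneg (Fj_nonneg _) (Fj_nonneg _)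

/-- the weight of the majorant -/
def Gk (s ξ : ℝ) : ℂ := ((s * (max 0 (1 - |s * ξ|) * (2 * Real.cos (Real.pi / 2 * (s * ξ)))) : ℝ) : ℂ)

lemma Gk_Bd {s : ℝ} (hs : 0 < s) : Bd (1 / s) (2 * s) (s * (2 * s + Real.pi * s)) (Gk s) := by
  have hpi := Real.pi_pos
  have hf1 : ∀ ξ : ℝ, |max 0 (1 - |s * ξ|)| ≤ 1 := by
    intro ξ
    rw [abs_of_nonneg (le_max_left _ _)]
    apply max_le (by norm_num)
    linarith [abs_nonneg (s * ξ)]
  have hg1 : ∀ ξ : ℝ, |2 * Real.cos (Real.pi / 2 * (s * ξ))| ≤ 2 := by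
    intro ξ
    rw [abs_mul, abs_two]
    have := Real.abs_cos_le_one (Real.pi / 2 * (s * ξ))
    linarith
  have hf2 : ∀ ξ η : ℝ, |max 0 (1 - |s * ξ|) - max 0 (1 - |s * η|)| ≤ s * |ξ - η| := by
    intro ξ η
    rw [max_comm 0 (1 - |s * ξ|), max_comm 0 (1 - |s * η|)]
    refine (abs_max_sub_max_le_abs (1 - |s * ξ|) (1 - |s * η|) 0).trans ?_
    have e : 1 - |s * ξ| - (1 - |s * η|) = |s * η| - |s * ξ| := by ring
    rw [e]
    refine (abs_abs_sub_abs_le_abs_sub _ _).trans ?_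
    rw [← mul_sub, abs_mul, abs_of_pos hs, abs_sub_comm]
  have hg2 : ∀ ξ η : ℝ, |2 * Real.cos (Real.pi / 2 * (s * ξ)) - 2 * Real.cos (Real.pi / 2 * (s * η))| ≤
      Real.pi * s * |ξ - η| := by
    intro ξ η
    rw [← mul_sub, abs_mul, abs_two]
    have h1 := Real.abs_cos_sub_cos_le (Real.pi / 2 * (s * ξ)) (Real.pi / 2 * (s * η))
    have e : Real.pi / 2 * (s * ξ) - Real.pi / 2 * (s * η) = Real.pi / 2 * s * (ξ - η) := by ring
    rw [e, abs_mul, abs_of_pos (by positivity : 0 < Real.pi / 2 * s)] at h1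
    linarith
  refine ⟨fun ξ => ?_, fun ξ η => ?_, fun ξ hξ => ?_⟩
  · unfold Gk
    rw [Complex.norm_real, Real.norm_eq_abs, abs_mul, abs_mul, abs_of_pos hs]
    have := mul_le_mul (hf1 ξ) (hg1 ξ) (abs_nonneg _) zero_le_one
    nlinarith
  · unfold Gk
    rw [← Complex.ofReal_sub, Complex.norm_real, Real.norm_eq_abs, ← mul_sub, abs_mul, abs_of_pos hs, mul_assoc]
    apply mul_le_mul_of_nonneg_left _ hs.le
    have e : max 0 (1 - |s * ξ|) * (2 * Real.cos (Real.pi / 2 * (s * ξ))) -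
        max 0 (1 - |s * η|) * (2 * Real.cos (Real.pi / 2 * (s * η))) =
        (max 0 (1 - |s * ξ|) - max 0 (1 - |s * η|)) * (2 * Real.cos (Real.pi / 2 * (s * ξ))) +
        max 0 (1 - |s * η|) * (2 * Real.cos (Real.pi / 2 * (s * ξ)) - 2 * Real.cos (Real.pi / 2 * (s * η))) := by
      ring
    rw [e]
    refine (abs_add_le _ _).trans ?_
    rw [abs_mul (max 0 (1 - |s * ξ|) - max 0 (1 - |s * η|)), abs_mul (max 0 (1 - |s * η|))]
    have b1 := mul_le_mul (hf2 ξ η) (hg1 ξ) (abs_nonneg _) (by positivity)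
    have b2 := mul_le_mul (hf1 η) (hg2 ξ η) (abs_nonneg _) zero_le_one
    linarith
  · unfold Gk
    rw [max_eq_left, zero_mul, mul_zero, Complex.ofReal_zero]
    rw [abs_mul, abs_of_pos hs]
    have : 1 ≤ s * |ξ| := by
      calc 1 = s * (1 / s) := by field_simp
        _ ≤ _ := mul_le_mul_of_nonneg_left hξ hs.le
    linarith

lemma Gk_zero (s : ℝ) : (Gk s 0).re = 2 * s := by
  unfold Gk
  rw [Complex.ofReal_re]
  simp
  ring

lemma Vr_Gk {s : ℝ} (hs : 1 ≤ s) : Vr (Gk s) ≤ 4 := by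
  have hs0 : 0 < s := by linarith
  have hB := Gk_Bd hs0
  have hc := hB.cont
  have hF : Continuous fun ξ : ℝ => ξ * ‖Gk s ξ‖ ^ 2 := by fun_prop
  have i : ∀ x y, IntervalIntegrable (fun ξ : ℝ => ξ * ‖Gk s ξ‖ ^ 2) volume x y :=
    fun x y => hF.intervalIntegrable x y
  have c2 : 0 < 1 / s := by positivity
  have c3 : 1 / s ≤ 1 := by
    rw [div_le_one hs0]
    exact hs
  unfold Vr
  rw [← intervalIntegral.integral_add_adjacent_intervals (i 0 (1 / s)) (i (1 / s) 1)]
  have e2 : ∫ ξ in (1 / s)..(1 : ℝ), ξ * ‖Gk s ξ‖ ^ 2 = 0 := by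
    rw [intervalIntegral.integral_congr (g := fun _ => (0 : ℝ)), intervalIntegral.integral_zero]
    intro ξ hξ
    rw [uIcc_of_le c3] at hξ
    show ξ * ‖Gk s ξ‖ ^ 2 = 0
    rw [hB.supp ξ (by
      rw [abs_of_pos (by linarith [hξ.1])]
      exact hξ.1), norm_zero]
    ring
  have e1 : ∫ ξ in (0 : ℝ)..(1 / s), ξ * ‖Gk s ξ‖ ^ 2 ≤ 2 := by
    have h1 : ∫ ξ in (0 : ℝ)..(1 / s), ξ * ‖Gk s ξ‖ ^ 2 ≤ ∫ ξ in (0 : ℝ)..(1 / s), (2 * s) ^ 2 * ξ := by
      apply intervalIntegral.integral_mono_on c2.le (i _ _) (Continuous.intervalIntegrable (by fun_prop) _ _)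
      intro ξ hξ
      have h2 := hB.bd ξ
      have h3 := hξ.1
      calc ξ * ‖Gk s ξ‖ ^ 2 ≤ ξ * (2 * s) ^ 2 := by gcongr
        _ = _ := by ring
    refine h1.trans (le_of_eq ?_)
    rw [intervalIntegral.integral_const_mul, integral_id]
    field_simp
    ring
  rw [e2]
  linarith

/-- the majorant as a band limited function -/
lemma fG_Gk {s : ℝ} (hs : 1 ≤ s) (x : ℝ) : fG (Gk s) x = K2 (x / s) := by
  have hs0 : 0 < s := by linarith
  have hsc : s ≠ 0 := hs0.ne'
  obtain ⟨F, hF⟩ : ∃ F : ℝ → ℝ, F = fun η => max 0 (1 - |η|) * (2 * Real.cos (Real.pi / 2 * η)) *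
    Real.cos (2 * Real.pi * (x / s) * η) := ⟨_, rfl⟩
  have hFc : Continuous F := by rw [hF]; fun_prop
  have e1 : (∫ ξ in (0 : ℝ)..1, Gk s ξ * Complex.exp (((2 * Real.pi * x * ξ : ℝ) : ℂ) * Complex.I)).re =
      ∫ ξ in (0 : ℝ)..1, s * F (s * ξ) := by
    have hcr := Complex.reCLM.intervalIntegral_comp_comm (a := 0) (b := 1) (μ := volume)
      (f := fun ξ : ℝ => Gk s ξ * Complex.exp (((2 * Real.pi * x * ξ : ℝ) : ℂ) * Complex.I))
      (Continuous.intervalIntegrable (by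
        have := (Gk_Bd hs0).cont
        fun_prop) _ _)
    have hcr2 : (∫ ξ in (0 : ℝ)..1, Gk s ξ * Complex.exp (((2 * Real.pi * x * ξ : ℝ) : ℂ) * Complex.I)).re =
      ∫ ξ in (0 : ℝ)..1, (Gk s ξ * Complex.exp (((2 * Real.pi * x * ξ : ℝ) : ℂ) * Complex.I)).re := hcr.symm
    rw [hcr2]
    refine intervalIntegral.integral_congr fun ξ _ => ?_
    show (Gk s ξ * Complex.exp (((2 * Real.pi * x * ξ : ℝ) : ℂ) * Complex.I)).re = s * F (s * ξ)
    unfold Gk
    rw [Complex.re_ofReal_mul, Complex.exp_ofReal_mul_I_re, hF]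
    have e : 2 * Real.pi * (x / s) * (s * ξ) = 2 * Real.pi * x * ξ := by field_simp
    show _ = s * (max 0 (1 - |s * ξ|) * (2 * Real.cos (Real.pi / 2 * (s * ξ))) *
      Real.cos (2 * Real.pi * (x / s) * (s * ξ)))
    rw [e]
    ring
  have e2 : ∫ ξ in (0 : ℝ)..1, s * F (s * ξ) = ∫ η in (0 : ℝ)..s, F η := by
    rw [intervalIntegral.integral_const_mul, intervalIntegral.integral_comp_mul_left F hsc, smul_eq_mul,
      ← mul_assoc, mul_inv_cancel₀ hsc, one_mul, mul_zero, mul_one]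
  have e3 : ∫ η in (0 : ℝ)..s, F η = ∫ η in (0 : ℝ)..1, F η := by
    rw [← intervalIntegral.integral_add_adjacent_intervals (hFc.intervalIntegrable 0 1)
      (hFc.intervalIntegrable 1 s)]
    have : ∫ η in (1 : ℝ)..s, F η = 0 := by
      rw [intervalIntegral.integral_congr (g := fun _ => (0 : ℝ)), intervalIntegral.integral_zero]
      intro η hη
      rw [uIcc_of_le hs] at hη
      show F η = 0
      rw [hF]
      show max 0 (1 - |η|) * _ * _ = 0
      rw [max_eq_left, zero_mul, zero_mul]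
      rw [abs_of_pos (by linarith [hη.1])]
      linarith [hη.1]
    rw [this, add_zero]
  have e4 : 2 * ∫ η in (0 : ℝ)..1, F η = K2 (x / s) := by
    unfold K2 Fj
    rw [← mul_add, ← intervalIntegral.integral_add (Continuous.intervalIntegrable (by fun_prop) _ _)
      (Continuous.intervalIntegrable (by fun_prop) _ _)]
    congr 1
    refine intervalIntegral.integral_congr fun η hη => ?_
    rw [uIcc_of_le zero_le_one] at hη
    show F η = (1 - η) * Real.cos (2 * Real.pi * (x / s - 1 / 4) * η) +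
      (1 - η) * Real.cos (2 * Real.pi * (x / s + 1 / 4) * η)
    rw [hF]
    show max 0 (1 - |η|) * (2 * Real.cos (Real.pi / 2 * η)) * Real.cos (2 * Real.pi * (x / s) * η) = _
    rw [abs_of_nonneg hη.1, max_eq_right (by linarith [hη.2]), ← mul_add]
    have g1 : 2 * Real.pi * (x / s - 1 / 4) * η = 2 * Real.pi * (x / s) * η - Real.pi / 2 * η := by ring
    have g2 : 2 * Real.pi * (x / s + 1 / 4) * η = 2 * Real.pi * (x / s) * η + Real.pi / 2 * η := by ring
    rw [g1, g2, Real.cos_sub, Real.cos_add]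
    ring
  unfold fG
  rw [e1, e2, e3, e4]

/-! ### the smoothed Heaviside function -/

/-- the primitive of the kernel -/
def PhK (y : ℝ) : ℝ := ∫ w in Iic y, KK w

lemma KK_i : Integrable KK := by
  have := KK_mom 0
  simpa using this

lemma KK_w : Integrable fun w : ℝ => (1 + w ^ 2) * |KK w| := by
  have h1 := KK_i.abs
  have h2 := (KK_mom 2).abs
  refine (h1.add h2).congr (ae_of_all _ fun w => ?_)
  show |KK w| + |w ^ 2 * KK w| = _
  rw [abs_mul, abs_of_nonneg (sq_nonneg w)]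
  ring

lemma PhK_near : ∃ C : ℝ, 0 < C ∧ ∀ y : ℝ, |PhK y - if 0 < y then 1 else 0| ≤ C / (1 + y ^ 2) := by
  obtain ⟨C, hC⟩ : ∃ C : ℝ, C = ∫ w : ℝ, (1 + w ^ 2) * |KK w| := ⟨_, rfl⟩
  have hC0 : 0 ≤ C := by
    rw [hC]
    exact integral_nonneg fun w => by positivity
  have key : ∀ (S : Set ℝ) (y : ℝ), MeasurableSet S → (∀ w ∈ S, y ^ 2 ≤ w ^ 2) → |∫ w in S, KK w| ≤ C / (1 + y ^ 2) := by
    intro S y hS hy
    rw [le_div_iff₀ (by positivity), mul_comm]
    have h1 : |∫ w in S, KK w| ≤ ∫ w in S, |KK w| := abs_integral_le_integral_abs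
    calc (1 + y ^ 2) * |∫ w in S, KK w| ≤ (1 + y ^ 2) * ∫ w in S, |KK w| :=
          mul_le_mul_of_nonneg_left h1 (by positivity)
      _ = ∫ w in S, (1 + y ^ 2) * |KK w| := (integral_const_mul _ _).symm
      _ ≤ ∫ w in S, (1 + w ^ 2) * |KK w| := by
          apply setIntegral_mono_on (KK_i.abs.integrableOn.const_mul _) KK_w.integrableOn hS
          intro w hw
          apply mul_le_mul_of_nonneg_right _ (abs_nonneg _)
          linarith [hy w hw]
      _ ≤ C := by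
          rw [hC]
          exact setIntegral_le_integral KK_w (ae_of_all _ fun w => by positivity)
  refine ⟨C + 1, by positivity, fun y => ?_⟩
  have h3 : C / (1 + y ^ 2) ≤ (C + 1) / (1 + y ^ 2) := by gcongr; linarith
  refine le_trans ?_ h3
  split_ifs with hy
  · have h1 : PhK y - 1 = -∫ w in Ioi y, KK w := by
      unfold PhK
      rw [← KK_int, ← intervalIntegral.integral_Iic_add_Ioi KK_i.integrableOn KK_i.integrableOn (b := y)]
      ring
    rw [h1, abs_neg]
    apply key _ _ measurableSet_Ioi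
    intro w hw
    have : y < w := hw
    nlinarith
  · rw [sub_zero]
    apply key _ _ measurableSet_Iic
    intro w hw
    have : w ≤ y := hw
    push Not at hy
    nlinarith

lemma KK_half (w : ℝ) : KK w = 2 * ∫ ξ in (0 : ℝ)..1, chi ξ * Real.cos (2 * Real.pi * w * ξ) := by
  have h1 : KK w = ∫ x : ℝ, chi x * Real.cos (2 * Real.pi * w * x) := by
    unfold KK hat
    rw [Real.fourier_eq']
    have hcs : Integrable (fun v : ℝ => Complex.exp (((-2 * Real.pi * inner ℝ v w : ℝ) : ℂ) * Complex.I) •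
        ((chi v : ℝ) : ℂ)) := by
      apply Continuous.integrable_of_hasCompactSupport
      · have := chi_cont
        have hi : Continuous fun v : ℝ => inner ℝ v w := by fun_prop
        fun_prop
      · exact HasCompactSupport.smul_left (f := fun v : ℝ =>
          Complex.exp (((-2 * Real.pi * inner ℝ v w : ℝ) : ℂ) * Complex.I)) (f' := fun v : ℝ => ((chi v : ℝ) : ℂ))
          (chi_hcs.comp_left (g := fun x : ℝ => (x : ℂ)) Complex.ofReal_zero)
    have h2 : (∫ v : ℝ, Complex.exp (((-2 * Real.pi * inner ℝ v w : ℝ) : ℂ) * Complex.I) • ((chi v : ℝ) : ℂ)).re =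
        ∫ v : ℝ, (Complex.exp (((-2 * Real.pi * inner ℝ v w : ℝ) : ℂ) * Complex.I) • ((chi v : ℝ) : ℂ)).re :=
      (Complex.reCLM.integral_comp_comm hcs).symm
    rw [h2]
    refine integral_congr_ae (ae_of_all _ fun x => ?_)
    simp only [smul_eq_mul]
    rw [mul_comm, Complex.re_ofReal_mul, Complex.exp_ofReal_mul_I_re]
    congr 1
    rw [← Real.cos_neg]
    congr 1
    simp only [RCLike.inner_apply, conj_trivial]
    ring
  rw [h1]
  have h2 : ∫ x : ℝ, chi x * Real.cos (2 * Real.pi * w * x) =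
      2 * ∫ x in Ioi (0 : ℝ), chi x * Real.cos (2 * Real.pi * w * x) := by
    rw [← integral_comp_abs (f := fun x => chi x * Real.cos (2 * Real.pi * w * x))]
    refine integral_congr_ae (ae_of_all _ fun x => ?_)
    show chi x * Real.cos (2 * Real.pi * w * x) = chi |x| * Real.cos (2 * Real.pi * w * |x|)
    rcases le_or_gt 0 x with hx | hx
    · rw [abs_of_nonneg hx]
    · rw [abs_of_neg hx, chi_neg, mul_neg, Real.cos_neg]
  rw [h2]
  congr 1
  rw [intervalIntegral.integral_of_le zero_le_one]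
  apply setIntegral_eq_of_subset_of_forall_sdiff_eq_zero measurableSet_Ioi Ioc_subset_Ioi_self
  intro u hu
  have hu1 : (0 : ℝ) < u := hu.1
  have hu2 : 1 < u := by
    by_contra hcon
    push Not at hcon
    exact hu.2 ⟨hu1, hcon⟩
  rw [chi_zero (by rw [abs_of_pos hu1]; exact hu2.le), zero_mul]

/-- the smoothed window is band limited -/
lemma fG_Gl {s : ℝ} (hs : 1 ≤ s) {v : ℝ} (hv : 0 ≤ v) (x : ℝ) :
    fG (Gl s v) x = PhK (x / s) - PhK ((x - v) / s) := by
  have hs0 : 0 < s := by linarith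
  have hsc : s ≠ 0 := hs0.ne'
  have hchi := chi_cont
  have e0 : ∀ ξ : ℝ, Gl s v ξ * Complex.exp (((2 * Real.pi * x * ξ : ℝ) : ℂ) * Complex.I) =
      ∫ y in (0 : ℝ)..v, ((chi (s * ξ) : ℝ) : ℂ) * Complex.exp (((2 * Real.pi * (x - y) * ξ : ℝ) : ℂ) * Complex.I) := by
    intro ξ
    unfold Gl Ev
    rw [mul_assoc, ← intervalIntegral.integral_mul_const, ← intervalIntegral.integral_const_mul]
    refine intervalIntegral.integral_congr fun y _ => ?_
    show ((chi (s * ξ) : ℝ) : ℂ) * (Complex.exp (((-(2 * Real.pi * y * ξ) : ℝ) : ℂ) * Complex.I) *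
      Complex.exp (((2 * Real.pi * x * ξ : ℝ) : ℂ) * Complex.I)) = _
    rw [← Complex.exp_add]
    congr 2
    push_cast
    ring
  have e1 : fG (Gl s v) x = ∫ y in (0 : ℝ)..v, 2 * (∫ ξ in (0 : ℝ)..1, ((chi (s * ξ) : ℝ) : ℂ) *
      Complex.exp (((2 * Real.pi * (x - y) * ξ : ℝ) : ℂ) * Complex.I)).re := by
    unfold fG
    simp only [e0]
    rw [intervalIntegral_intervalIntegral_swap]
    · rw [intervalIntegral.integral_const_mul]
      congr 1
      have := Complex.reCLM.intervalIntegral_comp_comm (a := 0) (b := v) (μ := volume)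
        (f := fun y : ℝ => ∫ ξ in (0 : ℝ)..1, ((chi (s * ξ) : ℝ) : ℂ) *
          Complex.exp (((2 * Real.pi * (x - y) * ξ : ℝ) : ℂ) * Complex.I))
        (Continuous.intervalIntegrable (by
          apply intervalIntegral.continuous_parametric_intervalIntegral_of_continuous' (by fun_prop)) _ _)
      exact this.symm
    · have hc : Continuous (Function.uncurry fun ξ y : ℝ => ((chi (s * ξ) : ℝ) : ℂ) *
          Complex.exp (((2 * Real.pi * (x - y) * ξ : ℝ) : ℂ) * Complex.I)) := by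
        have : (Function.uncurry fun ξ y : ℝ => ((chi (s * ξ) : ℝ) : ℂ) *
          Complex.exp (((2 * Real.pi * (x - y) * ξ : ℝ) : ℂ) * Complex.I)) = fun p : ℝ × ℝ =>
          ((chi (s * p.1) : ℝ) : ℂ) * Complex.exp (((2 * Real.pi * (x - p.2) * p.1 : ℝ) : ℂ) * Complex.I) := by
          funext p; rfl
        rw [this]
        fun_prop
      exact (hc.continuousOn.integrableOn_compact (isCompact_uIcc.prod isCompact_uIcc)).mono_set
        (Set.prod_mono uIoc_subset_uIcc uIoc_subset_uIcc)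
  have e2 : ∀ y : ℝ, 2 * (∫ ξ in (0 : ℝ)..1, ((chi (s * ξ) : ℝ) : ℂ) *
      Complex.exp (((2 * Real.pi * (x - y) * ξ : ℝ) : ℂ) * Complex.I)).re = s⁻¹ * KK (x / s - y / s) := by
    intro y
    have hcr := Complex.reCLM.intervalIntegral_comp_comm (a := 0) (b := 1) (μ := volume)
      (f := fun ξ : ℝ => ((chi (s * ξ) : ℝ) : ℂ) * Complex.exp (((2 * Real.pi * (x - y) * ξ : ℝ) : ℂ) * Complex.I))
      (Continuous.intervalIntegrable (by fun_prop) _ _)
    have hcr2 : (∫ ξ in (0 : ℝ)..1, ((chi (s * ξ) : ℝ) : ℂ) *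
      Complex.exp (((2 * Real.pi * (x - y) * ξ : ℝ) : ℂ) * Complex.I)).re =
      ∫ ξ in (0 : ℝ)..1, (((chi (s * ξ) : ℝ) : ℂ) *
      Complex.exp (((2 * Real.pi * (x - y) * ξ : ℝ) : ℂ) * Complex.I)).re := hcr.symm
    obtain ⟨F, hF⟩ : ∃ F : ℝ → ℝ, F = fun η => chi η * Real.cos (2 * Real.pi * (x / s - y / s) * η) := ⟨_, rfl⟩
    have hFc : Continuous F := by rw [hF]; fun_prop
    have e3 : ∫ ξ in (0 : ℝ)..1, (((chi (s * ξ) : ℝ) : ℂ) *
        Complex.exp (((2 * Real.pi * (x - y) * ξ : ℝ) : ℂ) * Complex.I)).re = ∫ ξ in (0 : ℝ)..1, F (s * ξ) := by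
      refine intervalIntegral.integral_congr fun ξ _ => ?_
      show (((chi (s * ξ) : ℝ) : ℂ) * Complex.exp (((2 * Real.pi * (x - y) * ξ : ℝ) : ℂ) * Complex.I)).re = F (s * ξ)
      rw [Complex.re_ofReal_mul, Complex.exp_ofReal_mul_I_re, hF]
      show _ = chi (s * ξ) * Real.cos (2 * Real.pi * (x / s - y / s) * (s * ξ))
      congr 2
      field_simp
    rw [hcr2, e3, intervalIntegral.integral_comp_mul_left F hsc, mul_zero, mul_one, smul_eq_mul]
    have e4 : ∫ η in (0 : ℝ)..s, F η = ∫ η in (0 : ℝ)..1, F η := by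
      rw [← intervalIntegral.integral_add_adjacent_intervals (hFc.intervalIntegrable 0 1)
        (hFc.intervalIntegrable 1 s)]
      have : ∫ η in (1 : ℝ)..s, F η = 0 := by
        rw [intervalIntegral.integral_congr (g := fun _ => (0 : ℝ)), intervalIntegral.integral_zero]
        intro η hη
        rw [uIcc_of_le hs] at hη
        show F η = 0
        rw [hF]
        show chi η * _ = 0
        rw [chi_zero, zero_mul]
        rw [abs_of_pos (by linarith [hη.1])]
        exact hη.1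
      rw [this, add_zero]
    rw [e4, KK_half, hF]
    ring
  rw [e1]
  simp only [e2]
  have h5 : ∫ y in (0 : ℝ)..v, s⁻¹ * KK (x / s - y / s) = ∫ w in ((x - v) / s)..(x / s), KK w := by
    rw [intervalIntegral.integral_const_mul, intervalIntegral.integral_comp_sub_div KK hsc, smul_eq_mul,
      ← mul_assoc, inv_mul_cancel₀ hsc, one_mul]
    congr 1
    · rw [sub_div]
    · rw [zero_div, sub_zero]
  rw [h5]
  unfold PhK
  rw [intervalIntegral.integral_Iic_sub_Iic KK_i.integrableOn KK_i.integrableOn]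

/-- **the pointwise bound** -/
theorem ptb : ∃ C : ℝ, 0 < C ∧ ∀ s v x : ℝ, 1 ≤ s → 0 ≤ v →
    |(if 0 < x ∧ x ≤ v then 1 else 0) - fG (Gl s v) x| ≤ C * (K2 (x / s) + K2 ((x - v) / s)) := by
  obtain ⟨C, hC, h⟩ := PhK_near
  refine ⟨20 * C, by positivity, fun s v x hs hv => ?_⟩
  have hs0 : 0 < s := by linarith
  rw [fG_Gl hs hv]
  have h1 := h (x / s)
  have h2 := h ((x - v) / s)
  have k : ∀ y : ℝ, C / (1 + y ^ 2) ≤ 20 * C * K2 y := by
    intro y
    have := mul_le_mul_of_nonneg_left (K2_lo y) (show 0 ≤ 20 * C by positivity)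
    refine le_trans (le_of_eq ?_) this
    have h0 : (1 + y ^ 2) ≠ 0 := by positivity
    field_simp
  have k1 := h1.trans (k (x / s))
  have k2 := h2.trans (k ((x - v) / s))
  have e1 : (0 < x / s) ↔ 0 < x := by
    rw [div_pos_iff_of_pos_right hs0]
  have e2 : (0 < (x - v) / s) ↔ v < x := by
    rw [div_pos_iff_of_pos_right hs0, sub_pos]
  simp only [e1] at k1
  simp only [e2] at k2
  have e3 : (if 0 < x ∧ x ≤ v then (1 : ℝ) else 0) = (if 0 < x then 1 else 0) - (if v < x then 1 else 0) := by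
    by_cases h3 : 0 < x
    · by_cases h4 : v < x
      · rw [if_neg (fun h => absurd h.2 (not_le.2 h4)), if_pos h3, if_pos h4, sub_self]
      · rw [if_pos ⟨h3, not_lt.1 h4⟩, if_pos h3, if_neg h4, sub_zero]
    · have h4 : ¬ v < x := by
        push Not at h3 ⊢
        linarith
      rw [if_neg (fun h => h3 h.1), if_neg h3, if_neg h4, sub_zero]
  rw [e3]
  have e4 : (if 0 < x then (1 : ℝ) else 0) - (if v < x then 1 else 0) - (PhK (x / s) - PhK ((x - v) / s)) =
      -(PhK (x / s) - if 0 < x then 1 else 0) + (PhK ((x - v) / s) - if v < x then 1 else 0) := by ring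
  rw [e4]
  refine (abs_add_le _ _).trans ?_
  rw [abs_neg, mul_add]
  exact add_le_add k1 k2

end

end Pool.Agent.K6.H57.MX
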