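import Pool.Agent.K6.H57.MX.Lx

/-! # Laplace transforms on the bulk -/

set_option autoImplicit false

open MeasureTheory Set Filter Topology
open scoped ContDiff NNReal

namespace Pool.Agent.K6.H57.MX

open Pool.Agent.R320.JL (PP nz PP_cont)

noncomputable section

/-- the bulk -/
def Bk {ι : Type*} (I : Finset ι) (κ : ℝ) (G : ι → ℝ → ℂ) (b T : ℝ) : Set ℝ :=
  {t | ∀ i ∈ I, |PG κ (G i) T t| ≤ b}

lemma Bk_meas {ι : Type*} (I : Finset ι) (κ : ℝ) (G : ι → ℝ → ℂ) (b T : ℝ) : MeasurableSet (Bk I κ G b T) := by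
  have : Bk I κ G b T = ⋂ i ∈ I, {t | |PG κ (G i) T t| ≤ b} := by
    ext t
    simp [Bk]
  rw [this]
  refine Finset.measurableSet_biInter _ fun i _ => ?_
  exact measurableSet_le (PG_cont κ (G i) T).measurable.norm measurable_const

lemma Te_half {d : ℕ} {x : ℝ} (hd : 2 ≤ d) (h : 10 * |x| ≤ d) : Real.exp x / 2 ≤ Te d x := by
  have h1 := Te_near h
  have h2 : Real.exp (-(d : ℝ) / 2) ≤ 1 / 2 := by
    have h3 : Real.exp (-(d : ℝ) / 2) ≤ Real.exp (-1) := by
      apply Real.exp_le_exp.2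
      have : (2 : ℝ) ≤ d := by exact_mod_cast hd
      linarith
    have h4 : Real.exp (-1) ≤ 1 / 2 := by
      rw [Real.exp_neg, inv_eq_one_div, div_le_div_iff₀ (Real.exp_pos _) (by norm_num)]
      have := Real.add_one_le_exp (1 : ℝ)
      linarith
    linarith
  have h5 := (abs_le.1 h1).1
  nlinarith [Real.exp_pos x]

/-- the exceptional set of one statistic -/
lemma one_bad {κ M Λ : ℝ} {G : ℝ → ℂ} (h : Bd κ M Λ G) (hκ0 : 0 < κ) (hκ : κ ≤ 1 / 4) (e : ℕ)
    (hm : 4 * κ * (2 * e : ℕ) ≤ 1) (he : 1 ≤ e) {v b : ℝ} (hV : 0 ≤ Vr G) (hv : Vr G ≤ v) (hb : 0 ≤ b)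
    (hbe : 10 * b ≤ (2 * e : ℕ)) :
    ∀ᶠ T in atTop, Pb T {t | b < |PG κ G T t|} ≤ 8 * Real.exp (v / 2 - b) := by
  have h1 := EX_Te_up h hκ0 hκ e hm 1 hV
  have h2 := EX_Te_up h hκ0 hκ e hm (-1) hV
  filter_upwards [h1, h2, eventually_gt_atTop 0] with T g1 g2 hT
  have hd : Even (2 * e) := by simp
  have hTb := Te_half (d := 2 * e) (x := b) (by omega) (by rw [abs_of_nonneg hb]; exact hbe)
  have hTb0 : 0 < Te (2 * e) b := Te_pos hd b
  have n1 : Nc T fun t => Te (2 * e) (1 * PG κ G T t) :=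
    Nc.of_cont ((Te_cont _).comp (continuous_const.mul (PG_cont κ G T)))
  have n2 : Nc T fun t => Te (2 * e) (-1 * PG κ G T t) :=
    Nc.of_cont ((Te_cont _).comp (continuous_const.mul (PG_cont κ G T)))
  have h3 : Pb T {t | b < |PG κ G T t|} ≤ EX T (fun t => Te (2 * e) (1 * PG κ G T t) +
      Te (2 * e) (-1 * PG κ G T t)) / Te (2 * e) b := by
    refine le_trans ?_ (Pb_markov hT (n1.add n2) (fun t _ => ?_) hTb0)
    · apply Pb_mono hT
      intro t _ ht
      show Te (2 * e) b ≤ _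
      have ht2 : b < |PG κ G T t| := ht
      refine (Te_mono hb ht2.le).trans ?_
      have := Te_abs hd (PG κ G T t)
      rw [one_mul, neg_one_mul]
      exact this
    · have a1 := Te_pos hd (1 * PG κ G T t)
      have a2 := Te_pos hd (-1 * PG κ G T t)
      show 0 ≤ _ + _
      linarith
  refine h3.trans ?_
  rw [EX_add n1 n2, div_le_iff₀ hTb0]
  have e1 : (1 : ℝ) ^ 2 * Vr G / 2 ≤ v / 2 := by linarith
  have e2 : (-1 : ℝ) ^ 2 * Vr G / 2 ≤ v / 2 := by linarith
  have g1' := g1.trans (mul_le_mul_of_nonneg_left (Real.exp_le_exp.2 e1) (by norm_num))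
  have g2' := g2.trans (mul_le_mul_of_nonneg_left (Real.exp_le_exp.2 e2) (by norm_num))
  have e3 : 8 * Real.exp (v / 2 - b) * (Real.exp b / 2) = 4 * Real.exp (v / 2) := by
    have : Real.exp (v / 2) = Real.exp (v / 2 - b) * Real.exp b := by
      rw [← Real.exp_add]
      congr 1
      ring
    rw [this]
    ring
  calc EX T (fun t => Te (2 * e) (1 * PG κ G T t)) + EX T (fun t => Te (2 * e) (-1 * PG κ G T t)) ≤
      2 * Real.exp (v / 2) + 2 * Real.exp (v / 2) := add_le_add g1' g2'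
    _ = 8 * Real.exp (v / 2 - b) * (Real.exp b / 2) := by rw [e3]; ring
    _ ≤ _ := mul_le_mul_of_nonneg_left hTb (by positivity)

/-- the complement of the bulk -/
lemma Bk_bad {ι : Type*} (I : Finset ι) {κ M Λ : ℝ} {G : ι → ℝ → ℂ} (h : ∀ i ∈ I, Bd κ M Λ (G i))
    (hκ0 : 0 < κ) (hκ : κ ≤ 1 / 4) (e : ℕ) (hm : 4 * κ * (2 * e : ℕ) ≤ 1) (he : 1 ≤ e) {v b : ℝ}
    (hV : ∀ i ∈ I, 0 ≤ Vr (G i)) (hv : ∀ i ∈ I, Vr (G i) ≤ v) (hb : 0 ≤ b) (hbe : 10 * b ≤ (2 * e : ℕ)) :
    ∀ᶠ T in atTop, Pb T (Bk I κ G b T)ᶜ ≤ I.card * (8 * Real.exp (v / 2 - b)) := by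
  have h1 : ∀ᶠ T in atTop, ∀ i ∈ I, Pb T {t | b < |PG κ (G i) T t|} ≤ 8 * Real.exp (v / 2 - b) := by
    rw [Filter.eventually_all_finset]
    intro i hi
    exact one_bad (h i hi) hκ0 hκ e hm he (hV i hi) (hv i hi) hb hbe
  filter_upwards [h1, eventually_gt_atTop 0] with T g1 hT
  have h2 : Pb T (Bk I κ G b T)ᶜ ≤ Pb T {t | ∃ i ∈ I, t ∈ (fun i => {t | b < |PG κ (G i) T t|}) i} := by
    apply Pb_mono hT
    intro t _ ht
    have ht2 : ¬ ∀ i ∈ I, |PG κ (G i) T t| ≤ b := ht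
    push Not at ht2
    obtain ⟨i, hi, hti⟩ := ht2
    exact ⟨i, hi, hti⟩
  refine (h2.trans (Pb_biUnion hT I _)).trans ?_
  refine (Finset.sum_le_sum g1).trans (le_of_eq ?_)
  rw [Finset.sum_const, nsmul_eq_mul]

/-- **Laplace transforms on the bulk** -/
theorem lap {ι : Type*} (I : Finset ι) {κ M Λ : ℝ} {G : ι → ℝ → ℂ} (h : ∀ i ∈ I, Bd κ M Λ (G i))
    (hκ0 : 0 < κ) (e : ℕ) (hm : 8 * κ * (2 * e : ℕ) ≤ 1) (he : 1 ≤ e) {v b : ℝ}
    (hV : ∀ i ∈ I, 0 ≤ Vr (G i)) (hv : ∀ i ∈ I, Vr (G i) ≤ v) (hb : 0 ≤ b) (hbe : 10 * b ≤ (2 * e : ℕ))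
    {M' Λ' : ℝ} {H : ℝ → ℂ} (hH : Bd κ M' Λ' H) (hVH : 0 ≤ Vr H)
    (hbk : ∀ T t : ℝ, t ∈ Bk I κ G b T → 10 * |PG κ H T t| ≤ (2 * e : ℕ)) (hVe : 5 * Vr H ≤ e)
    {η : ℝ} (hη : 0 < η) (hη3 : η ≤ 1 / 3) (he2 : Real.exp (-(e : ℝ) / 2) ≤ η / 2)
    (hsm : 32 * I.card * Real.exp (Vr H + v / 2 - b) ≤ η ^ 2) :
    ∀ᶠ T in atTop, (1 - 3 * η) * Real.exp (Vr H / 2) ≤
        EX T ((Bk I κ G b T).indicator fun t => Real.exp (PG κ H T t)) ∧
      EX T ((Bk I κ G b T).indicator fun t => Real.exp (PG κ H T t)) ≤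
        (1 + 3 * η) * Real.exp (Vr H / 2) := by
  have heR : (1 : ℝ) ≤ e := by exact_mod_cast he
  have hκ : κ ≤ 1 / 4 := by
    push_cast at hm
    nlinarith
  have hm1 : 4 * κ * (2 * e : ℕ) ≤ 1 := by
    have : 4 * κ * (2 * e : ℕ) ≤ 8 * κ * (2 * e : ℕ) := by gcongr; norm_num
    linarith
  have hm2 : 4 * κ * (2 * (2 * e) : ℕ) ≤ 1 := by
    push_cast at hm ⊢
    linarith
  obtain ⟨E, hE⟩ : ∃ E : ℝ, E = Real.exp (Vr H / 2) := ⟨_, rfl⟩
  have hE0 : 0 < E := by rw [hE]; exact Real.exp_pos _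
  rw [← hE]
  have l1 := EX_Te hH hκ0 hκ e hm1 1
  have hlim1 : Te e (1 ^ 2 * Vr H / 2) < (1 + η) * E := by
    have := Te_le (d := e) (x := 1 ^ 2 * Vr H / 2) (by positivity)
    rw [one_pow, one_mul, ← hE] at this
    rw [one_pow, one_mul]
    nlinarith
  have hlim2 : (1 - η) * E < Te e (1 ^ 2 * Vr H / 2) := by
    have := Te_near (d := e) (x := 1 ^ 2 * Vr H / 2) (by
      rw [abs_of_nonneg (by positivity)]
      linarith)
    rw [one_pow, one_mul, ← hE] at this
    rw [one_pow, one_mul]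
    have h2 := (abs_le.1 this).1
    nlinarith
  have ev1 := l1.eventually_le_const hlim1
  have ev2 := l1.eventually_const_le hlim2
  have ev3 := EX_Te_up hH hκ0 hκ (2 * e) hm2 2 hVH
  have ev4 := EX_Te_up hH hκ0 hκ (2 * e) hm2 (-2) hVH
  have ev5 := Bk_bad I h hκ0 hκ e hm1 he hV hv hb hbe
  filter_upwards [ev1, ev2, ev3, ev4, ev5, eventually_gt_atTop 0] with T g1 g2 g3 g4 g5 hT
  have hd : Even (2 * e) := by simp
  obtain ⟨B, hB⟩ : ∃ B : Set ℝ, B = Bk I κ G b T := ⟨_, rfl⟩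
  have hBm : MeasurableSet B := by rw [hB]; exact Bk_meas I κ G b T
  rw [← hB] at g5 ⊢
  have hcont := PG_cont κ H T
  have nE : Nc T fun t => Real.exp (PG κ H T t) := Nc.of_cont (Real.continuous_exp.comp hcont)
  have nT : Nc T fun t => Te (2 * e) (1 * PG κ H T t) :=
    Nc.of_cont ((Te_cont _).comp (continuous_const.mul hcont))
  have n3 : Nc T fun t => Te (2 * (2 * e)) (2 * PG κ H T t) :=
    Nc.of_cont ((Te_cont _).comp (continuous_const.mul hcont))
  have n4 : Nc T fun t => Te (2 * (2 * e)) (-2 * PG κ H T t) :=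
    Nc.of_cont ((Te_cont _).comp (continuous_const.mul hcont))
  have n5 : Nc T (Bᶜ.indicator fun _ => (1 : ℝ)) := (Nc.const T 1).ind hBm.compl
  have hde : Real.exp (-((2 * e : ℕ) : ℝ) / 2) ≤ η := by
    have : Real.exp (-((2 * e : ℕ) : ℝ) / 2) ≤ Real.exp (-(e : ℝ) / 2) := by
      apply Real.exp_le_exp.2
      push_cast
      linarith
    linarith
  have hnear : ∀ t ∈ B, |Te (2 * e) (1 * PG κ H T t) - Real.exp (PG κ H T t)| ≤ η * Real.exp (PG κ H T t) := by
    intro t ht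
    rw [one_mul]
    refine (Te_near (hbk T t (by rw [← hB]; exact ht))).trans ?_
    exact mul_le_mul_of_nonneg_right hde (Real.exp_pos _).le
  constructor
  · -- the lower bound
    obtain ⟨θ, hθ⟩ : ∃ θ : ℝ, θ = η / 4 * Real.exp (-(3 / 2) * Vr H) := ⟨_, rfl⟩
    have hθ0 : 0 < θ := by rw [hθ]; positivity
    have p1 : EX T (fun t => Te (2 * e) (1 * PG κ H T t)) ≤
        EX T (fun t => (1 + η) * B.indicator (fun t => Real.exp (PG κ H T t)) t +
          (θ / 2 * (Te (2 * (2 * e)) (2 * PG κ H T t) + Te (2 * (2 * e)) (-2 * PG κ H T t)) +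
          1 / (2 * θ) * Bᶜ.indicator (fun _ => (1 : ℝ)) t)) := by
      apply EX_mono hT nT (((nE.ind hBm).cmul _).add (((n3.add n4).cmul _).add (n5.cmul _)))
      intro t _
      have q1 := Te_pos (d := 2 * (2 * e)) (by simp) (2 * PG κ H T t)
      have q2 := Te_pos (d := 2 * (2 * e)) (by simp) (-2 * PG κ H T t)
      by_cases ht : t ∈ B
      · have ht2 : t ∉ Bᶜ := fun h => h ht
        rw [indicator_of_mem ht, indicator_of_notMem ht2, mul_zero, add_zero]
        have q3 := (abs_le.1 (hnear t ht)).2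
        have q4 : 0 ≤ θ / 2 * (Te (2 * (2 * e)) (2 * PG κ H T t) + Te (2 * (2 * e)) (-2 * PG κ H T t)) := by
          positivity
        linarith
      · have ht2 : t ∈ Bᶜ := ht
        rw [indicator_of_notMem ht, indicator_of_mem ht2, mul_zero, zero_add, mul_one]
        have q3 := Te_sq hd (PG κ H T t)
        have q5 := Te_pos hd (PG κ H T t)
        rw [one_mul]
        have q4 : Te (2 * e) (PG κ H T t) ≤ θ / 2 * Te (2 * e) (PG κ H T t) ^ 2 + 1 / (2 * θ) := by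
          have : 0 ≤ (θ * Te (2 * e) (PG κ H T t) - 1) ^ 2 / (2 * θ) := by positivity
          have e5 : (θ * Te (2 * e) (PG κ H T t) - 1) ^ 2 / (2 * θ) =
              θ / 2 * Te (2 * e) (PG κ H T t) ^ 2 + 1 / (2 * θ) - Te (2 * e) (PG κ H T t) := by
            field_simp
            ring
          rw [e5] at this
          linarith
        refine q4.trans ?_
        rw [neg_mul]
        gcongr
    have p2 : EX T (fun t => (1 + η) * B.indicator (fun t => Real.exp (PG κ H T t)) t +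
          (θ / 2 * (Te (2 * (2 * e)) (2 * PG κ H T t) + Te (2 * (2 * e)) (-2 * PG κ H T t)) +
          1 / (2 * θ) * Bᶜ.indicator (fun _ => (1 : ℝ)) t)) =
        (1 + η) * EX T (B.indicator fun t => Real.exp (PG κ H T t)) +
        (θ / 2 * (EX T (fun t => Te (2 * (2 * e)) (2 * PG κ H T t)) +
          EX T (fun t => Te (2 * (2 * e)) (-2 * PG κ H T t))) + 1 / (2 * θ) * Pb T Bᶜ) := by
      rw [EX_add ((nE.ind hBm).cmul _) (((n3.add n4).cmul _).add (n5.cmul _)),
        EX_add ((n3.add n4).cmul _) (n5.cmul _), EX_cmul, EX_cmul, EX_cmul, EX_add n3 n4, EX_ind hBm.compl]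
    rw [p2] at p1
    have p3 : θ / 2 * (EX T (fun t => Te (2 * (2 * e)) (2 * PG κ H T t)) +
          EX T (fun t => Te (2 * (2 * e)) (-2 * PG κ H T t))) ≤ η / 2 * E := by
      have e2 : (2 : ℝ) ^ 2 * Vr H / 2 = 2 * Vr H := by ring
      have e3 : (-2 : ℝ) ^ 2 * Vr H / 2 = 2 * Vr H := by ring
      rw [e2] at g3
      rw [e3] at g4
      calc _ ≤ θ / 2 * (2 * Real.exp (2 * Vr H) + 2 * Real.exp (2 * Vr H)) := by gcongr
        _ = η / 2 * E := by
          rw [hθ, hE]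
          have : Real.exp (Vr H / 2) = Real.exp (-(3 / 2) * Vr H) * Real.exp (2 * Vr H) := by
            rw [← Real.exp_add]
            congr 1
            ring
          rw [this]
          ring
    have p4 : 1 / (2 * θ) * Pb T Bᶜ ≤ η / 2 * E := by
      have h1 : 1 / (2 * θ) * Pb T Bᶜ ≤ 1 / (2 * θ) * (I.card * (8 * Real.exp (v / 2 - b))) :=
        mul_le_mul_of_nonneg_left g5 (by positivity)
      refine h1.trans ?_
      rw [one_div, inv_mul_le_iff₀ (by positivity)]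
      have e6 : 2 * θ * (η / 2 * E) = η ^ 2 / 4 * Real.exp (-(Vr H)) := by
        rw [hθ, hE]
        have : Real.exp (-(Vr H)) = Real.exp (-(3 / 2) * Vr H) * Real.exp (Vr H / 2) := by
          rw [← Real.exp_add]
          congr 1
          ring
        rw [this]
        ring
      rw [e6]
      have e7 : Real.exp (v / 2 - b) = Real.exp (Vr H + v / 2 - b) * Real.exp (-(Vr H)) := by
        rw [← Real.exp_add]
        congr 1
        ring
      rw [e7]
      have := mul_le_mul_of_nonneg_right hsm (Real.exp_pos (-(Vr H))).le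
      linarith
    have p5 : (1 - 2 * η) * E ≤ (1 + η) * EX T (B.indicator fun t => Real.exp (PG κ H T t)) := by linarith
    have p6 : (1 + η) * ((1 - 3 * η) * E) ≤ (1 - 2 * η) * E := by
      have : (1 - 2 * η) * E - (1 + η) * ((1 - 3 * η) * E) = 3 * η ^ 2 * E := by ring
      have h0 : 0 ≤ 3 * η ^ 2 * E := by positivity
      linarith
    have p7 := p6.trans p5
    exact le_of_mul_le_mul_left p7 (by linarith)
  · -- the upper bound
    have p1 : EX T (fun t => (1 - η) * B.indicator (fun t => Real.exp (PG κ H T t)) t) ≤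
        EX T (fun t => Te (2 * e) (1 * PG κ H T t)) := by
      apply EX_mono hT ((nE.ind hBm).cmul _) nT
      intro t _
      by_cases ht : t ∈ B
      · rw [indicator_of_mem ht]
        have q3 := (abs_le.1 (hnear t ht)).1
        linarith
      · rw [indicator_of_notMem ht, mul_zero]
        exact (Te_pos hd _).le
    rw [EX_cmul] at p1
    have p2 := p1.trans g1
    have p3 : (1 + η) * E ≤ (1 - η) * ((1 + 3 * η) * E) := by
      have : (1 - η) * ((1 + 3 * η) * E) - (1 + η) * E = η * (1 - 3 * η) * E := by ring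
      have h0 : 0 ≤ η * (1 - 3 * η) * E := by
        have : 0 ≤ 1 - 3 * η := by linarith
        positivity
      linarith
    exact le_of_mul_le_mul_left (p2.trans p3) (by linarith)

end

end Pool.Agent.K6.H57.MX
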