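import Pool.Agent.K6.H57.MX.Te

/-! # Averages over the window, and exponential moments -/

set_option autoImplicit false

open MeasureTheory Set Filter Topology
open scoped ContDiff NNReal

namespace Pool.Agent.K6.H57.MX

open Pool.Agent.R320.JL (PP nz PP_cont)

noncomputable section

/-- the window -/
def Wd (T : ℝ) : Set ℝ := Icc (T + Real.log T) (2 * T - Real.log T)

/-- the average -/
def EX (T : ℝ) (F : ℝ → ℝ) : ℝ := (∫ t in Wd T, F t) / T

/-- the probability -/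
def Pb (T : ℝ) (S : Set ℝ) : ℝ := volume.real (S ∩ Wd T) / T

lemma Wd_meas (T : ℝ) : MeasurableSet (Wd T) := measurableSet_Icc

lemma Wd_fin (T : ℝ) : volume (Wd T) ≠ ⊤ := by
  unfold Wd
  rw [Real.volume_Icc]
  exact ENNReal.ofReal_ne_top

lemma Wd_le {T : ℝ} (hT : 1 ≤ T) : volume.real (Wd T) ≤ T := by
  unfold Wd
  have h := Real.log_nonneg hT
  rw [measureReal_def, Real.volume_Icc, ENNReal.toReal_ofReal']
  apply max_le <;> linarith

/-- measurable functions bounded on the window -/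
structure Nc (T : ℝ) (F : ℝ → ℝ) : Prop where
  m : Measurable F
  b : ∃ C : ℝ, ∀ t ∈ Wd T, |F t| ≤ C

lemma Nc.of_cont {T : ℝ} {F : ℝ → ℝ} (h : Continuous F) : Nc T F := by
  refine ⟨h.measurable, ?_⟩
  obtain ⟨C, hC⟩ := (isCompact_Icc (a := T + Real.log T) (b := 2 * T - Real.log T)).exists_bound_of_continuousOn
    h.continuousOn
  exact ⟨C, fun t ht => by rw [← Real.norm_eq_abs]; exact hC t ht⟩

lemma Nc.const (T c : ℝ) : Nc T fun _ => c := Nc.of_cont continuous_const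

lemma Nc.add {T : ℝ} {F G : ℝ → ℝ} (hF : Nc T F) (hG : Nc T G) : Nc T fun t => F t + G t := by
  obtain ⟨C, hC⟩ := hF.b
  obtain ⟨D, hD⟩ := hG.b
  exact ⟨hF.m.add hG.m, C + D, fun t ht => (abs_add_le _ _).trans (add_le_add (hC t ht) (hD t ht))⟩

lemma Nc.mul {T : ℝ} {F G : ℝ → ℝ} (hF : Nc T F) (hG : Nc T G) : Nc T fun t => F t * G t := by
  obtain ⟨C, hC⟩ := hF.b
  obtain ⟨D, hD⟩ := hG.b
  refine ⟨hF.m.mul hG.m, C * D, fun t ht => ?_⟩
  rw [abs_mul]
  exact mul_le_mul (hC t ht) (hD t ht) (abs_nonneg _) ((abs_nonneg _).trans (hC t ht))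

lemma Nc.cmul {T : ℝ} {F : ℝ → ℝ} (hF : Nc T F) (c : ℝ) : Nc T fun t => c * F t := (Nc.const T c).mul hF

lemma Nc.sub {T : ℝ} {F G : ℝ → ℝ} (hF : Nc T F) (hG : Nc T G) : Nc T fun t => F t - G t := by
  have := hF.add (hG.cmul (-1))
  refine ⟨hF.m.sub hG.m, ?_⟩
  obtain ⟨C, hC⟩ := this.b
  refine ⟨C, fun t ht => ?_⟩
  have h := hC t ht
  rwa [show F t + -1 * G t = F t - G t by ring] at h

lemma Nc.ind {T : ℝ} {F : ℝ → ℝ} (hF : Nc T F) {S : Set ℝ} (hS : MeasurableSet S) : Nc T (S.indicator F) := by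
  obtain ⟨C, hC⟩ := hF.b
  refine ⟨hF.m.indicator hS, C, fun t ht => ?_⟩
  refine le_trans ?_ (hC t ht)
  by_cases h : t ∈ S
  · rw [indicator_of_mem h]
  · rw [indicator_of_notMem h, abs_zero]
    exact abs_nonneg _

lemma Nc.sum {T : ℝ} {ι : Type*} (I : Finset ι) {F : ι → ℝ → ℝ} (hF : ∀ i ∈ I, Nc T (F i)) :
    Nc T fun t => ∑ i ∈ I, F i t := by
  classical
  induction I using Finset.induction_on with
  | empty => simpa using Nc.const T 0
  | insert a s ha ih =>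
    have h1 := hF a (Finset.mem_insert_self _ _)
    have h2 := ih fun i hi => hF i (Finset.mem_insert_of_mem hi)
    have h3 := h1.add h2
    have e : (fun t => ∑ i ∈ insert a s, F i t) = fun t => F a t + ∑ i ∈ s, F i t := by
      funext t
      rw [Finset.sum_insert ha]
    rw [e]
    exact h3

lemma Nc.int {T : ℝ} {F : ℝ → ℝ} (hF : Nc T F) : IntegrableOn F (Wd T) := by
  obtain ⟨C, hC⟩ := hF.b
  refine Measure.integrableOn_of_bounded (M := C) (Wd_fin T) hF.m.aestronglyMeasurable ?_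
  refine (ae_restrict_iff' (Wd_meas T)).2 (ae_of_all _ fun t ht => ?_)
  rw [Real.norm_eq_abs]
  exact hC t ht

lemma EX_mono {T : ℝ} (hT : 0 < T) {F G : ℝ → ℝ} (hF : Nc T F) (hG : Nc T G)
    (h : ∀ t ∈ Wd T, F t ≤ G t) : EX T F ≤ EX T G := by
  unfold EX
  apply div_le_div_of_nonneg_right _ hT.le
  exact setIntegral_mono_on hF.int hG.int (Wd_meas T) h

lemma EX_nonneg {T : ℝ} (hT : 0 < T) {F : ℝ → ℝ} (h : ∀ t ∈ Wd T, 0 ≤ F t) : 0 ≤ EX T F := by
  unfold EX
  apply div_nonneg _ hT.le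
  exact setIntegral_nonneg (Wd_meas T) h

lemma EX_add {T : ℝ} {F G : ℝ → ℝ} (hF : Nc T F) (hG : Nc T G) :
    EX T (fun t => F t + G t) = EX T F + EX T G := by
  unfold EX
  rw [integral_add hF.int hG.int, add_div]

lemma EX_sub {T : ℝ} {F G : ℝ → ℝ} (hF : Nc T F) (hG : Nc T G) :
    EX T (fun t => F t - G t) = EX T F - EX T G := by
  unfold EX
  rw [integral_sub hF.int hG.int, sub_div]

lemma EX_cmul {T : ℝ} (c : ℝ) (F : ℝ → ℝ) : EX T (fun t => c * F t) = c * EX T F := by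
  unfold EX
  rw [integral_const_mul, mul_div_assoc]

lemma EX_sum {T : ℝ} {ι : Type*} (I : Finset ι) {F : ι → ℝ → ℝ} (hF : ∀ i ∈ I, Nc T (F i)) :
    EX T (fun t => ∑ i ∈ I, F i t) = ∑ i ∈ I, EX T (F i) := by
  unfold EX
  rw [integral_finsetSum _ fun i hi => (hF i hi).int, Finset.sum_div]

lemma EX_one_le {T : ℝ} (hT : 1 ≤ T) : EX T (fun _ => 1) ≤ 1 := by
  unfold EX
  rw [setIntegral_const, smul_eq_mul, mul_one, div_le_one (by linarith)]
  exact Wd_le hT

lemma EX_ind {T : ℝ} {S : Set ℝ} (hS : MeasurableSet S) : EX T (S.indicator fun _ => 1) = Pb T S := by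
  unfold EX Pb
  rw [setIntegral_indicator hS, setIntegral_const, smul_eq_mul, mul_one, inter_comm]

lemma Pb_nonneg {T : ℝ} (hT : 0 < T) (S : Set ℝ) : 0 ≤ Pb T S := by
  unfold Pb
  positivity

lemma Pb_mono {T : ℝ} (hT : 0 < T) {S S' : Set ℝ} (h : ∀ t ∈ Wd T, t ∈ S → t ∈ S') : Pb T S ≤ Pb T S' := by
  unfold Pb
  apply div_le_div_of_nonneg_right _ hT.le
  apply measureReal_mono
  · intro t ht
    exact ⟨h t ht.2 ht.1, ht.2⟩
  · exact measure_ne_top_of_subset inter_subset_right (Wd_fin T)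

lemma Pb_union {T : ℝ} (hT : 0 < T) (S S' : Set ℝ) : Pb T (S ∪ S') ≤ Pb T S + Pb T S' := by
  unfold Pb
  rw [← add_div, union_inter_distrib_right]
  apply div_le_div_of_nonneg_right _ hT.le
  exact measureReal_union_le _ _

lemma Pb_biUnion {T : ℝ} (hT : 0 < T) {ι : Type*} (I : Finset ι) (S : ι → Set ℝ) :
    Pb T {t | ∃ i ∈ I, t ∈ S i} ≤ ∑ i ∈ I, Pb T (S i) := by
  classical
  induction I using Finset.induction_on with
  | empty => simp [Pb]
  | insert a s ha ih =>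
    rw [Finset.sum_insert ha]
    refine le_trans ?_ (add_le_add_right ih _)
    refine le_trans ?_ (Pb_union hT _ _)
    apply Pb_mono hT
    rintro t - ⟨i, hi, hti⟩
    rcases Finset.mem_insert.1 hi with rfl | hi
    · exact Or.inl hti
    · exact Or.inr ⟨i, hi, hti⟩

lemma Pb_markov {T : ℝ} (hT : 0 < T) {F : ℝ → ℝ} (hF : Nc T F) (hF0 : ∀ t ∈ Wd T, 0 ≤ F t) {δ : ℝ}
    (hδ : 0 < δ) : Pb T {t | δ ≤ F t} ≤ EX T F / δ := by
  have hm : MeasurableSet {t | δ ≤ F t} := measurableSet_le measurable_const hF.m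
  rw [← EX_ind hm, le_div_iff₀ hδ, mul_comm, ← EX_cmul]
  apply EX_mono hT (((Nc.const T 1).ind hm).cmul δ) hF
  intro t ht
  by_cases h : t ∈ {t | δ ≤ F t}
  · simp only [indicator_of_mem h, mul_one]
    exact h
  · simp only [indicator_of_notMem h, mul_zero]
    exact hF0 t ht

lemma PG_cont (κ : ℝ) (G : ℝ → ℂ) (T : ℝ) : Continuous (PG κ G T) := by
  unfold PG
  exact Complex.continuous_re.comp (PP_cont _ _)

lemma logT_div : Tendsto (fun T : ℝ => Real.log T / T) atTop (𝓝 0) := by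
  have := Real.isLittleO_log_id_atTop.tendsto_div_nhds_zero
  simpa using this

/-- **moments** -/
theorem EX_mom {κ M Λ : ℝ} {G : ℝ → ℂ} (h : Bd κ M Λ G) (hκ0 : 0 < κ) (hκ : κ ≤ 1 / 4) (m : ℕ)
    (hm : 4 * κ * m ≤ 1) : Tendsto (fun T => EX T fun t => PG κ G T t ^ m) atTop (𝓝 (gmo (Vr G) m)) := by
  rw [Metric.tendsto_atTop]
  intro ε hε
  obtain ⟨T0, hT0, h0⟩ := mom_lim h hκ0 hκ m hm (ε / 4) (by positivity)
  have h1 := (logT_div.mul_const (2 * |gmo (Vr G) m|)).eventually_le_const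
    (show (0 : ℝ) * (2 * |gmo (Vr G) m|) < ε / 4 by rw [zero_mul]; positivity)
  have h2 : ∀ᶠ T : ℝ in atTop, 2 * Real.log T ≤ T := by
    have := logT_div.eventually_le_const (show (0 : ℝ) < 1 / 2 by norm_num)
    filter_upwards [this, eventually_gt_atTop 0] with T hT hT0
    rw [div_le_iff₀ hT0] at hT
    linarith
  obtain ⟨T1, hT1⟩ := (h1.and (h2.and (eventually_ge_atTop T0))).exists_forall_of_atTop
  refine ⟨T1, fun T hT => ?_⟩
  obtain ⟨g1, g2, g3⟩ := hT1 T hT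
  have hTp : 0 < T := by linarith
  have hL : 0 < Real.log T := Real.log_pos (by linarith)
  have g4 := h0 T g3 (T + Real.log T) (2 * T - Real.log T) (by linarith) (by linarith) (by linarith)
  rw [Real.dist_eq]
  have e1 : EX T (fun t => PG κ G T t ^ m) = (∫ t in (T + Real.log T)..(2 * T - Real.log T), PG κ G T t ^ m) / T := by
    unfold EX Wd
    rw [integral_Icc_eq_integral_Ioc, ← intervalIntegral.integral_of_le (by linarith)]
  rw [e1]
  obtain ⟨I, hI⟩ : ∃ I : ℝ, I = ∫ t in (T + Real.log T)..(2 * T - Real.log T), PG κ G T t ^ m := ⟨_, rfl⟩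
  obtain ⟨g, hg⟩ : ∃ g : ℝ, g = gmo (Vr G) m := ⟨_, rfl⟩
  rw [← hI, ← hg] at g4 ⊢
  rw [← hg] at g1
  have e2 : I / T - g = (I - (2 * T - Real.log T - (T + Real.log T)) * g) / T - 2 * Real.log T / T * g := by
    field_simp
    ring
  rw [e2]
  have a1 : |(I - (2 * T - Real.log T - (T + Real.log T)) * g) / T| ≤ ε / 4 := by
    rw [abs_div, abs_of_pos hTp, div_le_iff₀ hTp]
    exact g4
  have a2 : |2 * Real.log T / T * g| ≤ ε / 4 := by
    rw [abs_mul, abs_of_pos (by positivity : 0 < 2 * Real.log T / T)]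
    refine le_trans (le_of_eq ?_) g1
    ring
  calc |(I - (2 * T - Real.log T - (T + Real.log T)) * g) / T - 2 * Real.log T / T * g| ≤
      |(I - (2 * T - Real.log T - (T + Real.log T)) * g) / T| + |2 * Real.log T / T * g| := abs_sub _ _
    _ ≤ ε / 4 + ε / 4 := add_le_add a1 a2
    _ < ε := by linarith

lemma gmo_scale (c V : ℝ) (m : ℕ) : c ^ m * gmo V m = gmo (c ^ 2 * V) m := by
  rcases Nat.even_or_odd' m with ⟨a, rfl | rfl⟩
  · rw [gmo_even, gmo_even, mul_pow, pow_mul]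
    ring
  · rw [gmo_odd, gmo_odd, mul_zero]

/-- **exponential moments** -/
theorem EX_Te {κ M Λ : ℝ} {G : ℝ → ℂ} (h : Bd κ M Λ G) (hκ0 : 0 < κ) (hκ : κ ≤ 1 / 4) (e : ℕ)
    (hm : 4 * κ * (2 * e : ℕ) ≤ 1) (c : ℝ) : Tendsto (fun T => EX T fun t => Te (2 * e) (c * PG κ G T t)) atTop
      (𝓝 (Te e (c ^ 2 * Vr G / 2))) := by
  have e1 : ∀ T, EX T (fun t => Te (2 * e) (c * PG κ G T t)) =
      ∑ j ∈ Finset.range (2 * e + 1), c ^ j / j.factorial * EX T (fun t => PG κ G T t ^ j) := by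
    intro T
    have e2 : (fun t => Te (2 * e) (c * PG κ G T t)) =
        fun t => ∑ j ∈ Finset.range (2 * e + 1), c ^ j / j.factorial * PG κ G T t ^ j := by
      funext t
      unfold Te
      refine Finset.sum_congr rfl fun j _ => ?_
      rw [mul_pow]
      ring
    rw [e2, EX_sum]
    · refine Finset.sum_congr rfl fun j _ => ?_
      rw [EX_cmul]
    · intro j _
      exact (Nc.of_cont ((PG_cont κ G T).pow j)).cmul _
  simp only [e1]
  rw [← Te_gauss]
  refine tendsto_finsetSum _ fun j hj => ?_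
  have hj2 : (j : ℝ) ≤ (2 * e : ℕ) := by
    have := Finset.mem_range.1 hj
    exact_mod_cast (by omega : j ≤ 2 * e)
  have h1 := (EX_mom h hκ0 hκ j (le_trans (by gcongr) hm)).const_mul (c ^ j / j.factorial)
  have e3 : c ^ j / j.factorial * gmo (Vr G) j = gmo (c ^ 2 * Vr G) j / j.factorial := by
    rw [← gmo_scale]
    ring
  rw [e3] at h1
  exact h1

lemma EX_Te_up {κ M Λ : ℝ} {G : ℝ → ℂ} (h : Bd κ M Λ G) (hκ0 : 0 < κ) (hκ : κ ≤ 1 / 4) (e : ℕ)
    (hm : 4 * κ * (2 * e : ℕ) ≤ 1) (c : ℝ) (hV : 0 ≤ Vr G) :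
    ∀ᶠ T in atTop, EX T (fun t => Te (2 * e) (c * PG κ G T t)) ≤ 2 * Real.exp (c ^ 2 * Vr G / 2) := by
  refine (EX_Te h hκ0 hκ e hm c).eventually_le_const ?_
  have h1 := Te_le (d := e) (x := c ^ 2 * Vr G / 2) (by positivity)
  have h2 := Real.exp_pos (c ^ 2 * Vr G / 2)
  linarith

end

end Pool.Agent.K6.H57.MX
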