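import Pool.Agent.K6.H57.MX.Bl

/-! # Moments of the prime polynomials -/

set_option autoImplicit false

open MeasureTheory Set Filter Topology
open scoped ContDiff NNReal

namespace Pool.Agent.K6.H57.MX

open Pool.Agent.K6.H57.ML
open SP (bt ps zs)
open SG (ord NZ)
open Pool.Agent.R320.JL (PP nz PP_cont momR gm gm_even gm_odd SS_near)
open Pool.Agent.Y743.CL (Pr mem_Pr VS VS_nonneg)

noncomputable section

/-- the even moments of the standard Gaussian law -/
def mu (a : ℕ) : ℝ := (2 * a).factorial / (a.factorial * 2 ^ a)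

/-- the moments of the centred Gaussian law of variance `V` -/
def gmo (V : ℝ) (m : ℕ) : ℝ := if Even m then mu (m / 2) * V ^ (m / 2) else 0

lemma gmo_even (V : ℝ) (a : ℕ) : gmo V (2 * a) = mu a * V ^ a := by
  unfold gmo
  rw [if_pos (by simp)]
  simp

lemma gmo_odd (V : ℝ) (a : ℕ) : gmo V (2 * a + 1) = 0 := by
  unfold gmo
  rw [if_neg (by simp)]

lemma mu_pos (a : ℕ) : 0 < mu a := by unfold mu; positivity

lemma VS_lim {κ M Λ : ℝ} {G : ℝ → ℂ} (h : Bd κ M Λ G) (hκ0 : 0 < κ) (hκ : κ ≤ 1 / 4) :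
    Tendsto (fun T => VS (nz (zp T (WG T G))) (XX κ T)) atTop (𝓝 (2 * Vr G)) := by
  obtain ⟨C, T0, hC, hT0, h1⟩ := varG h hκ0 hκ
  rw [tendsto_iff_dist_tendsto_zero]
  have h2 : Tendsto (fun T : ℝ => C / Real.sqrt (Real.log T)) atTop (𝓝 0) :=
    (Real.tendsto_sqrt_atTop.comp Real.tendsto_log_atTop).const_div_atTop C
  refine squeeze_zero' (Eventually.of_forall fun T => dist_nonneg) ?_ h2
  filter_upwards [eventually_ge_atTop T0] with T hT
  rw [Real.dist_eq]
  exact h1 T hT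

lemma SS_lim {κ M Λ : ℝ} {G : ℝ → ℂ} (h : Bd κ M Λ G) (hκ0 : 0 < κ) (hκ : κ ≤ 1 / 4) (a : ℕ) :
    Tendsto (fun T => Pool.Agent.Y743.CL.SS (nz (zp T (WG T G))) (XX κ T) a / a.factorial) atTop
      (𝓝 ((2 * Vr G) ^ a)) := by
  have h1 := VS_lim h hκ0 hκ
  have hup : Tendsto (fun T => VS (nz (zp T (WG T G))) (XX κ T) ^ a) atTop (𝓝 ((2 * Vr G) ^ a)) := h1.pow a
  obtain ⟨K, hK⟩ : ∃ K : ℝ, K = |2 * Vr G| + 1 := ⟨_, rfl⟩
  have hK0 : 0 < K := by rw [hK]; positivity
  have hev : ∀ᶠ T in atTop, VS (nz (zp T (WG T G))) (XX κ T) ≤ K := by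
    filter_upwards [h1.eventually_le_const (show 2 * Vr G < K by rw [hK]; linarith [le_abs_self (2 * Vr G)])]
      with T hT
    exact hT
  have hlo : Tendsto (fun T => VS (nz (zp T (WG T G))) (XX κ T) ^ a -
      a ^ 2 * (64 * M / Real.log T) ^ 2 * (1 + K) ^ a) atTop (𝓝 ((2 * Vr G) ^ a)) := by
    have h2 : Tendsto (fun T : ℝ => 64 * M / Real.log T) atTop (𝓝 0) :=
      Real.tendsto_log_atTop.const_div_atTop _
    have h3 : Tendsto (fun T : ℝ => (a : ℝ) ^ 2 * (64 * M / Real.log T) ^ 2 * (1 + K) ^ a) atTop (𝓝 0) := by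
      have := ((h2.pow 2).const_mul ((a : ℝ) ^ 2)).mul_const ((1 + K) ^ a)
      simpa using this
    have := hup.sub h3
    rwa [sub_zero] at this
  refine tendsto_of_tendsto_of_tendsto_of_le_of_le' hlo hup ?_ ?_
  · filter_upwards [hev, eventually_ge_atTop 3] with T hT hT3
    obtain ⟨-, g2⟩ := SS_near (zp T (WG T G)) (XX κ T) 1 K ((64 * M / Real.log T) ^ 2) one_pos hK0.le
      (sq_nonneg _) (fun p => zp_small h (by linarith) hT3 p) (by rw [one_pow, mul_one]; exact hT) a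
    simp only [one_pow, mul_one, div_one] at g2
    linarith
  · filter_upwards [hev, eventually_ge_atTop 3] with T hT hT3
    obtain ⟨g1, -⟩ := SS_near (zp T (WG T G)) (XX κ T) 1 K ((64 * M / Real.log T) ^ 2) one_pos hK0.le
      (sq_nonneg _) (fun p => zp_small h (by linarith) hT3 p) (by rw [one_pow, mul_one]; exact hT) a
    simp only [one_pow, mul_one, div_one] at g1
    exact g1

lemma gm_lim {κ M Λ : ℝ} {G : ℝ → ℂ} (h : Bd κ M Λ G) (hκ0 : 0 < κ) (hκ : κ ≤ 1 / 4) (m : ℕ) :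
    Tendsto (fun T => gm (zp T (WG T G)) (XX κ T) 1 m) atTop (𝓝 (gmo (Vr G) m)) := by
  rcases Nat.even_or_odd' m with ⟨a, rfl | rfl⟩
  · rw [gmo_even]
    have h1 := (SS_lim h hκ0 hκ a).const_mul (((2 * a).factorial : ℝ) / (a.factorial * 4 ^ a))
    have e1 : ((2 * a).factorial : ℝ) / (a.factorial * 4 ^ a) * (2 * Vr G) ^ a = mu a * Vr G ^ a := by
      unfold mu
      rw [mul_pow, show (4 : ℝ) ^ a = 2 ^ a * 2 ^ a by rw [← mul_pow]; norm_num]
      field_simp
    rw [e1] at h1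
    refine h1.congr fun T => ?_
    have h2 := gm_even (zp T (WG T G)) (XX κ T) 1 one_pos a
    rw [div_eq_iff (by positivity)] at h2
    rw [h2]
    simp only [one_pow, mul_one]
    field_simp
  · rw [gmo_odd]
    simp only [gm_odd]
    exact tendsto_const_nhds

/-- **moments** -/
theorem mom_lim {κ M Λ : ℝ} {G : ℝ → ℂ} (h : Bd κ M Λ G) (hκ0 : 0 < κ) (hκ : κ ≤ 1 / 4) (m : ℕ)
    (hm : 4 * κ * m ≤ 1) (ε : ℝ) (hε : 0 < ε) : ∃ T0 : ℝ, 10 ≤ T0 ∧ ∀ T : ℝ, T0 ≤ T → ∀ A A' : ℝ,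
    T ≤ A → A ≤ A' → A' ≤ 2 * T →
    |(∫ t in A..A', PG κ G T t ^ m) - (A' - A) * gmo (Vr G) m| ≤ ε * T := by
  obtain ⟨K, hK⟩ : ∃ K : ℝ, K = |2 * Vr G| + 1 := ⟨_, rfl⟩
  have hK0 : 0 < K := by rw [hK]; positivity
  have ev1 : ∀ᶠ T in atTop, VS (nz (zp T (WG T G))) (XX κ T) ≤ K := by
    filter_upwards [(VS_lim h hκ0 hκ).eventually_le_const
      (show 2 * Vr G < K by rw [hK]; linarith [le_abs_self (2 * Vr G)])] with T hT
    exact hT
  have ev2 : ∀ᶠ T in atTop, |gm (zp T (WG T G)) (XX κ T) 1 m - gmo (Vr G) m| ≤ ε / 2 := by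
    have := (tendsto_iff_dist_tendsto_zero.1 (gm_lim h hκ0 hκ m)).eventually_le_const
      (show 0 < ε / 2 by positivity)
    filter_upwards [this] with T hT
    rwa [Real.dist_eq] at hT
  have ev3 : ∀ᶠ T : ℝ in atTop, 8 * (Real.sqrt T * (1 + Real.log T)) * (m.factorial * (1 + K) ^ m) ≤
      ε / 2 * T := by
    have h2 : (fun T : ℝ => 8 * (Real.sqrt T * (1 + Real.log T)) * (m.factorial * (1 + K) ^ m)) =o[atTop]
        fun T : ℝ => T := by
      have h3 : (fun T : ℝ => 1 + Real.log T) =o[atTop] fun T : ℝ => Real.sqrt T := by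
        have h4 : (fun T : ℝ => Real.log T) =o[atTop] fun T : ℝ => Real.sqrt T := by
          have := isLittleO_log_rpow_atTop (show (0 : ℝ) < 1 / 2 by norm_num)
          refine this.congr_right fun x => ?_
          rw [Real.sqrt_eq_rpow]
        have h5 : (fun _ : ℝ => (1 : ℝ)) =o[atTop] fun T : ℝ => Real.sqrt T := by
          rw [Asymptotics.isLittleO_const_left]
          right
          exact tendsto_abs_atTop_atTop.comp Real.tendsto_sqrt_atTop
        exact h5.add h4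
      have h6 := (Asymptotics.isBigO_refl (fun T : ℝ => Real.sqrt T) atTop).mul_isLittleO h3
      have h7 := (h6.const_mul_left 8)
      have h8 := h7.const_mul_left ((m.factorial : ℝ) * (1 + K) ^ m)
      refine (h8.congr_left fun T => ?_).trans_eventuallyEq ?_
      · ring
      · filter_upwards [eventually_ge_atTop 0] with T hT
        exact Real.mul_self_sqrt hT
    have h3 := h2.bound (show 0 < ε / 2 by positivity)
    filter_upwards [h3, eventually_ge_atTop 1] with T hT hT1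
    rw [Real.norm_of_nonneg (by linarith : (0 : ℝ) ≤ T)] at hT
    exact (le_abs_self _).trans hT
  obtain ⟨T0, hT0⟩ := ((ev1.and ev2).and (ev3.and (eventually_ge_atTop 10))).exists_forall_of_atTop
  refine ⟨max 10 T0, le_max_left _ _, fun T hT A A' hA hAA hA' => ?_⟩
  obtain ⟨⟨g1, g2⟩, g3, g4⟩ := hT0 T ((le_max_right _ _).trans hT)
  have hT0 : 0 < T := by linarith
  have hL : 0 < Real.log T := Real.log_pos (by linarith)
  have hX1 : 1 ≤ XX κ T := by
    unfold XX
    apply Nat.le_floor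
    push_cast
    rw [Real.one_le_exp_iff]
    positivity
  have hXm : ((XX κ T ^ m : ℕ) : ℝ) ≤ Real.sqrt T := by
    push_cast
    have h2 : (XX κ T : ℝ) ≤ Real.exp (2 * (κ * Real.log T)) := Nat.floor_le (Real.exp_pos _).le
    calc (XX κ T : ℝ) ^ m ≤ Real.exp (2 * (κ * Real.log T)) ^ m := by gcongr
      _ = Real.exp (m * (2 * (κ * Real.log T))) := by rw [← Real.exp_nat_mul]
      _ ≤ Real.exp (Real.log T / 2) := by
          apply Real.exp_le_exp.2
          have : (m : ℝ) * (2 * (κ * Real.log T)) = (4 * κ * m) * (Real.log T / 2) := by ring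
          rw [this]
          have : (4 * κ * m) * (Real.log T / 2) ≤ 1 * (Real.log T / 2) := by gcongr
          linarith
      _ = Real.sqrt T := by
          rw [Real.sqrt_eq_rpow, Real.rpow_def_of_pos hT0]
          congr 1
          ring
  have h1 := momR (zp T (WG T G)) (XX κ T) hX1 T A A' 1 K (by linarith) hAA one_pos hK0.le
    (by rw [one_pow, mul_one]; exact g1) m hXm
  have e1 : (∫ t in A..A', ((((PP (zp T (WG T G)) (XX κ T) t).re / 1) ^ m : ℝ) : ℂ)) =
      ((∫ t in A..A', PG κ G T t ^ m : ℝ) : ℂ) := by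
    rw [← intervalIntegral.integral_ofReal]
    refine intervalIntegral.integral_congr fun t _ => ?_
    simp only [div_one]
    rfl
  rw [e1, ← Complex.ofReal_mul, ← Complex.ofReal_sub, Complex.norm_real, Real.norm_eq_abs] at h1
  have h2 : |(A' - A) * gm (zp T (WG T G)) (XX κ T) 1 m - (A' - A) * gmo (Vr G) m| ≤ T * (ε / 2) := by
    rw [← mul_sub, abs_mul, abs_of_nonneg (by linarith : 0 ≤ A' - A)]
    apply mul_le_mul (by linarith) g2 (abs_nonneg _) hT0.le
  have h3 := h1.trans g3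
  have a1 := abs_le.1 h2
  have a2 := abs_le.1 h3
  rw [abs_le]
  constructor <;> linarith [a1.1, a1.2, a2.1, a2.2]

end

end Pool.Agent.K6.H57.MX
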