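import Pool.Agent.K6.H57.MX.Ct

/-! # From a uniform point to the zeros -/

set_option autoImplicit false

open MeasureTheory Set Filter Topology
open scoped ContDiff NNReal

namespace Pool.Agent.K6.H57.MX

open Pool.Agent.K6.H57.ML
open SG (ord NZ)
open Pool.Agent.R320.CL (SS dl)

noncomputable section

/-- the rescaled distance -/
def pr (T : ℝ) (r n : ℕ) : ℝ := Real.log T * (ord (n + r) - ord n) / (2 * Real.pi)

lemma log2pi : Real.log (2 * Real.pi) ≤ 2 := by
  have hpi := Real.pi_lt_d2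
  have hpi0 := Real.pi_pos
  rw [Real.log_le_iff_le_exp (by positivity)]
  have h := Real.exp_one_gt_d9
  have e : Real.exp 2 = Real.exp 1 * Real.exp 1 := by rw [← Real.exp_add]; norm_num
  rw [e]
  nlinarith

lemma SS_pr {T : ℝ} (hT : 100 ≤ T) {r n : ℕ} (hn : 1 ≤ n) (h1 : T ≤ ord n) (h2 : ord (n + r) ≤ 2 * T) :
    |SS r n - pr T r n| ≤ 2 / Real.log T * pr T r n := by
  have hpi := Real.pi_pos
  have hpi3 := Real.pi_gt_three
  have hL : 0 < Real.log T := Real.log_pos (by linarith)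
  have e1 : ∀ m : ℕ, pr T m n = ∑ i ∈ Finset.range m, Real.log T * (ord (n + i + 1) - ord (n + i)) / (2 * Real.pi) := by
    intro m
    unfold pr
    rw [← Finset.sum_div, ← Finset.mul_sum]
    congr 2
    have := Finset.sum_range_sub (fun i => ord (n + i)) m
    simp only [add_zero] at this
    rw [← this]
    rfl
  rw [e1]
  unfold SS
  rw [← Finset.sum_sub_distrib, Finset.mul_sum]
  refine (Finset.abs_sum_le_sum_abs _ _).trans (Finset.sum_le_sum fun i hi => ?_)
  rw [Finset.mem_range] at hi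
  have a1 : T ≤ ord (n + i) := h1.trans (SG.ord_mono hn (by omega))
  have a2 : ord (n + i) ≤ 2 * T := (SG.ord_mono (by omega) (by omega)).trans h2
  have a3 : 0 ≤ ord (n + i + 1) - ord (n + i) := by
    have := SG.ord_mono (show 1 ≤ n + i by omega) (show n + i ≤ n + i + 1 by omega)
    linarith
  have e2 : dl (n + i) - Real.log T * (ord (n + i + 1) - ord (n + i)) / (2 * Real.pi) =
      (ord (n + i + 1) - ord (n + i)) / (2 * Real.pi) * (Real.log (ord (n + i) / (2 * Real.pi)) - Real.log T) := by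
    unfold Pool.Agent.R320.CL.dl
    ring
  rw [e2, abs_mul, abs_of_nonneg (by positivity : 0 ≤ (ord (n + i + 1) - ord (n + i)) / (2 * Real.pi))]
  have e3 : 2 / Real.log T * (Real.log T * (ord (n + i + 1) - ord (n + i)) / (2 * Real.pi)) =
      (ord (n + i + 1) - ord (n + i)) / (2 * Real.pi) * 2 := by
    field_simp
  rw [e3]
  apply mul_le_mul_of_nonneg_left _ (by positivity)
  have hp : 0 < ord (n + i) := by linarith
  rw [Real.log_div hp.ne' (by positivity), abs_le]
  have l1 : Real.log T ≤ Real.log (ord (n + i)) := Real.log_le_log (by linarith) a1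
  have l2 : Real.log (ord (n + i)) ≤ Real.log 2 + Real.log T := by
    rw [← Real.log_mul (by norm_num) (by linarith)]
    exact Real.log_le_log hp a2
  have l3 := log2pi
  have l4 : Real.log 2 ≤ Real.log (2 * Real.pi) := Real.log_le_log (by norm_num) (by linarith)
  have l5 : 0 ≤ Real.log 2 := Real.log_nonneg (by norm_num)
  constructor <;> linarith

lemma pr_nonneg {T : ℝ} (hL : 0 < Real.log T) {r n : ℕ} (hn : 1 ≤ n) : 0 ≤ pr T r n := by
  have hpi := Real.pi_pos
  unfold pr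
  have := SG.ord_mono hn (show n ≤ n + r by omega)
  have h2 : 0 ≤ ord (n + r) - ord n := by linarith
  positivity

lemma ord_pr {T : ℝ} (hL : 0 < Real.log T) (r n : ℕ) :
    ord (n + r) = ord n + 2 * Real.pi * pr T r n / Real.log T := by
  have hpi := Real.pi_pos
  unfold pr
  field_simp
  ring

/-- upper bounds -/
lemma det1 {T t x z : ℝ} (hL : 0 < Real.log T) {n R : ℕ} (hn : 1 ≤ n) (h1 : t < ord n)
    (h2 : ord n < t + 2 * Real.pi / Real.log T) (hz : ((NZ (t + 2 * Real.pi / Real.log T) : ℝ) - NZ t) ≤ z)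
    (hx0 : 0 ≤ x) (hx : ∀ v ∈ Finset.Icc 1 (2 * R), |DD T t v| ≤ x) (hR : x + z + 3 ≤ R)
    {r : ℕ} (hr : r ∈ Finset.Icc 1 R) : |pr T r n - r| ≤ x + z + 2 := by
  have hpi := Real.pi_pos
  rw [Finset.mem_Icc] at hr
  have hr1 : (1 : ℝ) ≤ r := by exact_mod_cast hr.1
  have hrR : (r : ℝ) ≤ R := by exact_mod_cast hr.2
  have hn1 : n ≤ NZ (t + 2 * Real.pi / Real.log T) := (SG.ord_le_iff hn _).1 h2.le
  have hn2 : NZ t < n := by
    by_contra hcon
    push Not at hcon
    have := (SG.ord_le_iff hn _).2 hcon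
    linarith
  have hn1R : (n : ℝ) ≤ NZ (t + 2 * Real.pi / Real.log T) := by exact_mod_cast hn1
  have hn2R : (NZ t : ℝ) + 1 ≤ n := by exact_mod_cast hn2
  have hz0 : 0 ≤ z := by linarith
  rw [abs_le]
  constructor
  · by_contra hcon
    push Not at hcon
    obtain ⟨u, hu⟩ : ∃ u : ℕ, u = ⌈pr T r n⌉₊ := ⟨_, rfl⟩
    have hu1 : pr T r n ≤ u := by rw [hu]; exact Nat.le_ceil _
    have hu2 : (u : ℝ) < pr T r n + 1 := by rw [hu]; exact Nat.ceil_lt_add_one (pr_nonneg hL hn)
    have hu3 : u + 1 ∈ Finset.Icc 1 (2 * R) := by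
      rw [Finset.mem_Icc]
      refine ⟨by omega, ?_⟩
      have : ((u + 1 : ℕ) : ℝ) ≤ ((2 * R : ℕ) : ℝ) := by
        push_cast
        linarith
      exact_mod_cast this
    have h3 := (abs_le.1 (hx _ hu3)).2
    unfold DD at h3
    have h4 : n + r ≤ NZ (t + 2 * Real.pi * ((u + 1 : ℕ) : ℝ) / Real.log T) := by
      rw [← SG.ord_le_iff (by omega)]
      rw [ord_pr hL]
      have e : t + 2 * Real.pi * ((u + 1 : ℕ) : ℝ) / Real.log T =
          (t + 2 * Real.pi / Real.log T) + 2 * Real.pi * u / Real.log T := by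
        push_cast
        ring
      rw [e]
      have : 2 * Real.pi * pr T r n / Real.log T ≤ 2 * Real.pi * u / Real.log T := by gcongr
      linarith
    have h5 : (n : ℝ) + r ≤ NZ (t + 2 * Real.pi * ((u + 1 : ℕ) : ℝ) / Real.log T) := by exact_mod_cast h4
    push_cast at h3 h5
    linarith
  · by_contra hcon
    push Not at hcon
    obtain ⟨u, hu⟩ : ∃ u : ℕ, u = ⌊r + x + z + 1⌋₊ := ⟨_, rfl⟩
    have hu1 : (u : ℝ) ≤ r + x + z + 1 := by rw [hu]; exact Nat.floor_le (by linarith)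
    have hu2 : r + x + z < u := by
      have := Nat.lt_floor_add_one (r + x + z + 1)
      rw [← hu] at this
      linarith
    have hu3 : u ∈ Finset.Icc 1 (2 * R) := by
      rw [Finset.mem_Icc]
      constructor
      · have : (0 : ℝ) < u := by linarith
        exact_mod_cast this
      · have : (u : ℝ) ≤ ((2 * R : ℕ) : ℝ) := by
          push_cast
          linarith
        exact_mod_cast this
    have h3 := (abs_le.1 (hx _ hu3)).1
    unfold DD at h3
    have h4 : NZ (t + 2 * Real.pi * (u : ℝ) / Real.log T) < n + r := by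
      by_contra hc
      push Not at hc
      rw [← SG.ord_le_iff (by omega), ord_pr hL] at hc
      have : 2 * Real.pi * (u : ℝ) / Real.log T ≤ 2 * Real.pi * pr T r n / Real.log T := by
        have : (u : ℝ) ≤ pr T r n := by linarith
        gcongr
      linarith
    have h5 : (NZ (t + 2 * Real.pi * (u : ℝ) / Real.log T) : ℝ) + 1 ≤ n + r := by exact_mod_cast h4
    linarith

/-- short runs -/
lemma det2 {T t x y z : ℝ} (hL : 0 < Real.log T) {n R m : ℕ} (hn : 1 ≤ n) (h1 : t < ord n)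
    (h2 : ord n < t + 2 * Real.pi / Real.log T) (hz : ((NZ (t + 2 * Real.pi / Real.log T) : ℝ) - NZ t) ≤ z)
    (hx : ∀ v ∈ Finset.Icc 1 (2 * R), |DD T t v| ≤ x) (hm : m ≤ 2 * R) (hmR : m + x ≤ R) (hy : z + 1 ≤ y)
    (hv : ∃ v ∈ Finset.Icc 1 m, y ≤ DD T t v) : ∃ r ∈ Finset.Icc 1 R, pr T r n - r ≤ -(y - z) := by
  have hpi := Real.pi_pos
  obtain ⟨v, hv, hvy⟩ := hv
  rw [Finset.mem_Icc] at hv
  have hv1 : (1 : ℝ) ≤ v := by exact_mod_cast hv.1
  have hvm : (v : ℝ) ≤ m := by exact_mod_cast hv.2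
  have hn1 : n ≤ NZ (t + 2 * Real.pi / Real.log T) := (SG.ord_le_iff hn _).1 h2.le
  have hn2 : NZ t < n := by
    by_contra hcon
    push Not at hcon
    have := (SG.ord_le_iff hn _).2 hcon
    linarith
  have hn1R : (n : ℝ) ≤ NZ (t + 2 * Real.pi / Real.log T) := by exact_mod_cast hn1
  have hn2R : (NZ t : ℝ) + 1 ≤ n := by exact_mod_cast hn2
  have hxv := (abs_le.1 (hx v (Finset.mem_Icc.2 ⟨hv.1, hv.2.trans hm⟩))).2
  obtain ⟨q, hq⟩ : ∃ q : ℕ, q = NZ (t + 2 * Real.pi * (v : ℝ) / Real.log T) := ⟨_, rfl⟩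
  unfold DD at hvy hxv
  rw [← hq] at hvy hxv
  have hqn : (n : ℝ) + 1 ≤ q := by linarith
  have hqn' : n + 1 ≤ q := by exact_mod_cast hqn
  obtain ⟨r, hr⟩ : ∃ r : ℕ, q = n + r := ⟨q - n, by omega⟩
  have hrR : (q : ℝ) = n + r := by exact_mod_cast hr
  refine ⟨r, ?_, ?_⟩
  · rw [Finset.mem_Icc]
    refine ⟨by omega, ?_⟩
    have : (r : ℝ) ≤ R := by linarith
    exact_mod_cast this
  · have h3 : ord (n + r) ≤ t + 2 * Real.pi * (v : ℝ) / Real.log T := by
      rw [SG.ord_le_iff (by omega), ← hq, hr]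
    rw [ord_pr hL] at h3
    have h4 : 2 * Real.pi * pr T r n / Real.log T < 2 * Real.pi * v / Real.log T := by linarith
    rw [div_lt_div_iff_of_pos_right hL] at h4
    have h5 : pr T r n < v := lt_of_mul_lt_mul_left h4 (by positivity)
    linarith

/-- long runs -/
lemma det3 {T t y : ℝ} (hL : 0 < Real.log T) {n R m : ℕ} (hn : 1 ≤ n) (h1 : t < ord n)
    (h2 : ord n < t + 2 * Real.pi / Real.log T) (hm : m ≤ R) (hy : 0 ≤ y)
    (hv : ∃ v ∈ Finset.Icc 1 m, DD T t v ≤ -y) : ∃ r ∈ Finset.Icc 1 R, y - 1 ≤ pr T r n - r := by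
  have hpi := Real.pi_pos
  obtain ⟨v, hv, hvy⟩ := hv
  rw [Finset.mem_Icc] at hv
  have hv1 : (1 : ℝ) ≤ v := by exact_mod_cast hv.1
  have hvR : (v : ℝ) ≤ R := by exact_mod_cast hv.2.trans hm
  have hn1 : n ≤ NZ (t + 2 * Real.pi / Real.log T) := (SG.ord_le_iff hn _).1 h2.le
  have hn2 : NZ t < n := by
    by_contra hcon
    push Not at hcon
    have := (SG.ord_le_iff hn _).2 hcon
    linarith
  have hn2R : (NZ t : ℝ) + 1 ≤ n := by exact_mod_cast hn2
  obtain ⟨q, hq⟩ : ∃ q : ℕ, q = NZ (t + 2 * Real.pi * (v : ℝ) / Real.log T) := ⟨_, rfl⟩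
  unfold DD at hvy
  rw [← hq] at hvy
  have hnq : n ≤ q := by
    rw [hq]
    refine hn1.trans (SG.NZ_mono ?_)
    have : 2 * Real.pi / Real.log T ≤ 2 * Real.pi * v / Real.log T := by
      apply div_le_div_of_nonneg_right _ hL.le
      nlinarith
    linarith
  obtain ⟨r, hr⟩ : ∃ r : ℕ, q + 1 = n + r := ⟨q + 1 - n, by omega⟩
  have hrR : (q : ℝ) + 1 = n + r := by exact_mod_cast hr
  refine ⟨r, ?_, ?_⟩
  · rw [Finset.mem_Icc]
    refine ⟨by omega, ?_⟩
    have : (r : ℝ) ≤ R := by linarith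
    exact_mod_cast this
  · have h3 : t + 2 * Real.pi * (v : ℝ) / Real.log T < ord (n + r) := by
      by_contra hc
      push Not at hc
      rw [SG.ord_le_iff (by omega), ← hq] at hc
      omega
    rw [ord_pr hL] at h3
    have h4 : 2 * Real.pi * (v - 1) / Real.log T < 2 * Real.pi * pr T r n / Real.log T := by
      have e : 2 * Real.pi * (v - 1) / Real.log T = 2 * Real.pi * v / Real.log T - 2 * Real.pi / Real.log T := by ring
      rw [e]
      linarith
    rw [div_lt_div_iff_of_pos_right hL] at h4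
    have h5 : (v : ℝ) - 1 < pr T r n := lt_of_mul_lt_mul_left h4 (by positivity)
    linarith

/-- **transfer** -/
theorem palm {T C2 δ θ : ℝ} (hT : 1 ≤ T) (hL : 0 < Real.log T) (hθ : 0 < θ) (B : Finset ℕ)
    (S : Set ℝ) (F : ℝ → ℝ) (hF : Nc T F)
    (hFc : ∀ t ∈ Wd T, ((NZ (t + 2 * Real.pi / Real.log T) : ℝ) - NZ t) ≤ F t)
    (hF2 : EX T (fun t => F t ^ 2) ≤ C2) (hS : Pb T S ≤ δ)
    (hB : ∀ n ∈ B, 1 ≤ n ∧ Ioo (ord n - 2 * Real.pi / Real.log T) (ord n) ⊆ Wd T ∧
      ∀ t ∈ Ioo (ord n - 2 * Real.pi / Real.log T) (ord n), t ∈ S) :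
    (B.card : ℝ) * (2 * Real.pi / Real.log T) ≤ T * (θ / 2 * C2 + δ / (2 * θ)) := by
  have hpi := Real.pi_pos
  have hT0 : 0 < T := by linarith
  obtain ⟨l, hl⟩ : ∃ l : ℝ, l = 2 * Real.pi / Real.log T := ⟨_, rfl⟩
  have hl0 : 0 < l := by rw [hl]; positivity
  rw [← hl] at hFc hB ⊢
  obtain ⟨E, hE⟩ : ∃ E : Set ℝ, E = ⋃ n ∈ B, Ioo (ord n - l) (ord n) := ⟨_, rfl⟩
  have hEm : MeasurableSet E := by
    rw [hE]
    exact Finset.measurableSet_biUnion _ fun n _ => measurableSet_Ioo
  have hES : Pb T E ≤ δ := by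
    refine (Pb_mono hT0 ?_).trans hS
    intro t _ ht
    rw [hE, mem_iUnion₂] at ht
    obtain ⟨n, hn, htn⟩ := ht
    exact (hB n hn).2.2 t htn
  have nI : ∀ n ∈ B, Nc T ((Ioo (ord n - l) (ord n)).indicator fun _ => (1 : ℝ)) := fun n _ =>
    (Nc.const T 1).ind measurableSet_Ioo
  have nE : Nc T (E.indicator fun _ => (1 : ℝ)) := (Nc.const T 1).ind hEm
  have nF2 : Nc T fun t => F t ^ 2 := by
    have := hF.mul hF
    simpa only [sq] using this
  have key : EX T (fun t => ∑ n ∈ B, (Ioo (ord n - l) (ord n)).indicator (fun _ => (1 : ℝ)) t) ≤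
      EX T (fun t => θ / 2 * F t ^ 2 + 1 / (2 * θ) * E.indicator (fun _ => (1 : ℝ)) t) := by
    apply EX_mono hT0 (Nc.sum _ nI) ((nF2.cmul _).add (nE.cmul _))
    intro t ht
    by_cases htE : t ∈ E
    · rw [indicator_of_mem htE, mul_one]
      have h1 : ∑ n ∈ B, (Ioo (ord n - l) (ord n)).indicator (fun _ => (1 : ℝ)) t ≤ (NZ (t + l) : ℝ) - NZ t := by
        have e1 : ∑ n ∈ B, (Ioo (ord n - l) (ord n)).indicator (fun _ => (1 : ℝ)) t =
            ((B.filter fun n => t ∈ Ioo (ord n - l) (ord n)).card : ℝ) := by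
          rw [Finset.card_filter, Nat.cast_sum]
          refine Finset.sum_congr rfl fun n _ => ?_
          by_cases h : t ∈ Ioo (ord n - l) (ord n)
          · rw [indicator_of_mem h, if_pos h]
            simp
          · rw [indicator_of_notMem h, if_neg h]
            simp
        rw [e1]
        have h2 : (B.filter fun n => t ∈ Ioo (ord n - l) (ord n)) ⊆ Finset.Ioc (NZ t) (NZ (t + l)) := by
          intro n hn
          rw [Finset.mem_filter] at hn
          obtain ⟨hnB, hn1, hn2⟩ := hn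
          have hn0 := (hB n hnB).1
          rw [Finset.mem_Ioc]
          constructor
          · by_contra hcon
            push Not at hcon
            have := (SG.ord_le_iff hn0 _).2 hcon
            linarith
          · rw [← SG.ord_le_iff hn0]
            linarith
        have h3 := Finset.card_le_card h2
        rw [Nat.card_Ioc] at h3
        have h4 : ((NZ (t + l) - NZ t : ℕ) : ℝ) = (NZ (t + l) : ℝ) - NZ t :=
          Nat.cast_sub (SG.NZ_mono (by linarith))
        rw [← h4]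
        exact_mod_cast h3
      have h2 := h1.trans (hFc t ht)
      refine h2.trans ?_
      have : 0 ≤ (θ * F t - 1) ^ 2 / (2 * θ) := by positivity
      have e5 : (θ * F t - 1) ^ 2 / (2 * θ) = θ / 2 * F t ^ 2 + 1 / (2 * θ) - F t := by
        field_simp
        ring
      linarith
    · have h0 : ∑ n ∈ B, (Ioo (ord n - l) (ord n)).indicator (fun _ => (1 : ℝ)) t = 0 := by
        apply Finset.sum_eq_zero
        intro n hn
        rw [indicator_of_notMem]
        intro hcon
        apply htE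
        rw [hE, mem_iUnion₂]
        exact ⟨n, hn, hcon⟩
      rw [h0, indicator_of_notMem htE, mul_zero, add_zero]
      positivity
  rw [EX_sum _ nI, EX_add (nF2.cmul _) (nE.cmul _), EX_cmul, EX_cmul] at key
  have e1 : ∀ n ∈ B, EX T (fun t => (Ioo (ord n - l) (ord n)).indicator (fun _ => (1 : ℝ)) t) = l / T := by
    intro n hn
    have h1 := EX_ind (T := T) (S := Ioo (ord n - l) (ord n)) measurableSet_Ioo
    have h2 : EX T (fun t => (Ioo (ord n - l) (ord n)).indicator (fun _ => (1 : ℝ)) t) =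
        Pb T (Ioo (ord n - l) (ord n)) := h1
    rw [h2]
    unfold Pb
    rw [inter_eq_left.2 (hB n hn).2.1, measureReal_def, Real.volume_Ioo, ENNReal.toReal_ofReal (by linarith)]
    congr 1
    ring
  rw [Finset.sum_congr rfl e1, Finset.sum_const, nsmul_eq_mul] at key
  have hEI : EX T (fun t => E.indicator (fun _ => (1 : ℝ)) t) = Pb T E := EX_ind hEm
  rw [hEI] at key
  have k2 : (B.card : ℝ) * (l / T) ≤ θ / 2 * C2 + δ / (2 * θ) := by
    refine key.trans ?_
    have a1 : θ / 2 * EX T (fun t => F t ^ 2) ≤ θ / 2 * C2 := mul_le_mul_of_nonneg_left hF2 (by positivity)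
    have a2 : 1 / (2 * θ) * Pb T E ≤ 1 / (2 * θ) * δ := mul_le_mul_of_nonneg_left hES (by positivity)
    have e6 : δ / (2 * θ) = 1 / (2 * θ) * δ := by ring
    rw [e6]
    linarith
  have e7 : (B.card : ℝ) * (l / T) = (B.card : ℝ) * l / T := by ring
  rw [e7, div_le_iff₀ hT0] at k2
  linarith

end

end Pool.Agent.K6.H57.MX
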