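import Pool.Agent.K6.H57.MX.Vd

/-! # The multiscale family -/

set_option autoImplicit false

open MeasureTheory Set Filter Topology
open scoped ContDiff NNReal

namespace Pool.Agent.K6.H57.MX

open Pool.Agent.K6.H57.ML

noncomputable section

lemma Bd_unif {ι : Type*} (I : Finset ι) {κ : ℝ} {G : ι → ℝ → ℂ} (h : ∀ i ∈ I, ∃ M Λ : ℝ, Bd κ M Λ (G i)) :
    ∃ M Λ : ℝ, ∀ i ∈ I, Bd κ M Λ (G i) := by
  classical
  induction I using Finset.induction_on with
  | empty => exact ⟨0, 0, fun i hi => absurd hi (Finset.notMem_empty i)⟩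
  | insert a s ha ih =>
    obtain ⟨M1, L1, h1⟩ := h a (Finset.mem_insert_self _ _)
    obtain ⟨M2, L2, h2⟩ := ih fun i hi => h i (Finset.mem_insert_of_mem hi)
    refine ⟨max M1 M2, max L1 L2, fun i hi => ?_⟩
    rcases Finset.mem_insert.1 hi with rfl | hi
    · exact h1.mono le_rfl (le_max_left _ _) (le_max_left _ _)
    · exact (h2 i hi).mono le_rfl (le_max_right _ _) (le_max_right _ _)

/-- the smallest scale -/
def s1 (m : ℕ) : ℝ := 20000 * Real.log m

/-- the scales -/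
def lv (K m j : ℕ) : ℝ := if j = 0 then s1 m else Real.exp (j * (Real.log m / K))

/-- the largest scale -/
def rp (K m : ℕ) : ℝ := Real.exp (((K - 4 : ℕ) : ℝ) * (Real.log m / K))

/-- the family -/
def Gz (K m : ℕ) (i : ℕ × ℕ) : ℝ → ℂ := Sh i.1 (Gp (lv K m i.2) (rp K m))

/-- the index set -/
def IK (K m : ℕ) : Finset (ℕ × ℕ) := Finset.Icc 1 m ×ˢ Finset.range (K - 3)

/-- the bulk -/
def BB (K m : ℕ) (T : ℝ) : Set ℝ := Bk (IK K m) (1 / s1 m) (Gz K m) (10 * Real.log m) T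

/-- the statistics -/
def ZZ (K m u j : ℕ) (T t : ℝ) : ℝ := PG (1 / s1 m) (Sh u (Gp (lv K m j) (rp K m))) T t

/-- largeness -/
structure Big (K : ℕ) (η : ℝ) (m : ℕ) : Prop where
  K8 : 8 ≤ K
  l1 : 1 ≤ Real.log m
  s : 2 * s1 m ≤ Real.exp (Real.log m / K)
  e1 : Real.exp (-Real.log m) ≤ η / 2
  e2 : 32 * K * Real.exp (-Real.log m) ≤ η ^ 2

lemma Big_ev (K : ℕ) (hK : 8 ≤ K) {η : ℝ} (hη : 0 < η) : ∀ᶠ m : ℕ in atTop, Big K η m := by
  have hK0 : (0 : ℝ) < K := by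
    have : (8 : ℝ) ≤ K := by exact_mod_cast hK
    linarith
  have hl : Tendsto (fun m : ℕ => Real.log (m : ℝ)) atTop atTop :=
    Real.tendsto_log_atTop.comp tendsto_natCast_atTop_atTop
  have h1 := hl.eventually_ge_atTop 1
  have h2 : ∀ᶠ x : ℝ in atTop, 2 * (20000 * x) ≤ Real.exp (x / K) := by
    have h3 : (fun x : ℝ => x) =o[atTop] fun x : ℝ => Real.exp (1 / K * x) := by
      have := isLittleO_pow_exp_pos_mul_atTop 1 (show (0 : ℝ) < 1 / K by positivity)
      simpa using this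
    have h4 := h3.bound (show (0 : ℝ) < 1 / 40000 by norm_num)
    filter_upwards [h4, eventually_ge_atTop 0] with x hx hx0
    rw [Real.norm_of_nonneg hx0, Real.norm_of_nonneg (Real.exp_pos _).le] at hx
    have e : x / K = 1 / K * x := by ring
    rw [e]
    linarith
  have h3 := hl.eventually h2
  have he : Tendsto (fun m : ℕ => Real.exp (-Real.log (m : ℝ))) atTop (𝓝 0) :=
    Real.tendsto_exp_neg_atTop_nhds_zero.comp hl
  have h4 := he.eventually_le_const (show (0 : ℝ) < η / 2 by positivity)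
  have h5 := (he.const_mul (32 * K : ℝ)).eventually_le_const
    (show 32 * (K : ℝ) * 0 < η ^ 2 by rw [mul_zero]; positivity)
  filter_upwards [h1, h3, h4, h5] with m g1 g3 g4 g5
  exact ⟨hK, g1, g3, g4, g5⟩

variable {K m : ℕ} {η : ℝ}

lemma Big.K0 (h : Big K η m) : (8 : ℝ) ≤ K := by exact_mod_cast h.K8

lemma Big.m2 (h : Big K η m) : (2 : ℝ) ≤ m := by
  have h1 := h.l1
  have hm : (0 : ℝ) < m := by
    by_contra hcon
    push Not at hcon
    have : (m : ℝ) = 0 := le_antisymm hcon (Nat.cast_nonneg m)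
    rw [this, Real.log_zero] at h1
    linarith
  rw [Real.le_log_iff_exp_le hm] at h1
  have := Real.add_one_le_exp (1 : ℝ)
  linarith

lemma Big.explog (h : Big K η m) : Real.exp (Real.log m) = m :=
  Real.exp_log (by linarith [h.m2])

lemma Big.q0 (h : Big K η m) : 0 < Real.log m / K := by
  have := h.l1
  have := h.K0
  positivity

lemma Big.s1ge (h : Big K η m) : 20000 ≤ s1 m := by
  unfold s1
  linarith [h.l1]

lemma Big.rho2 (h : Big K η m) : 2 ≤ Real.exp (Real.log m / K) := by linarith [h.s, h.s1ge]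

lemma Big.lv_ge (h : Big K η m) (j : ℕ) : s1 m ≤ lv K m j := by
  unfold lv
  split_ifs with hj
  · exact le_rfl
  · have h1 := h.s
    have h2 := h.s1ge
    have h3 : Real.exp (Real.log m / K) ≤ Real.exp (j * (Real.log m / K)) := by
      apply Real.exp_le_exp.2
      have : (1 : ℝ) ≤ j := by exact_mod_cast Nat.one_le_iff_ne_zero.2 hj
      have := h.q0
      nlinarith
    linarith

lemma Big.exp_mono (h : Big K η m) {i j : ℕ} (hij : i ≤ j) :
    Real.exp (i * (Real.log m / K)) ≤ Real.exp (j * (Real.log m / K)) := by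
  apply Real.exp_le_exp.2
  have : (i : ℝ) ≤ j := by exact_mod_cast hij
  exact mul_le_mul_of_nonneg_right this h.q0.le

lemma Big.lv_le (h : Big K η m) {j : ℕ} (hj : j ≤ K - 4) : lv K m j ≤ rp K m := by
  unfold lv rp
  split_ifs with hj0
  · have h1 := h.s
    have h2 := h.s1ge
    have h3 := h.exp_mono (i := 1) (j := K - 4) (by have := h.K8; omega)
    rw [Nat.cast_one, one_mul] at h3
    linarith
  · exact h.exp_mono hj

lemma Big.lv_le' (h : Big K η m) {j : ℕ} (hj : j + 1 ≤ K - 4) : 2 * lv K m j ≤ rp K m := by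
  unfold lv rp
  split_ifs with hj0
  · have h1 := h.s
    have h3 := h.exp_mono (i := 1) (j := K - 4) (by have := h.K8; omega)
    rw [Nat.cast_one, one_mul] at h3
    linarith
  · have h3 := h.exp_mono (i := j + 1) (j := K - 4) hj
    have e : Real.exp (((j + 1 : ℕ) : ℝ) * (Real.log m / K)) =
        Real.exp (Real.log m / K) * Real.exp (j * (Real.log m / K)) := by
      rw [← Real.exp_add]
      congr 1
      push_cast
      ring
    rw [e] at h3
    have := h.rho2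
    have h4 := Real.exp_pos ((j : ℝ) * (Real.log m / K))
    nlinarith

lemma Big.rp_le (h : Big K η m) : rp K m ≤ m := by
  unfold rp
  calc Real.exp (((K - 4 : ℕ) : ℝ) * (Real.log m / K)) ≤ Real.exp (K * (Real.log m / K)) :=
        h.exp_mono (Nat.sub_le _ _)
    _ = m := by
        rw [mul_div_cancel₀ _ (by linarith [h.K0]), h.explog]

lemma Big.rp_pos (_ : Big K η m) : 0 < rp K m := Real.exp_pos _

lemma Big.s1_rp (h : Big K η m) : 2 * s1 m ≤ rp K m := by
  have := h.lv_le' (j := 0) (by have := h.K8; omega)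
  unfold lv at this
  rwa [if_pos rfl] at this

lemma lv_zero : lv K m 0 = s1 m := by unfold lv; rw [if_pos rfl]

lemma lv_top (h : Big K η m) : lv K m (K - 4) = rp K m := by
  unfold lv rp
  rw [if_neg (by have := h.K8; omega)]

/-- each member of the family is of the right class -/
lemma Big.Gs (h : Big K η m) (u : ℝ) {j : ℕ} (hj : j ≤ K - 4) :
    ∃ M Λ : ℝ, Bd (1 / s1 m) M Λ (Sh u (Gp (lv K m j) (rp K m))) := by
  have h1 := h.lv_ge j
  have h2 := h.s1ge
  obtain ⟨Λ, hB⟩ := Gp_Bd (a := lv K m j) (b := rp K m) (by linarith) (h.lv_le hj)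
  have hB2 := hB.mono (κ' := 1 / s1 m) (one_div_le_one_div_of_le (by linarith) h1) le_rfl le_rfl
  exact ⟨_, _, hB2.sh u⟩

lemma Big.Gs' (h : Big K η m) (u : ℝ) (j : ℕ) :
    ∃ M Λ : ℝ, Bd (1 / s1 m) M Λ (Sh u (Gp (s1 m) (lv K m j))) := by
  have h2 := h.s1ge
  obtain ⟨Λ, hB⟩ := Gp_Bd (a := s1 m) (b := lv K m j) (by linarith) (h.lv_ge j)
  exact ⟨_, _, hB.sh u⟩

lemma Big.mem (h : Big K η m) {u j : ℕ} (hu : u ∈ Finset.Icc 1 m) (hj : j ≤ K - 4) : (u, j) ∈ IK K m := by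
  unfold IK
  rw [Finset.mem_product, Finset.mem_range]
  refine ⟨hu, ?_⟩
  have := h.K8
  simp only
  omega

lemma Big.Zb (h : Big K η m) {u j : ℕ} (hu : u ∈ Finset.Icc 1 m) (hj : j ≤ K - 4) {T t : ℝ}
    (ht : t ∈ BB K m T) : |ZZ K m u j T t| ≤ 10 * Real.log m := ht (u, j) (h.mem hu hj)

/-- bounds for the variances -/
lemma Big.Vup (h : Big K η m) {j : ℕ} (hj : j ≤ K - 4) : Vr (Gp (lv K m j) (rp K m)) ≤
    1 / (2 * Real.pi ^ 2) * (Real.log (rp K m / lv K m j) + Real.log 2) :=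
  Vr_up (by linarith [h.lv_ge j, h.s1ge]) (h.lv_le hj)

lemma Big.Vlog (h : Big K η m) {j : ℕ} (hj : j ≤ K - 4) : Vr (Gp (lv K m j) (rp K m)) ≤
    1 / (2 * Real.pi ^ 2) * Real.log m := by
  refine (h.Vup hj).trans ?_
  apply mul_le_mul_of_nonneg_left _ (by positivity)
  have h1 := h.lv_ge j
  have h2 := h.s1ge
  have h3 := h.rp_pos
  have h4 : 0 < lv K m j := by linarith
  rw [← Real.log_mul (by positivity) (by norm_num)]
  apply Real.log_le_log (by positivity)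
  have h5 := h.rp_le
  rw [div_mul_eq_mul_div, div_le_iff₀ h4]
  nlinarith

lemma pi_sq9 : (9 : ℝ) < Real.pi ^ 2 := by nlinarith [Real.pi_gt_three]

lemma pi_sq10 : Real.pi ^ 2 < 10 := by nlinarith [Real.pi_lt_d2, Real.pi_pos]

lemma Big.Vl (h : Big K η m) {j : ℕ} (hj : j ≤ K - 4) : Vr (Gp (lv K m j) (rp K m)) ≤ Real.log m / 18 := by
  refine (h.Vlog hj).trans ?_
  have h1 := pi_sq9
  have h2 := h.l1
  rw [one_div_mul_eq_div, div_le_div_iff₀ (by positivity) (by norm_num)]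
  nlinarith

/-- **the Laplace transform of a combination** -/
theorem lapH (h : Big K η m) (hη : 0 < η) (hη3 : η ≤ 1 / 3) {M' Λ' : ℝ} {H : ℝ → ℂ}
    (hH : Bd (1 / s1 m) M' Λ' H)
    (hb : ∀ T t : ℝ, t ∈ BB K m T → |PG (1 / s1 m) H T t| ≤ 190 * Real.log m)
    (hV : Vr H ≤ 5 * Real.log m) :
    ∀ᶠ T in atTop, (1 - 3 * η) * Real.exp (Vr H / 2) ≤
        EX T ((BB K m T).indicator fun t => Real.exp (PG (1 / s1 m) H T t)) ∧
      EX T ((BB K m T).indicator fun t => Real.exp (PG (1 / s1 m) H T t)) ≤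
        (1 + 3 * η) * Real.exp (Vr H / 2) := by
  have hl := h.l1
  have hs := h.s1ge
  have hm2 := h.m2
  obtain ⟨e, he⟩ : ∃ e : ℕ, e = ⌈1000 * Real.log m⌉₊ := ⟨_, rfl⟩
  have he1 : 1000 * Real.log m ≤ e := by rw [he]; exact Nat.le_ceil _
  have he2 : (e : ℝ) ≤ 1001 * Real.log m := by
    have : (e : ℝ) < 1000 * Real.log m + 1 := by rw [he]; exact Nat.ceil_lt_add_one (by positivity)
    linarith
  have he0 : 1 ≤ e := by
    have : (1 : ℝ) ≤ e := by linarith
    exact_mod_cast this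
  obtain ⟨M, Λ, hG⟩ := Bd_unif (IK K m) (κ := 1 / s1 m) (G := Gz K m) (by
    rintro ⟨u, j⟩ hi
    unfold IK at hi
    rw [Finset.mem_product, Finset.mem_range] at hi
    have hj : j ≤ K - 4 := by
      have := hi.2
      simp only at this
      omega
    exact h.Gs u hj)
  have hVG : ∀ i ∈ IK K m, Vr (Gz K m i) ≤ Real.log m := by
    rintro ⟨u, j⟩ hi
    unfold IK at hi
    rw [Finset.mem_product, Finset.mem_range] at hi
    have hj : j ≤ K - 4 := by
      have := hi.2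
      simp only at this
      omega
    unfold Gz
    rw [Vr_Sh]
    have := h.Vl hj
    linarith
  have hcard : ((IK K m).card : ℝ) ≤ K * m := by
    unfold IK
    rw [Finset.card_product, Nat.card_Icc, Finset.card_range]
    have h1 : (m + 1 - 1) * (K - 3) ≤ K * m := by
      rw [Nat.add_sub_cancel, mul_comm]
      exact Nat.mul_le_mul_right _ (Nat.sub_le _ _)
    exact_mod_cast h1
  refine lap (IK K m) hG (by positivity) e ?_ he0 (v := Real.log m) (b := 10 * Real.log m)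
    (fun i _ => Vr_nonneg _) hVG (by positivity) ?_ hH (Vr_nonneg _) ?_ ?_ hη hη3 ?_ ?_
  · unfold s1
    push_cast
    rw [mul_one_div, div_mul_eq_mul_div, div_le_one (by positivity)]
    linarith
  · push_cast
    linarith
  · intro T t ht
    have := hb T t ht
    push_cast
    linarith
  · linarith
  · refine le_trans ?_ h.e1
    apply Real.exp_le_exp.2
    linarith
  · refine le_trans ?_ h.e2
    have e1 : Real.exp (Vr H + Real.log m / 2 - 10 * Real.log m) ≤ Real.exp (-Real.log m) * Real.exp (-Real.log m) := by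
      rw [← Real.exp_add]
      apply Real.exp_le_exp.2
      linarith
    have e2 : Real.exp (-Real.log m) * m = 1 := by
      rw [Real.exp_neg, h.explog, inv_mul_cancel₀ (by linarith)]
    calc 32 * ((IK K m).card : ℝ) * Real.exp (Vr H + Real.log m / 2 - 10 * Real.log m) ≤
        32 * (K * m) * (Real.exp (-Real.log m) * Real.exp (-Real.log m)) := by gcongr
      _ = 32 * K * Real.exp (-Real.log m) * (Real.exp (-Real.log m) * m) := by ring
      _ = _ := by rw [e2, mul_one]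

/-- two levels at the same point -/
theorem lapA (h : Big K η m) (hη : 0 < η) (hη3 : η ≤ 1 / 3) {u j : ℕ} (hu : u ∈ Finset.Icc 1 m)
    (hj : j ≤ K - 4) (c d : ℝ) (hcd : |c| + |d| ≤ 19)
    (hV : c ^ 2 * Vr (Gp (s1 m) (rp K m)) + 2 * c * d * Cv (Sh u (Gp (s1 m) (rp K m)))
      (Sh u (Gp (lv K m j) (rp K m))) + d ^ 2 * Vr (Gp (lv K m j) (rp K m)) ≤ 5 * Real.log m) :
    ∀ᶠ T in atTop, (1 - 3 * η) * Real.exp ((c ^ 2 * Vr (Gp (s1 m) (rp K m)) + 2 * c * d *
      Cv (Sh u (Gp (s1 m) (rp K m))) (Sh u (Gp (lv K m j) (rp K m))) + d ^ 2 * Vr (Gp (lv K m j) (rp K m))) / 2) ≤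
        EX T ((BB K m T).indicator fun t => Real.exp (c * ZZ K m u 0 T t + d * ZZ K m u j T t)) ∧
      EX T ((BB K m T).indicator fun t => Real.exp (c * ZZ K m u 0 T t + d * ZZ K m u j T t)) ≤
        (1 + 3 * η) * Real.exp ((c ^ 2 * Vr (Gp (s1 m) (rp K m)) + 2 * c * d *
      Cv (Sh u (Gp (s1 m) (rp K m))) (Sh u (Gp (lv K m j) (rp K m))) + d ^ 2 * Vr (Gp (lv K m j) (rp K m))) / 2) := by
  have hl := h.l1
  obtain ⟨M0, L0, h0⟩ := h.Gs (u : ℝ) (j := 0) (Nat.zero_le _)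
  obtain ⟨M1, L1, h1⟩ := h.Gs (u : ℝ) hj
  rw [lv_zero] at h0
  have hH := (h0.smul (c : ℂ)).add (h1.smul (d : ℂ))
  have eV : Vr (fun ξ => (c : ℂ) * Sh u (Gp (s1 m) (rp K m)) ξ + (d : ℂ) * Sh u (Gp (lv K m j) (rp K m)) ξ) =
      c ^ 2 * Vr (Gp (s1 m) (rp K m)) + 2 * c * d * Cv (Sh u (Gp (s1 m) (rp K m)))
      (Sh u (Gp (lv K m j) (rp K m))) + d ^ 2 * Vr (Gp (lv K m j) (rp K m)) := by
    rw [Vr_comb h0.cont h1.cont, Vr_Sh, Vr_Sh]
  have eP : ∀ T t, PG (1 / s1 m) (fun ξ => (c : ℂ) * Sh u (Gp (s1 m) (rp K m)) ξ +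
      (d : ℂ) * Sh u (Gp (lv K m j) (rp K m)) ξ) T t = c * ZZ K m u 0 T t + d * ZZ K m u j T t := by
    intro T t
    rw [PG_add h0 h1]
    unfold ZZ
    rw [lv_zero]
  have := lapH h hη hη3 hH (fun T t ht => by
    rw [eP]
    have a0 := h.Zb hu (Nat.zero_le _) ht
    have a1 := h.Zb hu hj ht
    refine (abs_add_le _ _).trans ?_
    rw [abs_mul, abs_mul]
    have b0 := mul_le_mul_of_nonneg_left a0 (abs_nonneg c)
    have b1 := mul_le_mul_of_nonneg_left a1 (abs_nonneg d)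
    nlinarith) (by rw [eV]; exact hV)
  rw [eV] at this
  simp only [eP] at this
  exact this

/-- two points -/
theorem lapB (h : Big K η m) (hη : 0 < η) (hη3 : η ≤ 1 / 3) {u v j : ℕ} (hu : u ∈ Finset.Icc 1 m)
    (hv : v ∈ Finset.Icc 1 m) (hj : j ≤ K - 4) (c : ℝ) (hc : |c| ≤ 19 / 3)
    (hV : c ^ 2 * (Vr (Gp (s1 m) (rp K m)) + 2 * Cv (Sh u (Gp (s1 m) (rp K m)))
      (Sh v (Gp (s1 m) (lv K m j))) + Vr (Gp (s1 m) (lv K m j))) ≤ 5 * Real.log m) :
    ∀ᶠ T in atTop, EX T ((BB K m T).indicator fun t =>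
        Real.exp (c * (ZZ K m u 0 T t + ZZ K m v 0 T t - ZZ K m v j T t))) ≤
        (1 + 3 * η) * Real.exp (c ^ 2 * (Vr (Gp (s1 m) (rp K m)) + 2 * Cv (Sh u (Gp (s1 m) (rp K m)))
      (Sh v (Gp (s1 m) (lv K m j))) + Vr (Gp (s1 m) (lv K m j))) / 2) := by
  have hl := h.l1
  obtain ⟨M0, L0, h0⟩ := h.Gs (u : ℝ) (j := 0) (Nat.zero_le _)
  obtain ⟨M2, L2, h2⟩ := h.Gs (v : ℝ) (j := 0) (Nat.zero_le _)
  obtain ⟨M1, L1, h1⟩ := h.Gs' (v : ℝ) j
  obtain ⟨M3, L3, h3⟩ := h.Gs (v : ℝ) hj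
  rw [lv_zero] at h0 h2
  have hH := (h0.smul (c : ℂ)).add (h1.smul (c : ℂ))
  have eV : Vr (fun ξ => (c : ℂ) * Sh u (Gp (s1 m) (rp K m)) ξ + (c : ℂ) * Sh v (Gp (s1 m) (lv K m j)) ξ) =
      c ^ 2 * (Vr (Gp (s1 m) (rp K m)) + 2 * Cv (Sh u (Gp (s1 m) (rp K m)))
      (Sh v (Gp (s1 m) (lv K m j))) + Vr (Gp (s1 m) (lv K m j))) := by
    rw [Vr_comb h0.cont h1.cont, Vr_Sh, Vr_Sh]
    ring
  have eG : Sh v (Gp (s1 m) (lv K m j)) = fun ξ => ((1 : ℝ) : ℂ) * Sh v (Gp (s1 m) (rp K m)) ξ +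
      ((-1 : ℝ) : ℂ) * Sh v (Gp (lv K m j) (rp K m)) ξ := by
    funext ξ
    unfold Sh
    rw [Gp_add (s1 m) (lv K m j) (rp K m) ξ]
    push_cast
    ring
  have eP : ∀ T t, PG (1 / s1 m) (fun ξ => (c : ℂ) * Sh u (Gp (s1 m) (rp K m)) ξ +
      (c : ℂ) * Sh v (Gp (s1 m) (lv K m j)) ξ) T t = c * (ZZ K m u 0 T t + ZZ K m v 0 T t - ZZ K m v j T t) := by
    intro T t
    rw [PG_add h0 h1]
    have : PG (1 / s1 m) (Sh v (Gp (s1 m) (lv K m j))) T t = ZZ K m v 0 T t - ZZ K m v j T t := by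
      rw [eG, PG_add h2 h3]
      unfold ZZ
      rw [lv_zero]
      ring
    rw [this]
    unfold ZZ
    rw [lv_zero]
    ring
  have := lapH h hη hη3 hH (fun T t ht => by
    rw [eP, abs_mul]
    have a0 := h.Zb hu (Nat.zero_le _) ht
    have a1 := h.Zb hv (Nat.zero_le _) ht
    have a2 := h.Zb hv hj ht
    have a3 : |ZZ K m u 0 T t + ZZ K m v 0 T t - ZZ K m v j T t| ≤ 30 * Real.log m := by
      refine (abs_sub _ _).trans ?_
      have := abs_add_le (ZZ K m u 0 T t) (ZZ K m v 0 T t)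
      linarith
    calc _ ≤ 19 / 3 * (30 * Real.log m) := mul_le_mul hc a3 (abs_nonneg _) (by norm_num)
      _ = _ := by ring) (by rw [eV]; exact hV)
  rw [eV] at this
  simp only [eP] at this
  filter_upwards [this] with T hT
  exact hT.2

end

end Pool.Agent.K6.H57.MX
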