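import Pool.Agent.K6.H57.MX.Sm

/-! # The second moment method -/

set_option autoImplicit false

open MeasureTheory Set Filter Topology
open scoped ContDiff NNReal

namespace Pool.Agent.K6.H57.MX

open Pool.Agent.K6.H57.ML

noncomputable section

variable {K m : ℕ} {η : ℝ}

/-- the slack -/
def sk (K m : ℕ) : ℝ := Real.log m / (2 * Real.pi * K)

/-- the variance of the whole band -/
def V0 (K m : ℕ) : ℝ := Vr (Gp (s1 m) (rp K m))

/-- the variance of the lower band -/
def Vj (K m j : ℕ) : ℝ := Vr (Gp (lv K m j) (rp K m))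

lemma Vj_zero : Vj K m 0 = V0 K m := by unfold Vj V0; rw [lv_zero]

/-- the good set of one point -/
def GG (K m : ℕ) (σ ε : ℝ) (u : ℕ) (T : ℝ) : Set ℝ :=
  {t | (1 - ε) * (2 * Real.pi) * V0 K m ≤ σ * ZZ K m u 0 T t ∧
    ∀ j ∈ Finset.range (K - 3), σ * ZZ K m u j T t ≤ 2 * Real.pi * Vj K m j + sk K m}

lemma ZZ_cont (K m u j : ℕ) (T : ℝ) : Continuous (ZZ K m u j T) := PG_cont _ _ _

lemma GG_meas (K m : ℕ) (σ ε : ℝ) (u : ℕ) (T : ℝ) : MeasurableSet (GG K m σ ε u T) := by
  have : GG K m σ ε u T = {t | (1 - ε) * (2 * Real.pi) * V0 K m ≤ σ * ZZ K m u 0 T t} ∩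
      ⋂ j ∈ Finset.range (K - 3), {t | σ * ZZ K m u j T t ≤ 2 * Real.pi * Vj K m j + sk K m} := by
    ext t
    simp [GG]
  rw [this]
  apply MeasurableSet.inter
  · exact measurableSet_le measurable_const (continuous_const.mul (ZZ_cont K m u 0 T)).measurable
  · exact Finset.measurableSet_biInter _ fun j _ =>
      measurableSet_le (continuous_const.mul (ZZ_cont K m u j T)).measurable measurable_const

lemma BB_meas (K m : ℕ) (T : ℝ) : MeasurableSet (BB K m T) := Bk_meas _ _ _ _ _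

/-- the weight -/
def Wt' (K m : ℕ) (σ ε : ℝ) (u : ℕ) (T : ℝ) : ℝ → ℝ :=
  (BB K m T ∩ GG K m σ ε u T).indicator fun t =>
    Real.exp (σ * (2 * Real.pi) * ZZ K m u 0 T t - 2 * Real.pi ^ 2 * V0 K m)

lemma Wt'_nc (K m : ℕ) (σ ε : ℝ) (u : ℕ) (T : ℝ) : Nc T (Wt' K m σ ε u T) := by
  have := ZZ_cont K m u 0 T
  exact (Nc.of_cont (by fun_prop)).ind ((BB_meas K m T).inter (GG_meas K m σ ε u T))

lemma Wt'_nonneg (K m : ℕ) (σ ε : ℝ) (u : ℕ) (T t : ℝ) : 0 ≤ Wt' K m σ ε u T t := by
  unfold Wt'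
  exact indicator_nonneg (fun _ _ => (Real.exp_pos _).le) _

lemma log2_lt : Real.log 2 < 0.7 := by have := Real.log_two_lt_d9; linarith

/-- the covariance with the lower band -/
lemma Big.CmV (h : Big K η m) {j : ℕ} (hj : j ≤ K - 4) (u : ℝ) :
    Cv (Sh u (Gp (s1 m) (rp K m))) (Sh u (Gp (lv K m j) (rp K m))) - Vj K m j ≤ 1 / 9 := by
  have h1 := h.lv_ge j
  have h2 := h.s1ge
  have h3 := Cv_nest (a := s1 m) (c := lv K m j) (b := rp K m) (by linarith) h1 (h.lv_le hj) u
  have h4 : 1 / (2 * Real.pi ^ 2) * (Real.log (rp K m / lv K m j) - Real.log 2) ≤ Vj K m j := by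
    rcases Nat.lt_or_ge j (K - 4) with hj2 | hj2
    · exact Vr_lo (by linarith) (h.lv_le' hj2)
    · have : j = K - 4 := le_antisymm hj hj2
      rw [this, lv_top h, div_self h.rp_pos.ne', Real.log_one, zero_sub]
      refine le_trans ?_ (Vr_nonneg _)
      have : 0 ≤ 1 / (2 * Real.pi ^ 2) * Real.log 2 := by
        have := Real.log_nonneg (show (1 : ℝ) ≤ 2 by norm_num)
        positivity
      linarith
  have h5 : 1 / (2 * Real.pi ^ 2) * (2 * Real.log 2) ≤ 1 / 9 := by
    have h6 := pi_sq9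
    have h7 := log2_lt
    rw [one_div_mul_eq_div, div_le_div_iff₀ (by positivity) (by norm_num)]
    nlinarith
  have e : 1 / (2 * Real.pi ^ 2) * (Real.log (rp K m / lv K m j) + Real.log 2) =
      1 / (2 * Real.pi ^ 2) * (Real.log (rp K m / lv K m j) - Real.log 2) +
      1 / (2 * Real.pi ^ 2) * (2 * Real.log 2) := by ring
  linarith

lemma Big.V0up (h : Big K η m) : V0 K m ≤ Real.log m / 18 := by
  rw [← Vj_zero]
  exact h.Vl (Nat.zero_le _)

lemma Big.rp_log (_ : Big K η m) : Real.log (rp K m) = ((K - 4 : ℕ) : ℝ) * (Real.log m / K) := by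
  unfold rp
  rw [Real.log_exp]

lemma Big.V0lo (h : Big K η m) : 3 / 8 * Real.log m ≤ 2 * Real.pi ^ 2 * V0 K m := by
  have h1 := h.s1ge
  have hl := h.l1
  have h2 := Vr_lo (a := s1 m) (b := rp K m) (by linarith) h.s1_rp
  have h3 : 3 / 8 * Real.log m ≤ Real.log (rp K m / s1 m) - Real.log 2 := by
    rw [← Real.log_div (by have := h.rp_pos; positivity) (by norm_num),
      Real.le_log_iff_exp_le (by have := h.rp_pos; positivity), div_div, le_div_iff₀ (by positivity)]
    have h4 := h.s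
    have h5 : Real.exp (3 / 8 * Real.log m) * Real.exp (Real.log m / K) ≤ rp K m := by
      unfold rp
      rw [← Real.exp_add]
      apply Real.exp_le_exp.2
      have hK := h.K0
      have hK8 := h.K8
      have e : ((K - 4 : ℕ) : ℝ) = K - 4 := by
        rw [Nat.cast_sub (by omega)]
        norm_num
      rw [e, sub_mul, mul_div_cancel₀ _ (by linarith)]
      have : Real.log m / K ≤ Real.log m / 8 := by gcongr
      linarith
    calc Real.exp (3 / 8 * Real.log m) * (s1 m * 2) ≤ Real.exp (3 / 8 * Real.log m) * Real.exp (Real.log m / K) := by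
          gcongr
          linarith
      _ ≤ _ := h5
  have h6 : 0 < 2 * Real.pi ^ 2 := by positivity
  have h7 := mul_le_mul_of_nonneg_left h2 h6.le
  unfold V0
  refine h3.trans (le_trans (le_of_eq ?_) h7)
  field_simp

/-- the exponent in the first moment -/
lemma Big.ex1 (h : Big K η m) {j : ℕ} (hj : j ≤ K - 4) (u : ℝ) :
    ((2 * Real.pi) ^ 2 * V0 K m + 2 * (2 * Real.pi) * (1 / K) *
      Cv (Sh u (Gp (s1 m) (rp K m))) (Sh u (Gp (lv K m j) (rp K m))) + (1 / K) ^ 2 * Vj K m j) / 2 -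
      2 * Real.pi ^ 2 * V0 K m - 1 / K * (2 * Real.pi * Vj K m j + sk K m) ≤
      1 - Real.log m / (10 * K ^ 2) := by
  have hK := h.K0
  have hl := h.l1
  have h1 := h.CmV hj u
  have h2 : Vj K m j ≤ Real.log m / 18 := h.Vl hj
  have hpi := Real.pi_pos
  have hpi3 := Real.pi_gt_three
  have hpi4 := Real.pi_lt_d2
  obtain ⟨C, hC⟩ : ∃ C : ℝ, C = Cv (Sh u (Gp (s1 m) (rp K m))) (Sh u (Gp (lv K m j) (rp K m))) := ⟨_, rfl⟩
  rw [← hC] at h1 ⊢
  have e : ((2 * Real.pi) ^ 2 * V0 K m + 2 * (2 * Real.pi) * (1 / K) * C + (1 / K) ^ 2 * Vj K m j) / 2 -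
      2 * Real.pi ^ 2 * V0 K m - 1 / K * (2 * Real.pi * Vj K m j + sk K m) =
      2 * Real.pi / K * (C - Vj K m j) + (1 / K) ^ 2 * (Vj K m j / 2) - 1 / K * sk K m := by ring
  rw [e]
  have b1 : 2 * Real.pi / K * (C - Vj K m j) ≤ 1 := by
    calc 2 * Real.pi / K * (C - Vj K m j) ≤ 2 * Real.pi / K * (1 / 9) :=
          mul_le_mul_of_nonneg_left h1 (by positivity)
      _ ≤ 1 := by
          rw [div_mul_eq_mul_div, div_le_one (by linarith)]
          linarith
  have b2 : (1 / (K : ℝ)) ^ 2 * (Vj K m j / 2) ≤ (1 / (K : ℝ)) ^ 2 * (Real.log m / 36) := by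
    apply mul_le_mul_of_nonneg_left _ (by positivity)
    linarith
  have b3 : (1 / (K : ℝ)) ^ 2 * (Real.log m / 7) ≤ 1 / K * sk K m := by
    have e3 : 1 / K * sk K m = (1 / (K : ℝ)) ^ 2 * (Real.log m / (2 * Real.pi)) := by
      unfold sk
      field_simp
    rw [e3]
    apply mul_le_mul_of_nonneg_left _ (by positivity)
    apply div_le_div_of_nonneg_left (by linarith) (by positivity)
    linarith
  have e4 : Real.log m / (10 * K ^ 2) = (1 / (K : ℝ)) ^ 2 * (Real.log m / 10) := by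
    field_simp
  rw [e4]
  have b5 : (1 / (K : ℝ)) ^ 2 * (Real.log m / 10) ≤ (1 / (K : ℝ)) ^ 2 * (Real.log m / 7 - Real.log m / 36) := by
    apply mul_le_mul_of_nonneg_left _ (by positivity)
    linarith
  linarith

lemma Big.Cbd (h : Big K η m) {j : ℕ} (hj : j ≤ K - 4) (u : ℝ) :
    |Cv (Sh u (Gp (s1 m) (rp K m))) (Sh u (Gp (lv K m j) (rp K m)))| ≤ Real.log m / 18 + 1 := by
  have h1 := h.lv_ge j
  have h2 := h.s1ge
  have hl := h.l1
  rw [Cv_Gp, abs_mul, abs_of_pos (by positivity : 0 < 1 / (2 * Real.pi ^ 2))]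
  have e0 : ∀ ξ : ℝ, dc (s1 m) (rp K m) ξ * dc (lv K m j) (rp K m) ξ / ξ * Real.cos (2 * Real.pi * (u - u) * ξ) =
      dc (s1 m) (rp K m) ξ * dc (lv K m j) (rp K m) ξ / ξ := by
    intro ξ
    rw [sub_self, mul_zero, zero_mul, Real.cos_zero, mul_one]
  simp only [e0]
  have hc := dd_cont (a := s1 m) (b := rp K m) (c := lv K m j) (d := rp K m) (by linarith)
    (by linarith [h.s1_rp]) (by linarith) (h.lv_le hj)
  have g := band_up (F := fun ξ => |dc (s1 m) (rp K m) ξ * dc (lv K m j) (rp K m) ξ / ξ|) (a := lv K m j)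
    (b := rp K m) (by linarith) (by linarith [h.lv_le hj, h.rp_pos]) hc.abs
    (fun ξ hξ => by
      rw [abs_div, abs_of_pos hξ]
      apply div_le_div_of_nonneg_right _ hξ.le
      rw [abs_mul]
      exact mul_le_one₀ (dc_bd _ _ _) (abs_nonneg _) (dc_bd _ _ _))
    (fun ξ hξ h2 => by
      rw [dc_low (by linarith : (0 : ℝ) < lv K m j) (h.lv_le hj) (by rw [abs_of_nonneg hξ]; exact h2),
        mul_zero, zero_div, abs_zero])
    (fun ξ hξ => by
      rw [dc_high (by linarith : (0 : ℝ) < lv K m j) (h.lv_le hj) (le_trans hξ (le_abs_self _)),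
        mul_zero, zero_div, abs_zero])
  have g2 : |∫ ξ in (0 : ℝ)..1, dc (s1 m) (rp K m) ξ * dc (lv K m j) (rp K m) ξ / ξ| ≤
      Real.log (2 * rp K m / lv K m j) := by
    refine le_trans ?_ g
    exact intervalIntegral.abs_integral_le_integral_abs zero_le_one
  have g3 : Real.log (2 * rp K m / lv K m j) ≤ Real.log m := by
    have h3 := h.rp_pos
    have h4 : 0 < lv K m j := by linarith
    apply Real.log_le_log (by positivity)
    rw [div_le_iff₀ h4]
    have := h.rp_le
    nlinarith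
  have g4 := pi_sq9
  calc 1 / (2 * Real.pi ^ 2) * |∫ ξ in (0 : ℝ)..1, dc (s1 m) (rp K m) ξ * dc (lv K m j) (rp K m) ξ / ξ| ≤
      1 / (2 * Real.pi ^ 2) * Real.log m := mul_le_mul_of_nonneg_left (g2.trans g3) (by positivity)
    _ ≤ Real.log m / 18 := by
        rw [one_div_mul_eq_div]
        apply div_le_div_of_nonneg_left (by linarith) (by norm_num)
        linarith
    _ ≤ _ := by linarith

/-- **the first moment** -/
theorem first (h : Big K η m) (hη : 0 < η) (hη3 : η ≤ 1 / 3) {σ ε : ℝ} (hσ : σ ^ 2 = 1) (hε : 0 < ε)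
    (hε1 : ε < 1) (hb1 : 2 * K * Real.exp (1 - Real.log m / (10 * K ^ 2)) ≤ η)
    (hb2 : 2 * Real.exp (-(ε ^ 2 * (3 / 8 * Real.log m))) ≤ η) {u : ℕ} (hu : u ∈ Finset.Icc 1 m) :
    ∀ᶠ T in atTop, 1 - 5 * η ≤ EX T (Wt' K m σ ε u T) := by
  have hK := h.K0
  have hl := h.l1
  have hpi := Real.pi_pos
  have hpi3 := Real.pi_gt_three
  have hpi4 := Real.pi_lt_d2
  have hσ1 : |σ| = 1 := by
    have : |σ| ^ 2 = 1 := by rw [sq_abs, hσ]
    nlinarith [abs_nonneg σ]
  have hpq := pi_sq10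
  have hV0 := h.V0up
  have hV00 : 0 ≤ V0 K m := Vr_nonneg _
  have eVV : Vr (Gp (s1 m) (rp K m)) = V0 K m := rfl
  have eVj : ∀ j, Vr (Gp (lv K m j) (rp K m)) = Vj K m j := fun j => rfl
  -- the whole exponential
  have L1 := lapA h hη hη3 hu (Nat.zero_le (K - 4)) (σ * (2 * Real.pi)) 0 (by
    rw [abs_mul, hσ1, abs_of_pos (by positivity), abs_zero]
    linarith) (by
    rw [eVV]
    have e : (σ * (2 * Real.pi)) ^ 2 = 4 * Real.pi ^ 2 := by rw [mul_pow, hσ]; ring
    rw [e]
    nlinarith)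
  have eL1 : ((σ * (2 * Real.pi)) ^ 2 * Vr (Gp (s1 m) (rp K m)) + 2 * (σ * (2 * Real.pi)) * 0 *
      Cv (Sh u (Gp (s1 m) (rp K m))) (Sh u (Gp (lv K m 0) (rp K m))) + 0 ^ 2 * Vr (Gp (lv K m 0) (rp K m))) / 2 =
      2 * Real.pi ^ 2 * V0 K m := by
    rw [eVV, mul_pow, hσ]
    ring
  rw [eL1] at L1
  -- the upper barriers
  have L2 : ∀ᶠ T in atTop, ∀ j ∈ Finset.range (K - 3), EX T ((BB K m T).indicator fun t =>
      Real.exp (σ * (2 * Real.pi) * ZZ K m u 0 T t + σ * (1 / K) * ZZ K m u j T t)) ≤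
      (1 + 3 * η) * Real.exp (((2 * Real.pi) ^ 2 * V0 K m + 2 * (2 * Real.pi) * (1 / K) *
      Cv (Sh u (Gp (s1 m) (rp K m))) (Sh u (Gp (lv K m j) (rp K m))) + (1 / K) ^ 2 * Vj K m j) / 2) := by
    rw [Filter.eventually_all_finset]
    intro j hj
    have hj4 : j ≤ K - 4 := by
      have := Finset.mem_range.1 hj
      omega
    have hCb := h.Cbd hj4 u
    have hVj : Vj K m j ≤ Real.log m / 18 := h.Vl hj4
    have hVj0 : 0 ≤ Vj K m j := Vr_nonneg _
    have e5 : (σ * (2 * Real.pi)) ^ 2 * Vr (Gp (s1 m) (rp K m)) + 2 * (σ * (2 * Real.pi)) * (σ * (1 / K)) *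
      Cv (Sh u (Gp (s1 m) (rp K m))) (Sh u (Gp (lv K m j) (rp K m))) +
      (σ * (1 / K)) ^ 2 * Vr (Gp (lv K m j) (rp K m)) =
      (2 * Real.pi) ^ 2 * V0 K m + 2 * (2 * Real.pi) * (1 / K) *
      Cv (Sh u (Gp (s1 m) (rp K m))) (Sh u (Gp (lv K m j) (rp K m))) + (1 / K) ^ 2 * Vj K m j := by
      rw [eVV, eVj]
      have : (σ * (2 * Real.pi)) ^ 2 * V0 K m + 2 * (σ * (2 * Real.pi)) * (σ * (1 / K)) *
        Cv (Sh u (Gp (s1 m) (rp K m))) (Sh u (Gp (lv K m j) (rp K m))) + (σ * (1 / K)) ^ 2 * Vj K m j =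
        σ ^ 2 * ((2 * Real.pi) ^ 2 * V0 K m + 2 * (2 * Real.pi) * (1 / K) *
      Cv (Sh u (Gp (s1 m) (rp K m))) (Sh u (Gp (lv K m j) (rp K m))) + (1 / K) ^ 2 * Vj K m j) := by ring
      rw [this, hσ, one_mul]
    have hK1 : 1 / (K : ℝ) ≤ 1 / 8 := one_div_le_one_div_of_le (by norm_num) hK
    have hK10 : 0 < 1 / (K : ℝ) := by positivity
    have := lapA h hη hη3 hu hj4 (σ * (2 * Real.pi)) (σ * (1 / K)) (by
      rw [abs_mul σ, abs_mul σ, hσ1, abs_of_pos (by positivity : 0 < 2 * Real.pi), abs_of_pos hK10]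
      linarith) (by
      rw [e5]
      obtain ⟨C, hC⟩ : ∃ C : ℝ, C = Cv (Sh u (Gp (s1 m) (rp K m))) (Sh u (Gp (lv K m j) (rp K m))) := ⟨_, rfl⟩
      rw [← hC] at hCb ⊢
      have c1 : (2 * Real.pi) ^ 2 * V0 K m ≤ 40 * (Real.log m / 18) := by nlinarith
      have c2 : 2 * (2 * Real.pi) * (1 / K) * C ≤ 2 * (Real.log m / 18 + 1) := by
        have hC1 : C ≤ Real.log m / 18 + 1 := (le_abs_self C).trans hCb
        have c3 : 2 * (2 * Real.pi) * (1 / K) ≤ 2 := by nlinarith
        have c4 : 0 < 2 * (2 * Real.pi) * (1 / K) := by positivity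
        rcases le_or_gt 0 C with h0 | h0
        · calc 2 * (2 * Real.pi) * (1 / K) * C ≤ 2 * C := mul_le_mul_of_nonneg_right c3 h0
            _ ≤ _ := by linarith
        · have : 2 * (2 * Real.pi) * (1 / K) * C ≤ 0 := by nlinarith
          have : 0 ≤ 2 * (Real.log m / 18 + 1) := by positivity
          linarith
      have c5 : (1 / (K : ℝ)) ^ 2 * Vj K m j ≤ 1 * (Real.log m / 18) := by
        apply mul_le_mul _ hVj hVj0 (by norm_num)
        nlinarith
      linarith)
    rw [e5] at this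
    filter_upwards [this] with T hT
    exact hT.2
  -- the lower barrier
  have L3 := lapA h hη hη3 hu (Nat.zero_le (K - 4)) (σ * (2 * Real.pi * (1 - ε))) 0 (by
    rw [abs_mul, hσ1, abs_of_pos (by have : 0 < 1 - ε := by linarith
                                     positivity), abs_zero]
    nlinarith) (by
    rw [eVV]
    have e : (σ * (2 * Real.pi * (1 - ε))) ^ 2 = 4 * Real.pi ^ 2 * (1 - ε) ^ 2 := by rw [mul_pow, hσ]; ring
    rw [e]
    have : (1 - ε) ^ 2 ≤ 1 := by nlinarith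
    have h2 : 4 * Real.pi ^ 2 * (1 - ε) ^ 2 ≤ 40 := by nlinarith [sq_nonneg (1 - ε)]
    have h3 : 0 ≤ 4 * Real.pi ^ 2 * (1 - ε) ^ 2 := by positivity
    nlinarith)
  have eL3 : ((σ * (2 * Real.pi * (1 - ε))) ^ 2 * Vr (Gp (s1 m) (rp K m)) + 2 * (σ * (2 * Real.pi * (1 - ε))) * 0 *
      Cv (Sh u (Gp (s1 m) (rp K m))) (Sh u (Gp (lv K m 0) (rp K m))) + 0 ^ 2 * Vr (Gp (lv K m 0) (rp K m))) / 2 =
      2 * Real.pi ^ 2 * V0 K m * (1 - ε) ^ 2 := by
    rw [eVV, mul_pow, hσ]
    ring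
  rw [eL3] at L3
  filter_upwards [L1, L2, L3, eventually_gt_atTop 0] with T g1 g2 g3 hT
  obtain ⟨B, hB⟩ : ∃ B : Set ℝ, B = BB K m T := ⟨_, rfl⟩
  rw [← hB] at g1 g2 g3
  have hBm : MeasurableSet B := by rw [hB]; exact BB_meas K m T
  have z0 := ZZ_cont K m u 0 T
  have zj := fun j => ZZ_cont K m u j T
  obtain ⟨X, hX⟩ : ∃ X : ℕ → ℝ → ℝ, X = fun j t => ZZ K m u j T t := ⟨_, rfl⟩
  have hXj : ∀ j t, ZZ K m u j T t = X j t := fun j t => by rw [hX]
  simp only [hXj] at g1 g2 g3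
  have nX : ∀ j, Continuous (X j) := fun j => by
    have : X j = ZZ K m u j T := by rw [hX]
    rw [this]
    exact zj j
  have nX0 := nX 0
  have n1 : Nc T (B.indicator fun t => Real.exp (σ * (2 * Real.pi) * X 0 t + 0 * X 0 t)) :=
    (Nc.of_cont (by fun_prop)).ind hBm
  have n2 : ∀ j ∈ Finset.range (K - 3), Nc T (fun t =>
      Real.exp (-(1 / K * (2 * Real.pi * Vj K m j + sk K m))) * B.indicator (fun t =>
      Real.exp (σ * (2 * Real.pi) * X 0 t + σ * (1 / K) * X j t)) t) := by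
    intro j _
    have := nX j
    exact ((Nc.of_cont (by fun_prop)).ind hBm).cmul _
  have n3 : Nc T (B.indicator fun t => Real.exp (σ * (2 * Real.pi * (1 - ε)) * X 0 t + 0 * X 0 t)) :=
    (Nc.of_cont (by fun_prop)).ind hBm
  have nW := Wt'_nc K m σ ε u T
  obtain ⟨c, hc⟩ : ∃ c : ℝ, c = Real.exp (-(2 * Real.pi ^ 2 * V0 K m)) := ⟨_, rfl⟩
  have hc0 : 0 < c := by rw [hc]; exact Real.exp_pos _
  obtain ⟨c3, hc3⟩ : ∃ c3 : ℝ, c3 = Real.exp (2 * Real.pi * ε * ((1 - ε) * (2 * Real.pi) * V0 K m)) := ⟨_, rfl⟩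
  have key : EX T (fun t => c * B.indicator (fun t => Real.exp (σ * (2 * Real.pi) * X 0 t + 0 * X 0 t)) t) ≤
      EX T (fun t => Wt' K m σ ε u T t + (c * (∑ j ∈ Finset.range (K - 3),
        Real.exp (-(1 / K * (2 * Real.pi * Vj K m j + sk K m))) * B.indicator (fun t =>
        Real.exp (σ * (2 * Real.pi) * X 0 t + σ * (1 / K) * X j t)) t) +
        c * c3 * B.indicator (fun t => Real.exp (σ * (2 * Real.pi * (1 - ε)) * X 0 t + 0 * X 0 t)) t)) := by
    apply EX_mono hT (n1.cmul c) (nW.add (((Nc.sum _ n2).cmul c).add (n3.cmul _)))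
    intro t _
    have pos2 : 0 ≤ ∑ j ∈ Finset.range (K - 3), Real.exp (-(1 / K * (2 * Real.pi * Vj K m j + sk K m))) *
        B.indicator (fun t => Real.exp (σ * (2 * Real.pi) * X 0 t + σ * (1 / K) * X j t)) t :=
      Finset.sum_nonneg fun j _ => mul_nonneg (Real.exp_pos _).le
        (indicator_nonneg (fun _ _ => (Real.exp_pos _).le) _)
    have pos3 : 0 ≤ B.indicator (fun t => Real.exp (σ * (2 * Real.pi * (1 - ε)) * X 0 t + 0 * X 0 t)) t :=
      indicator_nonneg (fun _ _ => (Real.exp_pos _).le) _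
    have posW := Wt'_nonneg K m σ ε u T t
    have hc30 : 0 < c3 := by rw [hc3]; exact Real.exp_pos _
    by_cases ht : t ∈ B
    · by_cases hg : t ∈ GG K m σ ε u T
      · have hm : t ∈ BB K m T ∩ GG K m σ ε u T := ⟨by rw [← hB]; exact ht, hg⟩
        have e6 : c * B.indicator (fun t => Real.exp (σ * (2 * Real.pi) * X 0 t + 0 * X 0 t)) t =
            Wt' K m σ ε u T t := by
          unfold Wt'
          rw [indicator_of_mem ht, indicator_of_mem hm, hc, ← Real.exp_add, hXj]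
          congr 1
          ring
        rw [e6]
        have : 0 ≤ c * (∑ j ∈ Finset.range (K - 3), Real.exp (-(1 / K * (2 * Real.pi * Vj K m j + sk K m))) *
          B.indicator (fun t => Real.exp (σ * (2 * Real.pi) * X 0 t + σ * (1 / K) * X j t)) t) :=
          mul_nonneg hc0.le pos2
        have : 0 ≤ c * c3 * B.indicator (fun t => Real.exp (σ * (2 * Real.pi * (1 - ε)) * X 0 t + 0 * X 0 t)) t :=
          mul_nonneg (by positivity) pos3
        linarith
      · have hg2 : ¬ ((1 - ε) * (2 * Real.pi) * V0 K m ≤ σ * ZZ K m u 0 T t ∧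
            ∀ j ∈ Finset.range (K - 3), σ * ZZ K m u j T t ≤ 2 * Real.pi * Vj K m j + sk K m) := hg
        simp only [hXj] at hg2
        by_cases hlow : (1 - ε) * (2 * Real.pi) * V0 K m ≤ σ * X 0 t
        · -- a barrier is crossed
          have hex : ∃ j ∈ Finset.range (K - 3), 2 * Real.pi * Vj K m j + sk K m < σ * X j t := by
            by_contra hcon
            push Not at hcon
            exact hg2 ⟨hlow, hcon⟩
          obtain ⟨j, hj, hjt⟩ := hex
          have h7 : B.indicator (fun t => Real.exp (σ * (2 * Real.pi) * X 0 t + 0 * X 0 t)) t ≤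
              ∑ j ∈ Finset.range (K - 3), Real.exp (-(1 / K * (2 * Real.pi * Vj K m j + sk K m))) *
              B.indicator (fun t => Real.exp (σ * (2 * Real.pi) * X 0 t + σ * (1 / K) * X j t)) t := by
            refine le_trans ?_ (Finset.single_le_sum (f := fun j =>
              Real.exp (-(1 / K * (2 * Real.pi * Vj K m j + sk K m))) *
              B.indicator (fun t => Real.exp (σ * (2 * Real.pi) * X 0 t + σ * (1 / K) * X j t)) t)
              (fun j _ => mul_nonneg (Real.exp_pos _).le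
                (indicator_nonneg (fun _ _ => (Real.exp_pos _).le) _)) hj)
            rw [indicator_of_mem ht, indicator_of_mem ht, ← Real.exp_add]
            apply Real.exp_le_exp.2
            have h8 : 0 ≤ 1 / (K : ℝ) * (σ * X j t - (2 * Real.pi * Vj K m j + sk K m)) := by
              apply mul_nonneg (by positivity)
              linarith
            have e8 : 1 / (K : ℝ) * (σ * X j t - (2 * Real.pi * Vj K m j + sk K m)) =
              σ * (1 / K) * X j t - 1 / K * (2 * Real.pi * Vj K m j + sk K m) := by ring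
            rw [e8] at h8
            linarith
          have h9 := mul_le_mul_of_nonneg_left h7 hc0.le
          have : 0 ≤ c * c3 * B.indicator (fun t => Real.exp (σ * (2 * Real.pi * (1 - ε)) * X 0 t + 0 * X 0 t)) t :=
            mul_nonneg (by positivity) pos3
          linarith
        · push Not at hlow
          have h7 : B.indicator (fun t => Real.exp (σ * (2 * Real.pi) * X 0 t + 0 * X 0 t)) t ≤
              c3 * B.indicator (fun t => Real.exp (σ * (2 * Real.pi * (1 - ε)) * X 0 t + 0 * X 0 t)) t := by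
            rw [indicator_of_mem ht, indicator_of_mem ht, hc3, ← Real.exp_add]
            apply Real.exp_le_exp.2
            have h8 : 0 ≤ 2 * Real.pi * ε * ((1 - ε) * (2 * Real.pi) * V0 K m - σ * X 0 t) := by
              apply mul_nonneg (by positivity)
              linarith
            linarith
          have h9 := mul_le_mul_of_nonneg_left h7 hc0.le
          have : 0 ≤ c * (∑ j ∈ Finset.range (K - 3), Real.exp (-(1 / K * (2 * Real.pi * Vj K m j + sk K m))) *
            B.indicator (fun t => Real.exp (σ * (2 * Real.pi) * X 0 t + σ * (1 / K) * X j t)) t) :=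
            mul_nonneg hc0.le pos2
          linarith
    · rw [indicator_of_notMem ht, mul_zero]
      have : 0 ≤ c * (∑ j ∈ Finset.range (K - 3), Real.exp (-(1 / K * (2 * Real.pi * Vj K m j + sk K m))) *
        B.indicator (fun t => Real.exp (σ * (2 * Real.pi) * X 0 t + σ * (1 / K) * X j t)) t) :=
        mul_nonneg hc0.le pos2
      have : 0 ≤ c * c3 * B.indicator (fun t => Real.exp (σ * (2 * Real.pi * (1 - ε)) * X 0 t + 0 * X 0 t)) t :=
        mul_nonneg (by positivity) pos3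
      linarith
  rw [EX_cmul, EX_add nW (((Nc.sum _ n2).cmul c).add (n3.cmul _)), EX_add ((Nc.sum _ n2).cmul c) (n3.cmul _),
    EX_cmul, EX_cmul, EX_sum _ n2] at key
  simp only [EX_cmul] at key
  have k1 : 1 - 3 * η ≤ c * EX T (B.indicator fun t => Real.exp (σ * (2 * Real.pi) * X 0 t + 0 * X 0 t)) := by
    have := mul_le_mul_of_nonneg_left g1.1 hc0.le
    refine le_trans (le_of_eq ?_) this
    rw [hc]
    have e : Real.exp (-(2 * Real.pi ^ 2 * V0 K m)) * ((1 - 3 * η) * Real.exp (2 * Real.pi ^ 2 * V0 K m)) =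
        (1 - 3 * η) * (Real.exp (-(2 * Real.pi ^ 2 * V0 K m)) * Real.exp (2 * Real.pi ^ 2 * V0 K m)) := by ring
    rw [e, ← Real.exp_add, neg_add_cancel, Real.exp_zero, mul_one]
  have k2 : c * ∑ j ∈ Finset.range (K - 3), Real.exp (-(1 / K * (2 * Real.pi * Vj K m j + sk K m))) *
      EX T (fun t => B.indicator (fun t => Real.exp (σ * (2 * Real.pi) * X 0 t + σ * (1 / K) * X j t)) t) ≤ η := by
    have k3 : ∀ j ∈ Finset.range (K - 3), c * (Real.exp (-(1 / K * (2 * Real.pi * Vj K m j + sk K m))) *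
        EX T (fun t => B.indicator (fun t => Real.exp (σ * (2 * Real.pi) * X 0 t + σ * (1 / K) * X j t)) t)) ≤
        2 * Real.exp (1 - Real.log m / (10 * K ^ 2)) := by
      intro j hj
      have hj4 : j ≤ K - 4 := by
        have := Finset.mem_range.1 hj
        omega
      have h1 := g2 j hj
      have h2 := h.ex1 hj4 u
      calc _ ≤ c * (Real.exp (-(1 / K * (2 * Real.pi * Vj K m j + sk K m))) * ((1 + 3 * η) *
            Real.exp (((2 * Real.pi) ^ 2 * V0 K m + 2 * (2 * Real.pi) * (1 / K) *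
            Cv (Sh u (Gp (s1 m) (rp K m))) (Sh u (Gp (lv K m j) (rp K m))) + (1 / K) ^ 2 * Vj K m j) / 2))) := by
            apply mul_le_mul_of_nonneg_left _ hc0.le
            exact mul_le_mul_of_nonneg_left h1 (Real.exp_pos _).le
        _ = (1 + 3 * η) * Real.exp (((2 * Real.pi) ^ 2 * V0 K m + 2 * (2 * Real.pi) * (1 / K) *
            Cv (Sh u (Gp (s1 m) (rp K m))) (Sh u (Gp (lv K m j) (rp K m))) + (1 / K) ^ 2 * Vj K m j) / 2 -
            2 * Real.pi ^ 2 * V0 K m - 1 / K * (2 * Real.pi * Vj K m j + sk K m)) := by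
            rw [hc, sub_eq_add_neg, sub_eq_add_neg, Real.exp_add, Real.exp_add]
            ring
        _ ≤ 2 * Real.exp (1 - Real.log m / (10 * K ^ 2)) := by
            apply mul_le_mul (by linarith) (Real.exp_le_exp.2 h2) (Real.exp_pos _).le (by norm_num)
    rw [Finset.mul_sum]
    refine (Finset.sum_le_sum k3).trans ?_
    rw [Finset.sum_const, Finset.card_range, nsmul_eq_mul]
    refine le_trans ?_ hb1
    have : ((K - 3 : ℕ) : ℝ) ≤ K := by exact_mod_cast Nat.sub_le _ _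
    have h5 := Real.exp_pos (1 - Real.log m / (10 * (K : ℝ) ^ 2))
    nlinarith
  have k4 : c * c3 * EX T (B.indicator fun t => Real.exp (σ * (2 * Real.pi * (1 - ε)) * X 0 t + 0 * X 0 t)) ≤ η := by
    calc _ ≤ c * c3 * ((1 + 3 * η) * Real.exp (2 * Real.pi ^ 2 * V0 K m * (1 - ε) ^ 2)) := by
          apply mul_le_mul_of_nonneg_left g3.2
          rw [hc3]
          positivity
      _ = (1 + 3 * η) * Real.exp (-(ε ^ 2 * (2 * Real.pi ^ 2 * V0 K m))) := by
          rw [hc, hc3]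
          have e : Real.exp (-(ε ^ 2 * (2 * Real.pi ^ 2 * V0 K m))) =
            Real.exp (-(2 * Real.pi ^ 2 * V0 K m)) * Real.exp (2 * Real.pi * ε * ((1 - ε) * (2 * Real.pi) * V0 K m)) *
            Real.exp (2 * Real.pi ^ 2 * V0 K m * (1 - ε) ^ 2) := by
            rw [← Real.exp_add, ← Real.exp_add]
            congr 1
            ring
          rw [e]
          ring
      _ ≤ 2 * Real.exp (-(ε ^ 2 * (3 / 8 * Real.log m))) := by
          apply mul_le_mul (by linarith) _ (Real.exp_pos _).le (by norm_num)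
          apply Real.exp_le_exp.2
          have := h.V0lo
          have h2 : 0 ≤ ε ^ 2 := sq_nonneg _
          nlinarith
      _ ≤ η := hb2
  have e9 : EX T (fun t => Wt' K m σ ε u T t) = EX T (Wt' K m σ ε u T) := rfl
  linarith

end

end Pool.Agent.K6.H57.MX
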