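import Pool.Agent.K6.H57.MX.Sn

/-! # The second moment method: pairs -/

set_option autoImplicit false

open MeasureTheory Set Filter Topology
open scoped ContDiff NNReal

namespace Pool.Agent.K6.H57.MX

open Pool.Agent.K6.H57.ML

noncomputable section

variable {K m : ℕ} {η : ℝ}

lemma dc_self (a ξ : ℝ) : dc a a ξ = 0 := by unfold dc; ring

lemma PG_zero {κ M Λ : ℝ} {G : ℝ → ℂ} (h : Bd κ M Λ G) (hG : ∀ ξ, G ξ = 0) (T t : ℝ) : PG κ G T t = 0 := by
  have h1 := PG_add h h 0 0 T t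
  rw [zero_mul, add_zero] at h1
  rw [← h1]
  congr 1
  funext ξ
  rw [hG ξ]
  simp

lemma ZZ_top (h : Big K η m) (v : ℕ) (T t : ℝ) : ZZ K m v (K - 4) T t = 0 := by
  obtain ⟨M, Λ, hB⟩ := h.Gs (v : ℝ) (j := K - 4) le_rfl
  unfold ZZ
  apply PG_zero hB
  intro ξ
  unfold Sh Gp
  rw [lv_top h, dc_self]
  simp

lemma Big.loglv (h : Big K η m) (j : ℕ) : (j : ℝ) * (Real.log m / K) ≤ Real.log (lv K m j) := by
  unfold lv
  split_ifs with hj
  · rw [hj, Nat.cast_zero, zero_mul]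
    exact Real.log_nonneg (by linarith [h.s1ge])
  · rw [Real.log_exp]

/-- the exponent of a pair -/
lemma Big.ex2 (h : Big K η m) {j : ℕ} (hj : j ≤ K - 4) {C C1 : ℝ} (hC : |C| ≤ C1) :
    -(4 * Real.pi ^ 2 * V0 K m) + 2 * Real.pi * (2 * Real.pi * Vj K m j + sk K m) +
      (2 * Real.pi) ^ 2 * (V0 K m + 2 * C + Vr (Gp (s1 m) (lv K m j))) / 2 ≤
      ((K - 3 - j : ℕ) : ℝ) * (Real.log m / K) + (3 + 40 * C1) := by
  have hK := h.K0
  have hl := h.l1
  have hs := h.s1ge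
  have hlv := h.lv_ge j
  have hrp := h.rp_pos
  have hs0 : 0 < s1 m := by linarith
  have hlv0 : 0 < lv K m j := by linarith
  have hpi := Real.pi_pos
  have hpq := pi_sq10
  have h2 := log2_lt
  have hV0 : Real.log (rp K m) - Real.log (s1 m) - Real.log 2 ≤ 2 * Real.pi ^ 2 * V0 K m := by
    have h3 := Vr_lo (a := s1 m) (b := rp K m) (by linarith) h.s1_rp
    have h4 := mul_le_mul_of_nonneg_left h3 (show 0 ≤ 2 * Real.pi ^ 2 by positivity)
    rw [Real.log_div hrp.ne' hs0.ne'] at h4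
    unfold V0
    refine le_trans (le_of_eq ?_) h4
    field_simp
  have hVj : 4 * Real.pi ^ 2 * Vj K m j ≤ 2 * (Real.log (rp K m) - Real.log (lv K m j) + Real.log 2) := by
    have h3 := h.Vup hj
    have h4 := mul_le_mul_of_nonneg_left h3 (show 0 ≤ 4 * Real.pi ^ 2 by positivity)
    rw [Real.log_div hrp.ne' hlv0.ne'] at h4
    unfold Vj
    refine le_trans h4 (le_of_eq ?_)
    field_simp
    ring
  have hVs : 2 * Real.pi ^ 2 * Vr (Gp (s1 m) (lv K m j)) ≤
      Real.log (lv K m j) - Real.log (s1 m) + Real.log 2 := by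
    have h3 := Vr_up (a := s1 m) (b := lv K m j) (by linarith) hlv
    have h4 := mul_le_mul_of_nonneg_left h3 (show 0 ≤ 2 * Real.pi ^ 2 by positivity)
    rw [Real.log_div hlv0.ne' hs0.ne'] at h4
    refine le_trans h4 (le_of_eq ?_)
    field_simp
  have hsk : 2 * Real.pi * sk K m = Real.log m / K := by
    unfold sk
    field_simp
  have hCC : 4 * Real.pi ^ 2 * C ≤ 40 * C1 := by
    have h3 := (le_abs_self C).trans hC
    have h4 := (abs_nonneg C).trans hC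
    calc 4 * Real.pi ^ 2 * C ≤ 4 * Real.pi ^ 2 * C1 := mul_le_mul_of_nonneg_left h3 (by positivity)
      _ ≤ _ := mul_le_mul_of_nonneg_right (by linarith) h4
  have hrl := h.rp_log
  have hll := h.loglv j
  have hcast : ((K - 3 - j : ℕ) : ℝ) = ((K - 4 : ℕ) : ℝ) + 1 - j := by
    have h8 := h.K8
    rw [Nat.cast_sub (by omega), Nat.cast_sub (by omega), Nat.cast_sub (by omega)]
    push_cast
    ring
  have e : -(4 * Real.pi ^ 2 * V0 K m) + 2 * Real.pi * (2 * Real.pi * Vj K m j + sk K m) +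
      (2 * Real.pi) ^ 2 * (V0 K m + 2 * C + Vr (Gp (s1 m) (lv K m j))) / 2 =
      -(2 * Real.pi ^ 2 * V0 K m) + 4 * Real.pi ^ 2 * Vj K m j + 2 * Real.pi * sk K m +
      4 * Real.pi ^ 2 * C + 2 * Real.pi ^ 2 * Vr (Gp (s1 m) (lv K m j)) := by ring
  rw [e, hsk, hcast, sub_mul, add_mul, one_mul, ← hrl]
  linarith

lemma Big.Vs (h : Big K η m) {j : ℕ} (hj : j ≤ K - 4) : Vr (Gp (s1 m) (lv K m j)) ≤ Real.log m / 18 := by
  have hs := h.s1ge
  have hlv := h.lv_ge j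
  have hl := h.l1
  have h1 := Vr_up (a := s1 m) (b := lv K m j) (by linarith) hlv
  refine h1.trans ?_
  have hs0 : 0 < s1 m := by linarith
  have hlv0 : 0 < lv K m j := by linarith
  have h3 : Real.log (lv K m j / s1 m) + Real.log 2 ≤ Real.log m := by
    rw [← Real.log_mul (by positivity) (by norm_num)]
    apply Real.log_le_log (by positivity)
    rw [div_mul_eq_mul_div, div_le_iff₀ hs0]
    have h5 := h.lv_le hj
    have h6 := h.rp_le
    have h7 := h.m2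
    nlinarith
  have h4 := pi_sq9
  calc 1 / (2 * Real.pi ^ 2) * (Real.log (lv K m j / s1 m) + Real.log 2) ≤ 1 / (2 * Real.pi ^ 2) * Real.log m :=
        mul_le_mul_of_nonneg_left h3 (by positivity)
    _ ≤ _ := by
        rw [one_div_mul_eq_div]
        apply div_le_div_of_nonneg_left (by linarith) (by norm_num)
        linarith

lemma W_mul (σ ε : ℝ) (u v j : ℕ) (T t : ℝ) (hj : j ∈ Finset.range (K - 3)) :
    Wt' K m σ ε u T t * Wt' K m σ ε v T t ≤
      Real.exp (-(4 * Real.pi ^ 2 * V0 K m) + 2 * Real.pi * (2 * Real.pi * Vj K m j + sk K m)) *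
      (BB K m T).indicator (fun t => Real.exp (σ * (2 * Real.pi) *
        (ZZ K m u 0 T t + ZZ K m v 0 T t - ZZ K m v j T t))) t := by
  have hpi := Real.pi_pos
  unfold Wt'
  by_cases h1 : t ∈ BB K m T ∩ GG K m σ ε u T
  · by_cases h2 : t ∈ BB K m T ∩ GG K m σ ε v T
    · rw [indicator_of_mem h1, indicator_of_mem h2, indicator_of_mem h1.1, ← Real.exp_add, ← Real.exp_add]
      apply Real.exp_le_exp.2
      have h3 : σ * ZZ K m v j T t ≤ 2 * Real.pi * Vj K m j + sk K m := h2.2.2 j hj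
      have h4 := mul_le_mul_of_nonneg_left h3 (show 0 ≤ 2 * Real.pi by positivity)
      linarith
    · rw [indicator_of_notMem h2, mul_zero]
      exact mul_nonneg (Real.exp_pos _).le (indicator_nonneg (fun _ _ => (Real.exp_pos _).le) _)
  · rw [indicator_of_notMem h1, zero_mul]
    exact mul_nonneg (Real.exp_pos _).le (indicator_nonneg (fun _ _ => (Real.exp_pos _).le) _)

lemma W_far (h : Big K η m) (σ ε : ℝ) (u v : ℕ) (T t : ℝ) :
    Wt' K m σ ε u T t * Wt' K m σ ε v T t ≤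
      Real.exp (-(4 * Real.pi ^ 2 * V0 K m)) *
      (BB K m T).indicator (fun t => Real.exp (σ * (2 * Real.pi) *
        (ZZ K m u 0 T t + ZZ K m v 0 T t - ZZ K m v (K - 4) T t))) t := by
  have hpi := Real.pi_pos
  simp only [ZZ_top h]
  unfold Wt'
  by_cases h1 : t ∈ BB K m T ∩ GG K m σ ε u T
  · by_cases h2 : t ∈ BB K m T ∩ GG K m σ ε v T
    · rw [indicator_of_mem h1, indicator_of_mem h2, indicator_of_mem h1.1, ← Real.exp_add, ← Real.exp_add]
      apply Real.exp_le_exp.2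
      linarith
    · rw [indicator_of_notMem h2, mul_zero]
      exact mul_nonneg (Real.exp_pos _).le (indicator_nonneg (fun _ _ => (Real.exp_pos _).le) _)
  · rw [indicator_of_notMem h1, zero_mul]
    exact mul_nonneg (Real.exp_pos _).le (indicator_nonneg (fun _ _ => (Real.exp_pos _).le) _)

lemma sig_abs {σ : ℝ} (hσ : σ ^ 2 = 1) : |σ * (2 * Real.pi)| ≤ 19 / 3 := by
  have hpi := Real.pi_pos
  have hpi4 := Real.pi_lt_d6
  have hσ1 : |σ| = 1 := by
    have : |σ| ^ 2 = 1 := by rw [sq_abs, hσ]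
    nlinarith [abs_nonneg σ]
  rw [abs_mul σ, hσ1, abs_of_pos (by positivity : 0 < 2 * Real.pi)]
  linarith

/-- **near pairs** -/
theorem near (h : Big K η m) (hη : 0 < η) (hη3 : η ≤ 1 / 3) {σ ε : ℝ} (hσ : σ ^ 2 = 1) {C1 : ℝ}
    (hC1 : 0 < C1) (hl1 : 160 * C1 ≤ Real.log m)
    (hC : ∀ a c b u v : ℝ, 1 ≤ a → a ≤ c → c ≤ b → u ≠ v → |Cv (Sh u (Gp a b)) (Sh v (Gp a c))| ≤ C1 * (c / |u - v|))
    {u v j : ℕ} (hu : u ∈ Finset.Icc 1 m) (hv : v ∈ Finset.Icc 1 m) (hj : j ≤ K - 4)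
    (hd : j = 0 ∨ lv K m j ≤ |(u : ℝ) - v|) :
    ∀ᶠ T in atTop, EX T (fun t => Wt' K m σ ε u T t * Wt' K m σ ε v T t) ≤
      (1 + 3 * η) * Real.exp (((K - 3 - j : ℕ) : ℝ) * (Real.log m / K) + (3 + 40 * C1)) := by
  have hs := h.s1ge
  have hlv := h.lv_ge j
  have hl := h.l1
  have hpq := pi_sq10
  have hpi := Real.pi_pos
  have hV0 := h.V0up
  have hV00 : 0 ≤ V0 K m := Vr_nonneg _
  have hVs := h.Vs hj
  have hVs0 : 0 ≤ Vr (Gp (s1 m) (lv K m j)) := Vr_nonneg _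
  have hCb : |Cv (Sh u (Gp (s1 m) (rp K m))) (Sh v (Gp (s1 m) (lv K m j)))| ≤ C1 := by
    rcases hd with hd | hd
    · rw [Cv_Gp, hd, lv_zero]
      simp only [dc_self, mul_zero, zero_div, zero_mul, intervalIntegral.integral_zero, abs_zero]
      exact hC1.le
    · have hpos : 0 < |(u : ℝ) - v| := by linarith
      have huv : (u : ℝ) ≠ v := by
        intro he
        rw [he, sub_self, abs_zero] at hpos
        exact lt_irrefl _ hpos
      have h1 := hC (s1 m) (lv K m j) (rp K m) u v (by linarith) hlv (h.lv_le hj) huv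
      refine h1.trans ?_
      have : lv K m j / |(u : ℝ) - v| ≤ 1 := by
        rw [div_le_one hpos]
        exact hd
      nlinarith
  obtain ⟨C, hCe⟩ : ∃ C : ℝ, C = Cv (Sh u (Gp (s1 m) (rp K m))) (Sh v (Gp (s1 m) (lv K m j))) := ⟨_, rfl⟩
  have eσ : (σ * (2 * Real.pi)) ^ 2 = (2 * Real.pi) ^ 2 := by rw [mul_pow, hσ, one_mul]
  have L := lapB h hη hη3 hu hv hj (σ * (2 * Real.pi)) (sig_abs hσ) (by
    rw [eσ, ← hCe]
    rw [← hCe] at hCb
    have a1 : Vr (Gp (s1 m) (rp K m)) = V0 K m := rfl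
    rw [a1]
    have a2 := (le_abs_self C).trans hCb
    have a3 : V0 K m + 2 * C + Vr (Gp (s1 m) (lv K m j)) ≤ Real.log m / 9 + 2 * C1 := by linarith
    have a4 : (2 * Real.pi) ^ 2 ≤ 40 := by nlinarith
    calc (2 * Real.pi) ^ 2 * (V0 K m + 2 * C + Vr (Gp (s1 m) (lv K m j))) ≤
        (2 * Real.pi) ^ 2 * (Real.log m / 9 + 2 * C1) := mul_le_mul_of_nonneg_left a3 (by positivity)
      _ ≤ 40 * (Real.log m / 9 + 2 * C1) := mul_le_mul_of_nonneg_right a4 (by positivity)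
      _ ≤ 5 * Real.log m := by linarith)
  rw [eσ, ← hCe] at L
  rw [← hCe] at hCb
  have hE := h.ex2 hj hCb
  filter_upwards [L, eventually_gt_atTop 0] with T hT hT0
  have n1 : Nc T fun t => Wt' K m σ ε u T t * Wt' K m σ ε v T t := (Wt'_nc K m σ ε u T).mul (Wt'_nc K m σ ε v T)
  have z1 := ZZ_cont K m u 0 T
  have z2 := ZZ_cont K m v 0 T
  have z3 := ZZ_cont K m v j T
  have n2 : Nc T ((BB K m T).indicator (fun t => Real.exp (σ * (2 * Real.pi) *
        (ZZ K m u 0 T t + ZZ K m v 0 T t - ZZ K m v j T t)))) :=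
    (Nc.of_cont (by fun_prop)).ind (BB_meas K m T)
  have h2 := EX_mono hT0 n1 (n2.cmul (Real.exp (-(4 * Real.pi ^ 2 * V0 K m) +
    2 * Real.pi * (2 * Real.pi * Vj K m j + sk K m))))
    (fun t _ => W_mul σ ε u v j T t (by
      rw [Finset.mem_range]
      have := h.K8
      omega))
  refine h2.trans ?_
  rw [EX_cmul]
  refine (mul_le_mul_of_nonneg_left hT (Real.exp_pos _).le).trans ?_
  have e9 : Real.exp (-(4 * Real.pi ^ 2 * V0 K m) + 2 * Real.pi * (2 * Real.pi * Vj K m j + sk K m)) *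
      ((1 + 3 * η) * Real.exp ((2 * Real.pi) ^ 2 * (Vr (Gp (s1 m) (rp K m)) + 2 * C +
        Vr (Gp (s1 m) (lv K m j))) / 2)) =
      (1 + 3 * η) * Real.exp (-(4 * Real.pi ^ 2 * V0 K m) + 2 * Real.pi * (2 * Real.pi * Vj K m j + sk K m) +
      (2 * Real.pi) ^ 2 * (V0 K m + 2 * C + Vr (Gp (s1 m) (lv K m j))) / 2) := by
    rw [Real.exp_add _ ((2 * Real.pi) ^ 2 * (V0 K m + 2 * C + Vr (Gp (s1 m) (lv K m j))) / 2)]
    unfold V0
    ring
  rw [e9]
  exact mul_le_mul_of_nonneg_left (Real.exp_le_exp.2 hE) (by linarith)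

/-- **far pairs** -/
theorem far (h : Big K η m) (hη : 0 < η) (hη3 : η ≤ 1 / 3) {σ ε : ℝ} (hσ : σ ^ 2 = 1) {C1 : ℝ}
    (hC1 : 0 < C1) (hl1 : 160 * C1 ≤ Real.log m)
    (hC : ∀ a c b u v : ℝ, 1 ≤ a → a ≤ c → c ≤ b → u ≠ v → |Cv (Sh u (Gp a b)) (Sh v (Gp a c))| ≤ C1 * (c / |u - v|))
    {u v : ℕ} (hu : u ∈ Finset.Icc 1 m) (hv : v ∈ Finset.Icc 1 m)
    (hd : Real.exp (((K - 3 : ℕ) : ℝ) * (Real.log m / K)) ≤ |(u : ℝ) - v|) :
    ∀ᶠ T in atTop, EX T (fun t => Wt' K m σ ε u T t * Wt' K m σ ε v T t) ≤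
      (1 + 3 * η) * Real.exp (40 * C1 * Real.exp (-(Real.log m / K))) := by
  have hs := h.s1ge
  have hl := h.l1
  have hpq := pi_sq10
  have hpi := Real.pi_pos
  have hV0 := h.V0up
  have hV00 : 0 ≤ V0 K m := Vr_nonneg _
  have hpos : 0 < |(u : ℝ) - v| := lt_of_lt_of_le (Real.exp_pos _) hd
  have huv : (u : ℝ) ≠ v := by
    intro he
    rw [he, sub_self, abs_zero] at hpos
    exact lt_irrefl _ hpos
  have hCb : |Cv (Sh u (Gp (s1 m) (rp K m))) (Sh v (Gp (s1 m) (lv K m (K - 4))))| ≤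
      C1 * Real.exp (-(Real.log m / K)) := by
    have h1 := hC (s1 m) (lv K m (K - 4)) (rp K m) u v (by linarith) (h.lv_ge _) (h.lv_le le_rfl) huv
    refine h1.trans ?_
    apply mul_le_mul_of_nonneg_left _ hC1.le
    rw [div_le_iff₀ hpos, lv_top h]
    have e : rp K m = Real.exp (-(Real.log m / K)) * Real.exp (((K - 3 : ℕ) : ℝ) * (Real.log m / K)) := by
      unfold rp
      rw [← Real.exp_add]
      congr 1
      have h8 := h.K8
      have : ((K - 3 : ℕ) : ℝ) = ((K - 4 : ℕ) : ℝ) + 1 := by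
        rw [Nat.cast_sub (by omega), Nat.cast_sub (by omega)]
        push_cast
        ring
      rw [this]
      ring
    rw [e]
    exact mul_le_mul_of_nonneg_left hd (Real.exp_pos _).le
  obtain ⟨C, hCe⟩ : ∃ C : ℝ, C = Cv (Sh u (Gp (s1 m) (rp K m))) (Sh v (Gp (s1 m) (lv K m (K - 4)))) := ⟨_, rfl⟩
  have eσ : (σ * (2 * Real.pi)) ^ 2 = (2 * Real.pi) ^ 2 := by rw [mul_pow, hσ, one_mul]
  have he1 : Real.exp (-(Real.log m / K)) ≤ 1 := Real.exp_le_one_iff.2 (by linarith [h.q0])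
  have eV : Vr (Gp (s1 m) (lv K m (K - 4))) = V0 K m := by
    rw [lv_top h]
    rfl
  have L := lapB h hη hη3 hu hv le_rfl (σ * (2 * Real.pi)) (sig_abs hσ) (by
    rw [eσ, ← hCe, eV]
    rw [← hCe] at hCb
    have a1 : Vr (Gp (s1 m) (rp K m)) = V0 K m := rfl
    rw [a1]
    have a2 := (le_abs_self C).trans hCb
    have a5 : C1 * Real.exp (-(Real.log m / K)) ≤ C1 * 1 := mul_le_mul_of_nonneg_left he1 hC1.le
    have a3 : V0 K m + 2 * C + V0 K m ≤ Real.log m / 9 + 2 * C1 := by linarith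
    have a4 : (2 * Real.pi) ^ 2 ≤ 40 := by nlinarith
    calc (2 * Real.pi) ^ 2 * (V0 K m + 2 * C + V0 K m) ≤
        (2 * Real.pi) ^ 2 * (Real.log m / 9 + 2 * C1) := mul_le_mul_of_nonneg_left a3 (by positivity)
      _ ≤ 40 * (Real.log m / 9 + 2 * C1) := mul_le_mul_of_nonneg_right a4 (by positivity)
      _ ≤ 5 * Real.log m := by linarith)
  rw [eσ, ← hCe, eV] at L
  rw [← hCe] at hCb
  filter_upwards [L, eventually_gt_atTop 0] with T hT hT0
  have n1 : Nc T fun t => Wt' K m σ ε u T t * Wt' K m σ ε v T t := (Wt'_nc K m σ ε u T).mul (Wt'_nc K m σ ε v T)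
  have z1 := ZZ_cont K m u 0 T
  have z2 := ZZ_cont K m v 0 T
  have z3 := ZZ_cont K m v (K - 4) T
  have n2 : Nc T ((BB K m T).indicator (fun t => Real.exp (σ * (2 * Real.pi) *
        (ZZ K m u 0 T t + ZZ K m v 0 T t - ZZ K m v (K - 4) T t)))) :=
    (Nc.of_cont (by fun_prop)).ind (BB_meas K m T)
  have h2 := EX_mono hT0 n1 (n2.cmul (Real.exp (-(4 * Real.pi ^ 2 * V0 K m))))
    (fun t _ => W_far h σ ε u v T t)
  refine h2.trans ?_
  rw [EX_cmul]
  refine (mul_le_mul_of_nonneg_left hT (Real.exp_pos _).le).trans ?_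
  have e9 : Real.exp (-(4 * Real.pi ^ 2 * V0 K m)) *
      ((1 + 3 * η) * Real.exp ((2 * Real.pi) ^ 2 * (Vr (Gp (s1 m) (rp K m)) + 2 * C + V0 K m) / 2)) =
      (1 + 3 * η) * Real.exp (4 * Real.pi ^ 2 * C) := by
    have : Real.exp (4 * Real.pi ^ 2 * C) = Real.exp (-(4 * Real.pi ^ 2 * V0 K m)) *
        Real.exp ((2 * Real.pi) ^ 2 * (V0 K m + 2 * C + V0 K m) / 2) := by
      rw [← Real.exp_add]
      congr 1
      ring
    rw [this]
    unfold V0
    ring
  rw [e9]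
  apply mul_le_mul_of_nonneg_left (Real.exp_le_exp.2 _) (by linarith)
  have a2 := (le_abs_self C).trans hCb
  have a3 : 0 ≤ C1 * Real.exp (-(Real.log m / K)) := by positivity
  calc 4 * Real.pi ^ 2 * C ≤ 4 * Real.pi ^ 2 * (C1 * Real.exp (-(Real.log m / K))) :=
        mul_le_mul_of_nonneg_left a2 (by positivity)
    _ ≤ 40 * (C1 * Real.exp (-(Real.log m / K))) := mul_le_mul_of_nonneg_right (by linarith) a3
    _ = _ := by ring

end

end Pool.Agent.K6.H57.MX
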