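import Pool.Agent.K6.H57.MX.So

/-! # The second moment method: conclusion -/

set_option autoImplicit false

open MeasureTheory Set Filter Topology
open scoped ContDiff NNReal

namespace Pool.Agent.K6.H57.MX

open Pool.Agent.K6.H57.ML

noncomputable section

variable {K m : ℕ} {η : ℝ}

/-- the number of near points -/
lemma cnt (m u : ℕ) {x : ℝ} (hx : 1 ≤ x) :
    (((Finset.Icc 1 m).filter fun v : ℕ => |(u : ℝ) - v| < x).card : ℝ) ≤ 3 * x := by
  have h1 : (Finset.Icc 1 m).filter (fun v : ℕ => |(u : ℝ) - v| < x) ⊆ Finset.Icc (u - ⌊x⌋₊) (u + ⌊x⌋₊) := by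
    intro v hv
    rw [Finset.mem_filter] at hv
    obtain ⟨-, h2⟩ := hv
    rw [abs_lt] at h2
    rw [Finset.mem_Icc]
    constructor
    · rcases le_total u v with h3 | h3
      · omega
      · have h4 : u - v ≤ ⌊x⌋₊ := by
          apply Nat.le_floor
          rw [Nat.cast_sub h3]
          linarith
        omega
    · rcases le_total v u with h3 | h3
      · omega
      · have h4 : v - u ≤ ⌊x⌋₊ := by
          apply Nat.le_floor
          rw [Nat.cast_sub h3]
          linarith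
        omega
  have h2 := Finset.card_le_card h1
  rw [Nat.card_Icc] at h2
  have h3 : ((Finset.Icc 1 m).filter fun v : ℕ => |(u : ℝ) - v| < x).card ≤ 2 * ⌊x⌋₊ + 1 := by omega
  have h4 : (⌊x⌋₊ : ℝ) ≤ x := Nat.floor_le (by linarith)
  have h5 : (((Finset.Icc 1 m).filter fun v : ℕ => |(u : ℝ) - v| < x).card : ℝ) ≤ 2 * ⌊x⌋₊ + 1 := by
    exact_mod_cast h3
  linarith

/-- the bound for a pair -/
def cuv (K m : ℕ) (η C1 : ℝ) (u v : ℕ) : ℝ :=
  (1 + 3 * η) * Real.exp (40 * C1 * Real.exp (-(Real.log m / K))) + ∑ j ∈ Finset.range (K - 3),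
    if |(u : ℝ) - v| < Real.exp (((j + 1 : ℕ) : ℝ) * (Real.log m / K)) then
      (1 + 3 * η) * Real.exp (((K - 3 - j : ℕ) : ℝ) * (Real.log m / K) + (3 + 40 * C1)) else 0

theorem pairs (h : Big K η m) (hη : 0 < η) (hη3 : η ≤ 1 / 3) {σ ε : ℝ} (hσ : σ ^ 2 = 1) {C1 : ℝ}
    (hC1 : 0 < C1) (hl1 : 160 * C1 ≤ Real.log m)
    (hC : ∀ a c b u v : ℝ, 1 ≤ a → a ≤ c → c ≤ b → u ≠ v → |Cv (Sh u (Gp a b)) (Sh v (Gp a c))| ≤ C1 * (c / |u - v|)) :
    ∀ᶠ T in atTop, ∀ u ∈ Finset.Icc 1 m, ∀ v ∈ Finset.Icc 1 m,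
      EX T (fun t => Wt' K m σ ε u T t * Wt' K m σ ε v T t) ≤ cuv K m η C1 u v := by
  rw [Filter.eventually_all_finset]
  intro u hu
  rw [Filter.eventually_all_finset]
  intro v hv
  have hK8 := h.K8
  have hterm : ∀ j ∈ Finset.range (K - 3), 0 ≤
      if |(u : ℝ) - v| < Real.exp (((j + 1 : ℕ) : ℝ) * (Real.log m / K)) then
      (1 + 3 * η) * Real.exp (((K - 3 - j : ℕ) : ℝ) * (Real.log m / K) + (3 + 40 * C1)) else 0 := by
    intro j _
    split_ifs
    · positivity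
    · exact le_rfl
  rcases le_or_gt (Real.exp (((K - 3 : ℕ) : ℝ) * (Real.log m / K))) |(u : ℝ) - v| with hd | hd
  · filter_upwards [far h hη hη3 (ε := ε) hσ hC1 hl1 hC hu hv hd] with T hT
    unfold cuv
    have := Finset.sum_nonneg hterm
    linarith
  · have hex : ∃ j : ℕ, |(u : ℝ) - v| < Real.exp (((j + 1 : ℕ) : ℝ) * (Real.log m / K)) := by
      refine ⟨K - 4, ?_⟩
      have : K - 4 + 1 = K - 3 := by omega
      rw [this]
      exact hd
    classical
    obtain ⟨j, hj⟩ : ∃ j, j = Nat.find hex := ⟨_, rfl⟩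
    have hj1 : |(u : ℝ) - v| < Real.exp (((j + 1 : ℕ) : ℝ) * (Real.log m / K)) := by
      rw [hj]
      exact Nat.find_spec hex
    have hj2 : j ≤ K - 4 := by
      rw [hj]
      apply Nat.find_min' hex
      have : K - 4 + 1 = K - 3 := by omega
      rw [this]
      exact hd
    have hj3 : j = 0 ∨ lv K m j ≤ |(u : ℝ) - v| := by
      rcases Nat.eq_zero_or_pos j with h0 | h0
      · exact Or.inl h0
      · right
        have h5 : ¬ |(u : ℝ) - v| < Real.exp (((j - 1 + 1 : ℕ) : ℝ) * (Real.log m / K)) := by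
          apply Nat.find_min hex
          omega
        have e : j - 1 + 1 = j := by omega
        rw [e] at h5
        unfold lv
        rw [if_neg (by omega)]
        exact not_lt.1 h5
    filter_upwards [near h hη hη3 (ε := ε) hσ hC1 hl1 hC hu hv hj2 hj3] with T hT
    refine hT.trans ?_
    unfold cuv
    have hjm : j ∈ Finset.range (K - 3) := by
      rw [Finset.mem_range]
      omega
    have h6 := Finset.single_le_sum hterm hjm
    rw [if_pos hj1] at h6
    have h7 : 0 ≤ (1 + 3 * η) * Real.exp (40 * C1 * Real.exp (-(Real.log m / K))) := by positivity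
    linarith

lemma cuv_sum (h : Big K η m) (hη : 0 < η) {C1 : ℝ} (hC1 : 0 < C1) :
    ∑ u ∈ Finset.Icc 1 m, ∑ v ∈ Finset.Icc 1 m, cuv K m η C1 u v ≤
      (m : ℝ) ^ 2 * ((1 + 3 * η) * Real.exp (40 * C1 * Real.exp (-(Real.log m / K))) +
      3 * K * (1 + 3 * η) * Real.exp (3 + 40 * C1 - 2 * (Real.log m / K))) := by
  have hK := h.K0
  have hK8 := h.K8
  have hq := h.q0
  have h1 : ∀ u ∈ Finset.Icc 1 m, ∑ v ∈ Finset.Icc 1 m, cuv K m η C1 u v ≤
      m * ((1 + 3 * η) * Real.exp (40 * C1 * Real.exp (-(Real.log m / K))) +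
      3 * K * (1 + 3 * η) * Real.exp (3 + 40 * C1 - 2 * (Real.log m / K))) := by
    intro u _
    unfold cuv
    rw [Finset.sum_add_distrib, Finset.sum_const, Nat.card_Icc, Nat.add_sub_cancel, nsmul_eq_mul, mul_add]
    apply add_le_add le_rfl
    rw [Finset.sum_comm]
    have h2 : ∀ j ∈ Finset.range (K - 3), (∑ v ∈ Finset.Icc 1 m,
        if |(u : ℝ) - v| < Real.exp (((j + 1 : ℕ) : ℝ) * (Real.log m / K)) then
        (1 + 3 * η) * Real.exp (((K - 3 - j : ℕ) : ℝ) * (Real.log m / K) + (3 + 40 * C1)) else 0) ≤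
        m * (3 * (1 + 3 * η) * Real.exp (3 + 40 * C1 - 2 * (Real.log m / K))) := by
      intro j hj
      rw [← Finset.sum_filter, Finset.sum_const, nsmul_eq_mul]
      have h3 := cnt m u (x := Real.exp (((j + 1 : ℕ) : ℝ) * (Real.log m / K)))
        (Real.one_le_exp (by positivity))
      have hj2 : j ≤ K - 4 := by
        have := Finset.mem_range.1 hj
        omega
      calc _ ≤ 3 * Real.exp (((j + 1 : ℕ) : ℝ) * (Real.log m / K)) *
            ((1 + 3 * η) * Real.exp (((K - 3 - j : ℕ) : ℝ) * (Real.log m / K) + (3 + 40 * C1))) :=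
            mul_le_mul_of_nonneg_right h3 (by positivity)
        _ = 3 * (1 + 3 * η) * (Real.exp (((j + 1 : ℕ) : ℝ) * (Real.log m / K)) *
            Real.exp (((K - 3 - j : ℕ) : ℝ) * (Real.log m / K) + (3 + 40 * C1))) := by ring
        _ = 3 * (1 + 3 * η) * (m * Real.exp (3 + 40 * C1 - 2 * (Real.log m / K))) := by
            congr 1
            have e1 : (m : ℝ) = Real.exp (K * (Real.log m / K)) := by
              rw [mul_div_cancel₀ _ (by linarith), h.explog]
            have e2 : (m : ℝ) * Real.exp (3 + 40 * C1 - 2 * (Real.log m / K)) =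
                Real.exp (K * (Real.log m / K) + (3 + 40 * C1 - 2 * (Real.log m / K))) := by
              rw [Real.exp_add, ← e1]
            rw [e2, ← Real.exp_add]
            congr 1
            have hcast : ((K - 3 - j : ℕ) : ℝ) = (K : ℝ) - 3 - j := by
              rw [Nat.cast_sub (by omega), Nat.cast_sub (by omega)]
              push_cast
              ring
            rw [hcast]
            push_cast
            ring
        _ = _ := by ring
    refine (Finset.sum_le_sum h2).trans ?_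
    rw [Finset.sum_const, Finset.card_range, nsmul_eq_mul]
    have h4 : ((K - 3 : ℕ) : ℝ) ≤ K := by exact_mod_cast Nat.sub_le _ _
    calc ((K - 3 : ℕ) : ℝ) * (m * (3 * (1 + 3 * η) * Real.exp (3 + 40 * C1 - 2 * (Real.log m / K)))) ≤
        K * (m * (3 * (1 + 3 * η) * Real.exp (3 + 40 * C1 - 2 * (Real.log m / K)))) :=
          mul_le_mul_of_nonneg_right h4 (by positivity)
      _ = _ := by ring
  refine (Finset.sum_le_sum h1).trans ?_
  rw [Finset.sum_const, Nat.card_Icc, Nat.add_sub_cancel, nsmul_eq_mul]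
  refine le_of_eq ?_
  ring

/-- **the second moment method** -/
theorem second (h : Big K η m) (hη : 0 < η) (hη3 : η ≤ 1 / 3) {σ ε : ℝ} (hσ : σ ^ 2 = 1) (hε : 0 < ε)
    (hε1 : ε < 1) (hb1 : 2 * K * Real.exp (1 - Real.log m / (10 * K ^ 2)) ≤ η)
    (hb2 : 2 * Real.exp (-(ε ^ 2 * (3 / 8 * Real.log m))) ≤ η) {C1 : ℝ}
    (hC1 : 0 < C1) (hl1 : 160 * C1 ≤ Real.log m)
    (hC : ∀ a c b u v : ℝ, 1 ≤ a → a ≤ c → c ≤ b → u ≠ v → |Cv (Sh u (Gp a b)) (Sh v (Gp a c))| ≤ C1 * (c / |u - v|))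
    (hb3 : 40 * C1 * Real.exp (-(Real.log m / K)) ≤ η)
    (hb4 : 6 * K * Real.exp (3 + 40 * C1 - 2 * (Real.log m / K)) ≤ η) :
    ∀ᶠ T in atTop, 1 - 18 * η ≤ Pb T {t | ∃ u ∈ Finset.Icc 1 m,
      (1 - ε) * (2 * Real.pi) * V0 K m ≤ σ * ZZ K m u 0 T t} := by
  have hm2 := h.m2
  have hm0 : (0 : ℝ) < m := by linarith
  have L1 : ∀ᶠ T in atTop, ∀ u ∈ Finset.Icc 1 m, 1 - 5 * η ≤ EX T (Wt' K m σ ε u T) := by
    rw [Filter.eventually_all_finset]
    intro u hu
    exact first h hη hη3 hσ hε hε1 hb1 hb2 hu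
  have L2 := pairs h hη hη3 (ε := ε) hσ hC1 hl1 hC
  filter_upwards [L1, L2, eventually_gt_atTop 0] with T g1 g2 hT
  obtain ⟨S, hS⟩ : ∃ S : Set ℝ, S = ⋃ u ∈ Finset.Icc 1 m, GG K m σ ε u T := ⟨_, rfl⟩
  have hSm : MeasurableSet S := by
    rw [hS]
    exact Finset.measurableSet_biUnion _ fun u _ => GG_meas K m σ ε u T
  have nW : ∀ u ∈ Finset.Icc 1 m, Nc T (Wt' K m σ ε u T) := fun u _ => Wt'_nc K m σ ε u T
  have nF := Nc.sum (Finset.Icc 1 m) nW
  have nI : Nc T (S.indicator fun _ => (1 : ℝ)) := (Nc.const T 1).ind hSm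
  have key : EX T (fun t => ∑ u ∈ Finset.Icc 1 m, Wt' K m σ ε u T t) ≤
      EX T (fun t => 1 / (2 * m) * ((∑ u ∈ Finset.Icc 1 m, Wt' K m σ ε u T t) *
        (∑ u ∈ Finset.Icc 1 m, Wt' K m σ ε u T t)) + m / 2 * S.indicator (fun _ => (1 : ℝ)) t) := by
    apply EX_mono hT nF (((nF.mul nF).cmul _).add (nI.cmul _))
    intro t _
    obtain ⟨F, hF⟩ : ∃ F : ℝ, F = ∑ u ∈ Finset.Icc 1 m, Wt' K m σ ε u T t := ⟨_, rfl⟩
    rw [← hF]
    by_cases ht : t ∈ S
    · rw [indicator_of_mem ht, mul_one]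
      have : 0 ≤ (F - m) ^ 2 / (2 * m) := by positivity
      have e : (F - m) ^ 2 / (2 * m) = 1 / (2 * m) * (F * F) + m / 2 - F := by
        field_simp
        ring
      linarith
    · have hF0 : F = 0 := by
        rw [hF]
        apply Finset.sum_eq_zero
        intro u hu
        unfold Wt'
        rw [indicator_of_notMem]
        intro hcon
        apply ht
        rw [hS, mem_iUnion₂]
        exact ⟨u, hu, hcon.2⟩
      rw [hF0, indicator_of_notMem ht]
      simp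
  rw [EX_add ((nF.mul nF).cmul _) (nI.cmul _), EX_cmul, EX_cmul, EX_sum _ nW] at key
  have hI : EX T (fun t => S.indicator (fun _ => (1 : ℝ)) t) = Pb T S := EX_ind hSm
  rw [hI] at key
  have k1 : m * (1 - 5 * η) ≤ ∑ u ∈ Finset.Icc 1 m, EX T (fun t => Wt' K m σ ε u T t) := by
    have : ∑ u ∈ Finset.Icc 1 m, (1 - 5 * η) ≤ ∑ u ∈ Finset.Icc 1 m, EX T (fun t => Wt' K m σ ε u T t) :=
      Finset.sum_le_sum fun u hu => g1 u hu
    rwa [Finset.sum_const, Nat.card_Icc, Nat.add_sub_cancel, nsmul_eq_mul] at this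
  have k2 : EX T (fun t => (∑ u ∈ Finset.Icc 1 m, Wt' K m σ ε u T t) *
        (∑ u ∈ Finset.Icc 1 m, Wt' K m σ ε u T t)) ≤ (m : ℝ) ^ 2 * (1 + 8 * η) := by
    have e1 : (fun t => (∑ u ∈ Finset.Icc 1 m, Wt' K m σ ε u T t) * (∑ u ∈ Finset.Icc 1 m, Wt' K m σ ε u T t)) =
        fun t => ∑ u ∈ Finset.Icc 1 m, ∑ v ∈ Finset.Icc 1 m, Wt' K m σ ε u T t * Wt' K m σ ε v T t := by
      funext t
      rw [Finset.sum_mul_sum]
    rw [e1, EX_sum _ (fun u hu => Nc.sum _ fun v hv => (nW u hu).mul (nW v hv))]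
    have e2 : ∀ u ∈ Finset.Icc 1 m, EX T (fun t => ∑ v ∈ Finset.Icc 1 m, Wt' K m σ ε u T t * Wt' K m σ ε v T t) ≤
        ∑ v ∈ Finset.Icc 1 m, cuv K m η C1 u v := by
      intro u hu
      rw [EX_sum _ (fun v hv => (nW u hu).mul (nW v hv))]
      exact Finset.sum_le_sum fun v hv => g2 u hu v hv
    refine (Finset.sum_le_sum e2).trans ((cuv_sum h hη hC1).trans ?_)
    apply mul_le_mul_of_nonneg_left _ (by positivity)
    have a1 : Real.exp (40 * C1 * Real.exp (-(Real.log m / K))) ≤ 1 + 2 * η := by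
      have b1 : Real.exp (40 * C1 * Real.exp (-(Real.log m / K))) ≤ Real.exp η := Real.exp_le_exp.2 hb3
      have b2 : Real.exp η ≤ 1 + 2 * η := by
        have c1 := Real.abs_exp_sub_one_le (x := η) (by rw [abs_of_pos hη]; linarith)
        rw [abs_of_pos hη] at c1
        have := (abs_le.1 c1).2
        linarith
      linarith
    have a2 : 3 * K * (1 + 3 * η) * Real.exp (3 + 40 * C1 - 2 * (Real.log m / K)) ≤ η := by
      refine le_trans ?_ hb4
      have : 0 ≤ (K : ℝ) * Real.exp (3 + 40 * C1 - 2 * (Real.log m / K)) := by positivity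
      nlinarith
    have a3 : (1 + 3 * η) * Real.exp (40 * C1 * Real.exp (-(Real.log m / K))) ≤ (1 + 3 * η) * (1 + 2 * η) :=
      mul_le_mul_of_nonneg_left a1 (by linarith)
    nlinarith
  have k3 : (m : ℝ) * (1 - 5 * η) ≤ 1 / (2 * m) * ((m : ℝ) ^ 2 * (1 + 8 * η)) + m / 2 * Pb T S := by
    refine k1.trans (key.trans ?_)
    apply add_le_add _ le_rfl
    exact mul_le_mul_of_nonneg_left k2 (by positivity)
  have k4 : 1 - 18 * η ≤ Pb T S := by
    have e : 1 / (2 * (m : ℝ)) * ((m : ℝ) ^ 2 * (1 + 8 * η)) = m / 2 * (1 + 8 * η) := by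
      field_simp
    rw [e] at k3
    have : (m : ℝ) * (1 - 5 * η) ≤ m * ((1 + 8 * η) / 2 + Pb T S / 2) := by linarith
    have := le_of_mul_le_mul_left this hm0
    linarith
  refine k4.trans ?_
  apply Pb_mono hT
  intro t _ ht
  rw [hS, mem_iUnion₂] at ht
  obtain ⟨u, hu, htu⟩ := ht
  exact ⟨u, hu, htu.1⟩

end

end Pool.Agent.K6.H57.MX
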