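import Pool.Agent.K6.H57.MX.Mo

/-! # Truncated exponentials -/

set_option autoImplicit false

open MeasureTheory Set Filter Topology
open scoped ContDiff NNReal

namespace Pool.Agent.K6.H57.MX

noncomputable section

/-- the truncated exponential -/
def Te (d : ℕ) (x : ℝ) : ℝ := ∑ j ∈ Finset.range (d + 1), x ^ j / j.factorial

lemma Te_cont (d : ℕ) : Continuous (Te d) := by unfold Te; fun_prop

lemma Te_succ (d : ℕ) (x : ℝ) : Te (d + 1) x = Te d x + x ^ (d + 1) / (d + 1).factorial := by
  unfold Te
  rw [Finset.sum_range_succ]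

lemma Te_zero (x : ℝ) : Te 0 x = 1 := by simp [Te]

lemma Te_at (d : ℕ) : Te d 0 = 1 := by
  induction d with
  | zero => simp [Te]
  | succ d ih => rw [Te_succ, ih]; simp

lemma Te_deriv (d : ℕ) (x : ℝ) : HasDerivAt (Te (d + 1)) (Te d x) x := by
  induction d with
  | zero =>
    have h : Te (0 + 1) = fun x => 1 + x := by
      funext x
      rw [Te_succ, Te_zero]
      simp
    rw [h, Te_zero]
    exact (hasDerivAt_id' x).const_add 1
  | succ d ih =>
    have h : Te (d + 1 + 1) = fun x => Te (d + 1) x + x ^ (d + 1 + 1) / (d + 1 + 1).factorial := by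
      funext x
      exact Te_succ _ _
    rw [h, Te_succ]
    have h2 := (((hasDerivAt_pow (d + 1 + 1) x).div_const ((d + 1 + 1).factorial : ℝ)))
    refine (ih.fun_add h2).congr_deriv ?_
    congr 1
    rw [Nat.factorial_succ (d + 1)]
    have h3 : ((d + 1).factorial : ℝ) ≠ 0 := by positivity
    have h4 : ((d + 1 + 1 : ℕ) : ℝ) ≠ 0 := by positivity
    push_cast at h4 ⊢
    rw [div_eq_div_iff (by positivity) (by positivity)]
    ring

lemma Te_nn {d : ℕ} {x : ℝ} (hx : 0 ≤ x) : 0 ≤ Te d x :=
  Finset.sum_nonneg fun j _ => by positivity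

lemma Te_le {d : ℕ} {x : ℝ} (hx : 0 ≤ x) : Te d x ≤ Real.exp x := Real.sum_le_exp_of_nonneg hx _

lemma Te_mono {d : ℕ} {x y : ℝ} (hx : 0 ≤ x) (hxy : x ≤ y) : Te d x ≤ Te d y := by
  unfold Te
  refine Finset.sum_le_sum fun j _ => ?_
  gcongr

lemma Te_one {d : ℕ} {x : ℝ} (hx : 0 ≤ x) : 1 ≤ Te d x := by
  rw [← Te_at d]
  exact Te_mono le_rfl hx

lemma pow_int (d : ℕ) (x : ℝ) : ∫ t in (0 : ℝ)..x, t ^ (d + 1) / (d + 1).factorial =
    x ^ (d + 1 + 1) / (d + 1 + 1).factorial := by
  rw [intervalIntegral.integral_div, integral_pow, zero_pow (by omega), sub_zero, Nat.factorial_succ (d + 1)]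
  push_cast
  rw [div_div]

lemma Te_pos_rem (d : ℕ) : ∀ x : ℝ, 0 ≤ x →
    Real.exp x - Te d x ≤ x ^ (d + 1) / (d + 1).factorial * Real.exp x := by
  induction d with
  | zero =>
    intro x hx
    rw [Te_zero]
    simp only [zero_add, pow_one, Nat.factorial_one, Nat.cast_one, div_one]
    have h := Real.add_one_le_exp (-x)
    have h2 : Real.exp (-x) * Real.exp x = 1 := by rw [← Real.exp_add]; simp
    nlinarith [Real.exp_pos x]
  | succ d ih =>
    intro x hx
    have h1 : ∫ t in (0 : ℝ)..x, (Real.exp t - Te d t) = Real.exp x - Te (d + 1) x := by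
      rw [intervalIntegral.integral_eq_sub_of_hasDerivAt (f := fun t => Real.exp t - Te (d + 1) t)
        (fun t _ => (Real.hasDerivAt_exp t).fun_sub (Te_deriv d t))
        ((Real.continuous_exp.sub (Te_cont d)).intervalIntegrable _ _)]
      rw [Te_at]
      simp
    rw [← h1]
    calc ∫ t in (0 : ℝ)..x, (Real.exp t - Te d t) ≤
        ∫ t in (0 : ℝ)..x, t ^ (d + 1) / (d + 1).factorial * Real.exp x := by
          apply intervalIntegral.integral_mono_on hx
            ((Real.continuous_exp.sub (Te_cont d)).intervalIntegrable _ _)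
            (Continuous.intervalIntegrable (by fun_prop) _ _)
          intro t ht
          refine (ih t ht.1).trans ?_
          have := ht.1
          apply mul_le_mul_of_nonneg_left (Real.exp_le_exp.2 ht.2) (by positivity)
      _ = _ := by rw [intervalIntegral.integral_mul_const, pow_int]

lemma Te_neg_rem (d : ℕ) : ∀ x : ℝ, 0 ≤ x →
    0 ≤ (-1) ^ (d + 1) * (Real.exp (-x) - Te d (-x)) ∧
    (-1) ^ (d + 1) * (Real.exp (-x) - Te d (-x)) ≤ x ^ (d + 1) / (d + 1).factorial := by
  induction d with
  | zero =>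
    intro x hx
    rw [Te_zero]
    simp only [zero_add, pow_one, Nat.factorial_one, Nat.cast_one, div_one]
    have h := Real.add_one_le_exp (-x)
    have h2 : Real.exp (-x) ≤ 1 := Real.exp_le_one_iff.2 (by linarith)
    constructor <;> linarith
  | succ d ih =>
    intro x hx
    have h1 : ∫ t in (0 : ℝ)..x, (-1) ^ (d + 1) * (Real.exp (-t) - Te d (-t)) =
        (-1) ^ (d + 1 + 1) * (Real.exp (-x) - Te (d + 1) (-x)) := by
      rw [intervalIntegral.integral_eq_sub_of_hasDerivAt
        (f := fun t => (-1) ^ (d + 1 + 1) * (Real.exp (-t) - Te (d + 1) (-t)))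
        (fun t _ => ?_) (Continuous.intervalIntegrable (by have := Te_cont d; fun_prop) _ _)]
      · simp only [neg_zero, Te_at, Real.exp_zero]
        simp
      · have h2 : HasDerivAt (fun t : ℝ => Real.exp (-t) - Te (d + 1) (-t)) (-Real.exp (-t) + Te d (-t)) t := by
          have a1 : HasDerivAt (fun t : ℝ => Real.exp (-t)) (-Real.exp (-t)) t := by
            have : HasDerivAt (fun t : ℝ => Real.exp (-t)) (Real.exp (-t) * -1) t :=
              (hasDerivAt_neg t).exp
            refine this.congr_deriv ?_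
            ring
          have a2 : HasDerivAt (fun t : ℝ => Te (d + 1) (-t)) (-Te d (-t)) t := by
            have : HasDerivAt (fun t : ℝ => Te (d + 1) (-t)) (Te d (-t) * -1) t :=
              (Te_deriv d (-t)).comp t (hasDerivAt_neg t)
            refine this.congr_deriv ?_
            ring
          refine (a1.fun_sub a2).congr_deriv ?_
          ring
        refine (h2.const_mul ((-1) ^ (d + 1 + 1))).congr_deriv ?_
        ring
    rw [← h1]
    constructor
    · apply intervalIntegral.integral_nonneg hx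
      intro t ht
      exact (ih t ht.1).1
    · rw [← pow_int]
      apply intervalIntegral.integral_mono_on hx
        (Continuous.intervalIntegrable (by have := Te_cont d; fun_prop) _ _)
        (Continuous.intervalIntegrable (by fun_prop) _ _)
      intro t ht
      exact (ih t ht.1).2

lemma Te_pos {d : ℕ} (hd : Even d) (x : ℝ) : 0 < Te d x := by
  rcases le_or_gt 0 x with h | h
  · linarith [Te_one (d := d) h]
  · have h1 := (Te_neg_rem d (-x) (by linarith)).1
    rw [neg_neg, (Even.add_one hd).neg_one_pow] at h1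
    linarith [Real.exp_pos x]

lemma pf {n : ℕ} {x : ℝ} (hx : 0 ≤ x) (h : 10 * x ≤ n) :
    x ^ n / n.factorial ≤ Real.exp (-x) * Real.exp (-(n : ℝ) / 2) := by
  rcases Nat.eq_zero_or_pos n with rfl | hn
  · have : x = 0 := by
      push_cast at h
      linarith
    rw [this]
    simp
  have hn0 : (0 : ℝ) < n := by exact_mod_cast hn
  have h1 : (n : ℝ) ^ n / n.factorial ≤ Real.exp n := Real.pow_div_factorial_le_exp n hn0.le n
  have h2 : x ^ n ≤ ((n : ℝ) / 10) ^ n := by
    apply pow_le_pow_left₀ hx
    linarith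
  have h3 : x ^ n / n.factorial ≤ Real.exp n / 10 ^ n := by
    calc x ^ n / n.factorial ≤ ((n : ℝ) / 10) ^ n / n.factorial := by gcongr
      _ = (n : ℝ) ^ n / n.factorial / 10 ^ n := by rw [div_pow]; ring
      _ ≤ _ := by gcongr
  have h4 : Real.exp 2 ≤ 10 := by
    have := Real.exp_one_lt_d9
    have e : Real.exp 2 = Real.exp 1 * Real.exp 1 := by rw [← Real.exp_add]; norm_num
    rw [e]
    nlinarith [Real.exp_pos 1]
  have h5 : Real.exp n / 10 ^ n ≤ Real.exp (-n) := by
    rw [div_le_iff₀ (by positivity)]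
    calc Real.exp n = Real.exp (-n) * Real.exp 2 ^ n := by
          rw [← Real.exp_nat_mul, ← Real.exp_add]
          congr 1
          ring
      _ ≤ _ := by gcongr
  refine (h3.trans h5).trans ?_
  rw [← Real.exp_add]
  apply Real.exp_le_exp.2
  linarith

/-- **approximation of the exponential** -/
lemma Te_near {d : ℕ} {x : ℝ} (h : 10 * |x| ≤ d) :
    |Te d x - Real.exp x| ≤ Real.exp (-(d : ℝ) / 2) * Real.exp x := by
  rcases le_or_gt 0 x with hx | hx
  · rw [abs_of_nonneg hx] at h
    have h1 := Te_le (d := d) hx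
    have h2 := Te_pos_rem d x hx
    rw [abs_of_nonpos (by linarith)]
    have h3 := pf (n := d + 1) hx (by push_cast; linarith)
    have h4 : Real.exp (-x) ≤ 1 := Real.exp_le_one_iff.2 (by linarith)
    have h5 : x ^ (d + 1) / (d + 1).factorial ≤ Real.exp (-(d : ℝ) / 2) := by
      refine h3.trans ?_
      calc Real.exp (-x) * Real.exp (-((d + 1 : ℕ) : ℝ) / 2) ≤ 1 * Real.exp (-(d : ℝ) / 2) := by
            apply mul_le_mul h4 _ (Real.exp_pos _).le zero_le_one
            apply Real.exp_le_exp.2
            push_cast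
            linarith
        _ = _ := one_mul _
    have h6 := mul_le_mul_of_nonneg_right h5 (Real.exp_pos x).le
    linarith
  · rw [abs_of_neg hx] at h
    obtain ⟨h1, h2⟩ := Te_neg_rem d (-x) (by linarith)
    rw [neg_neg] at h1 h2
    have h3 : |Te d x - Real.exp x| = (-1) ^ (d + 1) * (Real.exp x - Te d x) := by
      have : |(-1) ^ (d + 1) * (Real.exp x - Te d x)| = |Te d x - Real.exp x| := by
        rw [abs_mul, abs_pow, abs_neg, abs_one, one_pow, one_mul, abs_sub_comm]
      rw [← this, abs_of_nonneg h1]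
    rw [h3]
    refine h2.trans ?_
    have h4 := pf (n := d + 1) (x := -x) (by linarith) (by push_cast; linarith)
    refine h4.trans ?_
    rw [neg_neg, mul_comm]
    apply mul_le_mul_of_nonneg_right _ (Real.exp_pos _).le
    apply Real.exp_le_exp.2
    push_cast
    linarith

lemma Te_abs {d : ℕ} (hd : Even d) (x : ℝ) : Te d |x| ≤ Te d x + Te d (-x) := by
  rcases le_or_gt 0 x with h | h
  · rw [abs_of_nonneg h]
    linarith [Te_pos hd (-x)]
  · rw [abs_of_neg h]
    linarith [Te_pos hd x]

lemma Te_le_abs {d : ℕ} (x : ℝ) : Te d x ≤ Te d |x| := by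
  unfold Te
  refine Finset.sum_le_sum fun j _ => ?_
  apply div_le_div_of_nonneg_right _ (by positivity)
  rw [← abs_pow]
  exact le_abs_self _

lemma Te_mul {d : ℕ} {x : ℝ} (hx : 0 ≤ x) : Te d x * Te d x ≤ Te (2 * d) (2 * x) := by
  have h1 : Te (2 * d) (2 * x) = ∑ n ∈ Finset.range (2 * d + 1), ∑ k ∈ Finset.range (n + 1),
      (fun i j : ℕ => x ^ i / i.factorial * (x ^ j / j.factorial)) k (n - k) := by
    unfold Te
    refine Finset.sum_congr rfl fun n _ => ?_
    rw [two_mul, add_pow, Finset.sum_div]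
    refine Finset.sum_congr rfl fun k hk => ?_
    have hk2 : k ≤ n := by
      have := Finset.mem_range.1 hk
      omega
    rw [Nat.cast_choose ℝ hk2]
    have a1 : (n.factorial : ℝ) ≠ 0 := by positivity
    have a2 : (k.factorial : ℝ) ≠ 0 := by positivity
    have a3 : ((n - k).factorial : ℝ) ≠ 0 := by positivity
    field_simp
  rw [h1, Finset.sum_range_diag_flip (2 * d + 1)
    (fun i j : ℕ => x ^ i / (i.factorial : ℝ) * (x ^ j / (j.factorial : ℝ)))]
  unfold Te
  rw [Finset.sum_mul_sum]
  calc ∑ i ∈ Finset.range (d + 1), ∑ j ∈ Finset.range (d + 1), x ^ i / i.factorial * (x ^ j / j.factorial) ≤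
      ∑ i ∈ Finset.range (d + 1), ∑ j ∈ Finset.range (2 * d + 1 - i), x ^ i / i.factorial * (x ^ j / j.factorial) := by
        refine Finset.sum_le_sum fun i hi => ?_
        apply Finset.sum_le_sum_of_subset_of_nonneg
        · intro j hj
          rw [Finset.mem_range] at hi hj ⊢
          omega
        · intro j _ _
          positivity
    _ ≤ _ := by
        apply Finset.sum_le_sum_of_subset_of_nonneg
        · intro j hj
          rw [Finset.mem_range] at hj ⊢
          omega
        · intro j _ _
          exact Finset.sum_nonneg fun _ _ => by positivity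

lemma Te_sq {d : ℕ} (hd : Even d) (x : ℝ) : Te d x ^ 2 ≤ Te (2 * d) (2 * x) + Te (2 * d) (-(2 * x)) := by
  have h1 : Te d x ^ 2 ≤ Te d |x| * Te d |x| := by
    rw [sq]
    apply mul_le_mul (Te_le_abs x) (Te_le_abs x) (Te_pos hd x).le (Te_nn (abs_nonneg x))
  refine (h1.trans (Te_mul (abs_nonneg x))).trans ?_
  have h2 : 2 * |x| = |2 * x| := by rw [abs_mul]; norm_num
  rw [h2]
  exact Te_abs (by simp) _

/-- the Gaussian expectation -/
lemma Te_gauss (V : ℝ) (e : ℕ) : ∑ j ∈ Finset.range (2 * e + 1), gmo V j / j.factorial = Te e (V / 2) := by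
  induction e with
  | zero => 
    rw [Te_zero]
    have : gmo V 0 = 1 := by
      have := gmo_even V 0
      rw [mul_zero] at this
      rw [this]
      simp [mu]
    simp [this]
  | succ e ih =>
    rw [show 2 * (e + 1) + 1 = 2 * e + 1 + 1 + 1 by ring, Finset.sum_range_succ, Finset.sum_range_succ, ih,
      Te_succ]
    rw [gmo_odd, show 2 * e + 1 + 1 = 2 * (e + 1) by ring, gmo_even]
    unfold mu
    have a1 : ((2 * (e + 1)).factorial : ℝ) ≠ 0 := by positivity
    have a2 : ((e + 1).factorial : ℝ) ≠ 0 := by positivity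
    rw [zero_div, add_zero, div_pow]
    congr 1
    field_simp

end

end Pool.Agent.K6.H57.MX
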