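import Pool.Agent.K6.H57.MX.Mo
import Pool.Agent.K6.H57.ML.Pa

/-! # The explicit formula and tail bounds in the limit -/

set_option autoImplicit false

open MeasureTheory Set Filter Topology
open scoped ContDiff NNReal

namespace Pool.Agent.K6.H57.MX

open Pool.Agent.K6.H57.ML
open SP (bt ps zs)
open SG (ord NZ)
open H370 (Zf good_zeta)
open Pool.Agent.TH800.DM (NP sum_idx)
open Pool.Agent.R320.JL (PP nz PP_cont)
open Pool.Agent.Y743.CL (Pr mem_Pr VS VS_nonneg)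

noncomputable section

/-- the band limited function -/
def fG (G : ℝ → ℂ) (x : ℝ) : ℝ :=
  2 * (∫ ξ in (0 : ℝ)..1, G ξ * Complex.exp (((2 * Real.pi * x * ξ : ℝ) : ℂ) * Complex.I)).re

/-- the damped statistic -/
def DS (f : ℝ → ℝ) (T t : ℝ) : ℝ := ∑ n ∈ Finset.Ioc (NZ T) (NZ (2 * T)),
  Real.exp (-(ord n - t) ^ 2 / 2) * f (Real.log T * (ord n - t) / (2 * Real.pi))

lemma zs_DS (RH : RiemannHypothesis) (G : ℝ → ℂ) {T : ℝ} (hT : 1 < T) (t : ℝ) :
    (zs T t (WG T G)).re = DS (fG G) T t := by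
  have hL : 0 < Real.log T := Real.log_pos hT
  have hpi := Real.pi_pos
  unfold SP.zs DS SP.ZZ
  rw [H370.finsum_Zf good_zeta hT.le, Complex.re_sum, ← sum_idx RH hT.le (fun x =>
    Real.exp (-(x - t) ^ 2 / 2) * fG G (Real.log T * (x - t) / (2 * Real.pi)))]
  refine Finset.sum_congr rfl fun s _ => ?_
  have e3 : (SP.mu s : ℂ) * (Real.exp (-(s.im - t) ^ 2 / 2) : ℂ) =
      (((SP.mu s : ℝ) * Real.exp (-(s.im - t) ^ 2 / 2) : ℝ) : ℂ) := by push_cast; rfl
  rw [e3, Complex.re_ofReal_mul]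
  have e4 : (∫ u in (0 : ℝ)..Real.log T, WG T G u * Complex.exp (Complex.I * ((u * (s.im - t) : ℝ) : ℂ))).re =
      fG G (Real.log T * (s.im - t) / (2 * Real.pi)) := by
    have h1 := intervalIntegral.integral_comp_mul_left (a := 0) (b := 1)
      (fun u : ℝ => WG T G u * Complex.exp (Complex.I * ((u * (s.im - t) : ℝ) : ℂ))) (c := Real.log T) hL.ne'
    rw [mul_zero, mul_one] at h1
    have h2 : ∫ u in (0 : ℝ)..Real.log T, WG T G u * Complex.exp (Complex.I * ((u * (s.im - t) : ℝ) : ℂ)) =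
        Real.log T • ∫ x in (0 : ℝ)..1, WG T G (Real.log T * x) *
          Complex.exp (Complex.I * ((Real.log T * x * (s.im - t) : ℝ) : ℂ)) := by
      rw [h1, smul_smul, mul_inv_cancel₀ hL.ne', one_smul]
    rw [h2, ← intervalIntegral.integral_smul]
    unfold fG
    have h5 : ∀ z : ℂ, 2 * z.re = (((2 : ℝ) : ℂ) * z).re := fun z => (Complex.re_ofReal_mul 2 z).symm
    rw [h5, ← intervalIntegral.integral_const_mul]
    congr 1
    refine intervalIntegral.integral_congr fun ξ _ => ?_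
    show Real.log T • (WG T G (Real.log T * ξ) * _) = _
    unfold WG
    rw [mul_div_cancel_left₀ _ hL.ne', Complex.real_smul]
    have e5 : ((2 * Real.pi * (Real.log T * (s.im - t) / (2 * Real.pi)) * ξ : ℝ) : ℂ) * Complex.I =
        Complex.I * ((Real.log T * ξ * (s.im - t) : ℝ) : ℂ) := by
      rw [mul_comm]
      congr 2
      field_simp
    rw [e5]
    have hLc : (Real.log T : ℂ) ≠ 0 := by exact_mod_cast hL.ne'
    push_cast
    field_simp
  rw [e4]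
  ring

lemma uexp (u : ℝ) : u * Real.exp (-u ^ 2 / 2) ≤ Real.exp (-(u - 0) ^ 2 / 4) := by
  have h1 : Real.exp (-u ^ 2 / 2) = Real.exp (-(u - 0) ^ 2 / 4) * Real.exp (-(u ^ 2 / 4)) := by
    rw [← Real.exp_add]; congr 1; ring
  have h2 := Real.add_one_le_exp (u ^ 2 / 4)
  have h3 : u * Real.exp (-(u ^ 2 / 4)) ≤ 1 := by
    rw [Real.exp_neg, ← div_eq_mul_inv, div_le_iff₀ (Real.exp_pos _)]
    nlinarith [sq_nonneg (u - 2)]
  rw [h1]
  have h4 := Real.exp_pos (-(u - 0) ^ 2 / 4)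
  nlinarith

lemma main_lim {κ M Λ : ℝ} {G : ℝ → ℂ} (h : Bd κ M Λ G) (hκ : κ ≤ 1) {T : ℝ} (hT : 1 < T) :
    ‖((Real.log T / Real.sqrt (2 * Real.pi) : ℝ) : ℂ) *
      (∫ u in (0 : ℝ)..Real.log T, WG T G u * (Real.exp (-u ^ 2 / 2) : ℂ)) - G 0‖ ≤ 4 * Λ / Real.log T := by
  have hL : 0 < Real.log T := Real.log_pos hT
  have hpi := Real.pi_pos
  have hΛ := h.L0
  obtain ⟨L, hLd⟩ : ∃ L : ℝ, L = Real.log T := ⟨_, rfl⟩
  rw [← hLd] at hL ⊢
  obtain ⟨r, hr⟩ : ∃ r : ℝ, r = Real.sqrt (2 * Real.pi) := ⟨_, rfl⟩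
  have hr0 : 0 < r := by rw [hr]; positivity
  rw [← hr]
  have hgi : IntegrableOn (fun u : ℝ => Real.exp (-u ^ 2 / 2)) (Ioi 0) := by
    have := (integrable_exp_neg_mul_sq (b := 1 / 2) (by norm_num)).integrableOn (s := Ioi (0 : ℝ))
    refine this.congr_fun (fun u _ => ?_) measurableSet_Ioi
    show Real.exp (-(1 / 2) * u ^ 2) = Real.exp (-u ^ 2 / 2)
    congr 1
    ring
  have hgv : ∫ u in Ioi (0 : ℝ), Real.exp (-u ^ 2 / 2) = r / 2 := by
    have := integral_gaussian_Ioi (1 / 2)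
    rw [hr]
    have e : Real.pi / (1 / 2) = 2 * Real.pi := by ring
    rw [e] at this
    rw [← this]
    refine setIntegral_congr_fun measurableSet_Ioi fun u _ => ?_
    show Real.exp (-u ^ 2 / 2) = Real.exp (-(1 / 2) * u ^ 2)
    congr 1
    ring
  have hGb : ∀ u : ℝ, ‖G (u / L) * (Real.exp (-u ^ 2 / 2) : ℂ)‖ ≤ M * Real.exp (-u ^ 2 / 2) := by
    intro u
    rw [norm_mul, Complex.norm_real, Real.norm_of_nonneg (Real.exp_pos _).le]
    exact mul_le_mul_of_nonneg_right (h.bd _) (Real.exp_pos _).le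
  have hGc : Continuous fun u : ℝ => G (u / L) * (Real.exp (-u ^ 2 / 2) : ℂ) := by
    have := h.cont
    fun_prop
  have hGi : IntegrableOn (fun u : ℝ => G (u / L) * (Real.exp (-u ^ 2 / 2) : ℂ)) (Ioi 0) :=
    (hgi.const_mul M).mono' hGc.aestronglyMeasurable (ae_of_all _ hGb)
  have hG0i : IntegrableOn (fun u : ℝ => G 0 * (Real.exp (-u ^ 2 / 2) : ℂ)) (Ioi 0) :=
    (hgi.ofReal (𝕜 := ℂ)).const_mul (G 0)
  -- extend to the half line
  have e1 : ∫ u in (0 : ℝ)..L, WG T G u * (Real.exp (-u ^ 2 / 2) : ℂ) =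
      ((2 / L : ℝ) : ℂ) * ∫ u in Ioi (0 : ℝ), G (u / L) * (Real.exp (-u ^ 2 / 2) : ℂ) := by
    have e2 : ∫ u in (0 : ℝ)..L, WG T G u * (Real.exp (-u ^ 2 / 2) : ℂ) =
        ((2 / L : ℝ) : ℂ) * ∫ u in (0 : ℝ)..L, G (u / L) * (Real.exp (-u ^ 2 / 2) : ℂ) := by
      rw [← intervalIntegral.integral_const_mul]
      refine intervalIntegral.integral_congr fun u _ => ?_
      show WG T G u * _ = _
      unfold WG
      rw [← hLd]
      ring
    rw [e2, intervalIntegral.integral_of_le hL.le]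
    congr 1
    symm
    apply setIntegral_eq_of_subset_of_forall_sdiff_eq_zero measurableSet_Ioi Ioc_subset_Ioi_self
    intro u hu
    have hu1 : (0 : ℝ) < u := hu.1
    have hu2 : L < u := by
      by_contra hcon
      push Not at hcon
      exact hu.2 ⟨hu1, hcon⟩
    rw [h.supp, zero_mul]
    rw [abs_of_pos (by positivity), le_div_iff₀ hL]
    nlinarith
  have e3 : G 0 = ((2 / r : ℝ) : ℂ) * ∫ u in Ioi (0 : ℝ), G 0 * (Real.exp (-u ^ 2 / 2) : ℂ) := by
    have hgc : ∫ u in Ioi (0 : ℝ), (Real.exp (-u ^ 2 / 2) : ℂ) = ((r / 2 : ℝ) : ℂ) := by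
      rw [← hgv]
      exact integral_ofReal
    rw [integral_const_mul, hgc]
    have hrc : (r : ℂ) ≠ 0 := by exact_mod_cast hr0.ne'
    push_cast
    field_simp
  have e4 : ((L / r : ℝ) : ℂ) * (((2 / L : ℝ) : ℂ) * ∫ u in Ioi (0 : ℝ), G (u / L) * (Real.exp (-u ^ 2 / 2) : ℂ)) =
      ((2 / r : ℝ) : ℂ) * ∫ u in Ioi (0 : ℝ), G (u / L) * (Real.exp (-u ^ 2 / 2) : ℂ) := by
    rw [← mul_assoc, ← Complex.ofReal_mul]
    congr 2
    field_simp
  rw [e1, e4]
  have e5 : ((2 / r : ℝ) : ℂ) * (∫ u in Ioi (0 : ℝ), G (u / L) * (Real.exp (-u ^ 2 / 2) : ℂ)) - G 0 =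
      ((2 / r : ℝ) : ℂ) * ∫ u in Ioi (0 : ℝ), (G (u / L) - G 0) * (Real.exp (-u ^ 2 / 2) : ℂ) := by
    conv_lhs => rw [e3]
    rw [← mul_sub, ← integral_sub hGi hG0i]
    congr 1
    refine integral_congr_ae (ae_of_all _ fun u => ?_)
    simp only
    ring
  rw [e5, norm_mul, Complex.norm_real, Real.norm_of_nonneg (by positivity)]
  have h4i := g4_int 0
  have h5 : ‖∫ u in Ioi (0 : ℝ), (G (u / L) - G 0) * (Real.exp (-u ^ 2 / 2) : ℂ)‖ ≤
      ∫ u in Ioi (0 : ℝ), Λ / L * Real.exp (-(u - 0) ^ 2 / 4) := by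
    refine (norm_integral_le_integral_norm _).trans ?_
    refine integral_mono_of_nonneg (ae_of_all _ fun u => norm_nonneg _) (h4i.integrableOn.const_mul _) ?_
    refine (ae_restrict_iff' measurableSet_Ioi).2 (ae_of_all _ fun u hu => ?_)
    have hu0 : (0 : ℝ) < u := hu
    simp only
    rw [norm_mul, Complex.norm_real, Real.norm_of_nonneg (Real.exp_pos _).le]
    have h6 := h.lip (u / L) 0
    rw [sub_zero, abs_of_pos (by positivity)] at h6
    calc ‖G (u / L) - G 0‖ * Real.exp (-u ^ 2 / 2) ≤ Λ * (u / L) * Real.exp (-u ^ 2 / 2) :=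
          mul_le_mul_of_nonneg_right h6 (Real.exp_pos _).le
      _ = Λ / L * (u * Real.exp (-u ^ 2 / 2)) := by ring
      _ ≤ Λ / L * Real.exp (-(u - 0) ^ 2 / 4) := mul_le_mul_of_nonneg_left (uexp u) (by positivity)
  have h7 : ∫ u in Ioi (0 : ℝ), Λ / L * Real.exp (-(u - 0) ^ 2 / 4) ≤ Λ / L * (Real.sqrt 2 * r) := by
    rw [integral_const_mul, hr, ← g4_val 0]
    apply mul_le_mul_of_nonneg_left _ (by positivity)
    exact setIntegral_le_integral h4i (ae_of_all _ fun u => (Real.exp_pos _).le)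
  calc 2 / r * ‖∫ u in Ioi (0 : ℝ), (G (u / L) - G 0) * (Real.exp (-u ^ 2 / 2) : ℂ)‖ ≤
      2 / r * (Λ / L * (Real.sqrt 2 * r)) := by
        apply mul_le_mul_of_nonneg_left (h5.trans h7) (by positivity)
    _ = 2 * Real.sqrt 2 * (Λ / L) := by field_simp
    _ ≤ 4 * (Λ / L) := by
        apply mul_le_mul_of_nonneg_right _ (by positivity)
        have : Real.sqrt 2 ≤ 2 := by
          rw [Real.sqrt_le_left (by norm_num)]
          norm_num
        linarith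
    _ = _ := by ring

/-- **the explicit formula** -/
theorem xf (RH : RiemannHypothesis) : ∃ C T0 : ℝ, 0 < C ∧ 10 ≤ T0 ∧ ∀ T : ℝ, T0 ≤ T → ∀ t : ℝ,
    T + Real.log T ≤ t → t ≤ 2 * T - Real.log T → ∀ (κ M Λ : ℝ) (G : ℝ → ℂ), κ ≤ 1 → Bd κ M Λ G →
    |DS (fG G) T t + EG G T t - (G 0).re| ≤ C * (M + Λ) / Real.log T := by
  obtain ⟨C, T0, hC, hT0, h⟩ := LG.EFWm (Pool.Agent.TH800.MS.rhs_of RH)
  refine ⟨2 * C + 4, T0, by positivity, hT0, fun T hT t ht1 ht2 κ M Λ G hκ hG => ?_⟩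
  have hT1 : 1 < T := by linarith
  have hL : 0 < Real.log T := Real.log_pos hT1
  have hM := hG.M0
  have hΛ := hG.L0
  have h1 := h T hT t ht1 ht2 (WG T G) (2 * M / Real.log T) (WG_cont hG T) (fun u _ => WG_bd hG hT1 u)
  have h2 := main_lim hG hκ hT1
  have h3 : ‖zs T t (WG T G) + ps T t (WG T G) - G 0‖ ≤ C * (2 * M / Real.log T) + 4 * Λ / Real.log T := by
    have e : zs T t (WG T G) + ps T t (WG T G) - G 0 =
        (zs T t (WG T G) + ps T t (WG T G) - ((Real.log T / Real.sqrt (2 * Real.pi) : ℝ) : ℂ) *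
          ∫ u in (0 : ℝ)..Real.log T, WG T G u * (Real.exp (-u ^ 2 / 2) : ℂ)) +
        (((Real.log T / Real.sqrt (2 * Real.pi) : ℝ) : ℂ) *
          (∫ u in (0 : ℝ)..Real.log T, WG T G u * (Real.exp (-u ^ 2 / 2) : ℂ)) - G 0) := by ring
    rw [e]
    exact (norm_add_le _ _).trans (add_le_add h1 h2)
  have h4 := (Complex.abs_re_le_norm _).trans h3
  rw [Complex.sub_re, Complex.add_re, zs_DS RH G hT1] at h4
  refine h4.trans ?_
  rw [show C * (2 * M / Real.log T) + 4 * Λ / Real.log T = (2 * C * M + 4 * Λ) / Real.log T by ring]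
  apply div_le_div_of_nonneg_right _ hL.le
  have : 0 ≤ 4 * M + 2 * C * Λ := by positivity
  linarith

end

end Pool.Agent.K6.H57.MX
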