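import Pool.Agent.K6.H57.MX.Up
import Pool.Agent.K6.H57.MX.Xf

/-! # Tails of the prime sides -/

set_option autoImplicit false

open MeasureTheory Set Filter Topology
open scoped ContDiff NNReal

namespace Pool.Agent.K6.H57.MX

open Pool.Agent.K6.H57.ML
open SP (bt ps zs)
open Pool.Agent.R320.JL (PP nz PP_cont)

noncomputable section

lemma Rq_small {κ M Λ : ℝ} {G : ℝ → ℂ} (h : Bd κ M Λ G) (hκ0 : 0 < κ) (hκ : κ < 1 / 8) {δ : ℝ} (hδ : 0 < δ) :
    ∀ᶠ T in atTop, EX T (fun t => Rq T (WG T G) (XX κ T) t ^ 2) ≤ δ := by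
  obtain ⟨C, T0, hC, hT0, h3⟩ := ef3 κ hκ0 hκ
  have hM := h.M0
  have h1 : Tendsto (fun T : ℝ => C * (64 * M * (64 * M) + (64 * M) ^ 2) / Real.log T) atTop (𝓝 0) :=
    Real.tendsto_log_atTop.const_div_atTop _
  filter_upwards [h1.eventually_le_const hδ, eventually_ge_atTop T0, eventually_ge_atTop 10,
    logT_div.eventually_le_const (show (0 : ℝ) < 1 / 2 by norm_num)] with T g1 g2 g3 g4
  have hT : 0 < T := by linarith
  have hL1 := log3 (by linarith : (3 : ℝ) ≤ T)
  have hL : 0 < Real.log T := by linarith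
  have hb : ∀ n : ℕ, ‖bt T (WG T G) n‖ ≤ 64 * M / Real.log T / (1 + (Real.log n / Real.log T) ^ 2) :=
    fun n => btG h (by linarith) (by linarith) n
  have b1 : ∀ n : ℕ, ‖bt T (WG T G) n‖ ≤ 64 * M / Real.log T := fun n => (hb n).trans
    (div_le_self (by positivity) (by nlinarith [sq_nonneg (Real.log n / Real.log T)]))
  have b2 : ∀ n : ℕ, 1 ≤ n → Real.log n * ‖bt T (WG T G) n‖ ≤ 64 * M := by
    intro n hn
    have hln : 0 ≤ Real.log n := Real.log_nonneg (by exact_mod_cast hn)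
    refine (mul_le_mul_of_nonneg_left (hb n) hln).trans ?_
    have e : Real.log n * (64 * M / Real.log T / (1 + (Real.log n / Real.log T) ^ 2)) =
        64 * M * ((Real.log n / Real.log T) / (1 + (Real.log n / Real.log T) ^ 2)) := by
      field_simp
    rw [e]
    have : (Real.log n / Real.log T) / (1 + (Real.log n / Real.log T) ^ 2) ≤ 1 := by
      rw [div_le_one (by positivity)]
      nlinarith [sq_nonneg (Real.log n / Real.log T - 1)]
    calc _ ≤ 64 * M * 1 := mul_le_mul_of_nonneg_left this (by positivity)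
      _ = _ := mul_one _
  have h4 := h3 T g2 (WG T G) (64 * M / Real.log T) (64 * M) (by positivity) (by positivity) b1 b2
  have e1 : XX κ T = ⌊Real.exp (2 * (κ * Real.log T))⌋₊ := rfl
  rw [← e1] at h4
  have hint : Integrable (fun t => Rq T (WG T G) (XX κ T) t ^ 2) (volume.restrict (Ioc T (2 * T))) := by
    have := (((Rq_cont T (WG T G) (XX κ T)).pow 2).intervalIntegrable (μ := volume) T (2 * T))
    rwa [intervalIntegrable_iff_integrableOn_Ioc_of_le (by linarith)] at this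
  have hsub : Wd T ⊆ Ioc T (2 * T) := by
    intro t ht
    unfold Wd at ht
    rw [mem_Icc] at ht
    rw [mem_Ioc]
    constructor <;> linarith [ht.1, ht.2]
  have h5 : ∫ t in Wd T, Rq T (WG T G) (XX κ T) t ^ 2 ≤ ∫ t in T..(2 * T), Rq T (WG T G) (XX κ T) t ^ 2 := by
    rw [intervalIntegral.integral_of_le (by linarith)]
    exact setIntegral_mono_set hint (ae_of_all _ fun t => sq_nonneg _) hsub.eventuallyLE
  unfold EX
  rw [div_le_iff₀ hT]
  refine (h5.trans h4).trans ?_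
  have e2 : C * (T * (64 * M / Real.log T * (64 * M) + (64 * M / Real.log T) ^ 2)) ≤
      C * (64 * M * (64 * M) + (64 * M) ^ 2) / Real.log T * T := by
    have e3 : (64 * M / Real.log T) ^ 2 ≤ (64 * M) ^ 2 / Real.log T := by
      rw [div_pow, sq (Real.log T)]
      apply div_le_div_of_nonneg_left (by positivity) hL
      nlinarith
    have e4 : C * (64 * M * (64 * M) + (64 * M) ^ 2) / Real.log T * T =
        C * (T * (64 * M / Real.log T * (64 * M) + (64 * M) ^ 2 / Real.log T)) := by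
      field_simp
    rw [e4]
    gcongr
  exact e2.trans (mul_le_mul_of_nonneg_right g1 hT.le)

lemma EG_near {κ M Λ : ℝ} {G : ℝ → ℂ} (h : Bd κ M Λ G) (hκ0 : 0 < κ) : ∃ C : ℝ, 0 < C ∧
    ∀ T : ℝ, 10 ≤ T → ∀ t : ℝ, |EG G T t - PG κ G T t| ≤ Rq T (WG T G) (XX κ T) t + C / Real.log T := by
  obtain ⟨C, hC, h2⟩ := ef2 κ hκ0
  have hM := h.M0
  refine ⟨C * (2 * M) + 1, by positivity, fun T hT t => ?_⟩
  have hT1 : 1 < T := by linarith
  have hL : 0 < Real.log T := Real.log_pos hT1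
  have h3 := h2 T hT (WG T G) (2 * M / Real.log T) (fun u _ => WG_bd h hT1 u) (fun u hu => WG_zero h hT1 hu) t
  have h4 : |EG G T t - PG κ G T t| ≤ ‖ps T t (WG T G) - PP (zp T (WG T G)) ⌊Real.exp (2 * (κ * Real.log T))⌋₊ t‖ := by
    unfold EG PG
    rw [← Complex.sub_re]
    exact Complex.abs_re_le_norm _
  refine (h4.trans h3).trans ?_
  apply add_le_add le_rfl
  rw [mul_div_assoc']
  apply div_le_div_of_nonneg_right _ hL.le
  linarith

/-- **the prime side and the prime polynomial** -/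
theorem EG_PG {κ M Λ : ℝ} {G : ℝ → ℂ} (h : Bd κ M Λ G) (hκ0 : 0 < κ) (hκ : κ < 1 / 8) {x δ : ℝ}
    (hx : 0 < x) (hδ : 0 < δ) : ∀ᶠ T in atTop, Pb T {t | x ≤ |EG G T t - PG κ G T t|} ≤ δ := by
  obtain ⟨C, hC, h1⟩ := EG_near h hκ0
  have h2 := Rq_small h hκ0 hκ (show 0 < δ * (x / 2) ^ 2 by positivity)
  have h3 : Tendsto (fun T : ℝ => C / Real.log T) atTop (𝓝 0) := Real.tendsto_log_atTop.const_div_atTop _
  filter_upwards [h2, h3.eventually_le_const (show 0 < x / 2 by positivity), eventually_ge_atTop 10]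
    with T g2 g3 g4
  have hT : 0 < T := by linarith
  have n1 : Nc T (fun t => Rq T (WG T G) (XX κ T) t ^ 2) := Nc.of_cont ((Rq_cont _ _ _).pow 2)
  have h4 : Pb T {t | x ≤ |EG G T t - PG κ G T t|} ≤
      EX T (fun t => Rq T (WG T G) (XX κ T) t ^ 2) / (x / 2) ^ 2 := by
    refine le_trans ?_ (Pb_markov hT n1 (fun t _ => sq_nonneg _) (by positivity))
    apply Pb_mono hT
    intro t _ ht
    have ht2 : x ≤ |EG G T t - PG κ G T t| := ht
    show (x / 2) ^ 2 ≤ Rq T (WG T G) (XX κ T) t ^ 2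
    have := h1 T g4 t
    apply pow_le_pow_left₀ (by positivity)
    linarith
  refine h4.trans ?_
  rw [div_le_iff₀ (by positivity)]
  exact g2

lemma mu_le (a : ℕ) : mu a ≤ (a : ℝ) ^ a := by
  unfold mu
  have h1 := Nat.factorial_mul_descFactorial (n := 2 * a) (k := a) (by omega)
  have h2 : 2 * a - a = a := by omega
  rw [h2] at h1
  have h3 := Nat.descFactorial_le_pow (2 * a) a
  rw [div_le_iff₀ (by positivity)]
  have h4 : (2 * a).factorial ≤ a.factorial * (2 * a) ^ a := by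
    rw [← h1]
    exact Nat.mul_le_mul_left _ h3
  have h5 : ((2 * a).factorial : ℝ) ≤ a.factorial * (2 * a) ^ a := by exact_mod_cast h4
  refine h5.trans (le_of_eq ?_)
  rw [mul_pow]
  ring

/-- **tails of the prime polynomial** -/
theorem PG_tail {κ M Λ : ℝ} {G : ℝ → ℂ} (h : Bd κ M Λ G) (hκ0 : 0 < κ) (a : ℕ)
    (ha : 8 * κ * a ≤ 1) (hκ : κ ≤ 1 / 4) {x δ V : ℝ} (hx : 0 < x) (hδ : 0 < δ) (hV : Vr G ≤ V) :
    ∀ᶠ T in atTop, Pb T {t | x ≤ |PG κ G T t|} ≤ (a * V / x ^ 2) ^ a + δ := by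
  have h1 := EX_mom h hκ0 hκ (2 * a) (by push_cast; linarith)
  rw [gmo_even] at h1
  have hV0 := Vr_nonneg G
  have h2 := h1.eventually_le_const (show mu a * Vr G ^ a < mu a * Vr G ^ a + δ * x ^ (2 * a) by
    have : 0 < δ * x ^ (2 * a) := by positivity
    linarith)
  filter_upwards [h2, eventually_gt_atTop 0] with T g2 hT
  have n1 : Nc T (fun t => PG κ G T t ^ (2 * a)) := Nc.of_cont ((PG_cont _ _ _).pow _)
  have h4 : Pb T {t | x ≤ |PG κ G T t|} ≤ EX T (fun t => PG κ G T t ^ (2 * a)) / x ^ (2 * a) := by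
    refine le_trans ?_ (Pb_markov hT n1 (fun t _ => by
      rw [pow_mul]
      positivity) (by positivity))
    apply Pb_mono hT
    intro t _ ht
    have ht2 : x ≤ |PG κ G T t| := ht
    show x ^ (2 * a) ≤ PG κ G T t ^ (2 * a)
    have e : PG κ G T t ^ (2 * a) = |PG κ G T t| ^ (2 * a) := by
      rw [pow_mul, pow_mul, sq_abs]
    rw [e]
    exact pow_le_pow_left₀ hx.le ht2 _
  refine h4.trans ?_
  rw [div_le_iff₀ (by positivity)]
  refine g2.trans ?_
  rw [add_mul]
  apply add_le_add _ le_rfl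
  have e2 : (a * V / x ^ 2) ^ a * x ^ (2 * a) = (a : ℝ) ^ a * V ^ a := by
    rw [pow_mul, ← mul_pow, div_mul_cancel₀ _ (by positivity), mul_pow]
  rw [e2]
  exact mul_le_mul (mu_le a) (pow_le_pow_left₀ hV0 hV a) (by positivity) (by positivity)

/-- **tails of the prime side** -/
theorem EG_tail {κ M Λ : ℝ} {G : ℝ → ℂ} (h : Bd κ M Λ G) (hκ0 : 0 < κ) (a : ℕ)
    (ha : 8 * κ * a ≤ 1) (hκ : κ < 1 / 8) {x δ V : ℝ} (hx : 0 < x) (hδ : 0 < δ) (hV : Vr G ≤ V) :
    ∀ᶠ T in atTop, Pb T {t | x ≤ |EG G T t|} ≤ (4 * a * V / x ^ 2) ^ a + δ := by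
  filter_upwards [PG_tail h hκ0 a ha (by linarith) (show 0 < x / 2 by positivity) (show 0 < δ / 2 by positivity) hV,
    EG_PG h hκ0 hκ (show 0 < x / 2 by positivity) (show 0 < δ / 2 by positivity), eventually_gt_atTop 0]
    with T g1 g2 hT
  have h1 : Pb T {t | x ≤ |EG G T t|} ≤ Pb T ({t | x / 2 ≤ |PG κ G T t|} ∪ {t | x / 2 ≤ |EG G T t - PG κ G T t|}) := by
    apply Pb_mono hT
    intro t _ ht
    have ht2 : x ≤ |EG G T t| := ht
    rcases le_or_gt (x / 2) |PG κ G T t| with h2 | h2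
    · exact Or.inl h2
    · right
      show x / 2 ≤ |EG G T t - PG κ G T t|
      have h3 := abs_sub_abs_le_abs_sub (EG G T t) (PG κ G T t)
      linarith
  refine h1.trans ((Pb_union hT _ _).trans ?_)
  have e : (a * V / (x / 2) ^ 2) ^ a = (4 * a * V / x ^ 2) ^ a := by
    congr 1
    field_simp
    ring
  rw [e] at g1
  linarith

end

end Pool.Agent.K6.H57.MX
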