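import Pool.Agent.K6.H57.MX.Sp

/-! # The maximum of the multiscale field -/

set_option autoImplicit false

open MeasureTheory Set Filter Topology
open scoped ContDiff NNReal

namespace Pool.Agent.K6.H57.MX

open Pool.Agent.K6.H57.ML

noncomputable section

variable {K m : ℕ} {η : ℝ}

lemma log_tendsto : Tendsto (fun m : ℕ => Real.log (m : ℝ)) atTop atTop :=
  Real.tendsto_log_atTop.comp tendsto_natCast_atTop_atTop

lemma exp_small (A c δ : ℝ) (hc : 0 < c) (hδ : 0 < δ) : ∀ᶠ m : ℕ in atTop,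
    A * Real.exp (-(c * Real.log (m : ℝ))) ≤ δ := by
  have h1 : Tendsto (fun m : ℕ => c * Real.log (m : ℝ)) atTop atTop := log_tendsto.const_mul_atTop hc
  have h2 : Tendsto (fun m : ℕ => A * Real.exp (-(c * Real.log (m : ℝ)))) atTop (𝓝 (A * 0)) :=
    (Real.tendsto_exp_neg_atTop_nhds_zero.comp h1).const_mul A
  rw [mul_zero] at h2
  exact h2.eventually_le_const hδ

/-- **the lower bound for the maximum** -/
theorem Zlow0 (K : ℕ) (hK : 8 ≤ K) {σ ε δ : ℝ} (hσ : σ ^ 2 = 1) (hε : 0 < ε) (hε1 : ε < 1) (hδ : 0 < δ) :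
    ∀ᶠ m : ℕ in atTop, ∀ᶠ T in atTop, 1 - δ ≤ Pb T {t | ∃ u ∈ Finset.Icc 1 m,
      (1 - ε) * (2 * Real.pi) * V0 K m ≤ σ * ZZ K m u 0 T t} := by
  obtain ⟨C1, hC1, hC⟩ := Cv_far
  have hKR : (8 : ℝ) ≤ K := by exact_mod_cast hK
  obtain ⟨η, hη⟩ : ∃ η : ℝ, η = min (δ / 18) (1 / 3) := ⟨_, rfl⟩
  have hη0 : 0 < η := by rw [hη]; positivity
  have hη3 : η ≤ 1 / 3 := by rw [hη]; exact min_le_right _ _
  have hηδ : 18 * η ≤ δ := by
    have : η ≤ δ / 18 := by rw [hη]; exact min_le_left _ _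
    linarith
  have e1 := exp_small (2 * K * Real.exp 1) (1 / (10 * K ^ 2)) η (by positivity) hη0
  have e2 := exp_small 2 (ε ^ 2 * (3 / 8)) η (by positivity) hη0
  have e3 := exp_small (40 * C1) (1 / K) η (by positivity) hη0
  have e4 := exp_small (6 * K * Real.exp (3 + 40 * C1)) (2 / K) η (by positivity) hη0
  filter_upwards [Big_ev K hK hη0, e1, e2, e3, e4, log_tendsto.eventually_ge_atTop (160 * C1)]
    with m h g1 g2 g3 g4 g5
  have := second h hη0 hη3 hσ hε hε1 (by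
    refine le_trans (le_of_eq ?_) g1
    rw [mul_assoc (2 * (K : ℝ)), ← Real.exp_add]
    congr 2
    ring) (by
    refine le_trans (le_of_eq ?_) g2
    congr 2
    ring) hC1 g5 hC (by
    refine le_trans (le_of_eq ?_) g3
    congr 2
    ring) (by
    refine le_trans (le_of_eq ?_) g4
    rw [mul_assoc (6 * (K : ℝ)), ← Real.exp_add]
    congr 2
    ring)
  filter_upwards [this] with T hT
  linarith

/-- the logarithm of the smallest scale is negligible -/
lemma s1_small (ε : ℝ) (hε : 0 < ε) : ∀ᶠ m : ℕ in atTop, Real.log (s1 m) + Real.log 2 ≤ ε * Real.log m := by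
  have h1 : (fun x : ℝ => Real.log (40000 * x)) =o[atTop] fun x : ℝ => x := by
    have h2 := Real.isLittleO_log_id_atTop.comp_tendsto (tendsto_id.const_mul_atTop (show (0 : ℝ) < 40000 by norm_num))
    have h3 : (fun x : ℝ => 40000 * x) =O[atTop] fun x : ℝ => x :=
      (Asymptotics.isBigO_refl _ _).const_mul_left _
    exact h2.trans_isBigO h3
  have h2 := h1.bound hε
  have h3 := log_tendsto.eventually h2
  filter_upwards [h3, log_tendsto.eventually_ge_atTop 1] with m hm hm1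
  rw [Real.norm_of_nonneg (by linarith : (0 : ℝ) ≤ Real.log m)] at hm
  have h4 := (le_abs_self _).trans hm
  unfold s1
  rw [← Real.log_mul (by positivity) (by norm_num)]
  refine le_trans (le_of_eq ?_) h4
  congr 1
  ring

/-- **the maximum is large** -/
theorem Zlow (K : ℕ) (hK : 8 ≤ K) {σ ε δ : ℝ} (hσ : σ ^ 2 = 1) (hε : 0 < ε) (hKε : 8 / (K : ℝ) ≤ ε)
    (hδ : 0 < δ) :
    ∀ᶠ m : ℕ in atTop, ∀ᶠ T in atTop, 1 - δ ≤ Pb T {t | ∃ u ∈ Finset.Icc 1 m,
      (1 / Real.pi - ε) * Real.log m ≤ σ * ZZ K m u 0 T t} := by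
  have hKR : (8 : ℝ) ≤ K := by exact_mod_cast hK
  have hpi := Real.pi_pos
  have hpi3 := Real.pi_gt_three
  obtain ⟨e, he⟩ : ∃ e : ℝ, e = min (ε / 2) (1 / 2) := ⟨_, rfl⟩
  have he0 : 0 < e := by rw [he]; positivity
  have he1 : e < 1 := by rw [he]; exact lt_of_le_of_lt (min_le_right _ _) (by norm_num)
  have he2 : e ≤ ε / 2 := by rw [he]; exact min_le_left _ _
  filter_upwards [Zlow0 K hK hσ he0 he1 hδ, s1_small (ε / 2) (by positivity),
    Big_ev K hK (show (0 : ℝ) < 1 by norm_num)] with m h1 h2 h3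
  filter_upwards [h1, eventually_gt_atTop 0] with T hT hT0
  refine hT.trans ?_
  apply Pb_mono hT0
  rintro t - ⟨u, hu, htu⟩
  refine ⟨u, hu, le_trans ?_ htu⟩
  -- the numerical inequality
  have hl := h3.l1
  have hs := h3.s1ge
  have hv := Vr_lo (a := s1 m) (b := rp K m) (by linarith) h3.s1_rp
  have hrl := h3.rp_log
  rw [Real.log_div h3.rp_pos.ne' (by linarith), hrl] at hv
  have hcast : ((K - 4 : ℕ) : ℝ) * (Real.log m / K) = Real.log m - 4 / K * Real.log m := by
    rw [Nat.cast_sub (by omega)]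
    push_cast
    field_simp
  rw [hcast] at hv
  have h4 : 4 / (K : ℝ) ≤ ε / 2 := by
    have : 8 / (K : ℝ) = 2 * (4 / K) := by ring
    linarith
  have h5 : Real.log m * (1 - ε) ≤ Real.log m - 4 / K * Real.log m - Real.log (s1 m) - Real.log 2 := by
    have : 4 / (K : ℝ) * Real.log m ≤ ε / 2 * Real.log m := mul_le_mul_of_nonneg_right h4 (by linarith)
    linarith
  have h6 : 1 / (2 * Real.pi ^ 2) * (Real.log m * (1 - ε)) ≤ V0 K m := by
    refine le_trans ?_ hv
    exact mul_le_mul_of_nonneg_left h5 (by positivity)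
  have h7 : 1 / Real.pi * (Real.log m * (1 - ε)) ≤ 2 * Real.pi * V0 K m := by
    have := mul_le_mul_of_nonneg_left h6 (show 0 ≤ 2 * Real.pi by positivity)
    refine le_trans (le_of_eq ?_) this
    field_simp
  have h8 : (1 - e) * (1 / Real.pi * (Real.log m * (1 - ε))) ≤ (1 - e) * (2 * Real.pi * V0 K m) :=
    mul_le_mul_of_nonneg_left h7 (by linarith)
  have h9 : (1 / Real.pi - ε) * Real.log m ≤ (1 - e) * (1 / Real.pi * (Real.log m * (1 - ε))) := by
    have h10 : (1 - e) * (1 / Real.pi * (Real.log m * (1 - ε))) - (1 / Real.pi - ε) * Real.log m =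
        (ε - (e + ε - e * ε) / Real.pi) * Real.log m := by
      field_simp
      ring
    have h11 : 0 ≤ ε - (e + ε - e * ε) / Real.pi := by
      rw [sub_nonneg, div_le_iff₀ hpi]
      nlinarith
    have := mul_nonneg h11 (by linarith : (0 : ℝ) ≤ Real.log m)
    linarith
  linarith

/-- **the maximum is not too large** -/
theorem Zup (K : ℕ) (hK : 8 ≤ K) {ε δ : ℝ} (hε : 0 < ε) (hδ : 0 < δ) :
    ∀ᶠ m : ℕ in atTop, ∀ᶠ T in atTop, Pb T {t | ∃ u ∈ Finset.Icc 1 m,
      (1 / Real.pi + ε) * Real.log m < |ZZ K m u 0 T t|} ≤ δ := by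
  have hKR : (8 : ℝ) ≤ K := by exact_mod_cast hK
  have hpi := Real.pi_pos
  have hpi3 := Real.pi_gt_three
  obtain ⟨η, hη⟩ : ∃ η : ℝ, η = min (δ / 6) (1 / 3) := ⟨_, rfl⟩
  have hη0 : 0 < η := by rw [hη]; positivity
  have hη3 : η ≤ 1 / 3 := by rw [hη]; exact min_le_right _ _
  have hηδ : 6 * η ≤ δ := by
    have : η ≤ δ / 6 := by rw [hη]; exact min_le_left _ _
    linarith
  filter_upwards [Big_ev K hK hη0, exp_small 4 (2 * Real.pi * ε) η (by positivity) hη0] with m h g1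
  have hl := h.l1
  have hm2 := h.m2
  -- the bulk
  have hmem : (1 : ℕ) ∈ Finset.Icc 1 m := by
    rw [Finset.mem_Icc]
    refine ⟨le_rfl, ?_⟩
    have : (1 : ℝ) ≤ m := by linarith
    exact_mod_cast this
  have L0 := lapA h hη0 hη3 hmem (Nat.zero_le (K - 4)) 0 0 (by norm_num) (by
    norm_num
    linarith)
  have L1 : ∀ σ : ℝ, σ ^ 2 = 1 → ∀ᶠ T in atTop, ∀ u ∈ Finset.Icc 1 m,
      EX T ((BB K m T).indicator fun t => Real.exp (σ * (2 * Real.pi) * ZZ K m u 0 T t + 0 * ZZ K m u 0 T t)) ≤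
        (1 + 3 * η) * Real.exp (Real.log m) := by
    intro σ hσ
    rw [Filter.eventually_all_finset]
    intro u hu
    have hpq := pi_sq10
    have hV0 := h.V0up
    have hV00 : 0 ≤ V0 K m := Vr_nonneg _
    have hσ1 : |σ| = 1 := by
      have : |σ| ^ 2 = 1 := by rw [sq_abs, hσ]
      nlinarith [abs_nonneg σ]
    have hpi4 := Real.pi_lt_d2
    have eVV : Vr (Gp (s1 m) (rp K m)) = V0 K m := rfl
    have L := lapA h hη0 hη3 hu (Nat.zero_le (K - 4)) (σ * (2 * Real.pi)) 0 (by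
      rw [abs_mul σ, hσ1, abs_of_pos (by positivity), abs_zero]
      linarith) (by
      rw [eVV]
      have e : (σ * (2 * Real.pi)) ^ 2 = 4 * Real.pi ^ 2 := by rw [mul_pow, hσ]; ring
      rw [e]
      nlinarith)
    have eL1 : ((σ * (2 * Real.pi)) ^ 2 * Vr (Gp (s1 m) (rp K m)) + 2 * (σ * (2 * Real.pi)) * 0 *
        Cv (Sh u (Gp (s1 m) (rp K m))) (Sh u (Gp (lv K m 0) (rp K m))) + 0 ^ 2 * Vr (Gp (lv K m 0) (rp K m))) / 2 =
        2 * Real.pi ^ 2 * V0 K m := by
      rw [eVV, mul_pow, hσ]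
      ring
    rw [eL1] at L
    filter_upwards [L] with T hT
    refine hT.2.trans ?_
    apply mul_le_mul_of_nonneg_left (Real.exp_le_exp.2 _) (by linarith)
    have h1 := h.Vlog (j := 0) (Nat.zero_le _)
    rw [lv_zero] at h1
    have h2 := mul_le_mul_of_nonneg_left h1 (show 0 ≤ 2 * Real.pi ^ 2 by positivity)
    refine h2.trans (le_of_eq ?_)
    field_simp
  filter_upwards [L0, L1 1 (by norm_num), L1 (-1) (by norm_num), eventually_ge_atTop 1] with T t0 t1 t2 hT1
  have hT : 0 < T := by linarith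
  have hBm := BB_meas K m T
  -- the complement of the bulk
  have hBc : Pb T (BB K m T)ᶜ ≤ 3 * η := by
    have h1 := t0.1
    simp only [zero_mul, add_zero, Real.exp_zero] at h1
    norm_num at h1
    rw [EX_ind hBm] at h1
    have h2 : Pb T (BB K m T) + Pb T (BB K m T)ᶜ ≤ 1 := by
      rw [← EX_ind hBm, ← EX_ind hBm.compl, ← EX_add ((Nc.const T 1).ind hBm) ((Nc.const T 1).ind hBm.compl)]
      refine le_trans (le_of_eq ?_) (EX_one_le hT1)
      congr 1
      funext t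
      by_cases ht : t ∈ BB K m T
      · have : t ∉ (BB K m T)ᶜ := fun h => h ht
        rw [indicator_of_mem ht, indicator_of_notMem this, add_zero]
      · have : t ∈ (BB K m T)ᶜ := ht
        rw [indicator_of_notMem ht, indicator_of_mem this, zero_add]
    linarith
  obtain ⟨x, hx⟩ : ∃ x : ℝ, x = (1 / Real.pi + ε) * Real.log m := ⟨_, rfl⟩
  rw [← hx]
  have hone : ∀ σ : ℝ, (∀ u ∈ Finset.Icc 1 m, EX T ((BB K m T).indicator fun t =>
      Real.exp (σ * (2 * Real.pi) * ZZ K m u 0 T t + 0 * ZZ K m u 0 T t)) ≤ (1 + 3 * η) * Real.exp (Real.log m)) →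
      ∀ u ∈ Finset.Icc 1 m, Pb T {t | t ∈ BB K m T ∧ x < σ * ZZ K m u 0 T t} ≤
        2 * Real.exp (-(2 * Real.pi * ε * Real.log m)) / m := by
    intro σ hσ u hu
    have z := ZZ_cont K m u 0 T
    have n1 : Nc T ((BB K m T).indicator fun t =>
      Real.exp (σ * (2 * Real.pi) * ZZ K m u 0 T t + 0 * ZZ K m u 0 T t)) := (Nc.of_cont (by fun_prop)).ind hBm
    have h1 : Pb T {t | t ∈ BB K m T ∧ x < σ * ZZ K m u 0 T t} ≤
        EX T ((BB K m T).indicator fun t =>
      Real.exp (σ * (2 * Real.pi) * ZZ K m u 0 T t + 0 * ZZ K m u 0 T t)) / Real.exp (2 * Real.pi * x) := by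
      refine le_trans ?_ (Pb_markov hT n1 (fun t _ => indicator_nonneg (fun _ _ => (Real.exp_pos _).le) _)
        (Real.exp_pos _))
      apply Pb_mono hT
      rintro t - ⟨ht1, ht2⟩
      show Real.exp (2 * Real.pi * x) ≤ (BB K m T).indicator (fun t =>
        Real.exp (σ * (2 * Real.pi) * ZZ K m u 0 T t + 0 * ZZ K m u 0 T t)) t
      rw [indicator_of_mem ht1]
      apply Real.exp_le_exp.2
      have := mul_le_mul_of_nonneg_left ht2.le (show 0 ≤ 2 * Real.pi by positivity)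
      linarith
    refine h1.trans ?_
    rw [div_le_iff₀ (Real.exp_pos _)]
    refine (hσ u hu).trans ?_
    have e5 : 2 * Real.exp (-(2 * Real.pi * ε * Real.log m)) / m * Real.exp (2 * Real.pi * x) =
        2 * Real.exp (Real.log m) := by
      have e6 : Real.exp (2 * Real.pi * x) = Real.exp (2 * Real.pi * ε * Real.log m) * (Real.exp (Real.log m) * m) := by
        have e7 : 2 * Real.pi * x = 2 * Real.pi * ε * Real.log m + (Real.log m + Real.log m) := by
          rw [hx]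
          field_simp
          ring
        rw [e7, Real.exp_add, Real.exp_add, h.explog]
      rw [e6, Real.exp_neg]
      have : (m : ℝ) ≠ 0 := by linarith
      have : Real.exp (2 * Real.pi * ε * Real.log m) ≠ 0 := (Real.exp_pos _).ne'
      field_simp
    rw [e5]
    apply mul_le_mul_of_nonneg_right (by linarith) (Real.exp_pos _).le
  have hsum : ∀ σ : ℝ, (∀ u ∈ Finset.Icc 1 m, EX T ((BB K m T).indicator fun t =>
      Real.exp (σ * (2 * Real.pi) * ZZ K m u 0 T t + 0 * ZZ K m u 0 T t)) ≤ (1 + 3 * η) * Real.exp (Real.log m)) →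
      Pb T {t | ∃ u ∈ Finset.Icc 1 m, t ∈ {t | t ∈ BB K m T ∧ x < σ * ZZ K m u 0 T t}} ≤ η / 2 := by
    intro σ hσ
    refine (Pb_biUnion hT _ _).trans ?_
    refine (Finset.sum_le_sum fun u hu => hone σ hσ u hu).trans ?_
    rw [Finset.sum_const, Nat.card_Icc, Nat.add_sub_cancel, nsmul_eq_mul, mul_div_cancel₀ _ (by linarith)]
    linarith
  have hcov : Pb T {t | ∃ u ∈ Finset.Icc 1 m, x < |ZZ K m u 0 T t|} ≤
      Pb T ((BB K m T)ᶜ ∪ ({t | ∃ u ∈ Finset.Icc 1 m, t ∈ {t | t ∈ BB K m T ∧ x < 1 * ZZ K m u 0 T t}} ∪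
        {t | ∃ u ∈ Finset.Icc 1 m, t ∈ {t | t ∈ BB K m T ∧ x < -1 * ZZ K m u 0 T t}})) := by
    apply Pb_mono hT
    rintro t - ⟨u, hu, htu⟩
    by_cases ht : t ∈ BB K m T
    · right
      rcases lt_abs.1 htu with h1 | h1
      · left
        exact ⟨u, hu, ht, by rw [one_mul]; exact h1⟩
      · right
        exact ⟨u, hu, ht, by rw [neg_one_mul]; exact h1⟩
    · left
      exact ht
  refine hcov.trans ((Pb_union hT _ _).trans ?_)
  have h1 := hsum 1 t1
  have h2 := hsum (-1) t2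
  have h3 := Pb_union hT {t | ∃ u ∈ Finset.Icc 1 m, t ∈ {t | t ∈ BB K m T ∧ x < 1 * ZZ K m u 0 T t}}
        {t | ∃ u ∈ Finset.Icc 1 m, t ∈ {t | t ∈ BB K m T ∧ x < -1 * ZZ K m u 0 T t}}
  linarith

end

end Pool.Agent.K6.H57.MX
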