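import Pool.Agent.K6.H57.MX.Lb

/-! # The bands and their covariances -/

set_option autoImplicit false

open MeasureTheory Set Filter Topology
open scoped ContDiff NNReal

namespace Pool.Agent.K6.H57.MX

open Pool.Agent.K6.H57.ML

noncomputable section

/-! ### Lipschitz functions -/

lemma lip_div {g : ℝ → ℝ} {L r : ℝ} (hr : 0 < r) (hg : ∀ x y, |g x - g y| ≤ L * |x - y|)
    (hb : ∀ x, |g x| ≤ 1) (h0 : ∀ x, |x| < r → g x = 0) (x y : ℝ) :
    |g x / x - g y / y| ≤ (L / r + 1 / r ^ 2) * |x - y| := by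
  have hL : 0 ≤ L := by
    have := hg 1 0
    rw [sub_zero, abs_one, mul_one] at this
    exact (abs_nonneg _).trans this
  have hxy := abs_nonneg (x - y)
  have key : ∀ x y : ℝ, r ≤ |x| → |y| < r → |g x / x - g y / y| ≤ (L / r + 1 / r ^ 2) * |x - y| := by
    intro x y hx hy
    have h1 := hg x y
    rw [h0 y hy, sub_zero] at h1
    rw [h0 y hy, zero_div, sub_zero, abs_div]
    calc |g x| / |x| ≤ (L * |x - y|) / r := by
          apply div_le_div₀ (by positivity) h1 hr hx
      _ = L / r * |x - y| := by ring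
      _ ≤ _ := by
          apply mul_le_mul_of_nonneg_right _ (abs_nonneg _)
          have : 0 ≤ 1 / r ^ 2 := by positivity
          linarith
  rcases lt_or_ge |x| r with hx | hx
  · rcases lt_or_ge |y| r with hy | hy
    · rw [h0 x hx, h0 y hy]
      simp only [zero_div, sub_zero, abs_zero]
      positivity
    · rw [abs_sub_comm, abs_sub_comm x y]
      exact key y x hy hx
  · rcases lt_or_ge |y| r with hy | hy
    · exact key x y hx hy
    · have hx0 : x ≠ 0 := by
        intro h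
        rw [h, abs_zero] at hx
        linarith
      have hy0 : y ≠ 0 := by
        intro h
        rw [h, abs_zero] at hy
        linarith
      have e : g x / x - g y / y = (g x - g y) / x + g y * (y - x) / (x * y) := by
        field_simp
        ring
      rw [e]
      refine (abs_add_le _ _).trans ?_
      rw [abs_div, abs_div, abs_mul, abs_mul, abs_sub_comm y x, add_mul]
      apply add_le_add
      · calc |g x - g y| / |x| ≤ (L * |x - y|) / r := div_le_div₀ (by positivity) (hg x y) hr hx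
          _ = L / r * |x - y| := by ring
      · calc |g y| * |x - y| / (|x| * |y|) ≤ (1 * |x - y|) / (r * r) := by
              apply div_le_div₀ (by positivity) _ (by positivity) (mul_le_mul hx hy hr.le (by linarith))
              exact mul_le_mul_of_nonneg_right (hb y) (abs_nonneg _)
          _ = _ := by rw [one_mul, sq]; ring

/-- the difference of cutoffs -/
def dc (a b ξ : ℝ) : ℝ := chi (a * ξ) - chi (b * ξ)

lemma dc_bd (a b ξ : ℝ) : |dc a b ξ| ≤ 1 := by
  unfold dc
  rw [abs_le]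
  have h1 := chi_nonneg (a * ξ)
  have h2 := chi_le (a * ξ)
  have h3 := chi_nonneg (b * ξ)
  have h4 := chi_le (b * ξ)
  constructor <;> linarith

lemma dc_low {a b ξ : ℝ} (ha : 0 < a) (hab : a ≤ b) (h : |ξ| ≤ 1 / (2 * b)) : dc a b ξ = 0 := by
  unfold dc
  have hb : 0 < b := by linarith
  have h1 : |b * ξ| ≤ 1 / 2 := by
    rw [abs_mul, abs_of_pos hb]
    calc b * |ξ| ≤ b * (1 / (2 * b)) := mul_le_mul_of_nonneg_left h hb.le
      _ = 1 / 2 := by field_simp
  have h2 : |a * ξ| ≤ 1 / 2 := by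
    rw [abs_mul, abs_of_pos ha]
    rw [abs_mul, abs_of_pos hb] at h1
    exact (mul_le_mul_of_nonneg_right hab (abs_nonneg _)).trans h1
  rw [chi_one h1, chi_one h2, sub_self]

lemma dc_high {a b ξ : ℝ} (ha : 0 < a) (hab : a ≤ b) (h : 1 / a ≤ |ξ|) : dc a b ξ = 0 := by
  unfold dc
  have hb : 0 < b := by linarith
  have h1 : 1 ≤ |a * ξ| := by
    rw [abs_mul, abs_of_pos ha]
    calc 1 = a * (1 / a) := by field_simp
      _ ≤ _ := mul_le_mul_of_nonneg_left h ha.le
  have h2 : 1 ≤ |b * ξ| := by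
    rw [abs_mul, abs_of_pos hb]
    rw [abs_mul, abs_of_pos ha] at h1
    exact h1.trans (mul_le_mul_of_nonneg_right hab (abs_nonneg _))
  rw [chi_zero h1, chi_zero h2, sub_self]

/-- the Lipschitz constant of the cutoff -/
lemma chiL : ∃ C : ℝ, 0 < C ∧ ∀ x y, |chi x - chi y| ≤ C * |x - y| := chi_lip

lemma dc_lip {C : ℝ} (hC : ∀ x y, |chi x - chi y| ≤ C * |x - y|) {a b : ℝ} (ha : 0 < a) (hab : a ≤ b)
    (x y : ℝ) : |dc a b x - dc a b y| ≤ C * (a + b) * |x - y| := by
  have h1 := hC (a * x) (a * y)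
  have h2 := hC (b * x) (b * y)
  have hb : 0 < b := by linarith
  rw [← mul_sub, abs_mul, abs_of_pos ha] at h1
  rw [← mul_sub, abs_mul, abs_of_pos hb] at h2
  unfold dc
  have e : chi (a * x) - chi (b * x) - (chi (a * y) - chi (b * y)) =
      (chi (a * x) - chi (a * y)) - (chi (b * x) - chi (b * y)) := by ring
  rw [e]
  refine (abs_sub _ _).trans ?_
  nlinarith

/-- the band -/
def Gp (a b ξ : ℝ) : ℂ := -Complex.I * ((dc a b ξ / (2 * Real.pi * ξ) : ℝ) : ℂ)

/-- the frequency shift -/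
def Sh (u : ℝ) (G : ℝ → ℂ) (ξ : ℝ) : ℂ := Complex.exp (((-(2 * Real.pi * u * ξ) : ℝ) : ℂ) * Complex.I) * G ξ

lemma expI_norm (x : ℝ) : ‖Complex.exp ((x : ℂ) * Complex.I)‖ = 1 := Complex.norm_exp_ofReal_mul_I x

lemma expI_lip (x y : ℝ) : ‖Complex.exp ((x : ℂ) * Complex.I) - Complex.exp ((y : ℂ) * Complex.I)‖ ≤ |x - y| := by
  have e : Complex.exp ((x : ℂ) * Complex.I) - Complex.exp ((y : ℂ) * Complex.I) =
      Complex.exp ((y : ℂ) * Complex.I) * (Complex.exp (Complex.I * ((x - y : ℝ) : ℂ)) - 1) := by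
    rw [mul_sub, mul_one, ← Complex.exp_add]
    congr 2
    push_cast
    ring
  rw [e, norm_mul, expI_norm, one_mul]
  have := Real.norm_exp_I_mul_ofReal_sub_one_le (x := x - y)
  rwa [Real.norm_eq_abs] at this

lemma Bd.sh {κ M Λ : ℝ} {G : ℝ → ℂ} (h : Bd κ M Λ G) (u : ℝ) :
    Bd κ M (Λ + 2 * Real.pi * |u| * M) (Sh u G) := by
  have hM := h.M0
  have hpi := Real.pi_pos
  refine ⟨fun ξ => ?_, fun ξ η => ?_, fun ξ hξ => ?_⟩
  · unfold Sh
    rw [norm_mul, expI_norm, one_mul]
    exact h.bd ξ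
  · unfold Sh
    have e : Complex.exp (((-(2 * Real.pi * u * ξ) : ℝ) : ℂ) * Complex.I) * G ξ -
        Complex.exp (((-(2 * Real.pi * u * η) : ℝ) : ℂ) * Complex.I) * G η =
        Complex.exp (((-(2 * Real.pi * u * ξ) : ℝ) : ℂ) * Complex.I) * (G ξ - G η) +
        (Complex.exp (((-(2 * Real.pi * u * ξ) : ℝ) : ℂ) * Complex.I) -
        Complex.exp (((-(2 * Real.pi * u * η) : ℝ) : ℂ) * Complex.I)) * G η := by ring
    rw [e]
    refine (norm_add_le _ _).trans ?_
    rw [norm_mul, norm_mul, expI_norm, one_mul, add_mul]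
    apply add_le_add (h.lip ξ η)
    have h1 := expI_lip (-(2 * Real.pi * u * ξ)) (-(2 * Real.pi * u * η))
    have e2 : -(2 * Real.pi * u * ξ) - -(2 * Real.pi * u * η) = -(2 * Real.pi * u * (ξ - η)) := by ring
    rw [e2, abs_neg, abs_mul, abs_mul, abs_of_pos (by positivity : 0 < 2 * Real.pi)] at h1
    calc _ ≤ (2 * Real.pi * |u| * |ξ - η|) * M := mul_le_mul h1 (h.bd η) (norm_nonneg _) (by positivity)
      _ = _ := by ring
  · unfold Sh
    rw [h.supp ξ hξ, mul_zero]

lemma Sh_norm (u : ℝ) (G : ℝ → ℂ) (ξ : ℝ) : ‖Sh u G ξ‖ = ‖G ξ‖ := by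
  unfold Sh
  rw [norm_mul, expI_norm, one_mul]

lemma Vr_Sh (u : ℝ) (G : ℝ → ℂ) : Vr (Sh u G) = Vr G := by
  unfold Vr
  simp only [Sh_norm]

lemma Vr_nonneg (G : ℝ → ℂ) : 0 ≤ Vr G := by
  unfold Vr
  apply mul_nonneg (by norm_num)
  apply intervalIntegral.integral_nonneg zero_le_one
  intro ξ hξ
  have := hξ.1
  positivity

lemma Sh_zero (G : ℝ → ℂ) : Sh 0 G = G := by
  funext ξ
  unfold Sh
  simp

/-- bands are bounded and Lipschitz -/
lemma Gp_Bd {a b : ℝ} (ha : 0 < a) (hab : a ≤ b) : ∃ Λ : ℝ, Bd (1 / a) b Λ (Gp a b) := by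
  obtain ⟨C, hC0, hC⟩ := chiL
  have hb : 0 < b := by linarith
  have hpi := Real.pi_pos
  have hpi3 := Real.pi_gt_three
  have hr : 0 < 1 / (2 * b) := by positivity
  have e0 : ∀ ξ : ℝ, dc a b ξ / (2 * Real.pi * ξ) = 1 / (2 * Real.pi) * (dc a b ξ / ξ) := by
    intro ξ
    rw [div_mul_div_comm, one_mul]
  refine ⟨1 / (2 * Real.pi) * (C * (a + b) / (1 / (2 * b)) + 1 / (1 / (2 * b)) ^ 2), ⟨fun ξ => ?_,
    fun ξ η => ?_, fun ξ hξ => ?_⟩⟩
  · unfold Gp
    rw [norm_mul, norm_neg, Complex.norm_I, one_mul, Complex.norm_real, Real.norm_eq_abs]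
    rcases le_or_gt |ξ| (1 / (2 * b)) with h | h
    · rw [dc_low ha hab h, zero_div, abs_zero]
      exact hb.le
    · rw [abs_div, abs_mul, abs_of_pos (by positivity : 0 < 2 * Real.pi)]
      have hξ : 0 < |ξ| := by linarith
      rw [div_le_iff₀ (by positivity)]
      have h1 := dc_bd a b ξ
      have h2 : 1 ≤ b * (2 * Real.pi * |ξ|) := by
        have : b * (2 * Real.pi * (1 / (2 * b))) ≤ b * (2 * Real.pi * |ξ|) := by gcongr
        have e : b * (2 * Real.pi * (1 / (2 * b))) = Real.pi := by field_simp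
        rw [e] at this
        linarith
      linarith
  · unfold Gp
    rw [← mul_sub, norm_mul, norm_neg, Complex.norm_I, one_mul, ← Complex.ofReal_sub, Complex.norm_real,
      Real.norm_eq_abs, e0, e0, ← mul_sub, abs_mul, abs_of_pos (by positivity : 0 < 1 / (2 * Real.pi)), mul_assoc]
    apply mul_le_mul_of_nonneg_left _ (by positivity)
    exact lip_div hr (dc_lip hC ha hab) (dc_bd a b) (fun x hx => dc_low ha hab hx.le) ξ η
  · unfold Gp
    rw [dc_high ha hab hξ, zero_div, Complex.ofReal_zero, mul_zero]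

lemma Gp_cont {a b : ℝ} (ha : 0 < a) (hab : a ≤ b) : Continuous (Gp a b) := by
  obtain ⟨Λ, h⟩ := Gp_Bd ha hab
  exact h.cont

lemma Gp_add (a b c ξ : ℝ) : Gp a c ξ = Gp a b ξ + Gp b c ξ := by
  unfold Gp dc
  rw [← mul_add, ← Complex.ofReal_add, ← add_div]
  congr 4
  ring

/-! ### covariances -/

/-- the covariance -/
def Cv (G H : ℝ → ℂ) : ℝ := 2 * ∫ ξ in (0 : ℝ)..1, ξ * (G ξ * (starRingEnd ℂ) (H ξ)).re

lemma Vr_comb {G H : ℝ → ℂ} (hG : Continuous G) (hH : Continuous H) (c d : ℝ) :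
    Vr (fun ξ => (c : ℂ) * G ξ + (d : ℂ) * H ξ) = c ^ 2 * Vr G + 2 * c * d * Cv G H + d ^ 2 * Vr H := by
  unfold Vr Cv
  have i1 : IntervalIntegrable (fun ξ : ℝ => ξ * ‖G ξ‖ ^ 2) volume 0 1 :=
    Continuous.intervalIntegrable (by fun_prop) _ _
  have i2 : IntervalIntegrable (fun ξ : ℝ => ξ * ‖H ξ‖ ^ 2) volume 0 1 :=
    Continuous.intervalIntegrable (by fun_prop) _ _
  have hst : Continuous fun ξ => (starRingEnd ℂ) (H ξ) := Complex.continuous_conj.comp hH
  have i3 : IntervalIntegrable (fun ξ : ℝ => ξ * (G ξ * (starRingEnd ℂ) (H ξ)).re) volume 0 1 := by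
    apply Continuous.intervalIntegrable
    exact continuous_id.mul (Complex.continuous_re.comp (hG.mul hst))
  have e : ∀ ξ : ℝ, ξ * ‖(c : ℂ) * G ξ + (d : ℂ) * H ξ‖ ^ 2 =
      c ^ 2 * (ξ * ‖G ξ‖ ^ 2) + 2 * c * d * (ξ * (G ξ * (starRingEnd ℂ) (H ξ)).re) + d ^ 2 * (ξ * ‖H ξ‖ ^ 2) := by
    intro ξ
    rw [← Complex.normSq_eq_norm_sq, ← Complex.normSq_eq_norm_sq, ← Complex.normSq_eq_norm_sq,
      Complex.normSq_add, Complex.normSq_mul, Complex.normSq_mul, Complex.normSq_ofReal, Complex.normSq_ofReal]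
    rw [map_mul, Complex.conj_ofReal]
    have : ((c : ℂ) * G ξ * ((d : ℂ) * (starRingEnd ℂ) (H ξ))).re = c * d * (G ξ * (starRingEnd ℂ) (H ξ)).re := by
      rw [show (c : ℂ) * G ξ * ((d : ℂ) * (starRingEnd ℂ) (H ξ)) =
        ((c * d : ℝ) : ℂ) * (G ξ * (starRingEnd ℂ) (H ξ)) by push_cast; ring, Complex.re_ofReal_mul]
    rw [this]
    ring
  simp only [e]
  rw [intervalIntegral.integral_add ((i1.const_mul _).add (i3.const_mul _)) (i2.const_mul _),
    intervalIntegral.integral_add (i1.const_mul _) (i3.const_mul _), intervalIntegral.integral_const_mul,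
    intervalIntegral.integral_const_mul, intervalIntegral.integral_const_mul]
  ring

/-- the covariance of bands -/
lemma Cv_Gp (a b c d u v : ℝ) : Cv (Sh u (Gp a b)) (Sh v (Gp c d)) =
    1 / (2 * Real.pi ^ 2) * ∫ ξ in (0 : ℝ)..1, dc a b ξ * dc c d ξ / ξ * Real.cos (2 * Real.pi * (u - v) * ξ) := by
  unfold Cv
  rw [← intervalIntegral.integral_const_mul, ← intervalIntegral.integral_const_mul]
  refine intervalIntegral.integral_congr fun ξ _ => ?_
  have hpi := Real.pi_pos
  have e1 : Sh u (Gp a b) ξ * (starRingEnd ℂ) (Sh v (Gp c d) ξ) =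
      ((dc a b ξ / (2 * Real.pi * ξ) * (dc c d ξ / (2 * Real.pi * ξ)) : ℝ) : ℂ) *
        Complex.exp (((-(2 * Real.pi * (u - v) * ξ) : ℝ) : ℂ) * Complex.I) := by
    unfold Sh Gp
    rw [map_mul, map_mul, map_neg, Complex.conj_I, Complex.conj_ofReal, ← Complex.exp_conj, map_mul,
      Complex.conj_ofReal, Complex.conj_I]
    have e2 : Complex.exp (((-(2 * Real.pi * (u - v) * ξ) : ℝ) : ℂ) * Complex.I) =
        Complex.exp (((-(2 * Real.pi * u * ξ) : ℝ) : ℂ) * Complex.I) *
        Complex.exp (((-(2 * Real.pi * v * ξ) : ℝ) : ℂ) * -Complex.I) := by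
      rw [← Complex.exp_add]
      congr 1
      push_cast
      ring
    rw [e2]
    push_cast
    ring_nf
    rw [Complex.I_sq]
    ring
  rw [e1, Complex.re_ofReal_mul, Complex.exp_ofReal_mul_I_re, Real.cos_neg]
  rcases eq_or_ne ξ 0 with h | h
  · rw [h]
    simp
  · field_simp

lemma Vr_Gp (a b : ℝ) : Vr (Gp a b) = 1 / (2 * Real.pi ^ 2) * ∫ ξ in (0 : ℝ)..1, dc a b ξ * dc a b ξ / ξ := by
  have h1 : Vr (Gp a b) = Cv (Gp a b) (Gp a b) := by
    unfold Vr Cv
    congr 1
    refine intervalIntegral.integral_congr fun ξ _ => ?_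
    rw [Complex.mul_conj, Complex.ofReal_re, Complex.normSq_eq_norm_sq]
  have h2 := Cv_Gp a b a b 0 0
  rw [Sh_zero] at h2
  rw [h1, h2]
  congr 1
  refine intervalIntegral.integral_congr fun ξ _ => ?_
  simp

lemma dd_cont {a b c d : ℝ} (ha : 0 < a) (hab : a ≤ b) (hc : 0 < c) (hcd : c ≤ d) :
    Continuous fun ξ => dc a b ξ * dc c d ξ / ξ := by
  obtain ⟨C, hC0, hC⟩ := chiL
  have hb : 0 < b := by linarith
  have hd : 0 < d := by linarith
  have h1 := lip_div (g := fun ξ => dc a b ξ * dc c d ξ) (L := C * (a + b) + C * (c + d)) (r := 1 / (2 * b))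
    (by positivity) (fun x y => by
      have e : dc a b x * dc c d x - dc a b y * dc c d y =
          (dc a b x - dc a b y) * dc c d x + dc a b y * (dc c d x - dc c d y) := by ring
      rw [e]
      refine (abs_add_le _ _).trans ?_
      rw [abs_mul, abs_mul, add_mul]
      have a1 := dc_lip hC ha hab x y
      have a2 := dc_lip hC hc hcd x y
      apply add_le_add
      · exact (mul_le_mul a1 (dc_bd c d x) (abs_nonneg _) (by positivity)).trans (le_of_eq (mul_one _))
      · exact (mul_le_mul (dc_bd a b y) a2 (abs_nonneg _) zero_le_one).trans (le_of_eq (one_mul _)))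
    (fun x => by
      rw [abs_mul]
      exact mul_le_one₀ (dc_bd a b x) (abs_nonneg _) (dc_bd c d x))
    (fun x hx => by
      rw [dc_low ha hab hx.le, zero_mul])
  have : LipschitzWith (⟨(C * (a + b) + C * (c + d)) / (1 / (2 * b)) + 1 / (1 / (2 * b)) ^ 2,
      by positivity⟩ : ℝ≥0) (fun ξ => dc a b ξ * dc c d ξ / ξ) := by
    refine LipschitzWith.of_dist_le_mul fun x y => ?_
    rw [Real.dist_eq, Real.dist_eq]
    exact h1 x y
  exact this.continuous

/-- upper bound for integrals over a band -/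
lemma band_up {F : ℝ → ℝ} {a b : ℝ} (ha : 1 ≤ a) (hab : a ≤ 2 * b) (hF : Continuous F)
    (h : ∀ ξ, 0 < ξ → F ξ ≤ 1 / ξ) (h0 : ∀ ξ, 0 ≤ ξ → ξ ≤ 1 / (2 * b) → F ξ = 0)
    (h1 : ∀ ξ, 1 / a ≤ ξ → F ξ = 0) : ∫ ξ in (0 : ℝ)..1, F ξ ≤ Real.log (2 * b / a) := by
  have hb : 0 < b := by linarith
  have c1 : 0 < 1 / (2 * b) := by positivity
  have c2 : 1 / (2 * b) ≤ 1 / a := one_div_le_one_div_of_le (by linarith) hab
  have c3 : 1 / a ≤ 1 := by
    rw [div_le_one (by linarith)]
    exact ha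
  have i : ∀ x y, IntervalIntegrable F volume x y := fun x y => hF.intervalIntegrable x y
  rw [← intervalIntegral.integral_add_adjacent_intervals (i 0 (1 / (2 * b))) (i (1 / (2 * b)) 1),
    ← intervalIntegral.integral_add_adjacent_intervals (i (1 / (2 * b)) (1 / a)) (i (1 / a) 1)]
  have e1 : ∫ ξ in (0 : ℝ)..(1 / (2 * b)), F ξ = 0 := by
    rw [intervalIntegral.integral_congr (g := fun _ => (0 : ℝ)), intervalIntegral.integral_zero]
    intro ξ hξ
    rw [uIcc_of_le c1.le] at hξ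
    exact h0 ξ hξ.1 hξ.2
  have e2 : ∫ ξ in (1 / a)..(1 : ℝ), F ξ = 0 := by
    rw [intervalIntegral.integral_congr (g := fun _ => (0 : ℝ)), intervalIntegral.integral_zero]
    intro ξ hξ
    rw [uIcc_of_le c3] at hξ
    exact h1 ξ hξ.1
  rw [e1, e2, zero_add, add_zero]
  have e3 : ∫ ξ in (1 / (2 * b))..(1 / a), (1 : ℝ) / ξ = Real.log (2 * b / a) := by
    rw [integral_one_div_of_pos c1 (by linarith)]
    congr 1
    field_simp
  rw [← e3]
  apply intervalIntegral.integral_mono_on c2 (i _ _)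
  · apply ContinuousOn.intervalIntegrable
    intro ξ hξ
    rw [uIcc_of_le c2] at hξ
    have : ξ ≠ 0 := by linarith [hξ.1]
    exact (continuousAt_const.div continuousAt_id this).continuousWithinAt
  · intro ξ hξ
    exact h ξ (by linarith [hξ.1])

/-- lower bound for integrals over a band -/
lemma band_lo {F : ℝ → ℝ} {a b : ℝ} (ha : 1 ≤ a) (hab : 2 * a ≤ b) (hF : Continuous F)
    (h : ∀ ξ, 0 ≤ ξ → 0 ≤ F ξ) (h0 : ∀ ξ, 1 / b ≤ ξ → ξ ≤ 1 / (2 * a) → F ξ = 1 / ξ) :
    Real.log (b / (2 * a)) ≤ ∫ ξ in (0 : ℝ)..1, F ξ := by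
  have hb : 0 < b := by linarith
  have c1 : 0 < 1 / b := by positivity
  have c2 : 1 / b ≤ 1 / (2 * a) := one_div_le_one_div_of_le (by linarith) hab
  have c3 : 1 / (2 * a) ≤ 1 := by
    rw [div_le_one (by linarith)]
    linarith
  have i : ∀ x y, IntervalIntegrable F volume x y := fun x y => hF.intervalIntegrable x y
  rw [← intervalIntegral.integral_add_adjacent_intervals (i 0 (1 / b)) (i (1 / b) 1),
    ← intervalIntegral.integral_add_adjacent_intervals (i (1 / b) (1 / (2 * a))) (i (1 / (2 * a)) 1)]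
  have e1 : 0 ≤ ∫ ξ in (0 : ℝ)..(1 / b), F ξ :=
    intervalIntegral.integral_nonneg c1.le fun ξ hξ => h ξ hξ.1
  have e2 : 0 ≤ ∫ ξ in (1 / (2 * a))..(1 : ℝ), F ξ :=
    intervalIntegral.integral_nonneg c3 fun ξ hξ => h ξ (by
      have := hξ.1
      have h3 : 0 < 1 / (2 * a) := by positivity
      linarith)
  have e3 : ∫ ξ in (1 / b)..(1 / (2 * a)), F ξ = Real.log (b / (2 * a)) := by
    have : ∫ ξ in (1 / b)..(1 / (2 * a)), F ξ = ∫ ξ in (1 / b)..(1 / (2 * a)), (1 : ℝ) / ξ := by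
      refine intervalIntegral.integral_congr fun ξ hξ => ?_
      rw [uIcc_of_le c2] at hξ
      exact h0 ξ hξ.1 hξ.2
    rw [this, integral_one_div_of_pos c1 (by linarith)]
    congr 1
    field_simp
  rw [e3]
  linarith

/-- the variance of a band, from above -/
lemma Vr_up {a b : ℝ} (ha : 1 ≤ a) (hab : a ≤ b) :
    Vr (Gp a b) ≤ 1 / (2 * Real.pi ^ 2) * (Real.log (b / a) + Real.log 2) := by
  rw [Vr_Gp]
  apply mul_le_mul_of_nonneg_left _ (by positivity)
  have h := band_up ha (by linarith : a ≤ 2 * b) (dd_cont (by linarith) hab (by linarith) hab)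
    (fun ξ hξ => by
      apply div_le_div_of_nonneg_right _ hξ.le
      have := dc_bd a b ξ
      rw [← sq, ← sq_abs]
      exact pow_le_one₀ (abs_nonneg _) this)
    (fun ξ hξ h2 => by
      rw [dc_low (by linarith) hab (by rw [abs_of_nonneg hξ]; exact h2), zero_mul, zero_div])
    (fun ξ hξ => by
      rw [dc_high (by linarith) hab (le_trans hξ (le_abs_self _)), zero_mul, zero_div])
  refine h.trans (le_of_eq ?_)
  have hq1 : 0 < a := by linarith
  have hq2 : 0 < b := by linarith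
  rw [← Real.log_mul (by positivity) (by norm_num)]
  congr 1
  ring

/-- the variance of a band, from below -/
lemma Vr_lo {a b : ℝ} (ha : 1 ≤ a) (hab : 2 * a ≤ b) :
    1 / (2 * Real.pi ^ 2) * (Real.log (b / a) - Real.log 2) ≤ Vr (Gp a b) := by
  rw [Vr_Gp]
  apply mul_le_mul_of_nonneg_left _ (by positivity)
  have h := band_lo ha hab (dd_cont (by linarith) (by linarith : a ≤ b) (by linarith) (by linarith : a ≤ b))
    (fun ξ hξ => by
      apply div_nonneg (mul_self_nonneg _) hξ)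
    (fun ξ hξ h2 => by
      have hb : 0 < b := by linarith
      have hξ0 : 0 < ξ := lt_of_lt_of_le (by positivity) hξ
      have e1 : dc a b ξ = 1 := by
        unfold dc
        rw [chi_one, chi_zero, sub_zero]
        · rw [abs_of_pos (by positivity)]
          calc 1 = b * (1 / b) := by field_simp
            _ ≤ _ := mul_le_mul_of_nonneg_left hξ hb.le
        · rw [abs_of_pos (by positivity)]
          calc a * ξ ≤ a * (1 / (2 * a)) := mul_le_mul_of_nonneg_left h2 (by linarith)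
            _ = 1 / 2 := by field_simp
      rw [e1, one_mul])
  refine le_trans (le_of_eq ?_) h
  have hq1 : 0 < a := by linarith
  have hq2 : 0 < b := by linarith
  rw [← Real.log_div (by positivity) (by norm_num)]
  congr 1
  field_simp

/-- the covariance of nested bands -/
lemma Cv_nest {a c b : ℝ} (ha : 1 ≤ a) (hac : a ≤ c) (hcb : c ≤ b) (u : ℝ) :
    Cv (Sh u (Gp a b)) (Sh u (Gp c b)) ≤ 1 / (2 * Real.pi ^ 2) * (Real.log (b / c) + Real.log 2) := by
  rw [Cv_Gp]
  apply mul_le_mul_of_nonneg_left _ (by positivity)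
  have e0 : ∀ ξ : ℝ, dc a b ξ * dc c b ξ / ξ * Real.cos (2 * Real.pi * (u - u) * ξ) = dc a b ξ * dc c b ξ / ξ := by
    intro ξ
    rw [sub_self, mul_zero, zero_mul, Real.cos_zero, mul_one]
  simp only [e0]
  have h := band_up (F := fun ξ => dc a b ξ * dc c b ξ / ξ) (a := c) (b := b) (by linarith)
    (by linarith) (dd_cont (by linarith) (by linarith) (by linarith) hcb)
    (fun ξ hξ => by
      apply div_le_div_of_nonneg_right _ hξ.le
      refine (le_abs_self _).trans ?_
      rw [abs_mul]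
      exact mul_le_one₀ (dc_bd _ _ _) (abs_nonneg _) (dc_bd _ _ _))
    (fun ξ hξ h2 => by
      rw [dc_low (by linarith : (0 : ℝ) < c) hcb (by rw [abs_of_nonneg hξ]; exact h2), mul_zero, zero_div])
    (fun ξ hξ => by
      rw [dc_high (by linarith : (0 : ℝ) < c) hcb (le_trans hξ (le_abs_self _)), mul_zero, zero_div])
  refine h.trans (le_of_eq ?_)
  have hq1 : 0 < c := by linarith
  have hq2 : 0 < b := by linarith
  rw [← Real.log_mul (by positivity) (by norm_num)]
  congr 1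
  ring

end

end Pool.Agent.K6.H57.MX
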