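import Pool.Agent.K6.H57.MX.Vc

/-! # Oscillating covariances and the low frequencies -/

set_option autoImplicit false

open MeasureTheory Set Filter Topology
open scoped ContDiff NNReal

namespace Pool.Agent.K6.H57.MX

open Pool.Agent.K6.H57.ML

noncomputable section

lemma chi_cc : Cc chi := ⟨chi_sm, chi_hcs⟩

lemma chi_d : ∃ D : ℝ, 0 < D ∧ (∀ x, |deriv chi x| ≤ D) ∧ ∀ x, |x * deriv chi x| ≤ D := by
  obtain ⟨D, hD, h⟩ := chi_cc.deriv.bd
  refine ⟨D, hD, h, fun x => ?_⟩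
  rcases le_or_gt |x| 1 with hx | hx
  · rw [abs_mul]
    calc |x| * |deriv chi x| ≤ 1 * D := mul_le_mul hx (h x) (abs_nonneg _) zero_le_one
      _ = D := one_mul _
  · have : deriv chi x = 0 := by
      have h1 : chi =ᶠ[𝓝 x] fun _ => (0 : ℝ) := by
        have h2 : ∀ᶠ y in 𝓝 x, 1 < |y| := continuous_abs.continuousAt.eventually_const_lt hx
        filter_upwards [h2] with y hy
        exact chi_zero hy.le
      rw [h1.deriv_eq]
      simp
    rw [this, mul_zero, abs_zero]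
    exact hD.le

/-- the derivative of `dc` -/
def dd (a b ξ : ℝ) : ℝ := a * deriv chi (a * ξ) - b * deriv chi (b * ξ)

lemma dc_deriv (a b ξ : ℝ) : HasDerivAt (dc a b) (dd a b ξ) ξ := by
  have h : ∀ a : ℝ, HasDerivAt (fun ξ => chi (a * ξ)) (a * deriv chi (a * ξ)) ξ := by
    intro a
    have h1 : HasDerivAt (fun ξ => a * ξ) a ξ := by simpa using (hasDerivAt_id' ξ).const_mul a
    have h2 : HasDerivAt (fun ξ => chi (a * ξ)) (deriv chi (a * ξ) * a) ξ := (chi_cc.hd (a * ξ)).comp ξ h1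
    rw [mul_comm] at h2
    exact h2
  exact (h a).sub (h b)

lemma dd_bd {D : ℝ} (hD : ∀ x, |x * deriv chi x| ≤ D) (a b ξ : ℝ) : |ξ * dd a b ξ| ≤ 2 * D := by
  unfold dd
  have e : ξ * (a * deriv chi (a * ξ) - b * deriv chi (b * ξ)) =
      a * ξ * deriv chi (a * ξ) - b * ξ * deriv chi (b * ξ) := by ring
  rw [e]
  refine (abs_sub _ _).trans ?_
  linarith [hD (a * ξ), hD (b * ξ)]

lemma dd_cont' (a b : ℝ) : Continuous (dd a b) := by
  have := chi_cc.deriv.cont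
  unfold dd
  fun_prop

lemma dc_cont (a b : ℝ) : Continuous (dc a b) := by
  have := chi_cont
  unfold dc
  fun_prop

lemma inv_sq_int {r : ℝ} (hr : 0 < r) (hr1 : r ≤ 1) : ∫ ξ in r..(1 : ℝ), 1 / ξ ^ 2 ≤ 1 / r := by
  have h : ∫ ξ in r..(1 : ℝ), 1 / ξ ^ 2 = (-(1 : ℝ)⁻¹) - (-r⁻¹) := by
    apply intervalIntegral.integral_eq_sub_of_hasDerivAt (f := fun x : ℝ => -x⁻¹)
    · intro x hx
      rw [uIcc_of_le hr1] at hx
      have hx0 : x ≠ 0 := by linarith [hx.1]
      have := (hasDerivAt_inv hx0).neg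
      refine this.congr_deriv ?_
      rw [neg_neg, one_div]
    · apply ContinuousOn.intervalIntegrable
      intro ξ hξ
      rw [uIcc_of_le hr1] at hξ
      have : ξ ^ 2 ≠ 0 := by
        have : 0 < ξ := by linarith [hξ.1]
        positivity
      exact (continuousAt_const.div (continuousAt_id.pow 2) this).continuousWithinAt
  rw [h, one_div]
  norm_num

/-- **oscillation** -/
theorem osc : ∃ C : ℝ, 0 < C ∧ ∀ a c b h : ℝ, 1 ≤ a → a ≤ c → c ≤ b → 0 < h →
    |∫ ξ in (0 : ℝ)..1, dc a b ξ * dc a c ξ / ξ * Real.cos (2 * Real.pi * h * ξ)| ≤ C * (c / h) := by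
  obtain ⟨D, hD0, -, hD⟩ := chi_d
  refine ⟨4 * D + 1, by positivity, fun a c b h ha hac hcb hh => ?_⟩
  have hpi := Real.pi_pos
  have hpi3 := Real.pi_gt_three
  have ha0 : 0 < a := by linarith
  have hc0 : 0 < c := by linarith
  have hr : 0 < 1 / (2 * c) := by positivity
  have hr1 : 1 / (2 * c) ≤ 1 := by
    rw [div_le_one (by positivity)]
    linarith
  obtain ⟨r, hrr⟩ : ∃ r : ℝ, r = 1 / (2 * c) := ⟨_, rfl⟩
  rw [← hrr] at hr hr1
  have hcont : Continuous fun ξ : ℝ => dc a b ξ * dc a c ξ / ξ * Real.cos (2 * Real.pi * h * ξ) :=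
    (dd_cont (a := a) (b := b) (c := a) (d := c) ha0 (by linarith) ha0 hac).mul
      (show Continuous fun ξ : ℝ => Real.cos (2 * Real.pi * h * ξ) by fun_prop)
  rw [← intervalIntegral.integral_add_adjacent_intervals (hcont.intervalIntegrable 0 r)
    (hcont.intervalIntegrable r 1)]
  have e1 : ∫ ξ in (0 : ℝ)..r, dc a b ξ * dc a c ξ / ξ * Real.cos (2 * Real.pi * h * ξ) = 0 := by
    rw [intervalIntegral.integral_congr (g := fun _ => (0 : ℝ)), intervalIntegral.integral_zero]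
    intro ξ hξ
    rw [uIcc_of_le hr.le] at hξ
    show dc a b ξ * dc a c ξ / ξ * Real.cos (2 * Real.pi * h * ξ) = 0
    rw [dc_low ha0 hac (by rw [abs_of_nonneg hξ.1, ← hrr]; exact hξ.2), mul_zero, zero_div, zero_mul]
  rw [e1, zero_add]
  -- integrate by parts
  obtain ⟨Q', hQ'⟩ : ∃ Q' : ℝ → ℝ, Q' = fun ξ => (dd a b ξ * dc a c ξ + dc a b ξ * dd a c ξ) / ξ -
    dc a b ξ * dc a c ξ / ξ ^ 2 := ⟨_, rfl⟩
  have hd : ∀ ξ ∈ uIcc r 1, HasDerivAt (fun ξ => dc a b ξ * dc a c ξ / ξ) (Q' ξ) ξ := by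
    intro ξ hξ
    rw [uIcc_of_le hr1] at hξ
    have hξ0 : ξ ≠ 0 := by linarith [hξ.1]
    have h1 := ((dc_deriv a b ξ).fun_mul (dc_deriv a c ξ)).fun_div (hasDerivAt_id' ξ) hξ0
    refine h1.congr_deriv ?_
    rw [hQ']
    field_simp
  have hv : ∀ ξ ∈ uIcc r 1, HasDerivAt (fun ξ => Real.sin (2 * Real.pi * h * ξ) / (2 * Real.pi * h))
      (Real.cos (2 * Real.pi * h * ξ)) ξ := by
    intro ξ _
    have h1 : HasDerivAt (fun ξ => 2 * Real.pi * h * ξ) (2 * Real.pi * h) ξ := by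
      simpa using (hasDerivAt_id' ξ).const_mul (2 * Real.pi * h)
    have h2 := (h1.sin).div_const (2 * Real.pi * h)
    refine h2.congr_deriv ?_
    field_simp
  have cQ : ContinuousOn Q' (uIcc r 1) := by
    rw [hQ', uIcc_of_le hr1]
    have c1 := dd_cont' a b
    have c2 := dd_cont' a c
    have c3 := dc_cont a b
    have c4 := dc_cont a c
    intro ξ hξ
    have hξ0 : ξ ≠ 0 := by linarith [hξ.1]
    have hξ1 : ξ ^ 2 ≠ 0 := pow_ne_zero 2 hξ0
    apply ContinuousAt.continuousWithinAt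
    apply ContinuousAt.sub
    · exact (Continuous.continuousAt (by fun_prop)).div continuousAt_id hξ0
    · exact (Continuous.continuousAt (by fun_prop)).div (continuousAt_id.pow 2) hξ1
  have hbp := intervalIntegral.integral_mul_deriv_eq_deriv_mul hd hv cQ.intervalIntegrable
    (Continuous.intervalIntegrable (by fun_prop) _ _)
  rw [hbp]
  have q1 : dc a b 1 * dc a c 1 / 1 = 0 := by
    rw [dc_high ha0 hac (by rw [abs_one, div_le_one ha0]; exact ha), mul_zero, zero_div]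
  have q2 : dc a b r * dc a c r / r = 0 := by
    rw [dc_low ha0 hac (by rw [abs_of_pos hr, hrr]), mul_zero, zero_div]
  rw [q1, q2, zero_mul, zero_mul, sub_zero, zero_sub, abs_neg]
  have hQb : ∀ ξ, r ≤ ξ → |Q' ξ| ≤ (4 * D + 1) * (1 / ξ ^ 2) := by
    intro ξ hξ
    have hξ0 : 0 < ξ := by linarith
    have h1 := dd_bd hD a b ξ
    have h2 := dd_bd hD a c ξ
    have e : Q' ξ = (ξ * dd a b ξ * dc a c ξ + dc a b ξ * (ξ * dd a c ξ) - dc a b ξ * dc a c ξ) * (1 / ξ ^ 2) := by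
      rw [hQ']
      field_simp
    rw [e, abs_mul, abs_of_pos (by positivity : 0 < 1 / ξ ^ 2)]
    apply mul_le_mul_of_nonneg_right _ (by positivity)
    refine (abs_sub _ _).trans ?_
    have h3 := abs_add_le (ξ * dd a b ξ * dc a c ξ) (dc a b ξ * (ξ * dd a c ξ))
    have h4 : |ξ * dd a b ξ * dc a c ξ| ≤ 2 * D := by
      rw [abs_mul]
      calc _ ≤ 2 * D * 1 := mul_le_mul h1 (dc_bd _ _ _) (abs_nonneg _) (by positivity)
        _ = 2 * D := mul_one _
    have h5 : |dc a b ξ * (ξ * dd a c ξ)| ≤ 2 * D := by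
      rw [abs_mul]
      calc _ ≤ 1 * (2 * D) := mul_le_mul (dc_bd _ _ _) h2 (abs_nonneg _) zero_le_one
        _ = 2 * D := one_mul _
    have h6 : |dc a b ξ * dc a c ξ| ≤ 1 := by
      rw [abs_mul]
      exact mul_le_one₀ (dc_bd _ _ _) (abs_nonneg _) (dc_bd _ _ _)
    linarith
  have hI : IntervalIntegrable (fun ξ : ℝ => 1 / ξ ^ 2) volume r 1 := by
    apply ContinuousOn.intervalIntegrable
    intro ξ hξ
    rw [uIcc_of_le hr1] at hξ
    have : ξ ^ 2 ≠ 0 := by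
      have : 0 < ξ := by linarith [hξ.1]
      positivity
    exact (continuousAt_const.div (continuousAt_id.pow 2) this).continuousWithinAt
  calc |∫ ξ in r..1, Q' ξ * (Real.sin (2 * Real.pi * h * ξ) / (2 * Real.pi * h))| ≤
      ∫ ξ in r..1, (4 * D + 1) / (2 * Real.pi * h) * (1 / ξ ^ 2) := by
        rw [← Real.norm_eq_abs]
        apply intervalIntegral.norm_integral_le_of_norm_le hr1 _ (hI.const_mul _)
        refine ae_of_all _ fun ξ hξ => ?_
        rw [Real.norm_eq_abs, abs_mul, abs_div, abs_of_pos (by positivity : 0 < 2 * Real.pi * h)]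
        have h1 := hQb ξ hξ.1.le
        have h2 := Real.abs_sin_le_one (2 * Real.pi * h * ξ)
        calc |Q' ξ| * (|Real.sin (2 * Real.pi * h * ξ)| / (2 * Real.pi * h)) ≤
            ((4 * D + 1) * (1 / ξ ^ 2)) * (1 / (2 * Real.pi * h)) := by gcongr
          _ = _ := by ring
    _ = (4 * D + 1) / (2 * Real.pi * h) * ∫ ξ in r..1, 1 / ξ ^ 2 := intervalIntegral.integral_const_mul _ _
    _ ≤ (4 * D + 1) / (2 * Real.pi * h) * (1 / r) :=
        mul_le_mul_of_nonneg_left (inv_sq_int hr hr1) (by positivity)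
    _ = (4 * D + 1) * (c / h) / Real.pi := by
        rw [hrr]
        field_simp
    _ ≤ (4 * D + 1) * (c / h) := div_le_self (by positivity) (by linarith)

/-- **covariances at a distance** -/
theorem Cv_far : ∃ C : ℝ, 0 < C ∧ ∀ a c b u v : ℝ, 1 ≤ a → a ≤ c → c ≤ b → u ≠ v →
    |Cv (Sh u (Gp a b)) (Sh v (Gp a c))| ≤ C * (c / |u - v|) := by
  obtain ⟨C, hC, h⟩ := osc
  refine ⟨C, hC, fun a c b u v ha hac hcb huv => ?_⟩
  have hpi3 := Real.pi_gt_three
  have h1 := h a c b |u - v| ha hac hcb (abs_pos.2 (sub_ne_zero.2 huv))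
  rw [Cv_Gp, abs_mul, abs_of_pos (by positivity : 0 < 1 / (2 * Real.pi ^ 2))]
  have e : ∫ ξ in (0 : ℝ)..1, dc a b ξ * dc a c ξ / ξ * Real.cos (2 * Real.pi * (u - v) * ξ) =
      ∫ ξ in (0 : ℝ)..1, dc a b ξ * dc a c ξ / ξ * Real.cos (2 * Real.pi * |u - v| * ξ) := by
    rcases le_or_gt 0 (u - v) with hs | hs
    · rw [abs_of_nonneg hs]
    · rw [abs_of_neg hs]
      refine intervalIntegral.integral_congr fun ξ _ => ?_
      show _ = dc a b ξ * dc a c ξ / ξ * Real.cos (2 * Real.pi * -(u - v) * ξ)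
      rw [show 2 * Real.pi * -(u - v) * ξ = -(2 * Real.pi * (u - v) * ξ) by ring, Real.cos_neg]
  rw [e]
  have h2 : 1 / (2 * Real.pi ^ 2) ≤ 1 := by
    rw [div_le_one (by positivity)]
    nlinarith
  calc _ ≤ 1 * |∫ ξ in (0 : ℝ)..1, dc a b ξ * dc a c ξ / ξ * Real.cos (2 * Real.pi * |u - v| * ξ)| :=
        mul_le_mul_of_nonneg_right h2 (abs_nonneg _)
    _ ≤ _ := by rw [one_mul]; exact h1

/-! ### the low frequencies -/

/-- the exponential integral -/
def Ev (v ξ : ℝ) : ℂ := ∫ y in (0 : ℝ)..v, Complex.exp (((-(2 * Real.pi * y * ξ) : ℝ) : ℂ) * Complex.I)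

lemma Ev_bd {v : ℝ} (hv : 0 ≤ v) (ξ : ℝ) : ‖Ev v ξ‖ ≤ v := by
  unfold Ev
  have := intervalIntegral.norm_integral_le_of_norm_le_const (a := 0) (b := v) (C := 1)
    (f := fun y : ℝ => Complex.exp (((-(2 * Real.pi * y * ξ) : ℝ) : ℂ) * Complex.I))
    (fun y _ => (expI_norm _).le)
  rwa [sub_zero, abs_of_nonneg hv, one_mul] at this

lemma Ev_lip {v : ℝ} (hv : 0 ≤ v) (ξ η : ℝ) : ‖Ev v ξ - Ev v η‖ ≤ 2 * Real.pi * v ^ 2 * |ξ - η| := by
  have hpi := Real.pi_pos
  unfold Ev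
  rw [← intervalIntegral.integral_sub (Continuous.intervalIntegrable (by fun_prop) _ _)
    (Continuous.intervalIntegrable (by fun_prop) _ _)]
  have := intervalIntegral.norm_integral_le_of_norm_le_const (a := 0) (b := v) (C := 2 * Real.pi * v * |ξ - η|)
    (f := fun y : ℝ => Complex.exp (((-(2 * Real.pi * y * ξ) : ℝ) : ℂ) * Complex.I) -
      Complex.exp (((-(2 * Real.pi * y * η) : ℝ) : ℂ) * Complex.I))
    (fun y hy => by
      rw [uIoc_of_le hv] at hy
      have h1 := expI_lip (-(2 * Real.pi * y * ξ)) (-(2 * Real.pi * y * η))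
      have e2 : -(2 * Real.pi * y * ξ) - -(2 * Real.pi * y * η) = -(2 * Real.pi * y * (ξ - η)) := by ring
      rw [e2, abs_neg, abs_mul, abs_of_pos (by have := hy.1; positivity : 0 < 2 * Real.pi * y)] at h1
      refine h1.trans ?_
      have := hy.2
      gcongr)
  rw [sub_zero, abs_of_nonneg hv] at this
  refine this.trans (le_of_eq ?_)
  ring

lemma Ev_eq (v : ℝ) {ξ : ℝ} (hξ : ξ ≠ 0) : Ev v ξ =
    -Complex.I * ((1 / (2 * Real.pi * ξ) : ℝ) : ℂ) *
      (1 - Complex.exp (((-(2 * Real.pi * v * ξ) : ℝ) : ℂ) * Complex.I)) := by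
  have hpi := Real.pi_pos
  have hc : (((-(2 * Real.pi * ξ) : ℝ) : ℂ) * Complex.I) ≠ 0 := by
    apply mul_ne_zero _ Complex.I_ne_zero
    have : -(2 * Real.pi * ξ) ≠ 0 := by
      rw [neg_ne_zero]
      positivity
    exact_mod_cast this
  have h1 := integral_exp_mul_complex (a := 0) (b := v) hc
  unfold Ev
  have e1 : (fun y : ℝ => Complex.exp (((-(2 * Real.pi * y * ξ) : ℝ) : ℂ) * Complex.I)) =
      fun y : ℝ => Complex.exp (((-(2 * Real.pi * ξ) : ℝ) : ℂ) * Complex.I * y) := by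
    funext y
    congr 1
    push_cast
    ring
  rw [e1, h1]
  have e2 : ((-(2 * Real.pi * ξ) : ℝ) : ℂ) * Complex.I * (v : ℂ) = ((-(2 * Real.pi * v * ξ) : ℝ) : ℂ) * Complex.I := by
    push_cast
    ring
  rw [e2, Complex.ofReal_zero, mul_zero, Complex.exp_zero, div_eq_iff hc]
  have hξc : (ξ : ℂ) ≠ 0 := by exact_mod_cast hξ
  have hpc : (Real.pi : ℂ) ≠ 0 := by exact_mod_cast hpi.ne'
  push_cast
  field_simp
  ring_nf
  rw [Complex.I_sq]
  ring

lemma Ev_dec (v : ℝ) {ξ : ℝ} (hξ : 0 < ξ) : ‖Ev v ξ‖ ≤ 1 / (Real.pi * ξ) := by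
  have hpi := Real.pi_pos
  rw [Ev_eq v hξ.ne', norm_mul, norm_mul, norm_neg, Complex.norm_I, one_mul, Complex.norm_real,
    Real.norm_of_nonneg (by positivity)]
  have h1 : ‖1 - Complex.exp (((-(2 * Real.pi * v * ξ) : ℝ) : ℂ) * Complex.I)‖ ≤ 2 := by
    refine (norm_sub_le _ _).trans ?_
    rw [expI_norm, norm_one]
    norm_num
  calc 1 / (2 * Real.pi * ξ) * ‖1 - Complex.exp (((-(2 * Real.pi * v * ξ) : ℝ) : ℂ) * Complex.I)‖ ≤
      1 / (2 * Real.pi * ξ) * 2 := mul_le_mul_of_nonneg_left h1 (by positivity)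
    _ = _ := by field_simp

/-- the smoothed window -/
def Gl (a v ξ : ℝ) : ℂ := ((chi (a * ξ) : ℝ) : ℂ) * Ev v ξ

lemma Gl_Bd {a v : ℝ} (ha : 0 < a) (hv : 0 ≤ v) : ∃ Λ : ℝ, Bd (1 / a) v Λ (Gl a v) := by
  obtain ⟨C, hC0, hC⟩ := chiL
  have hpi := Real.pi_pos
  refine ⟨C * a * v + 2 * Real.pi * v ^ 2, ⟨fun ξ => ?_, fun ξ η => ?_, fun ξ hξ => ?_⟩⟩
  · unfold Gl
    rw [norm_mul, Complex.norm_real, Real.norm_of_nonneg (chi_nonneg _)]
    calc _ ≤ 1 * v := mul_le_mul (chi_le _) (Ev_bd hv ξ) (norm_nonneg _) zero_le_one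
      _ = v := one_mul _
  · unfold Gl
    have e : ((chi (a * ξ) : ℝ) : ℂ) * Ev v ξ - ((chi (a * η) : ℝ) : ℂ) * Ev v η =
        ((chi (a * ξ) - chi (a * η) : ℝ) : ℂ) * Ev v ξ + ((chi (a * η) : ℝ) : ℂ) * (Ev v ξ - Ev v η) := by
      push_cast
      ring
    rw [e]
    refine (norm_add_le _ _).trans ?_
    rw [norm_mul, norm_mul, Complex.norm_real, Complex.norm_real, Real.norm_eq_abs,
      Real.norm_of_nonneg (chi_nonneg _), add_mul]
    apply add_le_add
    · have h1 := hC (a * ξ) (a * η)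
      rw [← mul_sub, abs_mul, abs_of_pos ha] at h1
      calc _ ≤ C * (a * |ξ - η|) * v := mul_le_mul h1 (Ev_bd hv ξ) (norm_nonneg _) (by positivity)
        _ = _ := by ring
    · calc _ ≤ 1 * (2 * Real.pi * v ^ 2 * |ξ - η|) :=
            mul_le_mul (chi_le _) (Ev_lip hv ξ η) (norm_nonneg _) zero_le_one
        _ = _ := one_mul _
  · unfold Gl
    rw [chi_zero, Complex.ofReal_zero, zero_mul]
    rw [abs_mul, abs_of_pos ha]
    calc 1 = a * (1 / a) := by field_simp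
      _ ≤ _ := mul_le_mul_of_nonneg_left hξ ha.le

/-- **decomposition into bands** -/
lemma Gl_split {a b : ℝ} (ha : 0 < a) (hab : a ≤ b) (v ξ : ℝ) :
    Gl a v ξ = (Gp a b ξ - Sh v (Gp a b) ξ) + Gl b v ξ := by
  have e1 : (dc a b ξ : ℂ) * Ev v ξ = Gp a b ξ - Sh v (Gp a b) ξ := by
    rcases eq_or_ne ξ 0 with h | h
    · rw [h]
      have : dc a b 0 = 0 := dc_low ha hab (by
        rw [abs_zero]
        have hb : 0 < b := by linarith
        positivity)
      unfold Sh Gp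
      rw [this]
      simp
    · rw [Ev_eq v h]
      unfold Sh Gp
      have : ((dc a b ξ / (2 * Real.pi * ξ) : ℝ) : ℂ) = (dc a b ξ : ℂ) * ((1 / (2 * Real.pi * ξ) : ℝ) : ℂ) := by
        push_cast
        ring
      rw [this]
      ring
  rw [← e1]
  unfold Gl dc
  push_cast
  ring

/-- the variance of the low frequencies -/
lemma Vr_Gl {b m v : ℝ} (hb : 1 ≤ b) (hbm : b ≤ m) (hv : 0 ≤ v) (hvm : v ≤ m) :
    Vr (Gl b v) ≤ 1 + Real.log (m / b) := by
  have hpi3 := Real.pi_gt_three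
  have hm : 0 < m := by linarith
  have hb0 : 0 < b := by linarith
  obtain ⟨Λ, hB⟩ := Gl_Bd (a := b) hb0 hv
  have hc := hB.cont
  have hF : Continuous fun ξ : ℝ => ξ * ‖Gl b v ξ‖ ^ 2 := by fun_prop
  have i : ∀ x y, IntervalIntegrable (fun ξ : ℝ => ξ * ‖Gl b v ξ‖ ^ 2) volume x y :=
    fun x y => hF.intervalIntegrable x y
  have c1 : 0 < 1 / m := by positivity
  have c2 : 1 / m ≤ 1 / b := one_div_le_one_div_of_le hb0 hbm
  have c3 : 1 / b ≤ 1 := by
    rw [div_le_one hb0]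
    exact hb
  have hn : ∀ ξ, ‖Gl b v ξ‖ ≤ ‖Ev v ξ‖ := by
    intro ξ
    unfold Gl
    rw [norm_mul, Complex.norm_real, Real.norm_of_nonneg (chi_nonneg _)]
    exact mul_le_of_le_one_left (norm_nonneg _) (chi_le _)
  unfold Vr
  rw [← intervalIntegral.integral_add_adjacent_intervals (i 0 (1 / m)) (i (1 / m) 1),
    ← intervalIntegral.integral_add_adjacent_intervals (i (1 / m) (1 / b)) (i (1 / b) 1)]
  have e2 : ∫ ξ in (1 / b)..(1 : ℝ), ξ * ‖Gl b v ξ‖ ^ 2 = 0 := by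
    rw [intervalIntegral.integral_congr (g := fun _ => (0 : ℝ)), intervalIntegral.integral_zero]
    intro ξ hξ
    rw [uIcc_of_le c3] at hξ
    show ξ * ‖Gl b v ξ‖ ^ 2 = 0
    rw [hB.supp ξ (by
      have h1 : 0 < 1 / b := by positivity
      rw [abs_of_pos (by linarith [hξ.1])]
      exact hξ.1), norm_zero]
    ring
  have e1 : ∫ ξ in (0 : ℝ)..(1 / m), ξ * ‖Gl b v ξ‖ ^ 2 ≤ 1 / 2 := by
    have h1 : ∫ ξ in (0 : ℝ)..(1 / m), ξ * ‖Gl b v ξ‖ ^ 2 ≤ ∫ ξ in (0 : ℝ)..(1 / m), m ^ 2 * ξ := by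
      apply intervalIntegral.integral_mono_on c1.le (i _ _) (Continuous.intervalIntegrable (by fun_prop) _ _)
      intro ξ hξ
      have h2 : ‖Gl b v ξ‖ ≤ m := ((hn ξ).trans (Ev_bd hv ξ)).trans hvm
      have h3 := hξ.1
      calc ξ * ‖Gl b v ξ‖ ^ 2 ≤ ξ * m ^ 2 := by gcongr
        _ = _ := by ring
    refine h1.trans (le_of_eq ?_)
    rw [intervalIntegral.integral_const_mul, integral_id]
    field_simp
    ring
  have e3 : ∫ ξ in (1 / m)..(1 / b), ξ * ‖Gl b v ξ‖ ^ 2 ≤ 1 / 9 * Real.log (m / b) := by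
    have h0 : ∫ ξ in (1 / m)..(1 / b), (1 : ℝ) / ξ = Real.log (m / b) := by
      rw [integral_one_div_of_pos c1 (by positivity)]
      congr 1
      field_simp
    rw [← h0, ← intervalIntegral.integral_const_mul]
    apply intervalIntegral.integral_mono_on c2 (i _ _)
    · apply IntervalIntegrable.const_mul
      apply ContinuousOn.intervalIntegrable
      intro ξ hξ
      rw [uIcc_of_le c2] at hξ
      have : ξ ≠ 0 := by linarith [hξ.1]
      exact (continuousAt_const.div continuousAt_id this).continuousWithinAt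
    · intro ξ hξ
      have hξ0 : 0 < ξ := by linarith [hξ.1]
      have h2 : ‖Gl b v ξ‖ ≤ 1 / (Real.pi * ξ) := (hn ξ).trans (Ev_dec v hξ0)
      have h3 : 1 / (Real.pi * ξ) ≤ 1 / (3 * ξ) := by
        apply one_div_le_one_div_of_le (by positivity)
        gcongr
      calc ξ * ‖Gl b v ξ‖ ^ 2 ≤ ξ * (1 / (3 * ξ)) ^ 2 := by
            gcongr
            exact h2.trans h3
        _ = 1 / 9 * (1 / ξ) := by
            field_simp
            norm_num
  have hlog : 0 ≤ Real.log (m / b) := Real.log_nonneg (by rw [le_div_iff₀ hb0]; linarith)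
  rw [e2]
  linarith

end

end Pool.Agent.K6.H57.MX
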